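import Pool.Agent.H81.FF.Asm2

/-! # FF-D25 Final: Bombieri-Vinogradov  (MP_a1f59e_nt, project FF, block D)

`B = (20 + 3 C2 + |A| + ...) / (log q * 9/10)` such that `q^(9/10 B log M)` beats all powers of `M`, `A' = |A| + 2 C2 + 2 +
11/10 * B * log q + 3`, `good` for `A', B` and `M0` large gives `M`. Then `class_error` (for `PR F 0 w ∪ D`, all degrees
`< M`), `swap_sum`, `mertens`, `small_range` for `m ≤ B log M` and `large_range` for `m > B log M`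
(`m ≤ M/4 + K ≤ 27M/100` for `M` large). Total
`≤ e^(2 C2) M^(2 C2) (M q^M (q^(11/10 B log M) / M^A' ) + M e² M² 5 M^7 (q^M q^(-9/10 B log M) + q^(9M/10)) + ...) ≤ q^M / M^A`.
-/

set_option autoImplicit false

namespace Pool.Agent.H81.FF

open Polynomial Finset Pool.Agent.H10.FF
open scoped Classical

theorem fin_num {X P U V C2 A A' b1 b2 L E0 : ℝ} (hX : 1 ≤ X) (hP : 0 ≤ P) (hE0 : 0 ≤ E0)
    (hU : U ≤ P * Real.exp (-(L / 2) * X)) (hV : V ≤ P * Real.exp (-(L / 10) * X))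
    (hA' : A + 2 * C2 + 2 + b1 ≤ A') (hb2 : A + 2 * C2 + 11 ≤ b2)
    (hG : E0 * (X ^ (-1 : ℝ) + 2 * (X ^ (A + 2 * C2 + 1 + b1) * Real.exp (-(L / 2) * X)) +
      4 * Real.exp 2 * (X ^ (-1 : ℝ) + X ^ (A + 2 * C2 + 10) * Real.exp (-(L / 10) * X))) ≤ 1) :
    E0 * X ^ (2 * C2) * (X * (X ^ b1 * (P / X ^ A' + 2 * U) +
      Real.exp 2 * X ^ 2 * (4 * X ^ 7 * (P * X ^ (-b2) + V)))) ≤ P / X ^ A := by
  have hX0 : 0 < X := by linarith
  set Y := X ^ (-A) with hY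
  have hY0 : 0 < Y := Real.rpow_pos_of_pos hX0 _
  have e1 : X ^ (2 * C2) * X * X ^ b1 * X ^ (-A') ≤ Y * X ^ (-1 : ℝ) := by
    rw [hY, ← Real.rpow_add hX0]
    calc X ^ (2 * C2) * X * X ^ b1 * X ^ (-A')
        = X ^ (2 * C2) * X ^ (1 : ℝ) * X ^ b1 * X ^ (-A') := by rw [Real.rpow_one]
      _ = X ^ (2 * C2 + 1 + b1 + -A') := by
          rw [← Real.rpow_add hX0, ← Real.rpow_add hX0, ← Real.rpow_add hX0]
      _ ≤ X ^ (-A + -1) := Real.rpow_le_rpow_of_exponent_le hX (by linarith)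
  have e2 : X ^ (2 * C2) * X * X ^ b1 = Y * X ^ (A + 2 * C2 + 1 + b1) := by
    rw [hY, ← Real.rpow_add hX0]
    calc X ^ (2 * C2) * X * X ^ b1 = X ^ (2 * C2) * X ^ (1 : ℝ) * X ^ b1 := by rw [Real.rpow_one]
      _ = X ^ (2 * C2 + 1 + b1) := by rw [← Real.rpow_add hX0, ← Real.rpow_add hX0]
      _ = _ := by congr 1; ring
  have e3' : X ^ (2 * C2) * X * X ^ 2 * X ^ 7 = X ^ (2 * C2 + 10) := by
    calc X ^ (2 * C2) * X * X ^ 2 * X ^ 7
        = X ^ (2 * C2) * X ^ (10 : ℕ) := by ring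
      _ = X ^ (2 * C2) * X ^ (10 : ℝ) := by
          rw [← Real.rpow_natCast X 10]
          norm_num
      _ = _ := by rw [← Real.rpow_add hX0]
  have e3 : X ^ (2 * C2) * X * X ^ 2 * X ^ 7 * X ^ (-b2) ≤ Y * X ^ (-1 : ℝ) := by
    rw [e3', hY, ← Real.rpow_add hX0, ← Real.rpow_add hX0]
    exact Real.rpow_le_rpow_of_exponent_le hX (by linarith)
  have e4 : X ^ (2 * C2) * X * X ^ 2 * X ^ 7 = Y * X ^ (A + 2 * C2 + 10) := by
    rw [e3', hY, ← Real.rpow_add hX0]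
    congr 1
    ring
  have hdiv : P / X ^ A' = P * X ^ (-A') := by rw [Real.rpow_neg hX0.le, div_eq_mul_inv]
  have hdiv' : P / X ^ A = P * Y := by rw [hY, Real.rpow_neg hX0.le, div_eq_mul_inv]
  have hexp2 : 0 < Real.exp 2 := Real.exp_pos 2
  rw [hdiv, hdiv']
  have f1 : P * (X ^ (2 * C2) * X * X ^ b1 * X ^ (-A')) ≤ P * (Y * X ^ (-1 : ℝ)) :=
    mul_le_mul_of_nonneg_left e1 hP
  have f2 : 2 * (U * (X ^ (2 * C2) * X * X ^ b1)) ≤
      2 * ((P * Real.exp (-(L / 2) * X)) * (Y * X ^ (A + 2 * C2 + 1 + b1))) := by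
    rw [e2]
    exact mul_le_mul_of_nonneg_left (mul_le_mul_of_nonneg_right hU
      (mul_nonneg hY0.le (Real.rpow_nonneg hX0.le _))) (by norm_num)
  have f3 : P * (X ^ (2 * C2) * X * X ^ 2 * X ^ 7 * X ^ (-b2)) ≤ P * (Y * X ^ (-1 : ℝ)) :=
    mul_le_mul_of_nonneg_left e3 hP
  have f4 : V * (X ^ (2 * C2) * X * X ^ 2 * X ^ 7) ≤
      (P * Real.exp (-(L / 10) * X)) * (Y * X ^ (A + 2 * C2 + 10)) := by
    rw [e4]
    exact mul_le_mul_of_nonneg_right hV (mul_nonneg hY0.le (Real.rpow_nonneg hX0.le _))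
  calc E0 * X ^ (2 * C2) * (X * (X ^ b1 * (P * X ^ (-A') + 2 * U) +
      Real.exp 2 * X ^ 2 * (4 * X ^ 7 * (P * X ^ (-b2) + V))))
      = E0 * (P * (X ^ (2 * C2) * X * X ^ b1 * X ^ (-A')) + 2 * (U * (X ^ (2 * C2) * X * X ^ b1)) +
        4 * Real.exp 2 * (P * (X ^ (2 * C2) * X * X ^ 2 * X ^ 7 * X ^ (-b2)) +
          V * (X ^ (2 * C2) * X * X ^ 2 * X ^ 7))) := by ring
    _ ≤ E0 * (P * (Y * X ^ (-1 : ℝ)) +
        2 * ((P * Real.exp (-(L / 2) * X)) * (Y * X ^ (A + 2 * C2 + 1 + b1))) +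
        4 * Real.exp 2 * (P * (Y * X ^ (-1 : ℝ)) +
          (P * Real.exp (-(L / 10) * X)) * (Y * X ^ (A + 2 * C2 + 10)))) := by
        gcongr
    _ = (P * Y) * (E0 * (X ^ (-1 : ℝ) + 2 * (X ^ (A + 2 * C2 + 1 + b1) * Real.exp (-(L / 2) * X)) +
      4 * Real.exp 2 * (X ^ (-1 : ℝ) + X ^ (A + 2 * C2 + 10) * Real.exp (-(L / 10) * X)))) := by ring
    _ ≤ (P * Y) * 1 := mul_le_mul_of_nonneg_left hG (mul_nonneg hP hY0.le)
    _ = P * Y := mul_one _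

theorem fin_tendsto (E0 s1 s2 L : ℝ) (hL : 0 < L) : ∃ N : ℕ, ∀ M : ℕ, N ≤ M →
    E0 * ((M : ℝ) ^ (-1 : ℝ) + 2 * ((M : ℝ) ^ s1 * Real.exp (-(L / 2) * M)) +
      4 * Real.exp 2 * ((M : ℝ) ^ (-1 : ℝ) + (M : ℝ) ^ s2 * Real.exp (-(L / 10) * M))) ≤ 1 := by
  have h1 : Filter.Tendsto (fun x : ℝ => x ^ (-1 : ℝ)) Filter.atTop (nhds 0) :=
    tendsto_rpow_neg_atTop (by norm_num)
  have h2 : Filter.Tendsto (fun x : ℝ => x ^ s1 * Real.exp (-(L / 2) * x)) Filter.atTop (nhds 0) :=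
    tendsto_rpow_mul_exp_neg_mul_atTop_nhds_zero s1 (L / 2) (by positivity)
  have h3 : Filter.Tendsto (fun x : ℝ => x ^ s2 * Real.exp (-(L / 10) * x)) Filter.atTop (nhds 0) :=
    tendsto_rpow_mul_exp_neg_mul_atTop_nhds_zero s2 (L / 10) (by positivity)
  have h4 : Filter.Tendsto (fun x : ℝ => E0 * (x ^ (-1 : ℝ) + 2 * (x ^ s1 * Real.exp (-(L / 2) * x)) +
      4 * Real.exp 2 * (x ^ (-1 : ℝ) + x ^ s2 * Real.exp (-(L / 10) * x)))) Filter.atTop
      (nhds (E0 * (0 + 2 * 0 + 4 * Real.exp 2 * (0 + 0)))) :=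
    ((h1.add (h2.const_mul 2)).add ((h1.add h3).const_mul (4 * Real.exp 2))).const_mul E0
  have h5 := (h4.comp (tendsto_natCast_atTop_atTop (R := ℝ))).eventually (ge_mem_nhds
    (show E0 * (0 + 2 * 0 + 4 * Real.exp 2 * (0 + 0)) < 1 by norm_num))
  obtain ⟨N, hN⟩ := Filter.eventually_atTop.1 h5
  exact ⟨N, fun M hM => hN M hM⟩

theorem fin_mem {F : Type} [Field F] [Fintype F] {w M : ℕ} {D : Finset F[X]}
    (hwM : w < M) (hD : D ∈ (PR F w M).powerset.filter (fun D => 4 * dg D ≤ M)) :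
    ∀ P ∈ PR F 0 w ∪ D, P ∈ PR F 0 M ∧ P.natDegree < M := by
  rw [mem_filter, mem_powerset] at hD
  intro P hP
  rcases mem_union.1 hP with h | h
  · have h1 := mem_PR.1 h
    exact ⟨mem_PR.2 ⟨h1.1, h1.2.1, h1.2.2.1, by omega⟩, by omega⟩
  · have h1 := mem_PR.1 (hD.1 h)
    have h2 : P.natDegree ≤ dg D := Finset.single_le_sum (f := fun P : F[X] => P.natDegree)
      (fun _ _ => Nat.zero_le _) h
    have h3 := hD.2
    exact ⟨mem_PR.2 ⟨h1.1, h1.2.1, by omega, h1.2.2.2⟩, by omega⟩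

theorem bv_main (F : Type) [Field F] [Fintype F] (C2 A : ℝ) (w M0 : ℕ) (hC2 : 1 ≤ C2)
    (hw : C2 ^ 10 ≤ (Fintype.card F : ℝ) ^ w) :
    ∃ M : ℕ, M0 ≤ M ∧ ∀ c : Finset F[X] → F[X] → F[X],
      (∀ D, ∀ P ∈ PR F 0 M, ¬ P ∣ c D P) →
      ∑ D ∈ (PR F w M).powerset.filter (fun D => 4 * dg D ≤ M),
        C2 ^ D.card * |((((irrs F M).filter
            (fun n => ∀ P ∈ PR F 0 w ∪ D, P ∣ n - c D P)).card : ℕ) : ℝ)
          - ((irrs F M).card : ℝ) / phi (PR F 0 w ∪ D)|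
        ≤ (Fintype.card F : ℝ) ^ M / (M : ℝ) ^ A := by
  have hq1 : 1 < Fintype.card F := one_lt_card
  set q : ℝ := (Fintype.card F : ℝ) with hq
  have hq1' : (1 : ℝ) < q := by rw [hq]; exact_mod_cast hq1
  have hq0 : 0 < q := by linarith
  set L := Real.log q with hL
  have hL0 : 0 < L := Real.log_pos hq1'
  set B : ℝ := 1 + (|A| + 2 * C2 + 11) * (10 / 9) / L with hB
  have hAabs : 0 ≤ |A| := abs_nonneg A
  have hAle : A ≤ |A| := le_abs_self A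
  have hB1 : 1 ≤ B := by
    rw [hB]
    have : 0 ≤ (|A| + 2 * C2 + 11) * (10 / 9) / L := by positivity
    linarith
  have hBL : |A| + 2 * C2 + 11 ≤ 9 / 10 * B * L := by
    have h1 : 9 / 10 * B * L = 9 / 10 * L + (|A| + 2 * C2 + 11) := by
      rw [hB]
      field_simp
    rw [h1]
    linarith
  set A' : ℝ := |A| + 2 * C2 + 2 + 11 / 10 * B * L with hA'
  have hA'1 : 1 ≤ A' := by
    have : 0 ≤ 11 / 10 * B * L := by positivity
    linarith
  obtain ⟨N, hN⟩ := fin_tendsto (Real.exp (2 * C2)) (A + 2 * C2 + 1 + 11 / 10 * B * L)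
    (A + 2 * C2 + 10) L hL0
  set K := dg (PR F 0 w) with hK
  obtain ⟨M, hM, hgood⟩ := good F A' B hA'1 hB1 (M0 + N + 100 + (w + 1) + 50 * K)
  refine ⟨M, by omega, fun c hc => ?_⟩
  have hM100 : 100 ≤ M := by omega
  have hwM : w < M := by omega
  have hKM : 50 * K ≤ M := by omega
  have hG := hN M (by omega)
  set Y : Finset F[X] → ℝ := fun E => ∑ χ ∈ prs E, ‖∑ n ∈ irrs F M, χ n‖ with hY
  have hY0 : ∀ E, 0 ≤ Y E := fun E => Finset.sum_nonneg fun _ _ => norm_nonneg _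
  have hX1 : (1 : ℝ) ≤ M := by exact_mod_cast (by omega : 1 ≤ M)
  have hX0 : (0 : ℝ) < M := by linarith
  -- step 1
  have s1 : ∑ D ∈ (PR F w M).powerset.filter (fun D => 4 * dg D ≤ M),
        C2 ^ D.card * |((((irrs F M).filter
            (fun n => ∀ P ∈ PR F 0 w ∪ D, P ∣ n - c D P)).card : ℕ) : ℝ)
          - ((irrs F M).card : ℝ) / phi (PR F 0 w ∪ D)| ≤
      ∑ D ∈ (PR F w M).powerset.filter (fun D => 4 * dg D ≤ M),
      C2 ^ D.card * (1 / phi (PR F 0 w ∪ D) * ∑ E ∈ (PR F 0 w ∪ D).powerset.erase ∅, Y E) := by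
    refine Finset.sum_le_sum fun D hD => ?_
    refine mul_le_mul_of_nonneg_left ?_ (by positivity)
    have h1 := fin_mem hwM hD
    exact class_error (fun P hP => ⟨(mem_PR.1 (h1 P hP).1).1, (mem_PR.1 (h1 P hP).1).2.1⟩)
      (fun P hP => (h1 P hP).2) (c D) (fun P hP => hc D P (h1 P hP).1)
  have s2 := swap_sum C2 w M hC2 hw hwM Y hY0
  have s3 := mertens (F := F) C2 (by linarith) M (by omega)
  refine s1.trans (s2.trans ?_)
  -- the two ranges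
  set T1 : ℝ := (M : ℝ) ^ (11 / 10 * B * L) * (q ^ M / (M : ℝ) ^ A' + 2 * q ^ (M / 2)) with hT1
  set T2 : ℝ := Real.exp 2 * (M : ℝ) ^ 2 * (4 * (M : ℝ) ^ 7 *
    (q ^ M * (M : ℝ) ^ (-(9 / 10 * B * L)) + q ^ (9 * (M : ℝ) / 10))) with hT2
  have hT10 : 0 ≤ T1 := by positivity
  have hT20 : 0 ≤ T2 := by positivity
  have hterm : ∀ m ∈ Icc 1 (M / 4 + K), ∑ E ∈ Sq F m, q ^ ((m : ℝ) / 10) / phi E * Y E ≤
      T1 + T2 := by
    intro m hm
    rw [mem_Icc] at hm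
    by_cases hmB : (m : ℝ) ≤ B * Real.log M
    · have h1 := small_range A' B M m (by omega) hm.1 hmB hgood
      have h2 : q ^ (11 * (m : ℝ) / 10) ≤ (M : ℝ) ^ (11 / 10 * B * L) := by
        rw [Real.rpow_def_of_pos hq0, Real.rpow_def_of_pos hX0]
        apply Real.exp_le_exp.2
        have := mul_le_mul_of_nonneg_left hmB hL0.le
        rw [← hL]
        linarith
      have h3 : q ^ (11 * (m : ℝ) / 10) * (q ^ M / (M : ℝ) ^ A' + 2 * q ^ (M / 2)) ≤ T1 :=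
        mul_le_mul_of_nonneg_right h2 (by positivity)
      linarith
    · push Not at hmB
      have h1 := large_range (F := F) M m hM100 hm.1 (by omega)
      have h2 : q ^ ((M : ℝ) - 9 * m / 10) ≤ q ^ M * (M : ℝ) ^ (-(9 / 10 * B * L)) := by
        rw [← Real.rpow_natCast q M, Real.rpow_def_of_pos hq0, Real.rpow_def_of_pos hq0,
          Real.rpow_def_of_pos hX0, ← Real.exp_add]
        apply Real.exp_le_exp.2
        have := mul_le_mul_of_nonneg_left hmB.le hL0.le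
        rw [← hL]
        linarith
      have h3 : Real.exp 2 * (M : ℝ) ^ 2 * (4 * (M : ℝ) ^ 7 *
          (q ^ ((M : ℝ) - 9 * m / 10) + q ^ (9 * (M : ℝ) / 10))) ≤ T2 := by
        rw [hT2]
        gcongr
      linarith
  have hsum : ∑ m ∈ Icc 1 (M / 4 + K), ∑ E ∈ Sq F m, q ^ ((m : ℝ) / 10) / phi E * Y E ≤
      (M : ℝ) * (T1 + T2) := by
    refine (Finset.sum_le_sum hterm).trans ?_
    rw [Finset.sum_const, nsmul_eq_mul, Nat.card_Icc]
    refine mul_le_mul_of_nonneg_right ?_ (by linarith)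
    exact_mod_cast (by omega : M / 4 + K + 1 - 1 ≤ M)
  have hprod0 : 0 ≤ Real.exp (2 * C2) * (M : ℝ) ^ (2 * C2) := by positivity
  have hsum0 : 0 ≤ (M : ℝ) * (T1 + T2) := by positivity
  have hphi : ∀ m ∈ Icc 1 (M / 4 + K), ∀ E ∈ Sq F m, 0 ≤ q ^ ((m : ℝ) / 10) / phi E * Y E := by
    intro m _ E hE
    have h1 : IsPr E := by
      intro P hP
      have h2 := (mem_powerset.1 (mem_filter.1 hE).1) hP
      exact ⟨(mem_PR.1 h2).1, (mem_PR.1 h2).2.1⟩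
    have h3 := phi_pos h1
    have h4 := hY0 E
    positivity
  have hS0 : 0 ≤ ∑ m ∈ Icc 1 (M / 4 + K), ∑ E ∈ Sq F m, q ^ ((m : ℝ) / 10) / phi E * Y E :=
    Finset.sum_nonneg fun m hm => Finset.sum_nonneg fun E hE => hphi m hm E hE
  refine (mul_le_mul s3 hsum hS0 hprod0).trans ?_
  refine fin_num (L := L) hX1 (by positivity) (by positivity) ?_ ?_ (by linarith) (by linarith) hG
  · have h1 : q ^ (M / 2) = q ^ (((M / 2 : ℕ) : ℝ)) := (Real.rpow_natCast q (M / 2)).symm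
    rw [h1, ← Real.rpow_natCast q M, Real.rpow_def_of_pos hq0, Real.rpow_def_of_pos hq0,
      ← Real.exp_add]
    apply Real.exp_le_exp.2
    have h2 : ((M / 2 : ℕ) : ℝ) ≤ (M : ℝ) / 2 := by
      have := Nat.cast_div_le (α := ℝ) (m := M) (n := 2)
      simpa using this
    have := mul_le_mul_of_nonneg_left h2 hL0.le
    rw [← hL]
    linarith
  · rw [← Real.rpow_natCast q M, Real.rpow_def_of_pos hq0, Real.rpow_def_of_pos hq0,
      ← Real.exp_add]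
    apply le_of_eq
    congr 1
    rw [← hL]
    ring

end Pool.Agent.H81.FF
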