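import Mathlib

/-! # FF-D12 Addition formula for a linear recurrence  (MP_a1f59e_nt, project FF, block D)

`L` of finite length `m`, `L 0 = 1`, `L * M = 1` (convolution).
`add_formula`: for fixed `a ≥ m` put `E j = - ∑_{i < m, j < i} L i * M (a + j - i)` for `j < m`, `E j = 0` for `j ≥ m`
(for `j ≥ m - 1` the sum is empty anyway). Claim `∑_{i ≤ j} L i * M (a + j - i) = E j` for every `j`: it is the full
convolution at `a + j ≥ 1`, which is `0`, minus the terms `i > j` (note `a + j - i ≥ 1` for `i < m`). In power series: with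
`R = ∑ M (a + n) X^n`, `L R = E`, so `R = E M` (as `L M = 1`), and the coefficient of `X^b` is
`∑_{j < m} E j * M (b - j)` (`b ≥ m`). Use `PowerSeries.mk`, or strong induction on `b`.
`psi_formula`: `Ψ * L = (n L n)_n` and `L * M = 1` give `Ψ N = ∑_{k < m} k L k M (N - k)` (`N ≥ m`), and `add_formula` with
`b = N - k - a ≥ m`.
-/

set_option autoImplicit false

namespace Pool.Agent.H81.FF

open Finset

private lemma addn_E (L M : ℕ → ℂ) (m : ℕ) (h0 : L 0 = 1) (hL : ∀ n, m ≤ n → L n = 0)
    (hc : ∀ n, ∑ p ∈ antidiagonal n, L p.1 * M p.2 = if n = 0 then 1 else 0) (a : ℕ) (ha : m ≤ a) (j : ℕ) :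
    ∑ p ∈ antidiagonal j, L p.1 * M (a + p.2)
      = - ∑ i ∈ (range m).filter (fun i => j < i), L i * M (a + j - i) := by
  have hm : 0 < m := by
    rcases Nat.eq_zero_or_pos m with h | h
    · have := hL 0 (by omega)
      rw [h0] at this
      exact absurd this one_ne_zero
    · exact h
  have h1 := hc (a + j)
  rw [if_neg (by omega : a + j ≠ 0), Finset.Nat.sum_antidiagonal_eq_sum_range_succ (fun x y => L x * M y)] at h1
  rw [Finset.Nat.sum_antidiagonal_eq_sum_range_succ (fun x y => L x * M (a + y))]
  have h2 : ∑ i ∈ range (a + j).succ, L i * M (a + j - i)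
      = ∑ i ∈ range j.succ, L i * M (a + j - i) + ∑ i ∈ (range m).filter (fun i => j < i), L i * M (a + j - i) := by
    rw [← Finset.sum_filter_add_sum_filter_not (range (a + j).succ) (fun i => i < j.succ)]
    congr 1
    · apply Finset.sum_congr _ (fun _ _ => rfl)
      ext i
      simp only [mem_filter, mem_range]
      omega
    · symm
      apply Finset.sum_subset_zero_on_sdiff
      · intro i hi
        simp only [mem_filter, mem_range] at hi ⊢
        omega
      · intro i hi
        simp only [mem_sdiff, mem_filter, mem_range, not_and] at hi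
        have : m ≤ i := by
          by_contra hcon
          exact hi.2 (by omega) (by omega)
        rw [hL i this, zero_mul]
      · intro i _
        rfl
  rw [h2] at h1
  have h3 : ∑ i ∈ range j.succ, L i * M (a + (j - i)) = ∑ i ∈ range j.succ, L i * M (a + j - i) := by
    apply Finset.sum_congr rfl
    intro i hi
    rw [mem_range] at hi
    congr 2
    omega
  rw [h3]
  exact eq_neg_of_add_eq_zero_left h1

private lemma addn_one (L M : ℕ → ℂ) (hc : ∀ n, ∑ p ∈ antidiagonal n, L p.1 * M p.2 = if n = 0 then 1 else 0) :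
    PowerSeries.mk L * PowerSeries.mk M = 1 := by
  ext n
  rw [PowerSeries.coeff_mul, PowerSeries.coeff_one]
  simp only [PowerSeries.coeff_mk]
  exact hc n

theorem add_formula (L M : ℕ → ℂ) (m : ℕ) (h0 : L 0 = 1) (hL : ∀ n, m ≤ n → L n = 0)
    (hc : ∀ n, ∑ p ∈ antidiagonal n, L p.1 * M p.2 = if n = 0 then 1 else 0) (a b : ℕ) (ha : m ≤ a)
    (hb : m ≤ b) :
    M (a + b) = - ∑ j ∈ range m, ∑ i ∈ (range m).filter (fun i => j < i), L i * M (a + j - i) * M (b - j) := by
  set E : ℕ → ℂ := fun j => - ∑ i ∈ (range m).filter (fun i => j < i), L i * M (a + j - i) with hE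
  have h1 : PowerSeries.mk L * PowerSeries.mk (fun n => M (a + n)) = PowerSeries.mk E := by
    ext j
    rw [PowerSeries.coeff_mul]
    simp only [PowerSeries.coeff_mk]
    exact addn_E L M m h0 hL hc a ha j
  have h2 : PowerSeries.mk (fun n => M (a + n)) = PowerSeries.mk E * PowerSeries.mk M := by
    rw [← h1]
    have h3 := addn_one L M hc
    calc PowerSeries.mk (fun n => M (a + n)) = 1 * PowerSeries.mk (fun n => M (a + n)) := (one_mul _).symm
      _ = (PowerSeries.mk L * PowerSeries.mk M) * PowerSeries.mk (fun n => M (a + n)) := by rw [h3]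
      _ = _ := by ring
  have h4 := congrArg (PowerSeries.coeff b) h2
  rw [PowerSeries.coeff_mul] at h4
  simp only [PowerSeries.coeff_mk] at h4
  rw [Finset.Nat.sum_antidiagonal_eq_sum_range_succ (fun x y => E x * M y)] at h4
  rw [h4]
  have h5 : ∑ k ∈ range b.succ, E k * M (b - k) = ∑ k ∈ range m, E k * M (b - k) := by
    symm
    apply Finset.sum_subset
    · intro i hi
      rw [mem_range] at hi ⊢
      omega
    · intro i _ hi
      rw [mem_range, not_lt] at hi
      have : E i = 0 := by
        rw [hE]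
        simp only [neg_eq_zero]
        apply Finset.sum_eq_zero
        intro t ht
        simp only [mem_filter, mem_range] at ht
        omega
      rw [this, zero_mul]
  rw [h5, ← Finset.sum_neg_distrib]
  apply Finset.sum_congr rfl
  intro j _
  rw [hE]
  simp only [neg_mul, Finset.sum_mul]

theorem psi_formula (L M Ψ : ℕ → ℂ) (m : ℕ) (h0 : L 0 = 1) (hL : ∀ n, m ≤ n → L n = 0)
    (hc : ∀ n, ∑ p ∈ antidiagonal n, L p.1 * M p.2 = if n = 0 then 1 else 0)
    (hΨ : ∀ n : ℕ, (n : ℂ) * L n = ∑ p ∈ antidiagonal n, Ψ p.1 * L p.2) (N a : ℕ) (ha : m ≤ a)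
    (hN : a + 2 * m ≤ N) :
    Ψ N = - ∑ k ∈ range m, ∑ j ∈ range m, ∑ i ∈ (range m).filter (fun i => j < i),
      (k : ℂ) * (L i * M (a + j - i)) * (L k * M (N - k - a - j)) := by
  have h1 : PowerSeries.mk Ψ * PowerSeries.mk L = PowerSeries.mk (fun n => (n : ℂ) * L n) := by
    ext n
    rw [PowerSeries.coeff_mul]
    simp only [PowerSeries.coeff_mk]
    exact (hΨ n).symm
  have h2 : PowerSeries.mk Ψ = PowerSeries.mk (fun n => (n : ℂ) * L n) * PowerSeries.mk M := by
    rw [← h1]
    have h3 := addn_one L M hc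
    calc PowerSeries.mk Ψ = PowerSeries.mk Ψ * 1 := (mul_one _).symm
      _ = PowerSeries.mk Ψ * (PowerSeries.mk L * PowerSeries.mk M) := by rw [h3]
      _ = _ := by ring
  have h4 := congrArg (PowerSeries.coeff N) h2
  rw [PowerSeries.coeff_mul] at h4
  simp only [PowerSeries.coeff_mk] at h4
  rw [Finset.Nat.sum_antidiagonal_eq_sum_range_succ (fun (x y : ℕ) => (x : ℂ) * L x * M y)] at h4
  rw [h4]
  have h5 : ∑ k ∈ range N.succ, (k : ℂ) * L k * M (N - k) = ∑ k ∈ range m, (k : ℂ) * L k * M (N - k) := by
    symm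
    apply Finset.sum_subset
    · intro i hi
      rw [mem_range] at hi ⊢
      omega
    · intro i _ hi
      rw [mem_range, not_lt] at hi
      rw [hL i hi]
      simp
  rw [h5, ← Finset.sum_neg_distrib]
  apply Finset.sum_congr rfl
  intro k hk
  rw [mem_range] at hk
  have h6 := add_formula L M m h0 hL hc a (N - k - a) ha (by omega)
  have h7 : a + (N - k - a) = N - k := by omega
  rw [h7] at h6
  rw [h6, mul_neg, Finset.mul_sum]
  congr 1
  apply Finset.sum_congr rfl
  intro j _
  rw [Finset.mul_sum]
  apply Finset.sum_congr rfl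
  intro i _
  ring

end Pool.Agent.H81.FF
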