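import Pool.Agent.H81.FF.Conv

/-! # FF-D11b Prime number theorem in `F[X]` and trivial bounds  (MP_a1f59e_nt, project FF, block D)

* `Ps_one`: `Ls 1 n = q ^ n` (`card_Mn`), so by `conv_psi` `n q^n = ∑_{s=1}^n Ps s q^(n-s)` for all `n`; induction gives
  `Ps n = q ^ n`. `sum_irrs` is the same as an equation in `ℕ`.
* `Ps_norm_le`: termwise against `sum_irrs`. `irrs_le`, `irrs_ge`, `prime_sum_le`: `q^n = ∑_{j ∣ n} j #(irrs j)`, the terms
  `j < n` have `j ≤ n/2`, `j #(irrs j) ≤ q^j`, `∑_{j ≤ n/2} q^j ≤ 2 q^(n/2)` as `q ≥ 2`.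
-/

set_option autoImplicit false

namespace Pool.Agent.H81.FF

open Polynomial Finset Pool.Agent.H10.FF
open scoped Classical

variable {F : Type} [Field F] [Fintype F]

private theorem conv2_Ls_one (n : ℕ) :
    Ls (fun _ : F[X] => (1 : ℂ)) n = (Fintype.card F : ℂ) ^ n := by
  unfold Ls
  rw [Finset.sum_const, card_Mn, nsmul_eq_mul, mul_one, Nat.cast_pow]

theorem Ps_one {n : ℕ} (hn : 1 ≤ n) : Ps (fun _ : F[X] => (1 : ℂ)) n = (Fintype.card F : ℂ) ^ n := by
  induction n using Nat.strong_induction_on with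
  | _ n ih =>
    obtain ⟨m, rfl⟩ : ∃ m, n = m + 1 := ⟨n - 1, by omega⟩
    have h := conv_psi (F := F) (χ := fun _ => (1 : ℂ)) rfl (fun _ _ => (mul_one 1).symm) (m + 1)
    rw [Finset.Nat.sum_antidiagonal_eq_sum_range_succ_mk, Finset.sum_range_succ,
      Finset.sum_range_succ'] at h
    simp only [conv2_Ls_one, Ps_zero, zero_mul, add_zero, Nat.sub_self, pow_zero, mul_one] at h
    have h2 : ∑ i ∈ range m, Ps (fun _ : F[X] => (1 : ℂ)) (i + 1) *
        (Fintype.card F : ℂ) ^ (m + 1 - (i + 1)) = ∑ _i ∈ range m, (Fintype.card F : ℂ) ^ (m + 1) := by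
      refine Finset.sum_congr rfl fun i hi => ?_
      have hi' := Finset.mem_range.1 hi
      rw [ih (i + 1) (by omega) (by omega), ← pow_add]
      congr 1
      omega
    rw [h2, Finset.sum_const, Finset.card_range, nsmul_eq_mul] at h
    push_cast at h
    linear_combination -h

theorem sum_irrs {n : ℕ} (hn : 1 ≤ n) : ∑ j ∈ n.divisors, j * (irrs F j).card = Fintype.card F ^ n := by
  have h := Ps_one (F := F) hn
  unfold Ps at h
  simp only [one_pow, Finset.sum_const, nsmul_eq_mul, mul_one] at h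
  exact_mod_cast h

private theorem conv2_q : 2 ≤ Fintype.card F := Fintype.one_lt_card

private theorem conv2_term {χ : F[X] → ℂ} (h : ∀ f, ‖χ f‖ ≤ 1) (n j : ℕ) :
    ‖(j : ℂ) * ∑ P ∈ irrs F j, χ P ^ (n / j)‖ ≤ ((j * (irrs F j).card : ℕ) : ℝ) := by
  rw [norm_mul, Complex.norm_natCast, Nat.cast_mul]
  refine mul_le_mul_of_nonneg_left ?_ (Nat.cast_nonneg j)
  refine (norm_sum_le _ _).trans ?_
  calc ∑ P ∈ irrs F j, ‖χ P ^ (n / j)‖ ≤ ∑ _P ∈ irrs F j, (1 : ℝ) := by
        refine Finset.sum_le_sum fun P _ => ?_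
        rw [norm_pow]
        exact pow_le_one₀ (norm_nonneg _) (h P)
    _ = _ := by rw [Finset.sum_const, nsmul_eq_mul, mul_one]

theorem Ps_norm_le {χ : F[X] → ℂ} (h : ∀ f, ‖χ f‖ ≤ 1) (n : ℕ) : ‖Ps χ n‖ ≤ (Fintype.card F : ℝ) ^ n := by
  rcases Nat.eq_zero_or_pos n with rfl | hn
  · rw [Ps_zero, norm_zero, pow_zero]
    exact zero_le_one
  · unfold Ps
    refine (norm_sum_le _ _).trans ?_
    refine (Finset.sum_le_sum fun j _ => conv2_term h n j).trans ?_
    rw [← Nat.cast_sum, sum_irrs hn, Nat.cast_pow]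

theorem Ls_norm_le {χ : F[X] → ℂ} (h : ∀ f, ‖χ f‖ ≤ 1) (n : ℕ) : ‖Ls χ n‖ ≤ (Fintype.card F : ℝ) ^ n := by
  unfold Ls
  refine (norm_sum_le _ _).trans ?_
  refine (Finset.sum_le_sum fun f _ => h f).trans ?_
  rw [Finset.sum_const, card_Mn, nsmul_eq_mul, mul_one, Nat.cast_pow]

theorem Mo_norm_le {χ : F[X] → ℂ} (h : ∀ f, ‖χ f‖ ≤ 1) (n : ℕ) : ‖Mo χ n‖ ≤ (Fintype.card F : ℝ) ^ n := by
  unfold Mo
  refine (norm_sum_le _ _).trans ?_
  have h1 : ∀ f ∈ Mn F n, ‖mu f * χ f‖ ≤ (1 : ℝ) := by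
    intro f _
    rw [norm_mul]
    refine mul_le_one₀ ?_ (norm_nonneg _) (h f)
    unfold mu
    split_ifs
    · rw [norm_pow, norm_neg, norm_one, one_pow]
    · rw [norm_zero]
      exact zero_le_one
  refine (Finset.sum_le_sum h1).trans ?_
  rw [Finset.sum_const, card_Mn, nsmul_eq_mul, mul_one, Nat.cast_pow]

theorem irrs_le (n : ℕ) : n * (irrs F n).card ≤ Fintype.card F ^ n := by
  rcases Nat.eq_zero_or_pos n with rfl | hn
  · rw [zero_mul]
    exact Nat.zero_le _
  · rw [← sum_irrs (F := F) hn]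
    exact Finset.single_le_sum (f := fun j => j * (irrs F j).card) (fun _ _ => Nat.zero_le _)
      (Nat.mem_divisors_self n hn.ne')

private theorem conv2_geom (m : ℕ) :
    ∑ j ∈ range (m + 1), Fintype.card F ^ j ≤ 2 * Fintype.card F ^ m := by
  induction m with
  | zero => simp
  | succ m ih =>
    rw [Finset.sum_range_succ]
    have h1 : 2 * Fintype.card F ^ m ≤ Fintype.card F ^ (m + 1) := by
      rw [pow_succ, mul_comm]
      exact Nat.mul_le_mul_left _ conv2_q
    omega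

private theorem conv2_proper {n : ℕ} (hn : 1 ≤ n) :
    ∑ j ∈ n.properDivisors, j * (irrs F j).card ≤ 2 * Fintype.card F ^ (n / 2) := by
  calc ∑ j ∈ n.properDivisors, j * (irrs F j).card ≤ ∑ j ∈ n.properDivisors, Fintype.card F ^ j :=
        Finset.sum_le_sum fun j _ => irrs_le j
    _ ≤ ∑ j ∈ range (n / 2 + 1), Fintype.card F ^ j := by
        refine Finset.sum_le_sum_of_subset fun j hj => ?_
        obtain ⟨⟨c, hc⟩, hlt⟩ := Nat.mem_properDivisors.1 hj
        rw [Finset.mem_range, Nat.lt_succ_iff, Nat.le_div_iff_mul_le (by norm_num)]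
        have hc2 : 2 ≤ c := by
          by_contra hcc
          have : c = 0 ∨ c = 1 := by omega
          rcases this with rfl | rfl
          · omega
          · omega
        rw [hc]
        exact Nat.mul_le_mul_left _ hc2
    _ ≤ _ := conv2_geom _

theorem irrs_ge (n : ℕ) : Fintype.card F ^ n ≤ n * (irrs F n).card + 2 * Fintype.card F ^ (n / 2) := by
  rcases Nat.eq_zero_or_pos n with rfl | hn
  · simp
  · have h := sum_irrs (F := F) hn
    rw [← Nat.cons_self_properDivisors hn.ne', Finset.sum_cons] at h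
    have h2 := conv2_proper (F := F) hn
    omega

/-- sum over the primes against `Ps` -/
theorem prime_sum_le {χ : F[X] → ℂ} (h : ∀ f, ‖χ f‖ ≤ 1) (n : ℕ) :
    ‖Ps χ n - (n : ℂ) * ∑ P ∈ irrs F n, χ P‖ ≤ 2 * (Fintype.card F : ℝ) ^ (n / 2) := by
  rcases Nat.eq_zero_or_pos n with rfl | hn
  · rw [Ps_zero]
    simp
  · have h1 : Ps χ n - (n : ℂ) * ∑ P ∈ irrs F n, χ P =
        ∑ j ∈ n.properDivisors, (j : ℂ) * ∑ P ∈ irrs F j, χ P ^ (n / j) := by
      unfold Ps
      rw [← Nat.cons_self_properDivisors hn.ne', Finset.sum_cons, Nat.div_self hn]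
      simp only [pow_one]
      ring
    rw [h1]
    refine (norm_sum_le _ _).trans ?_
    refine (Finset.sum_le_sum fun j _ => conv2_term h n j).trans ?_
    rw [← Nat.cast_sum]
    exact_mod_cast conv2_proper (F := F) hn

end Pool.Agent.H81.FF
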