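import Pool.Agent.H81.FF.Basic2

/-! # FF-D13 Second moment of the divisor function  (MP_a1f59e_nt, project FF, block D)

`quad_count`: the number of `(a, b, c, e) ∈ Mn i × Mn j × Mn i × Mn j` with `a b = c e` is at most `(i+j+1)^3 q^(i+j)`:
with `g = gcd a c` monic, `a = g a'`, `c = g c'`, `a' b = c' e`, `a', c'` coprime, so `b = c' h`, `e = a' h`, `h` monic;
`(a,b,c,e) ↦ (g, a', c', h)` is injective, `deg g + deg a' + deg c' + deg h = i + j`, and for each degree tuple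
`(α, β, γ)`, each in `range (i+j+1)`, the fourth degree is determined and the number of tuples is `q^(i+j)`.
`conv_norm`: the square is at most `(#{(g,h) : g h = f})^2 = #{(g,h,g',h') : g h = f = g' h'}`.
-/

set_option autoImplicit false

namespace Pool.Agent.H81.FF

open Polynomial Finset Pool.Agent.H10.FF
open scoped Classical

variable {F : Type} [Field F] [Fintype F]

omit [Fintype F] in
theorem tau_gcd {a c : F[X]} (ha : a.Monic) (hc : c.Monic) :
    ∃ g a' c' : F[X], g.Monic ∧ a'.Monic ∧ c'.Monic ∧ a = g * a' ∧ c = g * c' ∧ IsCoprime a' c' := by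
  have hne : EuclideanDomain.gcd a c ≠ 0 := by
    intro h
    rw [EuclideanDomain.gcd_eq_zero_iff] at h
    exact ha.ne_zero h.1
  set g0 := EuclideanDomain.gcd a c with hg0
  have hu : g0.leadingCoeff ≠ 0 := leadingCoeff_ne_zero.mpr hne
  have hga : g0 ∣ a := EuclideanDomain.gcd_dvd_left a c
  have hgc : g0 ∣ c := EuclideanDomain.gcd_dvd_right a c
  set g := g0 * C (g0.leadingCoeff)⁻¹ with hg
  have hgm : g.Monic := monic_mul_leadingCoeff_inv hne
  have hassoc : Associated g0 g := by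
    refine ⟨Units.map (C : F →+* F[X]).toMonoidHom (Units.mk0 _ (inv_ne_zero hu)), ?_⟩
    rfl
  have h1 : g ∣ a := (hassoc.dvd_iff_dvd_left).mp hga
  have h2 : g ∣ c := (hassoc.dvd_iff_dvd_left).mp hgc
  obtain ⟨a', ha'⟩ := h1
  obtain ⟨c', hc'⟩ := h2
  refine ⟨g, a', c', hgm, ?_, ?_, ha', hc', ?_⟩
  · exact hgm.of_mul_monic_left (ha' ▸ ha)
  · exact hgm.of_mul_monic_left (hc' ▸ hc)
  · -- coprime
    obtain ⟨x, y, hxy⟩ : ∃ x y : F[X], g = a * x + c * y := by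
      refine ⟨EuclideanDomain.gcdA a c * C (g0.leadingCoeff)⁻¹,
        EuclideanDomain.gcdB a c * C (g0.leadingCoeff)⁻¹, ?_⟩
      have hb : g0 = a * EuclideanDomain.gcdA a c + c * EuclideanDomain.gcdB a c :=
        EuclideanDomain.gcd_eq_gcd_ab a c
      rw [hg]
      generalize (C (g0.leadingCoeff)⁻¹ : F[X]) = w
      rw [hb]
      ring
    refine ⟨x, y, ?_⟩
    apply mul_left_cancel₀ hgm.ne_zero
    rw [mul_one]
    calc g * (x * a' + y * c') = (g * a') * x + (g * c') * y := by ring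
      _ = g := by rw [← ha', ← hc', ← hxy]

theorem quad_count (i j : ℕ) :
    (((Mn F i ×ˢ Mn F j) ×ˢ (Mn F i ×ˢ Mn F j)).filter (fun p => p.1.1 * p.1.2 = p.2.1 * p.2.2)).card ≤
      (i + j + 1) ^ 3 * Fintype.card F ^ (i + j) := by
  set Φ : (F[X] × F[X]) × (F[X] × F[X]) → (F[X] × F[X]) × (F[X] × F[X]) :=
    fun t => ((t.1.1 * t.1.2, t.2.1 * t.2.2), (t.1.1 * t.2.1, t.1.2 * t.2.2)) with hΦ
  have hsub : ((Mn F i ×ˢ Mn F j) ×ˢ (Mn F i ×ˢ Mn F j)).filter
      (fun p => p.1.1 * p.1.2 = p.2.1 * p.2.2) ⊆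
      ((range (i + 1)).filter (fun α => i - α ≤ j)).biUnion (fun α =>
        ((Mn F α ×ˢ Mn F (i - α)) ×ˢ (Mn F (i - α) ×ˢ Mn F (j - (i - α)))).image Φ) := by
    rintro ⟨⟨a, b⟩, ⟨c, e⟩⟩ hp
    rw [mem_filter, mem_product, mem_product, mem_product] at hp
    obtain ⟨⟨⟨ha, hb⟩, hc, he⟩, heq⟩ := hp
    simp only [mem_Mn] at ha hb hc he heq
    obtain ⟨g, a', c', hg, ha', hc', rfl, rfl, hcop⟩ := tau_gcd ha.1 hc.1
    have h1 : a' * b = c' * e := by
      apply mul_left_cancel₀ hg.ne_zero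
      rw [← mul_assoc, heq, mul_assoc]
    have h2 : c' ∣ b := by
      refine hcop.symm.dvd_of_dvd_mul_left ?_
      rw [h1]
      exact dvd_mul_right _ _
    obtain ⟨h, rfl⟩ := h2
    have h3 : e = a' * h := by
      apply mul_left_cancel₀ hc'.ne_zero
      rw [← h1]
      ring
    subst h3
    have hh : h.Monic := hc'.of_mul_monic_left hb.1
    have hda : g.natDegree + a'.natDegree = i := by rw [← hg.natDegree_mul ha']; exact ha.2
    have hdc : g.natDegree + c'.natDegree = i := by rw [← hg.natDegree_mul hc']; exact hc.2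
    have hdb : c'.natDegree + h.natDegree = j := by rw [← hc'.natDegree_mul hh]; exact hb.2
    rw [mem_biUnion]
    refine ⟨g.natDegree, ?_, ?_⟩
    · rw [mem_filter, mem_range]
      exact ⟨by omega, by omega⟩
    · rw [mem_image]
      refine ⟨((g, a'), (c', h)), ?_, rfl⟩
      rw [mem_product, mem_product, mem_product]
      simp only [mem_Mn]
      refine ⟨⟨⟨hg, ?_⟩, ha', by omega⟩, ⟨hc', by omega⟩, hh, by omega⟩
      trivial
  refine (card_le_card hsub).trans (card_biUnion_le.trans ?_)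
  have hterm : ∀ α ∈ (range (i + 1)).filter (fun α => i - α ≤ j),
      (((Mn F α ×ˢ Mn F (i - α)) ×ˢ (Mn F (i - α) ×ˢ Mn F (j - (i - α)))).image Φ).card ≤
        Fintype.card F ^ (i + j) := by
    intro α hα
    rw [mem_filter, mem_range] at hα
    refine card_image_le.trans ?_
    rw [card_product, card_product, card_product, card_Mn, card_Mn, card_Mn, ← pow_add, ← pow_add,
      ← pow_add]
    apply le_of_eq
    congr 1
    omega
  refine (sum_le_sum hterm).trans ?_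
  rw [sum_const, smul_eq_mul]
  refine Nat.mul_le_mul_right _ ?_
  refine (card_filter_le _ _).trans ?_
  rw [card_range]
  calc i + 1 ≤ (i + j + 1) ^ 1 := by rw [pow_one]; omega
    _ ≤ (i + j + 1) ^ 3 := Nat.pow_le_pow_right (by omega) (by omega)

/-- Dirichlet convolution of coefficients in degrees `i`, `j` -/
noncomputable def cv (i j : ℕ) (c e : F[X] → ℂ) (f : F[X]) : ℂ :=
  ∑ p ∈ (Mn F i ×ˢ Mn F j).filter (fun p => p.1 * p.2 = f), c p.1 * e p.2

theorem tau_mul_mem {i j : ℕ} {p : F[X] × F[X]} (hp : p ∈ Mn F i ×ˢ Mn F j) :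
    p.1 * p.2 ∈ Mn F (i + j) := by
  rw [mem_product, mem_Mn, mem_Mn] at hp
  rw [mem_Mn]
  refine ⟨hp.1.1.mul hp.2.1, ?_⟩
  rw [hp.1.1.natDegree_mul hp.2.1, hp.1.2, hp.2.2]

theorem conv_norm (i j : ℕ) (c e : F[X] → ℂ) (hc : ∀ f, ‖c f‖ ≤ 1) (he : ∀ f, ‖e f‖ ≤ 1) :
    ∑ f ∈ Mn F (i + j), ‖cv i j c e f‖ ^ 2 ≤ ((i + j + 1 : ℕ) : ℝ) ^ 3 * (Fintype.card F : ℝ) ^ (i + j) := by
  set P := Mn F i ×ˢ Mn F j with hP
  set r : F[X] → ℕ := fun f => (P.filter (fun p => p.1 * p.2 = f)).card with hr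
  have h1 : ∀ f, ‖cv i j c e f‖ ≤ (r f : ℝ) := by
    intro f
    refine (norm_sum_le _ _).trans ?_
    refine (sum_le_sum (g := fun _ => (1 : ℝ)) fun p _ => ?_).trans ?_
    · rw [norm_mul]
      exact mul_le_one₀ (hc _) (norm_nonneg _) (he _)
    · rw [sum_const, nsmul_eq_mul, mul_one]
  have h2 : ∑ f ∈ Mn F (i + j), (r f) ^ 2 =
      ((P ×ˢ P).filter (fun p => p.1.1 * p.1.2 = p.2.1 * p.2.2)).card := by
    have h3 : ∑ f ∈ Mn F (i + j), ∑ p ∈ P.filter (fun p => p.1 * p.2 = f), r (p.1 * p.2) =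
        ∑ p ∈ P, r (p.1 * p.2) :=
      sum_fiberwise_of_maps_to (fun p hp => tau_mul_mem hp) _
    have h4 : ∑ f ∈ Mn F (i + j), (r f) ^ 2 =
        ∑ f ∈ Mn F (i + j), ∑ p ∈ P.filter (fun p => p.1 * p.2 = f), r (p.1 * p.2) := by
      refine sum_congr rfl fun f _ => ?_
      have h5 : ∑ p ∈ P.filter (fun p => p.1 * p.2 = f), r (p.1 * p.2) =
          ∑ p ∈ P.filter (fun p => p.1 * p.2 = f), r f :=
        sum_congr rfl fun p hp => by rw [(mem_filter.mp hp).2]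
      rw [h5, sum_const, smul_eq_mul, sq]
    have h6 : ((P ×ˢ P).filter (fun p => p.1.1 * p.1.2 = p.2.1 * p.2.2)).card =
        ∑ p ∈ P, ∑ p' ∈ P, (if p.1 * p.2 = p'.1 * p'.2 then 1 else 0) := by
      rw [card_filter]
      exact sum_product P P (fun p : (F[X] × F[X]) × (F[X] × F[X]) => if p.1.1 * p.1.2 = p.2.1 * p.2.2 then 1 else 0)
    rw [h4, h3, h6]
    refine sum_congr rfl fun p _ => ?_
    have h7 : r (p.1 * p.2) = ∑ p' ∈ P, (if p'.1 * p'.2 = p.1 * p.2 then 1 else 0) := card_filter _ _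
    rw [h7]
    refine sum_congr rfl fun p' _ => ?_
    by_cases h : p'.1 * p'.2 = p.1 * p.2
    · rw [if_pos h, if_pos h.symm]
    · rw [if_neg h, if_neg fun h' => h h'.symm]
  calc ∑ f ∈ Mn F (i + j), ‖cv i j c e f‖ ^ 2
      ≤ ∑ f ∈ Mn F (i + j), ((r f : ℝ)) ^ 2 :=
        sum_le_sum fun f _ => pow_le_pow_left₀ (norm_nonneg _) (h1 f) 2
    _ = ((∑ f ∈ Mn F (i + j), (r f) ^ 2 : ℕ) : ℝ) := by push_cast; rfl
    _ ≤ (((i + j + 1) ^ 3 * Fintype.card F ^ (i + j) : ℕ) : ℝ) := by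
        rw [h2]
        exact_mod_cast quad_count i j
    _ = ((i + j + 1 : ℕ) : ℝ) ^ 3 * (Fintype.card F : ℝ) ^ (i + j) := by push_cast; ring

theorem conv_mul (i j : ℕ) (c e : F[X] → ℂ) {χ : F[X] → ℂ} (hm : ∀ f g, χ (f * g) = χ f * χ g) :
    (∑ g ∈ Mn F i, c g * χ g) * (∑ h ∈ Mn F j, e h * χ h) = ∑ f ∈ Mn F (i + j), cv i j c e f * χ f := by
  rw [sum_mul_sum, ← sum_product']
  rw [← sum_fiberwise_of_maps_to (s := Mn F i ×ˢ Mn F j) (t := Mn F (i + j))
    (g := fun p => p.1 * p.2) (fun p hp => tau_mul_mem hp)]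
  refine sum_congr rfl fun f _ => ?_
  rw [cv, sum_mul]
  refine sum_congr rfl fun p hp => ?_
  rw [← (mem_filter.mp hp).2, hm]
  ring

end Pool.Agent.H81.FF
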