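import Pool.Agent.H81.FF.LSMul
import Pool.Agent.H81.FF.Conv2
import Pool.Agent.H81.FF.Addn
import Pool.Agent.H81.FF.Tau

/-! # FF-D14 Large conductors  (MP_a1f59e_nt, project FF, block D)

`bil_two`: for degrees `i = i₁ + i₂`, `j = j₁ + j₂`, `i + j = N`, Cauchy-Schwarz over `(E, χ)`, `conv_mul`, `ls_prs`,
`conv_norm` (twice) with `(i+1)^3, (j+1)^3 ≤ (N+1)^3`.
`bilin`: every `χ ∈ prs E`, `dg E = m ≥ 1`, is a nonprincipal character mod `pp E` (`prs_isCh`, `prs_NP`), so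
`Ls χ n = 0` for `n ≥ m` (`Ls_eq_zero`, `natDegree_pp`), and `psi_formula` with `a = 2 * N / 5` holds (`m ≤ 27N/100`,
so `m ≤ a` and `a + 2m ≤ N`). There are at most `m^3` triples `(k, j, i)`, the factor `k ≤ m`; the two groups
`L i * M (a+j-i)` and `L k * M (N-k-a-j)` have total degrees `I = a + j` and `J = N - a - j` (as `i ≤ a + j`,
`k ≤ N - a - j`), coefficients `1` and `mu`. Each term is by `bil_two` at most `(N+1)^3 * sqrt (q^T)`,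
`T = max I 2m + I + max J 2m + J`, and `T ≤ 2N` or `T ≤ 2 (17N/20 + 1 + m)` in each of the four cases:
`I, J ≥ 2m`: `T = 2N`; `I ≥ 2m > J`: `T = N + I + 2m`, `I < 2N/5 + m`; `J ≥ 2m > I`: `T = N + J + 2m`, `J ≤ 3N/5 + 1`;
both `< 2m`: `T = N + 4m`.
-/

set_option autoImplicit false

namespace Pool.Agent.H81.FF

open Polynomial Finset Pool.Agent.H10.FF
open scoped Classical

variable {F : Type} [Field F] [Fintype F]

/-- square sum of a product of two Dirichlet polynomials -/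
theorem bilin_sq (m i₁ i₂ : ℕ) (c₁ c₂ : F[X] → ℂ) (h1 : ∀ f, ‖c₁ f‖ ≤ 1) (h2 : ∀ f, ‖c₂ f‖ ≤ 1) :
    ∑ E ∈ Sq F m, ∑ χ ∈ prs E, ‖(∑ f ∈ Mn F i₁, c₁ f * χ f) * (∑ f ∈ Mn F i₂, c₂ f * χ f)‖ ^ 2 ≤
      ((i₁ + i₂ + 1 : ℕ) : ℝ) ^ 3 * (Fintype.card F : ℝ) ^ (max (i₁ + i₂) (2 * m) + (i₁ + i₂)) := by
  have e1 : ∑ E ∈ Sq F m, ∑ χ ∈ prs E, ‖(∑ f ∈ Mn F i₁, c₁ f * χ f) * (∑ f ∈ Mn F i₂, c₂ f * χ f)‖ ^ 2 =
      ∑ E ∈ Sq F m, ∑ χ ∈ prs E, ‖∑ f ∈ Mn F (i₁ + i₂), cv i₁ i₂ c₁ c₂ f * χ f‖ ^ 2 := by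
    refine sum_congr rfl fun E hE => sum_congr rfl fun χ hχ => ?_
    rw [conv_mul i₁ i₂ c₁ c₂ (prs_isCh (mem_Sq.mp hE).1 hχ).mul]
  rw [e1]
  refine (ls_prs m (i₁ + i₂) (cv i₁ i₂ c₁ c₂)).trans ?_
  have hq : (0 : ℝ) ≤ (Fintype.card F : ℝ) ^ (max (i₁ + i₂) (2 * m)) := by positivity
  calc (Fintype.card F : ℝ) ^ (max (i₁ + i₂) (2 * m)) * ∑ f ∈ Mn F (i₁ + i₂), ‖cv i₁ i₂ c₁ c₂ f‖ ^ 2
      ≤ (Fintype.card F : ℝ) ^ (max (i₁ + i₂) (2 * m)) *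
        (((i₁ + i₂ + 1 : ℕ) : ℝ) ^ 3 * (Fintype.card F : ℝ) ^ (i₁ + i₂)) :=
        mul_le_mul_of_nonneg_left (conv_norm i₁ i₂ c₁ c₂ h1 h2) hq
    _ = _ := by rw [pow_add]; ring

theorem bil_two (m i₁ i₂ j₁ j₂ N : ℕ) (hN : i₁ + i₂ + (j₁ + j₂) = N) (c₁ c₂ e₁ e₂ : F[X] → ℂ)
    (h1 : ∀ f, ‖c₁ f‖ ≤ 1) (h2 : ∀ f, ‖c₂ f‖ ≤ 1) (h3 : ∀ f, ‖e₁ f‖ ≤ 1) (h4 : ∀ f, ‖e₂ f‖ ≤ 1) :
    ∑ E ∈ Sq F m, ∑ χ ∈ prs E,
      ‖((∑ f ∈ Mn F i₁, c₁ f * χ f) * (∑ f ∈ Mn F i₂, c₂ f * χ f)) *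
        ((∑ f ∈ Mn F j₁, e₁ f * χ f) * (∑ f ∈ Mn F j₂, e₂ f * χ f))‖ ≤
      ((N + 1 : ℕ) : ℝ) ^ 3 * Real.sqrt ((Fintype.card F : ℝ) ^
        (max (i₁ + i₂) (2 * m) + (i₁ + i₂) + (max (j₁ + j₂) (2 * m) + (j₁ + j₂)))) := by
  set X : (F[X] → ℂ) → ℝ := fun χ => ‖(∑ f ∈ Mn F i₁, c₁ f * χ f) * (∑ f ∈ Mn F i₂, c₂ f * χ f)‖ with hX
  set Y : (F[X] → ℂ) → ℝ := fun χ => ‖(∑ f ∈ Mn F j₁, e₁ f * χ f) * (∑ f ∈ Mn F j₂, e₂ f * χ f)‖ with hY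
  have hXs := bilin_sq m i₁ i₂ c₁ c₂ h1 h2
  have hYs := bilin_sq m j₁ j₂ e₁ e₂ h3 h4
  have e1 : ∑ E ∈ Sq F m, ∑ χ ∈ prs E,
      ‖((∑ f ∈ Mn F i₁, c₁ f * χ f) * (∑ f ∈ Mn F i₂, c₂ f * χ f)) *
        ((∑ f ∈ Mn F j₁, e₁ f * χ f) * (∑ f ∈ Mn F j₂, e₂ f * χ f))‖ =
      ∑ p ∈ (Sq F m).sigma (fun E => prs E), X p.2 * Y p.2 := by
    rw [sum_sigma]
    refine sum_congr rfl fun E _ => sum_congr rfl fun χ _ => ?_
    rw [norm_mul]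
  rw [e1]
  refine (Real.sum_mul_le_sqrt_mul_sqrt _ _ _).trans ?_
  have eX : ∑ p ∈ (Sq F m).sigma (fun E => prs E), X p.2 ^ 2 ≤
      ((i₁ + i₂ + 1 : ℕ) : ℝ) ^ 3 * (Fintype.card F : ℝ) ^ (max (i₁ + i₂) (2 * m) + (i₁ + i₂)) := by
    rw [sum_sigma]
    exact hXs
  have eY : ∑ p ∈ (Sq F m).sigma (fun E => prs E), Y p.2 ^ 2 ≤
      ((j₁ + j₂ + 1 : ℕ) : ℝ) ^ 3 * (Fintype.card F : ℝ) ^ (max (j₁ + j₂) (2 * m) + (j₁ + j₂)) := by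
    rw [sum_sigma]
    exact hYs
  have hN3 : (0 : ℝ) ≤ ((N + 1 : ℕ) : ℝ) ^ 3 := by positivity
  have c1 : ((i₁ + i₂ + 1 : ℕ) : ℝ) ^ 3 ≤ ((N + 1 : ℕ) : ℝ) ^ 3 := by
    apply pow_le_pow_left₀ (by positivity)
    exact_mod_cast (by omega : i₁ + i₂ + 1 ≤ N + 1)
  have c2 : ((j₁ + j₂ + 1 : ℕ) : ℝ) ^ 3 ≤ ((N + 1 : ℕ) : ℝ) ^ 3 := by
    apply pow_le_pow_left₀ (by positivity)
    exact_mod_cast (by omega : j₁ + j₂ + 1 ≤ N + 1)
  have q1 : (0 : ℝ) ≤ (Fintype.card F : ℝ) ^ (max (i₁ + i₂) (2 * m) + (i₁ + i₂)) := by positivity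
  have q2 : (0 : ℝ) ≤ (Fintype.card F : ℝ) ^ (max (j₁ + j₂) (2 * m) + (j₁ + j₂)) := by positivity
  calc Real.sqrt (∑ p ∈ (Sq F m).sigma (fun E => prs E), X p.2 ^ 2) *
        Real.sqrt (∑ p ∈ (Sq F m).sigma (fun E => prs E), Y p.2 ^ 2)
      ≤ Real.sqrt (((N + 1 : ℕ) : ℝ) ^ 3 * (Fintype.card F : ℝ) ^ (max (i₁ + i₂) (2 * m) + (i₁ + i₂))) *
        Real.sqrt (((N + 1 : ℕ) : ℝ) ^ 3 * (Fintype.card F : ℝ) ^ (max (j₁ + j₂) (2 * m) + (j₁ + j₂))) :=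
        mul_le_mul (Real.sqrt_le_sqrt (eX.trans (mul_le_mul_of_nonneg_right c1 q1)))
          (Real.sqrt_le_sqrt (eY.trans (mul_le_mul_of_nonneg_right c2 q2))) (Real.sqrt_nonneg _)
          (Real.sqrt_nonneg _)
    _ = _ := by
        rw [Real.sqrt_mul hN3, Real.sqrt_mul hN3, pow_add (Fintype.card F : ℝ)
          (max (i₁ + i₂) (2 * m) + (i₁ + i₂)), Real.sqrt_mul q1]
        have : Real.sqrt (((N + 1 : ℕ) : ℝ) ^ 3) * Real.sqrt (((N + 1 : ℕ) : ℝ) ^ 3) =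
            ((N + 1 : ℕ) : ℝ) ^ 3 := Real.mul_self_sqrt hN3
        calc _ = (Real.sqrt (((N + 1 : ℕ) : ℝ) ^ 3) * Real.sqrt (((N + 1 : ℕ) : ℝ) ^ 3)) *
              (Real.sqrt ((Fintype.card F : ℝ) ^ (max (i₁ + i₂) (2 * m) + (i₁ + i₂))) *
               Real.sqrt ((Fintype.card F : ℝ) ^ (max (j₁ + j₂) (2 * m) + (j₁ + j₂)))) := by ring
          _ = _ := by rw [this]

theorem bilin_mu (f : F[X]) : ‖mu f‖ ≤ 1 := by
  unfold mu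
  split_ifs
  · rw [norm_pow, norm_neg, norm_one, one_pow]
  · rw [norm_zero]
    exact zero_le_one

theorem bilin_T {m N a j : ℕ} (ha : a = 2 * N / 5) (hN : 100 * m ≤ 27 * N) (hN2 : 100 ≤ N) (hj : j < m) :
    Real.sqrt ((Fintype.card F : ℝ) ^
      (max (a + j) (2 * m) + (a + j) + (max (N - a - j) (2 * m) + (N - a - j)))) ≤
      (Fintype.card F : ℝ) ^ N + (Fintype.card F : ℝ) ^ (17 * N / 20 + 1 + m) := by
  set T := max (a + j) (2 * m) + (a + j) + (max (N - a - j) (2 * m) + (N - a - j)) with hT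
  have hcase : T ≤ 2 * N ∨ T ≤ 2 * (17 * N / 20 + 1 + m) := by omega
  have hq1 : (1 : ℝ) ≤ (Fintype.card F : ℝ) := by exact_mod_cast Fintype.card_pos
  have hkey : ∀ K : ℕ, T ≤ 2 * K → Real.sqrt ((Fintype.card F : ℝ) ^ T) ≤ (Fintype.card F : ℝ) ^ K := by
    intro K hK
    rw [Real.sqrt_le_left (by positivity), ← pow_mul]
    exact pow_le_pow_right₀ hq1 (by omega)
  rcases hcase with h | h
  · exact (hkey _ h).trans (le_add_of_nonneg_right (by positivity))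
  · exact (hkey _ h).trans (le_add_of_nonneg_left (by positivity))

theorem bilin (m N : ℕ) (hm : 1 ≤ m) (hN : 100 * m ≤ 27 * N) (hN2 : 100 ≤ N) :
    ∑ E ∈ Sq F m, ∑ χ ∈ prs E, ‖Ps χ N‖ ≤ (m : ℝ) ^ 4 * ((N + 1 : ℕ) : ℝ) ^ 3 *
      ((Fintype.card F : ℝ) ^ N + (Fintype.card F : ℝ) ^ (17 * N / 20 + 1 + m)) := by
  set a := 2 * N / 5 with ha
  set B : ℝ := ((N + 1 : ℕ) : ℝ) ^ 3 *
      ((Fintype.card F : ℝ) ^ N + (Fintype.card F : ℝ) ^ (17 * N / 20 + 1 + m)) with hB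
  have hB0 : 0 ≤ B := by positivity
  have h1 : ∀ E ∈ Sq F m, ∀ χ ∈ prs E, ‖Ps χ N‖ ≤ ∑ k ∈ range m, ∑ j ∈ range m,
      ∑ i ∈ (range m).filter (fun i => j < i),
      (k : ℝ) * ‖(Ls χ i * Mo χ (a + j - i)) * (Ls χ k * Mo χ (N - k - a - j))‖ := by
    intro E hE χ hχ
    have hE' := mem_Sq.mp hE
    have hch := prs_isCh hE'.1 hχ
    have hne : E.Nonempty := by
      rw [nonempty_iff_ne_empty]
      rintro rfl
      have := hE'.2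
      unfold dg at this
      rw [sum_empty] at this
      omega
    have hNP := prs_NP hE'.1 hne hχ
    have hnd : (pp E).natDegree = m := by rw [natDegree_pp hE'.1, hE'.2]
    have hL : ∀ n, m ≤ n → Ls χ n = 0 := fun n hn =>
      Ls_eq_zero (pp_monic hE'.1) hch hNP (by rw [hnd]; exact hn)
    rw [psi_formula (Ls χ) (Mo χ) (Ps χ) m (Ls_zero hch.one) hL (conv_LM hch.one hch.mul)
      (conv_psi hch.one hch.mul) N a (by omega) (by omega), norm_neg]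
    refine (norm_sum_le _ _).trans (sum_le_sum fun k _ => ?_)
    refine (norm_sum_le _ _).trans (sum_le_sum fun j _ => ?_)
    refine (norm_sum_le _ _).trans (sum_le_sum fun i _ => ?_)
    rw [mul_assoc, norm_mul, Complex.norm_natCast]
  have h2 : ∑ E ∈ Sq F m, ∑ χ ∈ prs E, ‖Ps χ N‖ ≤ ∑ k ∈ range m, ∑ j ∈ range m,
      ∑ i ∈ (range m).filter (fun i => j < i), (k : ℝ) *
        ∑ E ∈ Sq F m, ∑ χ ∈ prs E, ‖(Ls χ i * Mo χ (a + j - i)) * (Ls χ k * Mo χ (N - k - a - j))‖ := by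
    refine (sum_le_sum fun E hE => sum_le_sum fun χ hχ => h1 E hE χ hχ).trans (le_of_eq ?_)
    rw [sum_sigma', sum_comm]
    refine sum_congr rfl fun k _ => ?_
    rw [sum_comm]
    refine sum_congr rfl fun j _ => ?_
    rw [sum_comm]
    refine sum_congr rfl fun i _ => ?_
    rw [sum_sigma', mul_sum]
  refine h2.trans ?_
  have h3 : ∀ k ∈ range m, ∀ j ∈ range m, ∀ i ∈ (range m).filter (fun i => j < i), (k : ℝ) *
        ∑ E ∈ Sq F m, ∑ χ ∈ prs E, ‖(Ls χ i * Mo χ (a + j - i)) * (Ls χ k * Mo χ (N - k - a - j))‖ ≤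
      (m : ℝ) * B := by
    intro k hk j hj i hi
    rw [mem_range] at hk hj
    rw [mem_filter, mem_range] at hi
    have hi1 : i + (a + j - i) = a + j := by omega
    have hi2 : k + (N - k - a - j) = N - a - j := by omega
    have h4 := bil_two (F := F) m i (a + j - i) k (N - k - a - j) N (by omega) (fun _ => 1) mu (fun _ => 1) mu
      (fun _ => by rw [norm_one]) bilin_mu (fun _ => by rw [norm_one]) bilin_mu
    rw [hi1, hi2] at h4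
    have h5 : ∑ E ∈ Sq F m, ∑ χ ∈ prs E, ‖(Ls χ i * Mo χ (a + j - i)) * (Ls χ k * Mo χ (N - k - a - j))‖ ≤ B := by
      have h6 := h4.trans (mul_le_mul_of_nonneg_left (bilin_T (F := F) ha hN hN2 hj)
        (by positivity : (0 : ℝ) ≤ ((N + 1 : ℕ) : ℝ) ^ 3))
      simp only [one_mul] at h6
      exact h6
    have hkm : (k : ℝ) ≤ (m : ℝ) := by exact_mod_cast hk.le
    exact mul_le_mul hkm h5 (sum_nonneg fun E _ => sum_nonneg fun χ _ => norm_nonneg _) (by positivity)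
  calc ∑ k ∈ range m, ∑ j ∈ range m,
      ∑ i ∈ (range m).filter (fun i => j < i), (k : ℝ) *
        ∑ E ∈ Sq F m, ∑ χ ∈ prs E, ‖(Ls χ i * Mo χ (a + j - i)) * (Ls χ k * Mo χ (N - k - a - j))‖
      ≤ ∑ k ∈ range m, ∑ j ∈ range m, ∑ i ∈ (range m).filter (fun i => j < i), (m : ℝ) * B :=
        sum_le_sum fun k hk => sum_le_sum fun j hj => sum_le_sum fun i hi => h3 k hk j hj i hi
    _ ≤ ∑ k ∈ range m, ∑ j ∈ range m, (m : ℝ) * ((m : ℝ) * B) := by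
        refine sum_le_sum fun k _ => sum_le_sum fun j _ => ?_
        rw [sum_const, nsmul_eq_mul]
        refine mul_le_mul_of_nonneg_right ?_ (by positivity)
        have : ((range m).filter (fun i => j < i)).card ≤ m := by
          refine (card_filter_le _ _).trans ?_
          rw [card_range]
        exact_mod_cast this
    _ = (m : ℝ) ^ 4 * B := by
        simp only [sum_const, card_range, nsmul_eq_mul]
        ring
    _ = _ := by rw [hB]; ring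

end Pool.Agent.H81.FF
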