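import Pool.Agent.H81.FF.Conv2

/-! # FF-D15 Mertens bound  (MP_a1f59e_nt, project FF, block D)

`∏ (1 + x) ≤ exp (∑ x)`, `∑_{P ∈ PR F 0 M} C / (nrm P - 1) = ∑_{j=1}^M #(irrs j) C / (q^j - 1) ≤ ∑ (q^j / j) C 2 / q^j
= 2 C ∑ 1/j ≤ 2 C (1 + log M)` (`irrs_le`, `q ≥ 2`, `q^j ≤ 2 (q^j - 1)`, harmonic sum: `harmonic_le_one_add_log`).
-/

set_option autoImplicit false

namespace Pool.Agent.H81.FF

open Polynomial Finset Pool.Agent.H10.FF
open scoped Classical

variable {F : Type} [Field F] [Fintype F]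

theorem one_lt_card : 1 < Fintype.card F := Fintype.one_lt_card

theorem nrm_ge_two {P : F[X]} (hP : Irreducible P) : 2 ≤ nrm P := by
  have h1 : 0 < P.natDegree := hP.natDegree_pos
  have h2 : (2 : ℝ) ≤ (Fintype.card F : ℝ) := by exact_mod_cast (one_lt_card (F := F))
  unfold nrm
  calc (2 : ℝ) ≤ (Fintype.card F : ℝ) := h2
    _ = (Fintype.card F : ℝ) ^ 1 := (pow_one _).symm
    _ ≤ _ := pow_le_pow_right₀ (by linarith) h1

private lemma mert_sum (C : ℝ) (hC : 0 ≤ C) (M : ℕ) :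
    ∑ P ∈ PR F 0 M, C / (nrm P - 1) ≤ ∑ j ∈ Finset.Ioc 0 M, 2 * C / (j : ℝ) := by
  have h2 : (2 : ℝ) ≤ (Fintype.card F : ℝ) := by exact_mod_cast (one_lt_card (F := F))
  unfold PR
  rw [Finset.sum_biUnion]
  · apply Finset.sum_le_sum
    intro j hj
    rw [Finset.mem_Ioc] at hj
    have h3 : ∀ P ∈ irrs F j, C / (nrm P - 1) = C / ((Fintype.card F : ℝ) ^ j - 1) := by
      intro P hP
      rw [mem_irrs] at hP
      unfold nrm
      rw [hP.2.2]
    rw [Finset.sum_congr rfl h3, Finset.sum_const, nsmul_eq_mul]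
    have h4 : (2 : ℝ) ≤ (Fintype.card F : ℝ) ^ j := by
      calc (2 : ℝ) ≤ (Fintype.card F : ℝ) := h2
        _ = (Fintype.card F : ℝ) ^ 1 := (pow_one _).symm
        _ ≤ _ := pow_le_pow_right₀ (by linarith) hj.1
    have h5 : (j : ℝ) * ((irrs F j).card : ℝ) ≤ (Fintype.card F : ℝ) ^ j := by
      exact_mod_cast irrs_le (F := F) j
    have hj0 : (0 : ℝ) < j := by exact_mod_cast hj.1
    rw [← mul_div_assoc, div_le_div_iff₀ (by linarith) hj0]
    have h6 : (Fintype.card F : ℝ) ^ j ≤ 2 * ((Fintype.card F : ℝ) ^ j - 1) := by linarith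
    calc ((irrs F j).card : ℝ) * C * (j : ℝ) = C * ((j : ℝ) * ((irrs F j).card : ℝ)) := by ring
      _ ≤ C * (Fintype.card F : ℝ) ^ j := mul_le_mul_of_nonneg_left h5 hC
      _ ≤ C * (2 * ((Fintype.card F : ℝ) ^ j - 1)) := mul_le_mul_of_nonneg_left h6 hC
      _ = _ := by ring
  · intro i _ j _ hij
    rw [Function.onFun, Finset.disjoint_left]
    intro P hP hP'
    rw [mem_irrs] at hP hP'
    exact hij (hP.2.2.symm.trans hP'.2.2)

private lemma mert_harm (M : ℕ) : ∑ j ∈ Finset.Ioc 0 M, (1 : ℝ) / (j : ℝ) ≤ 1 + Real.log M := by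
  have h1 := harmonic_le_one_add_log M
  have h2 : ((harmonic M : ℚ) : ℝ) = ∑ j ∈ Finset.Ioc 0 M, (1 : ℝ) / (j : ℝ) := by
    rw [harmonic]
    push_cast
    have h3 := Finset.sum_Ico_add' (fun i : ℕ => ((i : ℝ))⁻¹) 0 M 1
    have h4 : Finset.Ico (0 + 1) (M + 1) = Finset.Ioc 0 M := by
      ext x
      simp only [Finset.mem_Ico, Finset.mem_Ioc]
      omega
    rw [h4] at h3
    rw [Finset.range_eq_Ico]
    simp only [one_div]
    rw [← h3]
    apply Finset.sum_congr rfl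
    intro j _
    push_cast
    rfl
  rw [← h2]
  exact h1

theorem mertens (C : ℝ) (hC : 0 ≤ C) (M : ℕ) (hM : 1 ≤ M) :
    ∏ P ∈ PR F 0 M, (1 + C / (nrm P - 1)) ≤ Real.exp (2 * C) * (M : ℝ) ^ (2 * C) := by
  have hM0 : (0 : ℝ) < M := by exact_mod_cast hM
  calc ∏ P ∈ PR F 0 M, (1 + C / (nrm P - 1)) ≤ ∏ P ∈ PR F 0 M, Real.exp (C / (nrm P - 1)) := by
        apply Finset.prod_le_prod
        · intro P hP
          rw [mem_PR] at hP
          have := nrm_ge_two hP.2.1
          have h0 : 0 ≤ C / (nrm P - 1) := div_nonneg hC (by linarith)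
          linarith
        · intro P _
          have := Real.add_one_le_exp (C / (nrm P - 1))
          linarith
    _ = Real.exp (∑ P ∈ PR F 0 M, C / (nrm P - 1)) := (Real.exp_sum _ _).symm
    _ ≤ Real.exp (2 * C + Real.log M * (2 * C)) := by
        apply Real.exp_le_exp.mpr
        refine (mert_sum C hC M).trans ?_
        have h1 : ∑ j ∈ Finset.Ioc 0 M, 2 * C / (j : ℝ) = 2 * C * ∑ j ∈ Finset.Ioc 0 M, (1 : ℝ) / (j : ℝ) := by
          rw [Finset.mul_sum]
          apply Finset.sum_congr rfl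
          intro j _
          ring
        rw [h1]
        have h2 := mul_le_mul_of_nonneg_left (mert_harm M) (by linarith : 0 ≤ 2 * C)
        linarith
    _ = _ := by
        rw [Real.exp_add, Real.rpow_def_of_pos hM0]

/-- `q ^ dg E ≤ phi E * e² M²` -/
theorem phi_lower {E : Finset F[X]} {M : ℕ} (hM : 1 ≤ M) (hE : E ⊆ PR F 0 M) :
    (Fintype.card F : ℝ) ^ (dg E) ≤ phi E * (Real.exp 2 * (M : ℝ) ^ 2) := by
  have h1 : (Fintype.card F : ℝ) ^ (dg E) = phi E * ∏ P ∈ E, (1 + 1 / (nrm P - 1)) := by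
    unfold dg phi
    rw [← Finset.prod_pow_eq_pow_sum, ← Finset.prod_mul_distrib]
    apply Finset.prod_congr rfl
    intro P hP
    have h2 := nrm_ge_two (mem_PR.mp (hE hP)).2.1
    have h3 : nrm P - 1 ≠ 0 := by linarith
    have h4 : (Fintype.card F : ℝ) ^ P.natDegree = nrm P := rfl
    rw [h4]
    field_simp
    ring
  have h0 : 0 ≤ phi E := by
    unfold phi
    apply Finset.prod_nonneg
    intro P hP
    have h2 := nrm_ge_two (mem_PR.mp (hE hP)).2.1
    linarith
  rw [h1]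
  apply mul_le_mul_of_nonneg_left _ h0
  have h5 : ∏ P ∈ E, (1 + 1 / (nrm P - 1)) ≤ ∏ P ∈ PR F 0 M, (1 + 1 / (nrm P - 1)) := by
    apply Finset.prod_le_prod_of_subset_of_one_le hE
    · intro P hP
      have h2 := nrm_ge_two (mem_PR.mp (hE hP)).2.1
      have : 0 ≤ 1 / (nrm P - 1) := div_nonneg zero_le_one (by linarith)
      linarith
    · intro P hP _
      have h2 := nrm_ge_two (mem_PR.mp hP).2.1
      have : 0 ≤ 1 / (nrm P - 1) := div_nonneg zero_le_one (by linarith)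
      linarith
  have h6 := mertens (F := F) 1 zero_le_one M hM
  refine h5.trans (h6.trans ?_)
  apply le_of_eq
  norm_num

theorem phi_pos {E : Finset F[X]} (hE : IsPr E) : 0 < phi E := by
  unfold phi
  apply Finset.prod_pos
  intro P hP
  have h2 := nrm_ge_two (hE P hP).2
  linarith

theorem phi_le {E : Finset F[X]} (hE : IsPr E) : phi E ≤ (Fintype.card F : ℝ) ^ (dg E) := by
  unfold phi dg
  rw [← Finset.prod_pow_eq_pow_sum]
  apply Finset.prod_le_prod
  · intro P hP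
    have h2 := nrm_ge_two (hE P hP).2
    linarith
  · intro P _
    have h4 : (Fintype.card F : ℝ) ^ P.natDegree = nrm P := rfl
    rw [h4]
    linarith

end Pool.Agent.H81.FF
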