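import Pool.Agent.H81.FF.GoodB
import Pool.Agent.H81.FF.Bilin
import Pool.Agent.H81.FF.Mert

/-! # FF-D23 Assembly 1: from residue classes to characters  (MP_a1f59e_nt, project FF, block D)

`class_error`: `b` from `crt_pp`: `P ∣ b - c P` for `P ∈ D`. Every `n ∈ irrs F M` is coprime to every `P ∈ D`
(`natDegree P < M`), so the filter condition is `pp D ∣ n - b` (`pp_dvd`); `ind_expand`, sum over `n`, the term `E = ∅` is
`#(irrs F M)` (`prs_empty`); `‖conj (χ b)‖ ≤ 1`.
`swap_sum`: `D' = PR F 0 w ∪ D` (disjoint), `phi D' = phi (PR F 0 w) * phi D`; for `∅ ≠ E ⊆ D'` put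
`E₁ = E ∩ PR F w M ⊆ D`, exchange the sums: for fixed `E` the sum over `D ⊇ E₁` of `C2^#D / phi D` is at most
`C2^#E₁ / phi E₁ * ∏_{P ∈ PR F w M} (1 + C2 / (nrm P - 1))` (`Finset.prod_one_add`/`prod_add`), `phi (PR F 0 w) phi E₁ ≥ phi E`
(each factor `nrm P - 1 ≥ 1`), `C2^#E₁ ≤ q^(dg E₁ / 10)` since each prime of `E₁` has degree `> w` and `C2^10 ≤ q^w`
(if `w = 0` then `C2 = 1`). `dg E ≤ M/4 + dg (PR F 0 w)`.
-/

set_option autoImplicit false

namespace Pool.Agent.H81.FF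

open Polynomial Finset Pool.Agent.H10.FF
open scoped Classical ComplexConjugate

variable {F : Type} [Field F] [Fintype F]

theorem asm1_prod_mono {ι : Type} [DecidableEq ι] {s t : Finset ι} (h : s ⊆ t) (f : ι → ℝ)
    (hf : ∀ i ∈ t, 1 ≤ f i) : ∏ i ∈ s, f i ≤ ∏ i ∈ t, f i := by
  rw [← Finset.prod_sdiff h]
  have h1 : 1 ≤ ∏ i ∈ t \ s, f i := by
    calc (1 : ℝ) = ∏ _i ∈ t \ s, (1 : ℝ) := by rw [Finset.prod_const_one]
      _ ≤ ∏ i ∈ t \ s, f i := Finset.prod_le_prod (fun _ _ => zero_le_one)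
          (fun i hi => hf i (Finset.sdiff_subset hi))
  have h2 : 0 ≤ ∏ i ∈ s, f i := Finset.prod_nonneg fun i hi => zero_le_one.trans (hf i (h hi))
  nlinarith

theorem asm1_sum_above {ι : Type} [DecidableEq ι] {s t : Finset ι} (h : s ⊆ t) (f : ι → ℝ) :
    ∑ D ∈ t.powerset.filter (fun D => s ⊆ D), ∏ i ∈ D, f i =
      (∏ i ∈ s, f i) * ∏ i ∈ t \ s, (1 + f i) := by
  rw [Finset.prod_one_add, Finset.mul_sum]
  refine Finset.sum_nbij' (fun D => D \ s) (fun D => s ∪ D) ?_ ?_ ?_ ?_ ?_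
  · intro D hD
    rw [Finset.mem_filter, Finset.mem_powerset] at hD
    exact Finset.mem_powerset.mpr (Finset.sdiff_subset_sdiff hD.1 (Finset.Subset.refl s))
  · intro D hD
    rw [Finset.mem_powerset] at hD
    rw [Finset.mem_filter, Finset.mem_powerset]
    exact ⟨Finset.union_subset h (hD.trans Finset.sdiff_subset), Finset.subset_union_left⟩
  · intro D hD
    rw [Finset.mem_filter, Finset.mem_powerset] at hD
    exact Finset.union_sdiff_of_subset hD.2
  · intro D hD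
    rw [Finset.mem_powerset] at hD
    rw [Finset.union_sdiff_left]
    exact Finset.sdiff_eq_self_of_disjoint
      (Finset.disjoint_of_subset_left hD Finset.sdiff_disjoint)
  · intro D hD
    rw [Finset.mem_filter, Finset.mem_powerset] at hD
    rw [mul_comm, Finset.prod_sdiff hD.2]

theorem class_error {D : Finset F[X]} (hD : IsPr D) {M : ℕ} (hM : ∀ P ∈ D, P.natDegree < M)
    (c : F[X] → F[X]) (hc : ∀ P ∈ D, ¬ P ∣ c P) :
    |((((irrs F M).filter (fun n => ∀ P ∈ D, P ∣ n - c P)).card : ℕ) : ℝ) -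
        ((irrs F M).card : ℝ) / phi D| ≤
      1 / phi D * ∑ E ∈ D.powerset.erase ∅, ∑ χ ∈ prs E, ‖∑ n ∈ irrs F M, χ n‖ := by
  obtain ⟨b, hb⟩ := crt_pp hD c
  have hphi : 0 < phi D := phi_pos hD
  have hbP : ∀ P ∈ D, ¬ P ∣ b := by
    intro P hP hPb
    apply hc P hP
    have h1 := dvd_sub hPb (hb P hP)
    rwa [sub_sub_cancel] at h1
  have hnP : ∀ n ∈ irrs F M, ∀ P ∈ D, ¬ P ∣ n := by
    intro n hn P hP hPn
    rw [mem_irrs] at hn
    have h1 : Associated P n := (hD P hP).2.associated_of_dvd hn.2.1 hPn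
    have h2 := Polynomial.natDegree_eq_of_degree_eq (Polynomial.degree_eq_degree_of_associated h1)
    have h3 := hM P hP
    omega
  have hiff : ∀ n : F[X], (∀ P ∈ D, P ∣ n - c P) ↔ pp D ∣ n - b := by
    intro n
    rw [pp_dvd hD]
    refine forall₂_congr fun P hP => ?_
    have h1 : n - c P = (n - b) + (b - c P) := by ring
    rw [h1]
    exact dvd_add_left (hb P hP)
  have hcard : ((((irrs F M).filter (fun n => ∀ P ∈ D, P ∣ n - c P)).card : ℕ) : ℂ) =
      ∑ n ∈ irrs F M, (if pp D ∣ n - b then (1 : ℂ) else 0) := by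
    rw [Finset.sum_boole]
    congr 2
    ext n
    simp only [Finset.mem_filter, hiff]
  have hmain : ((((irrs F M).filter (fun n => ∀ P ∈ D, P ∣ n - c P)).card : ℕ) : ℂ) *
      ((phi D : ℝ) : ℂ) - ((irrs F M).card : ℂ) =
      ∑ E ∈ D.powerset.erase ∅, ∑ χ ∈ prs E, conj (χ b) * ∑ n ∈ irrs F M, χ n := by
    rw [hcard, Finset.sum_mul]
    have h1 : ∑ n ∈ irrs F M, (if pp D ∣ n - b then (1 : ℂ) else 0) * ((phi D : ℝ) : ℂ) =
        ∑ E ∈ D.powerset, ∑ χ ∈ prs E, conj (χ b) * ∑ n ∈ irrs F M, χ n := by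
      rw [Finset.sum_congr rfl (fun n hn => ind_expand hD hbP (hnP n hn)), Finset.sum_comm]
      refine Finset.sum_congr rfl fun E _ => ?_
      rw [Finset.sum_comm]
      refine Finset.sum_congr rfl fun χ _ => ?_
      rw [Finset.mul_sum]
    rw [h1, ← Finset.add_sum_erase _ _ (Finset.empty_mem_powerset D), prs_empty,
      Finset.sum_singleton]
    simp
  have hnorm : ‖((((irrs F M).filter (fun n => ∀ P ∈ D, P ∣ n - c P)).card : ℕ) : ℂ) *
      ((phi D : ℝ) : ℂ) - ((irrs F M).card : ℂ)‖ ≤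
      ∑ E ∈ D.powerset.erase ∅, ∑ χ ∈ prs E, ‖∑ n ∈ irrs F M, χ n‖ := by
    rw [hmain]
    refine (norm_sum_le _ _).trans (Finset.sum_le_sum fun E hE => ?_)
    refine (norm_sum_le _ _).trans (Finset.sum_le_sum fun χ hχ => ?_)
    have hE' : IsPr E := fun P hP =>
      hD P (Finset.mem_powerset.mp (Finset.mem_erase.mp hE).2 hP)
    rw [norm_mul, RCLike.norm_conj]
    have h1 := (prs_isCh hE' hχ).norm_le (pp_monic hE') b
    calc ‖χ b‖ * ‖∑ n ∈ irrs F M, χ n‖ ≤ 1 * ‖∑ n ∈ irrs F M, χ n‖ :=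
          mul_le_mul_of_nonneg_right h1 (norm_nonneg _)
      _ = _ := one_mul _
  have hcast : ((((irrs F M).filter (fun n => ∀ P ∈ D, P ∣ n - c P)).card : ℕ) : ℂ) *
      ((phi D : ℝ) : ℂ) - ((irrs F M).card : ℂ) =
      (((((irrs F M).filter (fun n => ∀ P ∈ D, P ∣ n - c P)).card : ℕ) : ℝ) * phi D -
        ((irrs F M).card : ℝ) : ℝ) := by
    push_cast
    rfl
  rw [hcast, Complex.norm_real, Real.norm_eq_abs] at hnorm
  have hfin : ((((irrs F M).filter (fun n => ∀ P ∈ D, P ∣ n - c P)).card : ℕ) : ℝ) -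
      ((irrs F M).card : ℝ) / phi D =
      1 / phi D * (((((irrs F M).filter (fun n => ∀ P ∈ D, P ∣ n - c P)).card : ℕ) : ℝ) * phi D -
        ((irrs F M).card : ℝ)) := by
    field_simp
  rw [hfin, abs_mul, abs_of_pos (by positivity : (0 : ℝ) < 1 / phi D)]
  exact mul_le_mul_of_nonneg_left hnorm (by positivity)

theorem asm1_isPr {w R : ℕ} {E : Finset F[X]} (h : E ⊆ PR F w R) : IsPr E := fun P hP => by
  have := mem_PR.mp (h hP)
  exact ⟨this.1, this.2.1⟩

theorem asm1_disj {w M : ℕ} {D : Finset F[X]} (hD : D ⊆ PR F w M) : Disjoint (PR F 0 w) D := by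
  rw [Finset.disjoint_left]
  intro P h1 h2
  have h3 := (mem_PR.mp h1).2.2.2
  have h4 := (mem_PR.mp (hD h2)).2.2.1
  omega

theorem asm1_pow {C2 : ℝ} {w : ℕ} (hC2 : 1 ≤ C2) (hw : C2 ^ 10 ≤ (Fintype.card F : ℝ) ^ w) {M m : ℕ}
    {E₁ : Finset F[X]} (hE₁ : E₁ ⊆ PR F w M) (hm : dg E₁ ≤ m) :
    C2 ^ E₁.card ≤ (Fintype.card F : ℝ) ^ ((m : ℝ) / 10) := by
  have hq : (1 : ℝ) ≤ (Fintype.card F : ℝ) := by exact_mod_cast one_lt_card.le
  have h0 : (0 : ℝ) ≤ C2 := zero_le_one.trans hC2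
  have h1 : w * E₁.card ≤ dg E₁ := by
    rw [mul_comm, ← smul_eq_mul]
    exact Finset.card_nsmul_le_sum E₁ _ w (fun P hP => (mem_PR.mp (hE₁ hP)).2.2.1.le)
  have h2 : (C2 ^ E₁.card) ^ 10 ≤ ((Fintype.card F : ℝ) ^ ((m : ℝ) / 10)) ^ 10 := by
    have e1 : ((Fintype.card F : ℝ) ^ ((m : ℝ) / 10)) ^ 10 = (Fintype.card F : ℝ) ^ m := by
      rw [← Real.rpow_natCast, ← Real.rpow_mul (by positivity), ← Real.rpow_natCast _ m]
      congr 1
      push_cast
      ring
    rw [e1, ← pow_mul, mul_comm, pow_mul]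
    calc (C2 ^ 10) ^ E₁.card ≤ ((Fintype.card F : ℝ) ^ w) ^ E₁.card :=
          pow_le_pow_left₀ (by positivity) hw _
      _ = (Fintype.card F : ℝ) ^ (w * E₁.card) := by rw [pow_mul]
      _ ≤ (Fintype.card F : ℝ) ^ m := pow_le_pow_right₀ hq (h1.trans hm)
  exact (pow_le_pow_iff_left₀ (by positivity) (by positivity) (by norm_num)).mp h2

/-- the sum over `D` for a fixed `E` -/
theorem asm1_fixed (C2 : ℝ) (w M : ℕ) (hC2 : 1 ≤ C2) (hw : C2 ^ 10 ≤ (Fintype.card F : ℝ) ^ w)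
    {m : ℕ} {E : Finset F[X]} (hE : E ∈ Sq F m) (y : ℝ) (hy : 0 ≤ y) :
    ∑ D ∈ (PR F w M).powerset.filter (fun D => 4 * dg D ≤ M),
      C2 ^ D.card * (1 / phi (PR F 0 w ∪ D) * (if E ⊆ PR F 0 w ∪ D then y else 0)) ≤
    (∏ P ∈ PR F 0 M, (1 + C2 / (nrm P - 1))) *
      ((Fintype.card F : ℝ) ^ ((m : ℝ) / 10) / phi E * y) := by
  have h0 : (0 : ℝ) ≤ C2 := zero_le_one.trans hC2
  have hEm : E ⊆ PR F 0 m := Finset.mem_powerset.mp (Finset.mem_filter.mp hE).1
  have hEd : dg E = m := (Finset.mem_filter.mp hE).2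
  have hpE : 0 < phi E := phi_pos (asm1_isPr hEm)
  have hpW : 0 < phi (PR F 0 w) := phi_pos (asm1_isPr (Finset.Subset.refl _))
  have hfac : ∀ P ∈ PR F 0 M, 1 ≤ 1 + C2 / (nrm P - 1) := by
    intro P hP
    have h1 := nrm_ge_two (mem_PR.mp hP).2.1
    have : 0 ≤ C2 / (nrm P - 1) := div_nonneg h0 (by linarith)
    linarith
  have hPi : 0 ≤ ∏ P ∈ PR F 0 M, (1 + C2 / (nrm P - 1)) :=
    Finset.prod_nonneg fun P hP => zero_le_one.trans (hfac P hP)
  have hrhs : 0 ≤ (∏ P ∈ PR F 0 M, (1 + C2 / (nrm P - 1))) *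
      ((Fintype.card F : ℝ) ^ ((m : ℝ) / 10) / phi E * y) := by
    refine mul_nonneg hPi (mul_nonneg ?_ hy)
    positivity
  have hsub : ∀ D : Finset F[X], E ⊆ PR F 0 w ∪ D ↔ E \ PR F 0 w ⊆ D := fun D => by
    constructor
    · intro h P hP
      rw [Finset.mem_sdiff] at hP
      exact (Finset.mem_union.mp (h hP.1)).resolve_left hP.2
    · intro h P hP
      by_cases hW : P ∈ PR F 0 w
      · exact Finset.mem_union_left _ hW
      · exact Finset.mem_union_right _ (h (Finset.mem_sdiff.mpr ⟨hP, hW⟩))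
  by_cases hV : E \ PR F 0 w ⊆ PR F w M
  · have hpE1 : 0 < phi (E \ PR F 0 w) := phi_pos (asm1_isPr hV)
    have hterm : ∀ D ∈ (PR F w M).powerset,
        C2 ^ D.card * (1 / phi (PR F 0 w ∪ D) * (if E ⊆ PR F 0 w ∪ D then y else 0)) =
        (if E \ PR F 0 w ⊆ D then y / phi (PR F 0 w) * ∏ P ∈ D, C2 / (nrm P - 1) else 0) := by
      intro D hD
      rw [Finset.mem_powerset] at hD
      have e1 : phi (PR F 0 w ∪ D) = phi (PR F 0 w) * phi D :=
        Finset.prod_union (asm1_disj hD)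
      have hpD : 0 < phi D := phi_pos (asm1_isPr hD)
      have e2 : ∏ P ∈ D, C2 / (nrm P - 1) = C2 ^ D.card / phi D := by
        rw [Finset.prod_div_distrib, Finset.prod_const]
        rfl
      by_cases hc : E \ PR F 0 w ⊆ D
      · rw [if_pos hc, if_pos ((hsub D).mpr hc), e1, e2]
        field_simp
      · rw [if_neg hc, if_neg (fun h => hc ((hsub D).mp h))]
        ring
    have hnn : ∀ D ∈ (PR F w M).powerset,
        0 ≤ (if E \ PR F 0 w ⊆ D then y / phi (PR F 0 w) * ∏ P ∈ D, C2 / (nrm P - 1) else 0) := by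
      intro D hD
      rw [Finset.mem_powerset] at hD
      split_ifs
      · refine mul_nonneg (div_nonneg hy hpW.le) (Finset.prod_nonneg fun P hP => ?_)
        have h1 := nrm_ge_two (mem_PR.mp (hD hP)).2.1
        exact div_nonneg h0 (by linarith)
      · exact le_rfl
    calc ∑ D ∈ (PR F w M).powerset.filter (fun D => 4 * dg D ≤ M),
          C2 ^ D.card * (1 / phi (PR F 0 w ∪ D) * (if E ⊆ PR F 0 w ∪ D then y else 0))
        = ∑ D ∈ (PR F w M).powerset.filter (fun D => 4 * dg D ≤ M),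
          (if E \ PR F 0 w ⊆ D then y / phi (PR F 0 w) * ∏ P ∈ D, C2 / (nrm P - 1) else 0) :=
          Finset.sum_congr rfl fun D hD => hterm D (Finset.mem_filter.mp hD).1
      _ ≤ ∑ D ∈ (PR F w M).powerset,
          (if E \ PR F 0 w ⊆ D then y / phi (PR F 0 w) * ∏ P ∈ D, C2 / (nrm P - 1) else 0) :=
          Finset.sum_le_sum_of_subset_of_nonneg (Finset.filter_subset _ _)
            (fun D hD _ => hnn D hD)
      _ = y / phi (PR F 0 w) * ((∏ P ∈ E \ PR F 0 w, C2 / (nrm P - 1)) *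
          ∏ P ∈ PR F w M \ (E \ PR F 0 w), (1 + C2 / (nrm P - 1))) := by
          rw [← Finset.sum_filter, ← Finset.mul_sum, asm1_sum_above hV]
      _ ≤ y / phi (PR F 0 w) * ((∏ P ∈ E \ PR F 0 w, C2 / (nrm P - 1)) *
          ∏ P ∈ PR F 0 M, (1 + C2 / (nrm P - 1))) := by
          have h1 : ∏ P ∈ PR F w M \ (E \ PR F 0 w), (1 + C2 / (nrm P - 1)) ≤
              ∏ P ∈ PR F 0 M, (1 + C2 / (nrm P - 1)) := by
            refine asm1_prod_mono (Finset.sdiff_subset.trans ?_) _ hfac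
            intro P hP
            have := mem_PR.mp hP
            exact mem_PR.mpr ⟨this.1, this.2.1, by omega, this.2.2.2⟩
          have h2 : 0 ≤ ∏ P ∈ E \ PR F 0 w, C2 / (nrm P - 1) := by
            refine Finset.prod_nonneg fun P hP => ?_
            have h1 := nrm_ge_two (mem_PR.mp (hV hP)).2.1
            exact div_nonneg h0 (by linarith)
          exact mul_le_mul_of_nonneg_left (mul_le_mul_of_nonneg_left h1 h2)
            (div_nonneg hy hpW.le)
      _ = (∏ P ∈ PR F 0 M, (1 + C2 / (nrm P - 1))) *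
          (C2 ^ (E \ PR F 0 w).card / (phi (PR F 0 w) * phi (E \ PR F 0 w)) * y) := by
          have e2 : ∏ P ∈ E \ PR F 0 w, C2 / (nrm P - 1) =
              C2 ^ (E \ PR F 0 w).card / phi (E \ PR F 0 w) := by
            rw [Finset.prod_div_distrib, Finset.prod_const]
            rfl
          rw [e2]
          field_simp
      _ ≤ (∏ P ∈ PR F 0 M, (1 + C2 / (nrm P - 1))) *
          ((Fintype.card F : ℝ) ^ ((m : ℝ) / 10) / phi E * y) := by
          refine mul_le_mul_of_nonneg_left (mul_le_mul_of_nonneg_right ?_ hy) hPi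
          have hd : dg (E \ PR F 0 w) ≤ m := by
            rw [← hEd]
            exact Finset.sum_le_sum_of_subset Finset.sdiff_subset
          have h1 := asm1_pow hC2 hw hV hd
          have h2 : phi E ≤ phi (PR F 0 w) * phi (E \ PR F 0 w) := by
            have e3 : phi E = phi (E ∩ PR F 0 w) * phi (E \ PR F 0 w) := by
              unfold phi
              rw [mul_comm, ← Finset.sdiff_inter_self_left E (PR F 0 w),
                Finset.prod_sdiff Finset.inter_subset_left]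
            rw [e3]
            refine mul_le_mul_of_nonneg_right ?_ hpE1.le
            refine asm1_prod_mono Finset.inter_subset_right _ fun P hP => ?_
            have := nrm_ge_two (mem_PR.mp hP).2.1
            linarith
          exact div_le_div₀ (by positivity) h1 hpE h2
  · have hzero : ∑ D ∈ (PR F w M).powerset.filter (fun D => 4 * dg D ≤ M),
      C2 ^ D.card * (1 / phi (PR F 0 w ∪ D) * (if E ⊆ PR F 0 w ∪ D then y else 0)) = 0 := by
      refine Finset.sum_eq_zero fun D hD => ?_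
      have hD' := Finset.mem_powerset.mp (Finset.mem_filter.mp hD).1
      rw [if_neg (fun h => hV (((hsub D).mp h).trans hD'))]
      ring
    rw [hzero]
    exact hrhs

theorem swap_sum (C2 : ℝ) (w M : ℕ) (hC2 : 1 ≤ C2) (hw : C2 ^ 10 ≤ (Fintype.card F : ℝ) ^ w)
    (hwM : w < M) (Y : Finset F[X] → ℝ) (hY : ∀ E, 0 ≤ Y E) :
    ∑ D ∈ (PR F w M).powerset.filter (fun D => 4 * dg D ≤ M),
      C2 ^ D.card * (1 / phi (PR F 0 w ∪ D) * ∑ E ∈ (PR F 0 w ∪ D).powerset.erase ∅, Y E) ≤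
    (∏ P ∈ PR F 0 M, (1 + C2 / (nrm P - 1))) *
      ∑ m ∈ Icc 1 (M / 4 + dg (PR F 0 w)), ∑ E ∈ Sq F m,
        (Fintype.card F : ℝ) ^ ((m : ℝ) / 10) / phi E * Y E := by
  have key : ∀ D ∈ (PR F w M).powerset.filter (fun D => 4 * dg D ≤ M),
      ∑ E ∈ (PR F 0 w ∪ D).powerset.erase ∅, Y E =
      ∑ m ∈ Icc 1 (M / 4 + dg (PR F 0 w)), ∑ E ∈ Sq F m,
        (if E ⊆ PR F 0 w ∪ D then Y E else 0) := by
    intro D hD
    have hD1 : D ⊆ PR F w M := Finset.mem_powerset.mp (Finset.mem_filter.mp hD).1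
    have hD2 : 4 * dg D ≤ M := (Finset.mem_filter.mp hD).2
    have hpos : ∀ P ∈ PR F 0 w ∪ D, P.Monic ∧ Irreducible P ∧ 0 < P.natDegree := by
      intro P hP
      rcases Finset.mem_union.mp hP with h | h
      · have := mem_PR.mp h
        exact ⟨this.1, this.2.1, this.2.2.1⟩
      · have := mem_PR.mp (hD1 h)
        exact ⟨this.1, this.2.1, by omega⟩
    rw [← Finset.sum_fiberwise_of_maps_to (g := dg) (t := Icc 1 (M / 4 + dg (PR F 0 w)))]
    · refine Finset.sum_congr rfl fun m hm => ?_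
      rw [← Finset.sum_filter]
      refine Finset.sum_congr ?_ fun _ _ => rfl
      ext E
      simp only [Finset.mem_filter, Finset.mem_erase, Finset.mem_powerset, Sq]
      constructor
      · rintro ⟨⟨hne, hsub⟩, hdg⟩
        refine ⟨⟨fun P hP => ?_, hdg⟩, hsub⟩
        have := hpos P (hsub hP)
        refine mem_PR.mpr ⟨this.1, this.2.1, this.2.2, ?_⟩
        rw [← hdg]
        exact Finset.single_le_sum (f := fun P : F[X] => P.natDegree)
          (fun _ _ => Nat.zero_le _) hP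
      · rintro ⟨⟨_, hdg⟩, hsub⟩
        refine ⟨⟨?_, hsub⟩, hdg⟩
        rintro rfl
        have h1 := (Finset.mem_Icc.mp hm).1
        simp [dg] at hdg
        omega
    · intro E hE
      rw [Finset.mem_erase, Finset.mem_powerset] at hE
      obtain ⟨P, hP⟩ := Finset.nonempty_iff_ne_empty.mpr hE.1
      rw [Finset.mem_Icc]
      constructor
      · have h1 := (hpos P (hE.2 hP)).2.2
        have h2 : P.natDegree ≤ dg E :=
          Finset.single_le_sum (f := fun P : F[X] => P.natDegree) (fun _ _ => Nat.zero_le _) hP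
        omega
      · have h1 : dg E ≤ dg (PR F 0 w ∪ D) := Finset.sum_le_sum_of_subset hE.2
        have h2 : dg (PR F 0 w ∪ D) = dg (PR F 0 w) + dg D :=
          Finset.sum_union (asm1_disj hD1)
        omega
  rw [Finset.sum_congr rfl (fun D hD => by rw [key D hD])]
  have hswap : ∑ D ∈ (PR F w M).powerset.filter (fun D => 4 * dg D ≤ M),
      C2 ^ D.card * (1 / phi (PR F 0 w ∪ D) * ∑ m ∈ Icc 1 (M / 4 + dg (PR F 0 w)), ∑ E ∈ Sq F m,
        (if E ⊆ PR F 0 w ∪ D then Y E else 0)) =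
      ∑ m ∈ Icc 1 (M / 4 + dg (PR F 0 w)), ∑ E ∈ Sq F m,
        ∑ D ∈ (PR F w M).powerset.filter (fun D => 4 * dg D ≤ M),
          C2 ^ D.card * (1 / phi (PR F 0 w ∪ D) * (if E ⊆ PR F 0 w ∪ D then Y E else 0)) := by
    simp only [Finset.mul_sum]
    rw [Finset.sum_comm]
    refine Finset.sum_congr rfl fun m _ => ?_
    rw [Finset.sum_comm]
  rw [hswap, Finset.mul_sum]
  refine Finset.sum_le_sum fun m _ => ?_
  rw [Finset.mul_sum]
  exact Finset.sum_le_sum fun E hE => asm1_fixed C2 w M hC2 hw hE (Y E) (hY E)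

end Pool.Agent.H81.FF
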