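import Pool.Agent.H81.FF.Asm1

/-! # FF-D24 Assembly 2: the two ranges of conductors  (MP_a1f59e_nt, project FF, block D)

`Y E = ∑ χ ∈ prs E, ‖∑ n ∈ irrs F M, χ n‖`. By `prime_sum_le`: `‖∑ n ∈ irrs F M, χ n‖ ≤ ‖Ps χ M‖ + 2 q^(M/2)`.
`small_range` (`m ≤ B log M`, `M` good): `Y E ≤ phi E (q^M / M^A + 2 q^(M/2))` (`card_prs_le`), `#(Sq F m) ≤ q^m`
(`pp` injective into `Mn F m`).
`large_range`: `1/phi E ≤ q^(-m) e² M²` (`phi_lower`, `m ≤ M`), `bilin`, and `∑_E #(prs E) ≤ q^m q^m`.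
-/

set_option autoImplicit false

namespace Pool.Agent.H81.FF

open Polynomial Finset Pool.Agent.H10.FF
open scoped Classical

variable {F : Type} [Field F] [Fintype F]

theorem card_Sq_le (m : ℕ) : (Sq F m).card ≤ Fintype.card F ^ m := by
  rw [← card_Mn (F := F) m]
  refine Finset.card_le_card_of_injOn pp ?_ ?_
  · intro E hE
    have h := mem_Sq.1 (Finset.mem_coe.1 hE)
    exact Finset.mem_coe.2 (mem_Mn.2 ⟨pp_monic h.1, by rw [natDegree_pp h.1, h.2]⟩)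
  · intro D hD E hE h
    exact pp_injOn (mem_Sq.1 (Finset.mem_coe.1 hD)).1 (mem_Sq.1 (Finset.mem_coe.1 hE)).1 h

theorem prime_sum_bd {E : Finset F[X]} (hE : IsPr E) {χ : F[X] → ℂ} (hχ : χ ∈ prs E) {M : ℕ} (hM : 1 ≤ M) :
    ‖∑ n ∈ irrs F M, χ n‖ ≤ ‖Ps χ M‖ + 2 * (Fintype.card F : ℝ) ^ (M / 2) := by
  have h1 := prime_sum_le (IsCh.norm_le (pp_monic hE) (prs_isCh hE hχ)) M
  have hM1 : (1 : ℝ) ≤ M := by exact_mod_cast hM
  have h2 : ‖(M : ℂ) * ∑ P ∈ irrs F M, χ P‖ ≤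
      ‖Ps χ M‖ + ‖Ps χ M - (M : ℂ) * ∑ P ∈ irrs F M, χ P‖ := by
    have h3 := norm_sub_le (Ps χ M) (Ps χ M - (M : ℂ) * ∑ P ∈ irrs F M, χ P)
    rwa [sub_sub_cancel] at h3
  rw [norm_mul, Complex.norm_natCast] at h2
  have h4 : ‖∑ P ∈ irrs F M, χ P‖ ≤ (M : ℝ) * ‖∑ P ∈ irrs F M, χ P‖ :=
    le_mul_of_one_le_left (norm_nonneg _) hM1
  linarith

theorem small_range (A B : ℝ) (M m : ℕ) (hM : 1 ≤ M) (hm : 1 ≤ m) (hmB : (m : ℝ) ≤ B * Real.log M)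
    (hgood : ∀ E : Finset F[X], IsPr E → E.Nonempty → (dg E : ℝ) ≤ B * Real.log M → ∀ χ ∈ prs E,
      ‖Ps χ M‖ ≤ (Fintype.card F : ℝ) ^ M / (M : ℝ) ^ A) :
    ∑ E ∈ Sq F m, (Fintype.card F : ℝ) ^ ((m : ℝ) / 10) / phi E * ∑ χ ∈ prs E, ‖∑ n ∈ irrs F M, χ n‖ ≤
      (Fintype.card F : ℝ) ^ (11 * (m : ℝ) / 10) *
        ((Fintype.card F : ℝ) ^ M / (M : ℝ) ^ A + 2 * (Fintype.card F : ℝ) ^ (M / 2)) := by
  have hq : (1 : ℝ) < Fintype.card F := by exact_mod_cast one_lt_card (F := F)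
  have hq0 : (0 : ℝ) < Fintype.card F := by linarith
  set Z : ℝ := (Fintype.card F : ℝ) ^ M / (M : ℝ) ^ A + 2 * (Fintype.card F : ℝ) ^ (M / 2) with hZ
  have hZ0 : 0 ≤ Z := by positivity
  have hterm : ∀ E ∈ Sq F m, (Fintype.card F : ℝ) ^ ((m : ℝ) / 10) / phi E *
      ∑ χ ∈ prs E, ‖∑ n ∈ irrs F M, χ n‖ ≤ (Fintype.card F : ℝ) ^ ((m : ℝ) / 10) * Z := by
    intro E hE
    obtain ⟨hE1, hE2⟩ := mem_Sq.1 hE
    have hne : E.Nonempty := by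
      rw [Finset.nonempty_iff_ne_empty]
      rintro rfl
      simp only [dg, Finset.sum_empty] at hE2
      omega
    have hphi := phi_pos hE1
    have h1 : ∑ χ ∈ prs E, ‖∑ n ∈ irrs F M, χ n‖ ≤ phi E * Z := by
      calc ∑ χ ∈ prs E, ‖∑ n ∈ irrs F M, χ n‖ ≤ ∑ χ ∈ prs E, Z := by
            refine Finset.sum_le_sum fun χ hχ => ?_
            have h2 := prime_sum_bd hE1 hχ hM
            have h3 := hgood E hE1 hne (by rw [hE2]; exact hmB) χ hχ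
            rw [hZ]
            linarith
        _ = ((prs E).card : ℝ) * Z := by rw [Finset.sum_const, nsmul_eq_mul]
        _ ≤ phi E * Z := mul_le_mul_of_nonneg_right (card_prs_le hE1) hZ0
    calc (Fintype.card F : ℝ) ^ ((m : ℝ) / 10) / phi E * ∑ χ ∈ prs E, ‖∑ n ∈ irrs F M, χ n‖
        ≤ (Fintype.card F : ℝ) ^ ((m : ℝ) / 10) / phi E * (phi E * Z) :=
          mul_le_mul_of_nonneg_left h1 (by positivity)
      _ = (Fintype.card F : ℝ) ^ ((m : ℝ) / 10) * Z := by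
          field_simp
  have hcard : ((Sq F m).card : ℝ) ≤ (Fintype.card F : ℝ) ^ (m : ℝ) := by
    rw [Real.rpow_natCast]
    exact_mod_cast card_Sq_le (F := F) m
  calc ∑ E ∈ Sq F m, (Fintype.card F : ℝ) ^ ((m : ℝ) / 10) / phi E *
        ∑ χ ∈ prs E, ‖∑ n ∈ irrs F M, χ n‖
      ≤ ∑ E ∈ Sq F m, (Fintype.card F : ℝ) ^ ((m : ℝ) / 10) * Z := Finset.sum_le_sum hterm
    _ = ((Sq F m).card : ℝ) * ((Fintype.card F : ℝ) ^ ((m : ℝ) / 10) * Z) := by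
        rw [Finset.sum_const, nsmul_eq_mul]
    _ ≤ (Fintype.card F : ℝ) ^ (m : ℝ) * ((Fintype.card F : ℝ) ^ ((m : ℝ) / 10) * Z) :=
        mul_le_mul_of_nonneg_right hcard (by positivity)
    _ = (Fintype.card F : ℝ) ^ (11 * (m : ℝ) / 10) * Z := by
        rw [← mul_assoc, ← Real.rpow_add hq0]
        congr 2
        ring

theorem large_range (M m : ℕ) (hM : 100 ≤ M) (hm : 1 ≤ m) (hm2 : 100 * m ≤ 27 * M) :
    ∑ E ∈ Sq F m, (Fintype.card F : ℝ) ^ ((m : ℝ) / 10) / phi E * ∑ χ ∈ prs E, ‖∑ n ∈ irrs F M, χ n‖ ≤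
      Real.exp 2 * (M : ℝ) ^ 2 * (4 * (M : ℝ) ^ 7 *
        ((Fintype.card F : ℝ) ^ ((M : ℝ) - 9 * m / 10) + (Fintype.card F : ℝ) ^ (9 * (M : ℝ) / 10))) := by
  have hq : (1 : ℝ) < Fintype.card F := by exact_mod_cast one_lt_card (F := F)
  have hq0 : (0 : ℝ) < Fintype.card F := by linarith
  set q : ℝ := (Fintype.card F : ℝ) with hqdef
  have hMr : (100 : ℝ) ≤ M := by exact_mod_cast hM
  have hmr : (1 : ℝ) ≤ m := by exact_mod_cast hm
  have hm2r : 100 * (m : ℝ) ≤ 27 * M := by exact_mod_cast hm2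
  have hmM : m ≤ M := by omega
  set W : ℝ := Real.exp 2 * (M : ℝ) ^ 2 with hW
  have hW0 : 0 < W := by positivity
  -- the weights
  have hterm : ∀ E ∈ Sq F m, q ^ ((m : ℝ) / 10) / phi E *
      ∑ χ ∈ prs E, ‖∑ n ∈ irrs F M, χ n‖ ≤ W * q ^ (-(9 * (m : ℝ) / 10)) *
        ∑ χ ∈ prs E, ‖∑ n ∈ irrs F M, χ n‖ := by
    intro E hE
    obtain ⟨hE1, hE2⟩ := mem_Sq.1 hE
    have hphi := phi_pos hE1
    have hsub : E ⊆ PR F 0 M := by
      intro P hP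
      have h1 := hE1 P hP
      have h2 : P.natDegree ≤ dg E :=
        Finset.single_le_sum (f := fun P : F[X] => P.natDegree) (fun _ _ => Nat.zero_le _) hP
      exact mem_PR.2 ⟨h1.1, h1.2, h1.2.natDegree_pos, by omega⟩
    have h3 := phi_lower (by omega : 1 ≤ M) hsub
    rw [hE2] at h3
    refine mul_le_mul_of_nonneg_right ?_ (Finset.sum_nonneg fun _ _ => norm_nonneg _)
    rw [div_le_iff₀ hphi]
    have h4 : q ^ ((m : ℝ) / 10) = q ^ (-(9 * (m : ℝ) / 10)) * q ^ m := by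
      rw [← Real.rpow_natCast q m, ← Real.rpow_add hq0]
      congr 1
      ring
    rw [h4]
    calc q ^ (-(9 * (m : ℝ) / 10)) * q ^ m ≤ q ^ (-(9 * (m : ℝ) / 10)) * (phi E * W) :=
          mul_le_mul_of_nonneg_left h3 (by positivity)
      _ = W * q ^ (-(9 * (m : ℝ) / 10)) * phi E := by ring
  -- the total
  have hcardE : ∀ E ∈ Sq F m, ((prs E).card : ℝ) ≤ q ^ m := by
    intro E hE
    obtain ⟨hE1, hE2⟩ := mem_Sq.1 hE
    have h1 := phi_le hE1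
    rw [hE2] at h1
    exact (card_prs_le hE1).trans h1
  have hcard : ((Sq F m).card : ℝ) ≤ q ^ m := by
    rw [hqdef]
    exact_mod_cast card_Sq_le (F := F) m
  have htot : ∑ E ∈ Sq F m, ∑ χ ∈ prs E, ‖∑ n ∈ irrs F M, χ n‖ ≤
      (m : ℝ) ^ 4 * ((M + 1 : ℕ) : ℝ) ^ 3 * (q ^ M + q ^ (17 * M / 20 + 1 + m)) +
        q ^ m * (q ^ m * (2 * q ^ (M / 2))) := by
    calc ∑ E ∈ Sq F m, ∑ χ ∈ prs E, ‖∑ n ∈ irrs F M, χ n‖
        ≤ ∑ E ∈ Sq F m, ∑ χ ∈ prs E, (‖Ps χ M‖ + 2 * q ^ (M / 2)) := by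
          refine Finset.sum_le_sum fun E hE => Finset.sum_le_sum fun χ hχ => ?_
          exact prime_sum_bd (mem_Sq.1 hE).1 hχ (by omega)
      _ = ∑ E ∈ Sq F m, ∑ χ ∈ prs E, ‖Ps χ M‖ +
            ∑ E ∈ Sq F m, ((prs E).card : ℝ) * (2 * q ^ (M / 2)) := by
          simp only [Finset.sum_add_distrib, Finset.sum_const, nsmul_eq_mul]
      _ ≤ (m : ℝ) ^ 4 * ((M + 1 : ℕ) : ℝ) ^ 3 * (q ^ M + q ^ (17 * M / 20 + 1 + m)) +
            q ^ m * (q ^ m * (2 * q ^ (M / 2))) := by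
          refine add_le_add (bilin m M hm hm2 hM) ?_
          calc ∑ E ∈ Sq F m, ((prs E).card : ℝ) * (2 * q ^ (M / 2))
              ≤ ∑ E ∈ Sq F m, q ^ m * (2 * q ^ (M / 2)) :=
                Finset.sum_le_sum fun E hE =>
                  mul_le_mul_of_nonneg_right (hcardE E hE) (by positivity)
            _ = ((Sq F m).card : ℝ) * (q ^ m * (2 * q ^ (M / 2))) := by
                rw [Finset.sum_const, nsmul_eq_mul]
            _ ≤ q ^ m * (q ^ m * (2 * q ^ (M / 2))) :=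
                mul_le_mul_of_nonneg_right hcard (by positivity)
  -- numerical
  have hpoly : (m : ℝ) ^ 4 * ((M + 1 : ℕ) : ℝ) ^ 3 ≤ (M : ℝ) ^ 7 := by
    have h1 : (m : ℝ) ≤ 27 / 100 * M := by linarith
    have h2 : ((M + 1 : ℕ) : ℝ) ≤ 101 / 100 * M := by
      push_cast
      linarith
    calc (m : ℝ) ^ 4 * ((M + 1 : ℕ) : ℝ) ^ 3 ≤ (27 / 100 * M) ^ 4 * (101 / 100 * M) ^ 3 := by
          gcongr
      _ = ((27 / 100) ^ 4 * (101 / 100) ^ 3) * (M : ℝ) ^ 7 := by ring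
      _ ≤ 1 * (M : ℝ) ^ 7 := by
          refine mul_le_mul_of_nonneg_right (by norm_num) (by positivity)
      _ = (M : ℝ) ^ 7 := one_mul _
  have e1 : q ^ (-(9 * (m : ℝ) / 10)) * q ^ M = q ^ ((M : ℝ) - 9 * m / 10) := by
    rw [← Real.rpow_natCast q M, ← Real.rpow_add hq0]
    congr 1
    ring
  have e2 : q ^ (-(9 * (m : ℝ) / 10)) * q ^ (17 * M / 20 + 1 + m) ≤ q ^ (9 * (M : ℝ) / 10) := by
    rw [← Real.rpow_natCast q (17 * M / 20 + 1 + m), ← Real.rpow_add hq0]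
    refine Real.rpow_le_rpow_of_exponent_le hq.le ?_
    have h1 : ((17 * M / 20 : ℕ) : ℝ) ≤ 17 * M / 20 := by
      have := Nat.cast_div_le (α := ℝ) (m := 17 * M) (n := 20)
      push_cast at this ⊢
      exact this
    push_cast
    linarith
  have e3 : q ^ (-(9 * (m : ℝ) / 10)) * (q ^ m * (q ^ m * (2 * q ^ (M / 2)))) ≤
      2 * q ^ (9 * (M : ℝ) / 10) := by
    have h0 : q ^ (-(9 * (m : ℝ) / 10)) * (q ^ m * (q ^ m * (2 * q ^ (M / 2)))) =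
        2 * (q ^ (-(9 * (m : ℝ) / 10)) * q ^ (m + m + M / 2)) := by
      rw [pow_add, pow_add]
      ring
    rw [h0, ← Real.rpow_natCast q (m + m + M / 2), ← Real.rpow_add hq0]
    refine mul_le_mul_of_nonneg_left ?_ (by norm_num)
    refine Real.rpow_le_rpow_of_exponent_le hq.le ?_
    have h1 : ((M / 2 : ℕ) : ℝ) ≤ M / 2 := by
      have := Nat.cast_div_le (α := ℝ) (m := M) (n := 2)
      push_cast at this ⊢
      exact this
    push_cast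
    linarith
  have hM7 : (1 : ℝ) ≤ (M : ℝ) ^ 7 := one_le_pow₀ (by linarith)
  calc ∑ E ∈ Sq F m, q ^ ((m : ℝ) / 10) / phi E * ∑ χ ∈ prs E, ‖∑ n ∈ irrs F M, χ n‖
      ≤ ∑ E ∈ Sq F m, W * q ^ (-(9 * (m : ℝ) / 10)) *
          ∑ χ ∈ prs E, ‖∑ n ∈ irrs F M, χ n‖ := Finset.sum_le_sum hterm
    _ = W * (q ^ (-(9 * (m : ℝ) / 10)) *
          ∑ E ∈ Sq F m, ∑ χ ∈ prs E, ‖∑ n ∈ irrs F M, χ n‖) := by
        rw [← Finset.mul_sum, mul_assoc]
    _ ≤ W * (q ^ (-(9 * (m : ℝ) / 10)) *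
          ((m : ℝ) ^ 4 * ((M + 1 : ℕ) : ℝ) ^ 3 * (q ^ M + q ^ (17 * M / 20 + 1 + m)) +
            q ^ m * (q ^ m * (2 * q ^ (M / 2))))) := by
        refine mul_le_mul_of_nonneg_left ?_ hW0.le
        exact mul_le_mul_of_nonneg_left htot (by positivity)
    _ = W * ((m : ℝ) ^ 4 * ((M + 1 : ℕ) : ℝ) ^ 3 *
          (q ^ (-(9 * (m : ℝ) / 10)) * q ^ M +
            q ^ (-(9 * (m : ℝ) / 10)) * q ^ (17 * M / 20 + 1 + m)) +
          q ^ (-(9 * (m : ℝ) / 10)) * (q ^ m * (q ^ m * (2 * q ^ (M / 2))))) := by ring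
    _ ≤ W * ((M : ℝ) ^ 7 * (q ^ ((M : ℝ) - 9 * m / 10) + q ^ (9 * (M : ℝ) / 10)) +
          2 * q ^ (9 * (M : ℝ) / 10)) := by
        refine mul_le_mul_of_nonneg_left ?_ hW0.le
        rw [e1]
        refine add_le_add ?_ e3
        refine mul_le_mul hpoly ?_ (by positivity) (by positivity)
        exact add_le_add le_rfl e2
    _ ≤ W * (4 * (M : ℝ) ^ 7 * (q ^ ((M : ℝ) - 9 * m / 10) + q ^ (9 * (M : ℝ) / 10))) := by
        refine mul_le_mul_of_nonneg_left ?_ hW0.le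
        have hA : 0 ≤ q ^ ((M : ℝ) - 9 * m / 10) := by positivity
        have hB : 0 ≤ q ^ (9 * (M : ℝ) / 10) := by positivity
        nlinarith [mul_nonneg (sub_nonneg.2 hM7) hA, mul_nonneg (sub_nonneg.2 hM7) hB]

end Pool.Agent.H81.FF
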