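import Pool.Agent.H81.FF.Defs

/-! # FF-D01 Basic counting in `F[X]`  (MP_a1f59e_nt, project FF, block D)

All statements elementary. `pol v` is the polynomial with coefficient vector `v : Fin n → F`
(injective in `v`; its image is the set of polynomials of degree `< n`, see `Polynomial.degreeLTEquiv`,
`Polynomial.as_sum_range'`). For `d` monic of degree `m ≤ n` the map
`(a, b) ↦ a * d + b` from `Gn (n-m) × Gn m` to `Gn n` is a bijection (`divByMonic`, `modByMonic`).
-/

set_option autoImplicit false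

namespace Pool.Agent.H81.FF

open Polynomial Finset Pool.Agent.H10.FF
open scoped Classical

variable {F : Type} [Field F] [Fintype F]

theorem basic_coeff {n : ℕ} (v : Fin n → F) (k : ℕ) :
    (pol v).coeff k = if h : k < n then v ⟨k, h⟩ else 0 := by
  unfold pol
  rw [finset_sum_coeff]
  simp only [coeff_C_mul_X_pow]
  split_ifs with h
  · rw [Finset.sum_eq_single (⟨k, h⟩ : Fin n)]
    · simp
    · intro b _ hb
      rw [if_neg]
      intro hk
      exact hb (Fin.ext hk.symm)
    · intro h1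
      exact absurd (Finset.mem_univ _) h1
  · refine Finset.sum_eq_zero fun b _ => ?_
    rw [if_neg]
    intro hk
    exact h (hk ▸ b.2)

theorem basic_degree_lt {n : ℕ} (v : Fin n → F) : (pol v).degree < n := by
  rw [degree_lt_iff_coeff_zero]
  intro m hm
  rw [basic_coeff, dif_neg (not_lt.2 hm)]

theorem basic_inj (n : ℕ) : Function.Injective (fun v : Fin n → F => pol v) := by
  intro v w h
  funext i
  have h1 := congrArg (fun f : F[X] => f.coeff (i : ℕ)) h
  simp only [basic_coeff] at h1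
  rw [dif_pos i.2, dif_pos i.2] at h1
  exact h1

theorem basic_exists {n : ℕ} {f : F[X]} (hf : f.degree < n) : ∃ v : Fin n → F, pol v = f := by
  refine ⟨fun i => f.coeff i, ?_⟩
  ext k
  rw [basic_coeff]
  split_ifs with h
  · rfl
  · rw [degree_lt_iff_coeff_zero] at hf
    exact (hf k (not_lt.1 h)).symm

theorem mem_Gn {n : ℕ} {f : F[X]} : f ∈ Gn F n ↔ f.degree < n := by
  unfold Gn
  rw [Finset.mem_image]
  constructor
  · rintro ⟨v, _, rfl⟩
    exact basic_degree_lt v
  · intro h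
    obtain ⟨v, hv⟩ := basic_exists h
    exact ⟨v, Finset.mem_univ _, hv⟩

theorem mem_Mn {n : ℕ} {f : F[X]} : f ∈ Mn F n ↔ f.Monic ∧ f.natDegree = n := by
  unfold Mn
  rw [Finset.mem_image]
  constructor
  · rintro ⟨v, _, rfl⟩
    exact ⟨monic_X_pow_add (basic_degree_lt v),
      natDegree_eq_of_degree_eq_some ((degree_add_eq_left_of_degree_lt
        (by rw [degree_X_pow]; exact basic_degree_lt v)).trans (degree_X_pow n))⟩
  · rintro ⟨hm, hn⟩
    have h1 : (f - X ^ n).degree < (n : WithBot ℕ) := by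
      rw [degree_lt_iff_coeff_zero]
      intro m hm'
      rw [coeff_sub, coeff_X_pow]
      rcases hm'.eq_or_lt with h | h
      · rw [if_pos h.symm, ← h, ← hn]
        rw [show f.coeff f.natDegree = 1 from hm, sub_self]
      · rw [if_neg h.ne', coeff_eq_zero_of_natDegree_lt (hn ▸ h), sub_zero]
    obtain ⟨v, hv⟩ := basic_exists h1
    refine ⟨v, Finset.mem_univ _, ?_⟩
    rw [hv]
    ring

theorem card_Gn (n : ℕ) : (Gn F n).card = Fintype.card F ^ n := by
  unfold Gn
  rw [Finset.card_image_of_injective _ (basic_inj n), Finset.card_univ]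
  simp

theorem card_Mn (n : ℕ) : (Mn F n).card = Fintype.card F ^ n := by
  unfold Mn
  rw [Finset.card_image_of_injective, Finset.card_univ]
  · simp
  · intro v w h
    exact basic_inj n (add_left_cancel h)

theorem mem_irrs {n : ℕ} {f : F[X]} : f ∈ irrs F n ↔ f.Monic ∧ Irreducible f ∧ f.natDegree = n := by
  have h1 : irrs F n = (Mn F n).filter Irreducible := rfl
  rw [h1, Finset.mem_filter, mem_Mn]
  tauto

theorem mem_PR {w R : ℕ} {f : F[X]} :
    f ∈ PR F w R ↔ f.Monic ∧ Irreducible f ∧ w < f.natDegree ∧ f.natDegree ≤ R := by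
  unfold PR
  rw [Finset.mem_biUnion]
  constructor
  · rintro ⟨n, hn, hf⟩
    rw [mem_irrs] at hf
    rw [Finset.mem_Ioc] at hn
    obtain ⟨h1, h2, h3⟩ := hf
    exact ⟨h1, h2, h3 ▸ hn.1, h3 ▸ hn.2⟩
  · rintro ⟨h1, h2, h3, h4⟩
    exact ⟨f.natDegree, Finset.mem_Ioc.2 ⟨h3, h4⟩, mem_irrs.2 ⟨h1, h2, rfl⟩⟩

theorem sum_Mn_shift {α : Type} [AddCommMonoid α] (n : ℕ) (h : F[X] → α) :
    ∑ f ∈ Mn F n, h f = ∑ g ∈ Gn F n, h (X ^ n + g) := by
  unfold Mn Gn
  rw [Finset.sum_image, Finset.sum_image]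
  · intro v _ w _ hvw
    exact basic_inj n hvw
  · intro v _ w _ hvw
    exact basic_inj n (add_left_cancel hvw)

theorem basic_mod_eq {d x y : F[X]} (hd : d.Monic) (h : d ∣ x - y) (hy : y.degree < d.degree) :
    x %ₘ d = y := by
  obtain ⟨c, hc⟩ := h
  refine (div_modByMonic_unique c y hd ⟨?_, hy⟩).2
  rw [← hc]
  ring

theorem basic_dvd_mod (d x : F[X]) : d ∣ x - x %ₘ d := by
  refine ⟨x /ₘ d, ?_⟩
  have h := modByMonic_add_div x d
  linear_combination -h

theorem basic_deg {d : F[X]} (hd : d.Monic) : d.degree = (d.natDegree : WithBot ℕ) :=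
  degree_eq_natDegree hd.ne_zero

/-- equidistribution of `Gn` mod `d` -/
theorem sum_class_Gn {d : F[X]} (hd : d.Monic) {n : ℕ} (hn : d.natDegree ≤ n) (h : F[X] → ℂ)
    (hp : ∀ f g, d ∣ f - g → h f = h g) :
    ∑ f ∈ Gn F n, h f = (Fintype.card F : ℂ) ^ (n - d.natDegree) * ∑ f ∈ Gn F d.natDegree, h f := by
  have hdd := basic_deg hd
  have h1 : ∑ f ∈ Gn F n, h f =
      ∑ p ∈ Gn F (n - d.natDegree) ×ˢ Gn F d.natDegree, h p.2 := by
    symm
    refine Finset.sum_bij' (fun p _ => p.1 * d + p.2) (fun f _ => (f /ₘ d, f %ₘ d)) ?_ ?_ ?_ ?_ ?_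
    · intro p hp
      rw [Finset.mem_product, mem_Gn, mem_Gn] at hp
      rw [mem_Gn]
      refine lt_of_le_of_lt (degree_add_le _ _) (max_lt ?_ ?_)
      · rw [degree_mul, hdd]
        have h2 : ((n - d.natDegree : ℕ) : WithBot ℕ) + (d.natDegree : WithBot ℕ) = (n : WithBot ℕ) := by
          rw [← Nat.cast_add, Nat.sub_add_cancel hn]
        rw [← h2]
        exact WithBot.add_lt_add_right (WithBot.coe_ne_bot) hp.1
      · exact lt_of_lt_of_le hp.2 (by exact_mod_cast hn)
    · intro f hf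
      rw [mem_Gn] at hf
      rw [Finset.mem_product, mem_Gn, mem_Gn]
      refine ⟨?_, ?_⟩
      · show (f /ₘ d).degree < ((n - d.natDegree : ℕ) : WithBot ℕ)
        by_cases hlt : f.degree < d.degree
        · rw [(divByMonic_eq_zero_iff hd).2 hlt, degree_zero]
          exact WithBot.bot_lt_coe _
        · have h3 := degree_add_divByMonic hd (not_lt.1 hlt)
          have hne : f /ₘ d ≠ 0 := fun h0 => hlt ((divByMonic_eq_zero_iff hd).1 h0)
          rw [hdd, degree_eq_natDegree hne] at h3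
          rw [← h3, ← Nat.cast_add, Nat.cast_lt] at hf
          rw [degree_eq_natDegree hne, Nat.cast_lt]
          omega
      · show (f %ₘ d).degree < _
        rw [← hdd]
        exact degree_modByMonic_lt f hd
    · intro p hp
      rw [Finset.mem_product, mem_Gn, mem_Gn] at hp
      have h4 := div_modByMonic_unique (f := p.1 * d + p.2) p.1 p.2 hd ⟨by ring, by rw [hdd]; exact hp.2⟩
      exact Prod.ext h4.1 h4.2
    · intro f _
      show f /ₘ d * d + f %ₘ d = f
      have h5 := modByMonic_add_div f d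
      linear_combination h5
    · intro p _
      refine hp _ _ ⟨-p.1, ?_⟩
      ring
  rw [h1, Finset.sum_product]
  simp only [Finset.sum_const, card_Gn, nsmul_eq_mul]
  push_cast
  rfl

/-- translation permutes the classes -/
theorem basic_sum_add_Gn {d : F[X]} (hd : d.Monic) (u : F[X]) (h : F[X] → ℂ)
    (hp : ∀ f g, d ∣ f - g → h f = h g) :
    ∑ f ∈ Gn F d.natDegree, h (f + u) = ∑ f ∈ Gn F d.natDegree, h f := by
  have hdd := basic_deg hd
  refine Finset.sum_bij' (fun f _ => (f + u) %ₘ d) (fun f _ => (f - u) %ₘ d) ?_ ?_ ?_ ?_ ?_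
  · intro f _
    rw [mem_Gn, ← hdd]
    exact degree_modByMonic_lt _ hd
  · intro f _
    rw [mem_Gn, ← hdd]
    exact degree_modByMonic_lt _ hd
  · intro f hf
    rw [mem_Gn, ← hdd] at hf
    refine basic_mod_eq hd ?_ hf
    have h1 := basic_dvd_mod d (f + u)
    have h2 : (f + u) %ₘ d - u - f = -((f + u) - (f + u) %ₘ d) := by ring
    rw [h2]
    exact (dvd_neg).2 h1
  · intro f hf
    rw [mem_Gn, ← hdd] at hf
    refine basic_mod_eq hd ?_ hf
    have h1 := basic_dvd_mod d (f - u)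
    have h2 : (f - u) %ₘ d + u - f = -((f - u) - (f - u) %ₘ d) := by ring
    rw [h2]
    exact (dvd_neg).2 h1
  · intro f _
    exact hp _ _ (basic_dvd_mod d (f + u))

/-- equidistribution of `Mn` mod `d` -/
theorem sum_class_Mn {d : F[X]} (hd : d.Monic) {n : ℕ} (hn : d.natDegree ≤ n) (h : F[X] → ℂ)
    (hp : ∀ f g, d ∣ f - g → h f = h g) :
    ∑ f ∈ Mn F n, h f = (Fintype.card F : ℂ) ^ (n - d.natDegree) * ∑ f ∈ Gn F d.natDegree, h f := by
  rw [sum_Mn_shift, sum_class_Gn hd hn (fun g => h (X ^ n + g))]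
  · congr 1
    rw [← basic_sum_add_Gn hd (X ^ n) h hp]
    refine Finset.sum_congr rfl fun f _ => ?_
    rw [add_comm]
  · intro f g hfg
    refine hp _ _ ?_
    rw [add_sub_add_left_eq_sub]
    exact hfg

/-- multiplication by a unit mod `d` permutes the classes -/
theorem sum_mul_Gn {d : F[X]} (hd : d.Monic) {u : F[X]} (hu : IsCoprime u d) (h : F[X] → ℂ)
    (hp : ∀ f g, d ∣ f - g → h f = h g) :
    ∑ f ∈ Gn F d.natDegree, h (u * f) = ∑ f ∈ Gn F d.natDegree, h f := by
  have hdd := basic_deg hd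
  obtain ⟨a, b, hab⟩ := hu
  refine Finset.sum_bij' (fun f _ => (u * f) %ₘ d) (fun f _ => (a * f) %ₘ d) ?_ ?_ ?_ ?_ ?_
  · intro f _
    rw [mem_Gn, ← hdd]
    exact degree_modByMonic_lt _ hd
  · intro f _
    rw [mem_Gn, ← hdd]
    exact degree_modByMonic_lt _ hd
  · intro f hf
    rw [mem_Gn, ← hdd] at hf
    refine basic_mod_eq hd ?_ hf
    have h1 := basic_dvd_mod d (u * f)
    have h2 : a * ((u * f) %ₘ d) - f = -(a * ((u * f) - (u * f) %ₘ d)) - d * (b * f) := by
      linear_combination f * hab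
    rw [h2]
    exact dvd_sub ((dvd_neg).2 (Dvd.dvd.mul_left h1 a)) (dvd_mul_right _ _)
  · intro f hf
    rw [mem_Gn, ← hdd] at hf
    refine basic_mod_eq hd ?_ hf
    have h1 := basic_dvd_mod d (a * f)
    have h2 : u * ((a * f) %ₘ d) - f = -(u * ((a * f) - (a * f) %ₘ d)) - d * (b * f) := by
      linear_combination f * hab
    rw [h2]
    exact dvd_sub ((dvd_neg).2 (Dvd.dvd.mul_left h1 u)) (dvd_mul_right _ _)
  · intro f _
    exact hp _ _ (basic_dvd_mod d (u * f))

/-- translation permutes the classes -/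
theorem sum_add_Gn {d : F[X]} (hd : d.Monic) (u : F[X]) (h : F[X] → ℂ)
    (hp : ∀ f g, d ∣ f - g → h f = h g) :
    ∑ f ∈ Gn F d.natDegree, h (f + u) = ∑ f ∈ Gn F d.natDegree, h f :=
  basic_sum_add_Gn hd u h hp

/-- multiples of a monic `g` -/
theorem sum_dvd {α : Type} [AddCommMonoid α] {g : F[X]} (hg : g.Monic) {n : ℕ} (hn : g.natDegree ≤ n)
    (h : F[X] → α) :
    ∑ f ∈ (Mn F n).filter (fun f => g ∣ f), h f = ∑ f ∈ Mn F (n - g.natDegree), h (g * f) := by
  symm
  refine Finset.sum_bij (fun f _ => g * f) ?_ ?_ ?_ ?_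
  · intro f hf
    rw [mem_Mn] at hf
    rw [Finset.mem_filter, mem_Mn]
    refine ⟨⟨hg.mul hf.1, ?_⟩, dvd_mul_right _ _⟩
    rw [hg.natDegree_mul hf.1, hf.2]
    omega
  · intro a _ b _ hab
    exact mul_left_cancel₀ hg.ne_zero hab
  · intro f hf
    rw [Finset.mem_filter, mem_Mn] at hf
    obtain ⟨⟨hm, hdeg⟩, c, rfl⟩ := hf
    have hc : c.Monic := hg.of_mul_monic_left hm
    refine ⟨c, ?_, rfl⟩
    rw [mem_Mn]
    rw [hg.natDegree_mul hc] at hdeg
    exact ⟨hc, by omega⟩
  · intro f _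
    rfl

theorem no_dvd {g : F[X]} {n : ℕ} (hn : n < g.natDegree) :
    (Mn F n).filter (fun f => g ∣ f) = ∅ := by
  rw [Finset.filter_eq_empty_iff]
  intro f hf hgf
  rw [mem_Mn] at hf
  have h1 := natDegree_le_of_dvd hgf hf.1.ne_zero
  omega

end Pool.Agent.H81.FF
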