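import Pool.Agent.H81.FF.Basic

/-! # FF-D01b Chinese remainder theorem and products of primes  (MP_a1f59e_nt, project FF, block D)

Standard: `IsCoprime` and UFD facts in the Euclidean domain `F[X]` (`Irreducible.coprime_iff_not_dvd`,
`Finset.prod_dvd_of_coprime`, `IsCoprime.prod_right`, `Polynomial.Monic.natDegree_prod...`; two monic associated polynomials are
equal: `Polynomial.eq_of_monic_of_associated`). `crt_pp`: induction on `D` with `crt_two` for `P` and `pp D`.
-/

set_option autoImplicit false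

namespace Pool.Agent.H81.FF

open Polynomial Finset Pool.Agent.H10.FF
open scoped Classical

variable {F : Type} [Field F] [Fintype F]

/-- Chinese remainder theorem -/
theorem crt_two {a b : F[X]} (h : IsCoprime a b) (x y : F[X]) : ∃ z, a ∣ z - x ∧ b ∣ z - y := by
  obtain ⟨u, v, huv⟩ := h
  refine ⟨x * (v * b) + y * (u * a), ⟨(y - x) * u, ?_⟩, ⟨(x - y) * v, ?_⟩⟩
  · linear_combination x * huv
  · linear_combination y * huv

theorem pp_monic {D : Finset F[X]} (hD : IsPr D) : (pp D).Monic :=
  monic_prod_of_monic D _ fun P hP => (hD P hP).1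

theorem natDegree_pp {D : Finset F[X]} (hD : IsPr D) : (pp D).natDegree = dg D :=
  natDegree_prod_of_monic D _ fun P hP => (hD P hP).1

private theorem basic2_coprime {P Q : F[X]} (hP : P.Monic ∧ Irreducible P)
    (hQ : Q.Monic ∧ Irreducible Q) (h : P ≠ Q) : IsCoprime P Q := by
  rw [hP.2.coprime_iff_not_dvd]
  intro hd
  exact h (eq_of_monic_of_associated hP.1 hQ.1 ((hP.2.dvd_irreducible_iff_associated hQ.2).1 hd))

/-- `pp D ∣ f ↔ ∀ P ∈ D, P ∣ f` -/
theorem pp_dvd {D : Finset F[X]} (hD : IsPr D) {f : F[X]} : pp D ∣ f ↔ ∀ P ∈ D, P ∣ f := by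
  constructor
  · intro h P hP
    exact (Finset.dvd_prod_of_mem (fun P : F[X] => P) hP).trans h
  · intro h
    exact Finset.prod_dvd_of_coprime
      (fun P hP Q hQ hPQ => basic2_coprime (hD P hP) (hD Q hQ) hPQ) h

/-- coprimality to `pp D` -/
theorem coprime_pp {D : Finset F[X]} (hD : IsPr D) {f : F[X]} :
    IsCoprime f (pp D) ↔ ∀ P ∈ D, ¬ P ∣ f := by
  unfold pp
  rw [IsCoprime.prod_right_iff]
  refine forall₂_congr fun P hP => ?_
  rw [isCoprime_comm, (hD P hP).2.coprime_iff_not_dvd]

/-- different monic primes are coprime -/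
theorem coprime_primes {P Q : F[X]} (hP : P.Monic ∧ Irreducible P) (hQ : Q.Monic ∧ Irreducible Q)
    (h : P ≠ Q) : IsCoprime P Q :=
  basic2_coprime hP hQ h

theorem pp_injOn {D E : Finset F[X]} (hD : IsPr D) (hE : IsPr E) (h : pp D = pp E) : D = E := by
  have key : ∀ {D E : Finset F[X]}, IsPr D → IsPr E → pp D = pp E → D ⊆ E := by
    intro D E hD hE h P hP
    by_contra hc
    have h1 : IsCoprime P (pp E) := by
      unfold pp
      rw [IsCoprime.prod_right_iff]
      intro Q hQ
      refine basic2_coprime (hD P hP) (hE Q hQ) ?_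
      rintro rfl
      exact hc hQ
    have h2 : P ∣ pp E := by
      rw [← h]
      exact Finset.dvd_prod_of_mem (fun P : F[X] => P) hP
    exact (hD P hP).2.not_isUnit (h1.isUnit_of_dvd' dvd_rfl h2)
  exact Finset.Subset.antisymm (key hD hE h) (key hE hD h.symm)

/-- simultaneous congruences modulo the primes of `D` -/
theorem crt_pp {D : Finset F[X]} (hD : IsPr D) (c : F[X] → F[X]) : ∃ b, ∀ P ∈ D, P ∣ b - c P := by
  induction D using Finset.induction_on with
  | empty => exact ⟨0, fun P hP => absurd hP (Finset.notMem_empty P)⟩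
  | insert P D hP ih =>
    have hD' : IsPr D := fun Q hQ => hD Q (Finset.mem_insert_of_mem hQ)
    obtain ⟨b, hb⟩ := ih hD'
    have h1 : IsCoprime P (pp D) := by
      unfold pp
      rw [IsCoprime.prod_right_iff]
      intro Q hQ
      refine basic2_coprime (hD P (Finset.mem_insert_self P D)) (hD' Q hQ) ?_
      rintro rfl
      exact hP hQ
    obtain ⟨z, hz1, hz2⟩ := crt_two h1 (c P) b
    refine ⟨z, fun Q hQ => ?_⟩
    rcases Finset.mem_insert.1 hQ with rfl | hQ
    · exact hz1
    · have h2 : Q ∣ z - b := ((pp_dvd hD').1 hz2) Q hQ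
      have h3 := dvd_add h2 (hb Q hQ)
      rwa [sub_add_sub_cancel] at h3

end Pool.Agent.H81.FF
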