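import Pool.Agent.H81.FF.Basic2

/-! # FF-D02 Characters: transfer from `MulChar`  (MP_a1f59e_nt, project FF, block D)

`d` monic, `m = natDegree d`. Let `R = F[X] ⧸ Ideal.span {d}`, a finite commutative ring (the classes are
represented by `Gn F m`). `χ ↦ (fun f => χ (Ideal.Quotient.mk _ f))` is a bijection from `MulChar R ℂ` to
`{χ | IsCh d χ}`: `mk f` is a unit iff `IsCoprime f d`. Hence finiteness. Orthogonality over `χ` as in
`DirichletCharacter.sum_characters_eq` (file Mathlib/NumberTheory/DirichletCharacter/Orthogonality.lean), using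
`MulChar.exists_apply_ne_one_of_hasEnoughRootsOfUnity` and `MulChar.card_eq_card_units_of_hasEnoughRootsOfUnity`.
`‖χ f‖ = 1` for `f` coprime to `d`: the units of `R` are a finite group. `conj (χ f) = (χ f)⁻¹` there.
-/

set_option autoImplicit false

namespace Pool.Agent.H81.FF

open Polynomial Finset Pool.Agent.H10.FF
open scoped Classical ComplexConjugate

variable {F : Type} [Field F] [Fintype F]

/-- the residue ring -/
private abbrev char_R (d : F[X]) : Type := F[X] ⧸ Ideal.span {d}

private theorem char_mk_eq {d f g : F[X]} :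
    Ideal.Quotient.mk (Ideal.span {d}) f = Ideal.Quotient.mk (Ideal.span {d}) g ↔ d ∣ f - g := by
  rw [Ideal.Quotient.eq, Ideal.mem_span_singleton]

private theorem char_rep {d : F[X]} (hd : d.Monic) (f : F[X]) :
    ∃ g ∈ Gn F d.natDegree, d ∣ f - g := by
  refine ⟨f %ₘ d, ?_, ?_⟩
  · rw [mem_Gn, ← Polynomial.degree_eq_natDegree hd.ne_zero]
    exact Polynomial.degree_modByMonic_lt f hd
  · refine ⟨f /ₘ d, ?_⟩
    have h := Polynomial.modByMonic_add_div f d
    linear_combination -h

private theorem char_finite {d : F[X]} (hd : d.Monic) : Finite (char_R d) := by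
  refine Finite.of_surjective
    (fun x : (Gn F d.natDegree) => Ideal.Quotient.mk (Ideal.span {d}) x.1) ?_
  intro r
  obtain ⟨f, rfl⟩ := Ideal.Quotient.mk_surjective r
  obtain ⟨g, hg, h⟩ := char_rep hd f
  exact ⟨⟨g, hg⟩, (char_mk_eq.2 h).symm⟩

private theorem char_isUnit {d f : F[X]} :
    IsUnit (Ideal.Quotient.mk (Ideal.span {d}) f) ↔ IsCoprime f d := by
  constructor
  · intro h
    obtain ⟨r, hr⟩ := h.exists_right_inv
    obtain ⟨g, rfl⟩ := Ideal.Quotient.mk_surjective r
    rw [← map_mul, ← map_one (Ideal.Quotient.mk (Ideal.span {d})), char_mk_eq] at hr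
    obtain ⟨c, hc⟩ := hr
    exact ⟨g, -c, by linear_combination hc⟩
  · rintro ⟨a, b, hab⟩
    refine IsUnit.of_mul_eq_one (Ideal.Quotient.mk (Ideal.span {d}) a) ?_
    rw [← map_mul, ← map_one (Ideal.Quotient.mk (Ideal.span {d})), char_mk_eq]
    exact ⟨-b, by linear_combination hab⟩

/-- the function on polynomials of a multiplicative character -/
private noncomputable def char_ofM (d : F[X]) (ψ : MulChar (char_R d) ℂ) : F[X] → ℂ :=
  fun f => ψ (Ideal.Quotient.mk (Ideal.span {d}) f)

private theorem char_ofM_isCh (d : F[X]) (ψ : MulChar (char_R d) ℂ) : IsCh d (char_ofM d ψ) where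
  one := by
    unfold char_ofM
    rw [map_one, map_one]
  mul f g := by
    unfold char_ofM
    rw [map_mul, map_mul]
  per f g h := by
    unfold char_ofM
    rw [char_mk_eq.2 h]
  supp f := by
    unfold char_ofM
    rw [← char_isUnit]
    constructor
    · intro h
      by_contra hu
      exact h (ψ.map_nonunit hu)
    · intro h
      exact (h.map ψ).ne_zero

private theorem char_ofM_inj (d : F[X]) : Function.Injective (char_ofM d) := by
  intro ψ ψ' h
  refine DFunLike.ext _ _ fun r => ?_
  obtain ⟨f, rfl⟩ := Ideal.Quotient.mk_surjective r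
  exact congrFun h f

private theorem char_ofM_surj {d : F[X]} {χ : F[X] → ℂ} (h : IsCh d χ) :
    ∃ ψ, char_ofM d ψ = χ := by
  let o : char_R d → F[X] := fun r => (Ideal.Quotient.mk_surjective r).choose
  have ho : ∀ r, Ideal.Quotient.mk (Ideal.span {d}) (o r) = r := fun r =>
    (Ideal.Quotient.mk_surjective r).choose_spec
  have hχ : ∀ f, χ (o (Ideal.Quotient.mk (Ideal.span {d}) f)) = χ f := fun f =>
    h.per _ _ (char_mk_eq.1 (ho _))
  let ψ : MulChar (char_R d) ℂ :=
    { toFun := fun r => χ (o r)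
      map_one' := by
        have := hχ 1
        rw [map_one, h.one] at this
        exact this
      map_mul' := fun r s => by
        have := hχ (o r * o s)
        rw [map_mul, ho, ho, h.mul] at this
        exact this
      map_nonunit' := fun r hr => by
        by_contra hne
        exact hr (by
          rw [← ho r, char_isUnit]
          exact (h.supp _).1 hne) }
  exact ⟨ψ, funext fun f => hχ f⟩

private theorem char_range (d : F[X]) : {χ : F[X] → ℂ | IsCh d χ} = Set.range (char_ofM d) := by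
  ext χ
  constructor
  · intro h
    exact char_ofM_surj h
  · rintro ⟨ψ, rfl⟩
    exact char_ofM_isCh d ψ

theorem finite_ch {d : F[X]} (hd : d.Monic) : {χ : F[X] → ℂ | IsCh d χ}.Finite := by
  have := char_finite hd
  rw [char_range]
  exact Set.finite_range _

theorem mem_chs {d : F[X]} (hd : d.Monic) {χ : F[X] → ℂ} : χ ∈ chs d ↔ IsCh d χ := by
  unfold chs
  rw [dif_pos (finite_ch hd), Set.Finite.mem_toFinset]
  rfl

theorem IsCh.norm_eq {d : F[X]} (hd : d.Monic) {χ : F[X] → ℂ} (h : IsCh d χ) {f : F[X]}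
    (hf : IsCoprime f d) : ‖χ f‖ = 1 := by
  have := char_finite hd
  obtain ⟨ψ, rfl⟩ := char_ofM_surj h
  obtain ⟨u, hu⟩ := char_isUnit.2 hf
  refine Complex.norm_eq_one_of_pow_eq_one (n := Nat.card (char_R d)ˣ) ?_ Nat.card_pos.ne'
  unfold char_ofM
  rw [← hu, ← map_pow, ← Units.val_pow_eq_pow_val, pow_card_eq_one', Units.val_one, map_one]

theorem IsCh.norm_le {d : F[X]} (hd : d.Monic) {χ : F[X] → ℂ} (h : IsCh d χ) (f : F[X]) :
    ‖χ f‖ ≤ 1 := by
  by_cases hf : χ f = 0
  · rw [hf, norm_zero]
    exact zero_le_one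
  · exact (h.norm_eq hd ((h.supp f).1 hf)).le

private theorem char_chs {d : F[X]} (hd : d.Monic) [Fintype (MulChar (char_R d) ℂ)] :
    chs d = Finset.univ.image (char_ofM d) := by
  ext χ
  rw [mem_chs hd, Finset.mem_image]
  constructor
  · intro h
    obtain ⟨ψ, hψ⟩ := char_ofM_surj h
    exact ⟨ψ, Finset.mem_univ _, hψ⟩
  · rintro ⟨ψ, -, rfl⟩
    exact char_ofM_isCh d ψ

private theorem char_sum {d : F[X]} (hd : d.Monic) [Fintype (MulChar (char_R d) ℂ)]
    (g : (F[X] → ℂ) → ℂ) : ∑ χ ∈ chs d, g χ = ∑ ψ, g (char_ofM d ψ) := by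
  rw [char_chs hd, Finset.sum_image fun ψ _ ψ' _ h => char_ofM_inj d h]

private theorem char_card {d : F[X]} (hd : d.Monic) :
    (chs d).card = Nat.card (MulChar (char_R d) ℂ) := by
  have := char_finite hd
  have inst : Fintype (MulChar (char_R d) ℂ) := Fintype.ofFinite _
  rw [char_chs hd, Finset.card_image_of_injective _ (char_ofM_inj d), Nat.card_eq_fintype_card,
    Finset.card_univ]

private theorem char_eq_of_Gn {d a b : F[X]} (hd : d.Monic) (ha : a ∈ Gn F d.natDegree)
    (hb : b ∈ Gn F d.natDegree) (h : d ∣ a - b) : a = b := by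
  rw [mem_Gn, ← Polynomial.degree_eq_natDegree hd.ne_zero] at ha hb
  rw [← sub_eq_zero]
  exact Polynomial.eq_zero_of_dvd_of_degree_lt h
    (lt_of_le_of_lt (Polynomial.degree_sub_le _ _) (max_lt ha hb))

/-- the number of characters is the number of reduced classes -/
theorem card_chs {d : F[X]} (hd : d.Monic) :
    (chs d).card = ((Gn F d.natDegree).filter (fun a => IsCoprime a d)).card := by
  have := char_finite hd
  have hne : NeZero (Monoid.exponent (char_R d)ˣ) := ⟨Monoid.exponent_ne_zero_of_finite⟩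
  rw [char_card hd, MulChar.card_eq_card_units_of_hasEnoughRootsOfUnity (char_R d) ℂ]
  have inst : Fintype (char_R d)ˣ := Fintype.ofFinite _
  rw [Nat.card_eq_fintype_card, ← Finset.card_univ]
  symm
  refine Finset.card_bij
    (fun a ha => (char_isUnit.2 (Finset.mem_filter.1 ha).2).unit) ?_ ?_ ?_
  · intro a ha
    exact Finset.mem_univ _
  · intro a ha b hb h
    have h1 := congrArg (fun u : (char_R d)ˣ => (u : char_R d)) h
    simp only [IsUnit.unit_spec] at h1
    exact char_eq_of_Gn hd (Finset.mem_filter.1 ha).1 (Finset.mem_filter.1 hb).1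
      (char_mk_eq.1 h1)
  · intro u _
    obtain ⟨f, hf⟩ := Ideal.Quotient.mk_surjective (u : char_R d)
    obtain ⟨g, hg, h⟩ := char_rep hd f
    have h1 : Ideal.Quotient.mk (Ideal.span {d}) g = u := by
      rw [← hf]
      exact (char_mk_eq.2 h).symm
    have h2 : IsCoprime g d := by
      rw [← char_isUnit, h1]
      exact u.isUnit
    refine ⟨g, Finset.mem_filter.2 ⟨hg, h2⟩, ?_⟩
    apply Units.ext
    rw [IsUnit.unit_spec, h1]

theorem card_chs_prime {P : F[X]} (hm : P.Monic) (hP : Irreducible P) :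
    (chs P).card = Fintype.card F ^ P.natDegree - 1 := by
  have h1 : (Gn F P.natDegree).filter (fun a => IsCoprime a P) = (Gn F P.natDegree).erase 0 := by
    ext a
    rw [Finset.mem_filter, Finset.mem_erase]
    constructor
    · rintro ⟨h2, h3⟩
      refine ⟨?_, h2⟩
      rintro rfl
      exact hP.not_isUnit (isCoprime_zero_left.1 h3)
    · rintro ⟨h2, h3⟩
      refine ⟨h3, ?_⟩
      rw [isCoprime_comm, hP.coprime_iff_not_dvd]
      intro h4
      rw [mem_Gn, ← Polynomial.degree_eq_natDegree hm.ne_zero] at h3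
      exact h2 (Polynomial.eq_zero_of_dvd_of_degree_lt h4 h3)
  have h0 : (0 : F[X]) ∈ Gn F P.natDegree := by
    rw [mem_Gn, Polynomial.degree_zero]
    exact WithBot.bot_lt_coe _
  rw [card_chs hm, h1, Finset.card_erase_of_mem h0, card_Gn]

private theorem char_sum_one {d : F[X]} (hd : d.Monic) [Fintype (MulChar (char_R d) ℂ)]
    (u : char_R d) (hu : u ≠ 1) : ∑ ψ : MulChar (char_R d) ℂ, ψ u = 0 := by
  have := char_finite hd
  have hne : NeZero (Monoid.exponent (char_R d)ˣ) := ⟨Monoid.exponent_ne_zero_of_finite⟩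
  obtain ⟨χ, hχ⟩ := MulChar.exists_apply_ne_one_of_hasEnoughRootsOfUnity (char_R d) ℂ hu
  refine eq_zero_of_mul_eq_self_left hχ ?_
  simp only [Finset.mul_sum, ← MulChar.mul_apply]
  exact Fintype.sum_bijective _ (Group.mulLeft_bijective χ) _ _ fun χ' => rfl

/-- orthogonality over the characters -/
theorem orth_chs {d : F[X]} (hd : d.Monic) {a : F[X]} (ha : IsCoprime a d) (b : F[X]) :
    ∑ χ ∈ chs d, conj (χ a) * χ b = if d ∣ b - a then ((chs d).card : ℂ) else 0 := by
  have := char_finite hd
  have inst : Fintype (MulChar (char_R d) ℂ) := Fintype.ofFinite _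
  rw [char_sum hd]
  obtain ⟨u, hu⟩ := char_isUnit.2 ha
  have h1 : ∀ ψ : MulChar (char_R d) ℂ, conj (char_ofM d ψ a) * char_ofM d ψ b =
      ψ ((u⁻¹ : (char_R d)ˣ) * Ideal.Quotient.mk (Ideal.span {d}) b) := by
    intro ψ
    have h2 : ‖char_ofM d ψ a‖ = 1 := (char_ofM_isCh d ψ).norm_eq hd ha
    have h3 : conj (char_ofM d ψ a) * char_ofM d ψ a = 1 := by
      rw [mul_comm, Complex.mul_conj, Complex.normSq_eq_norm_sq, h2]
      simp
    have h4 : char_ofM d ψ a * ψ ((u⁻¹ : (char_R d)ˣ) : char_R d) = 1 := by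
      unfold char_ofM
      rw [← hu, ← map_mul, ← Units.val_mul, mul_inv_cancel, Units.val_one, map_one]
    have h5 : conj (char_ofM d ψ a) = ψ ((u⁻¹ : (char_R d)ˣ) : char_R d) := by
      calc conj (char_ofM d ψ a) = conj (char_ofM d ψ a) *
            (char_ofM d ψ a * ψ ((u⁻¹ : (char_R d)ˣ) : char_R d)) := by rw [h4, mul_one]
        _ = _ := by rw [← mul_assoc, h3, one_mul]
    rw [h5, map_mul]
    rfl
  rw [Finset.sum_congr rfl fun ψ _ => h1 ψ]
  by_cases h2 : d ∣ b - a
  · rw [if_pos h2]
    have h3 : Ideal.Quotient.mk (Ideal.span {d}) b = u := by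
      rw [hu]
      exact char_mk_eq.2 h2
    simp only [h3, Units.inv_mul, map_one]
    rw [Finset.sum_const, char_card hd, Nat.card_eq_fintype_card, Finset.card_univ, nsmul_eq_mul,
      mul_one]
  · rw [if_neg h2]
    apply char_sum_one hd
    intro h3
    apply h2
    apply char_mk_eq.1
    rw [← hu]
    have h4 := congrArg (fun x => (u : char_R d) * x) h3
    simp only [Units.mul_inv_cancel_left, mul_one] at h4
    exact h4

end Pool.Agent.H81.FF
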