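import Pool.Agent.H81.FF.Char

/-! # FF-D03 Characters: closure properties, orthogonality over the classes  (MP_a1f59e_nt, project FF, block D)

`sum_Gn_eq_zero`: take `u` coprime to `d` with `χ u ≠ 1`; by `sum_mul_Gn` the sum `S` satisfies `χ u * S = S`.
`Ls_eq_zero`: `sum_class_Mn` and `sum_Gn_eq_zero`. `parseval`: expand the square of
`∑ a ∈ Gn coprime, c a * χ a`, `orth_chs`; distinct `a, b ∈ Gn F (natDegree d)` are incongruent mod `d`.
-/

set_option autoImplicit false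

namespace Pool.Agent.H81.FF

open Polynomial Finset Pool.Agent.H10.FF
open scoped Classical ComplexConjugate

variable {F : Type} [Field F] [Fintype F]

theorem IsCh.mul_ch {d e : F[X]} {χ ψ : F[X] → ℂ} (h : IsCh d χ) (h' : IsCh e ψ) :
    IsCh (d * e) (fun f => χ f * ψ f) where
  one := by rw [h.one, h'.one, mul_one]
  mul f g := by rw [h.mul, h'.mul]; ring
  per f g hfg := by
    rw [h.per f g ((Dvd.intro _ rfl).trans hfg), h'.per f g ((Dvd.intro_left _ rfl).trans hfg)]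
  supp f := by
    rw [mul_ne_zero_iff, h.supp, h'.supp, IsCoprime.mul_right_iff]

theorem IsCh.sq {d : F[X]} {χ : F[X] → ℂ} (h : IsCh d χ) : IsCh d (fun f => χ f ^ 2) where
  one := by rw [h.one, one_pow]
  mul f g := by rw [h.mul, mul_pow]
  per f g hfg := by rw [h.per f g hfg]
  supp f := by
    rw [← h.supp, ne_eq, ne_eq, sq_eq_zero_iff]

theorem IsCh.conj_ch {d : F[X]} {χ : F[X] → ℂ} (h : IsCh d χ) : IsCh d (fun f => conj (χ f)) where
  one := by rw [h.one, map_one]
  mul f g := by rw [h.mul, map_mul]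
  per f g hfg := by rw [h.per f g hfg]
  supp f := by
    rw [← h.supp, ne_eq, ne_eq, map_eq_zero]

theorem IsCh.pow_map {d : F[X]} {χ : F[X] → ℂ} (h : IsCh d χ) (f : F[X]) (n : ℕ) :
    χ (f ^ n) = χ f ^ n := by
  induction n with
  | zero => rw [pow_zero, pow_zero, h.one]
  | succ n ih => rw [pow_succ, pow_succ, h.mul, ih]

/-- square principal: the character is real -/
theorem real_of_sq {d : F[X]} {χ : F[X] → ℂ} (h : IsCh d χ) (h2 : ¬ NP d (fun f => χ f ^ 2)) : Rl χ := by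
  intro f
  by_cases hf : χ f = 0
  · exact Or.inl hf
  · have hc : IsCoprime f d := (h.supp f).mp hf
    have h3 : χ f ^ 2 = 1 := by
      by_contra hne
      exact h2 ⟨f, hc, hne⟩
    exact Or.inr (by
      have h4 : (χ f - 1) * (χ f + 1) = 0 := by linear_combination h3
      rcases mul_eq_zero.mp h4 with h5 | h5
      · exact Or.inl (sub_eq_zero.mp h5)
      · exact Or.inr (eq_neg_of_add_eq_zero_left h5))

theorem sum_Gn_eq_zero {d : F[X]} (hd : d.Monic) {χ : F[X] → ℂ} (h : IsCh d χ) (hn : NP d χ) :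
    ∑ f ∈ Gn F d.natDegree, χ f = 0 := by
  obtain ⟨u, hu, hu1⟩ := hn
  have h1 := sum_mul_Gn hd hu χ h.per
  have h2 : ∑ f ∈ Gn F d.natDegree, χ (u * f) = χ u * ∑ f ∈ Gn F d.natDegree, χ f := by
    rw [Finset.mul_sum]
    exact Finset.sum_congr rfl fun f _ => h.mul u f
  rw [h2] at h1
  have h3 : (χ u - 1) * ∑ f ∈ Gn F d.natDegree, χ f = 0 := by
    rw [sub_mul, one_mul, h1, sub_self]
  rcases mul_eq_zero.mp h3 with h4 | h4
  · exact absurd (sub_eq_zero.mp h4) hu1
  · exact h4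

theorem Ls_eq_zero {d : F[X]} (hd : d.Monic) {χ : F[X] → ℂ} (h : IsCh d χ) (hn : NP d χ) {n : ℕ}
    (hdn : d.natDegree ≤ n) : Ls χ n = 0 := by
  rw [Ls, sum_class_Mn hd hdn χ h.per, sum_Gn_eq_zero hd h hn, mul_zero]

theorem parseval {d : F[X]} (hd : d.Monic) (c : F[X] → ℂ) :
    ∑ χ ∈ chs d, ‖∑ a ∈ (Gn F d.natDegree).filter (fun a => IsCoprime a d), c a * χ a‖ ^ 2 =
      ((chs d).card : ℝ) * ∑ a ∈ (Gn F d.natDegree).filter (fun a => IsCoprime a d), ‖c a‖ ^ 2 := by
  set S := (Gn F d.natDegree).filter (fun a => IsCoprime a d) with hS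
  have hsq : ∀ z : ℂ, ((‖z‖ ^ 2 : ℝ) : ℂ) = conj z * z := by
    intro z
    rw [← Complex.normSq_eq_norm_sq, Complex.normSq_eq_conj_mul_self]
  have h1 : ((∑ χ ∈ chs d, ‖∑ a ∈ S, c a * χ a‖ ^ 2 : ℝ) : ℂ) =
      ((((chs d).card : ℝ) * ∑ a ∈ S, ‖c a‖ ^ 2 : ℝ) : ℂ) := by
    rw [Complex.ofReal_sum, Complex.ofReal_mul, Complex.ofReal_sum, Complex.ofReal_natCast]
    have h2 : ∀ χ ∈ chs d, ((‖∑ a ∈ S, c a * χ a‖ ^ 2 : ℝ) : ℂ) =
        ∑ a ∈ S, ∑ b ∈ S, (conj (c a) * c b) * (conj (χ a) * χ b) := by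
      intro χ _
      rw [hsq, map_sum, Finset.sum_mul_sum]
      refine Finset.sum_congr rfl fun a _ => Finset.sum_congr rfl fun b _ => ?_
      rw [map_mul]
      ring
    rw [Finset.sum_congr rfl h2, Finset.sum_comm, Finset.mul_sum]
    refine Finset.sum_congr rfl fun a ha => ?_
    rw [Finset.sum_comm]
    have ha' : a ∈ Gn F d.natDegree ∧ IsCoprime a d := Finset.mem_filter.mp ha
    have h3 : ∀ b ∈ S, ∑ χ ∈ chs d, (conj (c a) * c b) * (conj (χ a) * χ b) =
        if b = a then (conj (c a) * c b) * ((chs d).card : ℂ) else 0 := by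
      intro b hb
      have hb' : b ∈ Gn F d.natDegree ∧ IsCoprime b d := Finset.mem_filter.mp hb
      rw [← Finset.mul_sum, orth_chs hd ha'.2 b]
      by_cases hba : b = a
      · rw [if_pos hba, if_pos (by rw [hba, sub_self]; exact dvd_zero d)]
      · rw [if_neg hba, if_neg, mul_zero]
        intro hdvd
        apply hba
        apply sub_eq_zero.mp
        apply Polynomial.eq_zero_of_dvd_of_degree_lt hdvd
        rw [Polynomial.degree_eq_natDegree hd.ne_zero]
        exact lt_of_le_of_lt (Polynomial.degree_sub_le b a)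
          (max_lt (mem_Gn.mp hb'.1) (mem_Gn.mp ha'.1))
    rw [Finset.sum_congr rfl h3, Finset.sum_ite_eq' S a, if_pos ha, hsq]
    ring
  exact_mod_cast h1

end Pool.Agent.H81.FF
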