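import Pool.Agent.H81.FF.Fact

/-! # FF-D11 Convolution identities  (MP_a1f59e_nt, project FF, block D)

`χ` completely multiplicative, `χ 1 = 1`.
* `conv_LM`: `∑_{i+j=n} Ls i * Mo j = ∑_{j ≤ n} ∑ g ∈ Mn j, mu g ∑ h ∈ Mn (n-j), χ (g h)
   = ∑ f ∈ Mn n, χ f ∑ j ≤ n, ∑ g ∈ Mn j, g ∣ f, mu g` (`sum_dvd`), `sum_mu`; `Mn F 0 = {1}`.
* `conv_psi`: `n * Ls n = ∑ f ∈ Mn n, χ f * n`, insert `deg_eq`, exchange: `∑ j, P ∈ irrs j, k, j * ∑_{f ∈ Mn n, P^k ∣ f} χ f
   = j * χ P ^ k * Ls (n - k j)` if `k j ≤ n` and `0` otherwise (`sum_dvd`, `no_dvd`); group by `s = k j`, `1 ≤ s ≤ n`,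
   `j ∣ s`, `k = s / j`.
-/

set_option autoImplicit false

namespace Pool.Agent.H81.FF

open Polynomial Finset Pool.Agent.H10.FF
open scoped Classical

variable {F : Type} [Field F] [Fintype F]

private theorem conv_Mn_zero : Mn F 0 = {1} := by
  ext f
  rw [mem_Mn, Finset.mem_singleton]
  constructor
  · rintro ⟨h1, h2⟩
    exact (Polynomial.Monic.natDegree_eq_zero h1).1 h2
  · rintro rfl
    exact ⟨monic_one, natDegree_one⟩

theorem conv_LM {χ : F[X] → ℂ} (h1 : χ 1 = 1) (hm : ∀ f g, χ (f * g) = χ f * χ g) (n : ℕ) :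
    ∑ p ∈ antidiagonal n, Ls χ p.1 * Mo χ p.2 = if n = 0 then 1 else 0 := by
  have e1 : ∑ p ∈ antidiagonal n, Ls χ p.1 * Mo χ p.2 =
      ∑ j ∈ range (n + 1), Ls χ (n - j) * Mo χ j := by
    rw [← Finset.Nat.sum_antidiagonal_swap]
    exact Finset.Nat.sum_antidiagonal_eq_sum_range_succ (fun a b => Ls χ b * Mo χ a) n
  have e2 : ∀ j ∈ range (n + 1), Ls χ (n - j) * Mo χ j =
      ∑ f ∈ Mn F n, χ f * ∑ g ∈ (Mn F j).filter (fun g => g ∣ f), mu g := by
    intro j hj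
    have hj' : j ≤ n := Nat.lt_succ_iff.1 (Finset.mem_range.1 hj)
    have e3 : ∀ g ∈ Mn F j, Ls χ (n - j) * (mu g * χ g) =
        ∑ f ∈ (Mn F n).filter (fun f => g ∣ f), χ f * mu g := by
      intro g hg
      rw [mem_Mn] at hg
      rw [sum_dvd hg.1 (by rw [hg.2]; exact hj') (fun f => χ f * mu g), hg.2]
      unfold Ls
      rw [Finset.sum_mul]
      refine Finset.sum_congr rfl fun f _ => ?_
      rw [hm]
      ring
    unfold Mo
    rw [Finset.mul_sum, Finset.sum_congr rfl e3]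
    simp only [Finset.mul_sum, Finset.sum_filter, mul_ite, mul_zero]
    rw [Finset.sum_comm]
  rw [e1, Finset.sum_congr rfl e2, Finset.sum_comm]
  have e4 : ∀ f ∈ Mn F n, ∑ j ∈ range (n + 1), χ f * ∑ g ∈ (Mn F j).filter (fun g => g ∣ f), mu g =
      if f = 1 then 1 else 0 := by
    intro f hf
    rw [mem_Mn] at hf
    rw [← Finset.mul_sum]
    have h2 := sum_mu hf.1
    rw [hf.2] at h2
    rw [h2]
    split_ifs with h3
    · rw [h3, h1, one_mul]
    · rw [mul_zero]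
  rw [Finset.sum_congr rfl e4, Finset.sum_ite_eq']
  refine if_congr ?_ rfl rfl
  rw [mem_Mn]
  constructor
  · rintro ⟨_, h⟩
    rw [natDegree_one] at h
    exact h.symm
  · rintro rfl
    exact ⟨monic_one, natDegree_one⟩

theorem conv_psi {χ : F[X] → ℂ} (h1 : χ 1 = 1) (hm : ∀ f g, χ (f * g) = χ f * χ g) (n : ℕ) :
    (n : ℂ) * Ls χ n = ∑ p ∈ antidiagonal n, Ps χ p.1 * Ls χ p.2 := by
  have hpow : ∀ (f : F[X]) (k : ℕ), χ (f ^ k) = χ f ^ k := by
    intro f k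
    induction k with
    | zero => rw [pow_zero, pow_zero, h1]
    | succ k ih => rw [pow_succ, pow_succ, hm, ih]
  -- left side
  have e1 : (n : ℂ) * Ls χ n = ∑ j ∈ Icc 1 n, ∑ k ∈ Icc 1 n,
      if j * k ≤ n then (j : ℂ) * (∑ P ∈ irrs F j, χ P ^ k) * Ls χ (n - j * k) else 0 := by
    have a1 : (n : ℂ) * Ls χ n = ∑ f ∈ Mn F n, ∑ j ∈ Icc 1 n, ∑ P ∈ irrs F j, ∑ k ∈ Icc 1 n,
        if P ^ k ∣ f then (j : ℂ) * χ f else 0 := by
      unfold Ls
      rw [Finset.mul_sum]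
      refine Finset.sum_congr rfl fun f hf => ?_
      rw [mem_Mn] at hf
      have h2 := deg_eq hf.1 hf.2
      have h3 : (n : ℂ) = ∑ j ∈ Icc 1 n, ∑ P ∈ irrs F j,
          (j : ℂ) * (((Icc 1 n).filter (fun k => P ^ k ∣ f)).card : ℂ) := by
        conv_lhs => rw [h2]
        push_cast
        rfl
      conv_lhs => rw [h3]
      rw [Finset.sum_mul]
      refine Finset.sum_congr rfl fun j _ => ?_
      rw [Finset.sum_mul]
      refine Finset.sum_congr rfl fun P _ => ?_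
      rw [← Finset.sum_filter, Finset.sum_const, nsmul_eq_mul]
      ring
    rw [a1, Finset.sum_comm]
    refine Finset.sum_congr rfl fun j _ => ?_
    rw [Finset.sum_comm]
    have a2 : ∀ P ∈ irrs F j, ∑ f ∈ Mn F n, ∑ k ∈ Icc 1 n, (if P ^ k ∣ f then (j : ℂ) * χ f else 0) =
        ∑ k ∈ Icc 1 n, if j * k ≤ n then (j : ℂ) * χ P ^ k * Ls χ (n - j * k) else 0 := by
      intro P hP
      rw [mem_irrs] at hP
      rw [Finset.sum_comm]
      refine Finset.sum_congr rfl fun k _ => ?_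
      have hdeg : (P ^ k).natDegree = j * k := by
        rw [hP.1.natDegree_pow, hP.2.2, mul_comm]
      rw [← Finset.sum_filter]
      split_ifs with hk
      · rw [sum_dvd (hP.1.pow k) (by rw [hdeg]; exact hk) (fun f => (j : ℂ) * χ f), hdeg]
        unfold Ls
        rw [Finset.mul_sum]
        refine Finset.sum_congr rfl fun f _ => ?_
        rw [hm, hpow]
        ring
      · rw [no_dvd (by rw [hdeg]; exact not_le.1 hk), Finset.sum_empty]
    rw [Finset.sum_congr rfl a2, Finset.sum_comm]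
    refine Finset.sum_congr rfl fun k _ => ?_
    split_ifs with hk
    · rw [Finset.mul_sum, Finset.sum_mul]
    · exact Finset.sum_const_zero
  have e2 : ∑ p ∈ antidiagonal n, Ps χ p.1 * Ls χ p.2 =
      ∑ s ∈ range (n + 1), Ps χ s * Ls χ (n - s) :=
    Finset.Nat.sum_antidiagonal_eq_sum_range_succ (fun a b => Ps χ a * Ls χ b) n
  rw [e1, e2, ← Finset.sum_product', ← Finset.sum_filter]
  unfold Ps
  simp only [Finset.sum_mul]
  rw [Finset.sum_sigma']
  refine Finset.sum_bij' (fun x _ => (⟨x.1 * x.2, x.1⟩ : (_ : ℕ) × ℕ)) (fun y _ => (y.2, y.1 / y.2))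
    ?_ ?_ ?_ ?_ ?_
  · intro x hx
    rw [Finset.mem_filter, Finset.mem_product, Finset.mem_Icc, Finset.mem_Icc] at hx
    rw [Finset.mem_sigma, Finset.mem_range, Nat.mem_divisors]
    obtain ⟨⟨⟨h3, h4⟩, h5, h6⟩, h7⟩ := hx
    exact ⟨Nat.lt_succ_of_le h7, dvd_mul_right _ _,
      Nat.mul_ne_zero (Nat.one_le_iff_ne_zero.1 h3) (Nat.one_le_iff_ne_zero.1 h5)⟩
  · intro y hy
    rw [Finset.mem_sigma, Finset.mem_range, Nat.mem_divisors] at hy
    obtain ⟨h3, h4, h5⟩ := hy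
    have h6 : 0 < y.1 := Nat.pos_of_ne_zero h5
    have h7 := Nat.pos_of_dvd_of_pos h4 h6
    have h8 := Nat.le_of_dvd h6 h4
    have h9 : y.2 * (y.1 / y.2) = y.1 := Nat.mul_div_cancel' h4
    have h10 : 0 < y.1 / y.2 := Nat.div_pos h8 h7
    have h11 : y.1 / y.2 ≤ y.1 := Nat.div_le_self _ _
    rw [Finset.mem_filter, Finset.mem_product, Finset.mem_Icc, Finset.mem_Icc]
    refine ⟨⟨⟨h7, by omega⟩, h10, by omega⟩, ?_⟩
    show y.2 * (y.1 / y.2) ≤ n
    omega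
  · intro x hx
    rw [Finset.mem_filter, Finset.mem_product, Finset.mem_Icc, Finset.mem_Icc] at hx
    have h3 : x.1 * x.2 / x.1 = x.2 := Nat.mul_div_cancel_left _ (by omega)
    exact Prod.ext rfl h3
  · intro y hy
    rw [Finset.mem_sigma, Finset.mem_range, Nat.mem_divisors] at hy
    obtain ⟨a, b⟩ := y
    have h9 : b * (a / b) = a := Nat.mul_div_cancel' hy.2.1
    show (⟨b * (a / b), b⟩ : (_ : ℕ) × ℕ) = ⟨a, b⟩
    rw [h9]
  · intro x hx
    rw [Finset.mem_filter, Finset.mem_product, Finset.mem_Icc, Finset.mem_Icc] at hx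
    have h3 : x.1 * x.2 / x.1 = x.2 := Nat.mul_div_cancel_left _ (by omega)
    show (x.1 : ℂ) * (∑ P ∈ irrs F x.1, χ P ^ x.2) * Ls χ (n - x.1 * x.2) =
      (x.1 : ℂ) * (∑ P ∈ irrs F x.1, χ P ^ (x.1 * x.2 / x.1)) * Ls χ (n - x.1 * x.2)
    rw [h3]

theorem Ls_zero {χ : F[X] → ℂ} (h1 : χ 1 = 1) : Ls χ 0 = 1 := by
  unfold Ls
  rw [conv_Mn_zero, Finset.sum_singleton, h1]

theorem Ps_zero (χ : F[X] → ℂ) : Ps χ 0 = 0 := by
  simp [Ps]

end Pool.Agent.H81.FF
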