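import Pool.Agent.H10.FF.Defs

/-! # Project FF, block D (MP_a1f59e_nt): definitions

`F` finite field with `q` elements. Bombieri-Vinogradov for the irreducible polynomials of degree `M`.
Characters are functions `F[X] → ℂ` with the predicate `IsCh d χ`.
-/

set_option autoImplicit false

namespace Pool.Agent.H81.FF

open Polynomial Finset Pool.Agent.H10.FF
open scoped Classical

/-- polynomials of degree `< n` -/
noncomputable def Gn (F : Type) [Field F] [Fintype F] (n : ℕ) : Finset F[X] :=
  Finset.univ.image (fun v : Fin n → F => pol v)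

/-- monic polynomials of degree `n`; `irrs F n = (Mn F n).filter Irreducible` by `rfl` -/
noncomputable def Mn (F : Type) [Field F] [Fintype F] (n : ℕ) : Finset F[X] :=
  Finset.univ.image (fun v : Fin n → F => X ^ n + pol v)

variable {F : Type} [Field F] [Fintype F]

/-- a squarefree monic polynomial is given by the finite set of its prime factors -/
noncomputable def pp (D : Finset F[X]) : F[X] := ∏ P ∈ D, P

/-- finite set of monic irreducible polynomials -/
def IsPr (D : Finset F[X]) : Prop := ∀ P ∈ D, P.Monic ∧ Irreducible P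

/-- Dirichlet characters mod `d` as functions on polynomials -/
structure IsCh (d : F[X]) (χ : F[X] → ℂ) : Prop where
  one : χ 1 = 1
  mul : ∀ f g, χ (f * g) = χ f * χ g
  per : ∀ f g, d ∣ f - g → χ f = χ g
  supp : ∀ f, χ f ≠ 0 ↔ IsCoprime f d

/-- `χ` is not principal mod `d` -/
def NP (d : F[X]) (χ : F[X] → ℂ) : Prop := ∃ f, IsCoprime f d ∧ χ f ≠ 1

/-- real character: values in `0, 1, -1` -/
def Rl (χ : F[X] → ℂ) : Prop := ∀ f, χ f = 0 ∨ χ f = 1 ∨ χ f = -1

/-- all characters mod `d` (for monic `d`: `mem_chs`) -/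
noncomputable def chs (d : F[X]) : Finset (F[X] → ℂ) :=
  if h : {χ : F[X] → ℂ | IsCh d χ}.Finite then h.toFinset else ∅

/-- nonprincipal characters mod a prime -/
noncomputable def ch1 (P : F[X]) : Finset (F[X] → ℂ) := (chs P).filter (NP P)

/-- primitive characters mod `pp E`: products of nonprincipal characters mod the primes of `E` -/
noncomputable def prs (E : Finset F[X]) : Finset (F[X] → ℂ) :=
  (E.pi (fun P => ch1 P)).image (fun t f => ∏ P ∈ E.attach, t P.1 P.2 f)

/-- coefficients of the `L`-function -/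
noncomputable def Ls (χ : F[X] → ℂ) (n : ℕ) : ℂ := ∑ f ∈ Mn F n, χ f

/-- prime factors of a monic polynomial -/
noncomputable def pf (f : F[X]) : Finset F[X] := (PR F 0 f.natDegree).filter (fun P => P ∣ f)

/-- Moebius function on monic polynomials -/
noncomputable def mu (f : F[X]) : ℂ := if Squarefree f then (-1) ^ (pf f).card else 0

/-- coefficients of `1 / L` -/
noncomputable def Mo (χ : F[X] → ℂ) (n : ℕ) : ℂ := ∑ f ∈ Mn F n, mu f * χ f

/-- coefficients of `u L' / L` -/
noncomputable def Ps (χ : F[X] → ℂ) (n : ℕ) : ℂ :=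
  ∑ j ∈ n.divisors, (j : ℂ) * ∑ P ∈ irrs F j, χ P ^ (n / j)

/-- the roots of the `L`-function of a nonprincipal character mod `d` -/
structure IsRoots (d : F[X]) (χ : F[X] → ℂ) (α : Fin (d.natDegree - 1) → ℂ) : Prop where
  bound : ∀ i, ‖α i‖ ≤ Fintype.card F
  psum : ∀ n, 1 ≤ n → Ps χ n = - ∑ i, α i ^ n
  prod : ∀ u : ℂ, ∑ n ∈ range d.natDegree, Ls χ n * u ^ n = ∏ i, (1 - α i * u)
  conj : Rl χ → ∀ i, ∃ j, α j = (starRingEnd ℂ) (α i)

/-- squarefree monic polynomials of degree `m` (as sets of primes) -/
noncomputable def Sq (F : Type) [Field F] [Fintype F] (m : ℕ) : Finset (Finset F[X]) :=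
  (PR F 0 m).powerset.filter (fun E => dg E = m)

/-- residue functional: coefficient of `X ^ (deg d - 1)` of `f mod d` -/
noncomputable def res (d f : F[X]) : F := (f %ₘ d).coeff (d.natDegree - 1)

end Pool.Agent.H81.FF
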