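import Pool.Agent.H81.FF.Prs

/-! # FF-D05 Expansion of a residue class in primitive characters, uniqueness  (MP_a1f59e_nt, project FF, block D)

* `ind_prime`: `orth_chs` for `d = P`, `card_chs_prime`, and `chs P = {principal} ∪ ch1 P`: a character mod `P` which is
  not `NP` takes the value `1` at every `f` coprime to `P` and `0` else (so it is unique).
* `ind_expand`: induction on `D` (`Finset.induction_on`), `sum_prs_insert`, `Finset.sum_powerset_insert`, `ind_prime`;
  `pp (insert P D) ∣ n - b ↔ P ∣ n - b ∧ pp D ∣ n - b` (`pp_dvd`), `phi (insert P D) = (nrm P - 1) * phi D`.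
* `prs_unique`: if `P ∈ E1`, `P ∉ E2`: `u` from `prs_prim` for `P ∈ E1`; by `crt_pp` there is `v` with `v ≡ u mod P` and
  `v ≡ 1` modulo all other primes of `E1 ∪ E2`; then `v ≡ u mod pp E1`, `χ1 v = χ1 u ≠ 1`, `χ2 v = 1`, contradiction with `h`.
  Same for `E2`, so `E1 = E2`; for `f` coprime to `pp E1` the product is `1` and both values are `±1`, so equal; otherwise
  both are `0`.
-/

set_option autoImplicit false

namespace Pool.Agent.H81.FF

open Polynomial Finset Pool.Agent.H10.FF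
open scoped Classical ComplexConjugate

variable {F : Type} [Field F] [Fintype F]

omit [Fintype F] in
private theorem expand_princ_isCh {P : F[X]} : IsCh P (fun f => if IsCoprime f P then (1 : ℂ) else 0) := by
  refine ⟨?_, ?_, ?_, ?_⟩
  · exact if_pos isCoprime_one_left
  · intro f g
    by_cases hf : IsCoprime f P
    · by_cases hg : IsCoprime g P
      · simp only [if_pos hf, if_pos hg, if_pos (hf.mul_left hg), mul_one]
      · simp only [if_neg hg, mul_zero]
        exact if_neg fun h => hg (IsCoprime.of_mul_left_right h)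
    · simp only [if_neg hf, zero_mul]
      exact if_neg fun h => hf (IsCoprime.of_mul_left_left h)
  · intro f g h
    obtain ⟨c, hc⟩ := h
    have e : f = g + P * c := by linear_combination hc
    simp only [e, IsCoprime.add_mul_left_left_iff]
  · intro f
    by_cases hf : IsCoprime f P
    · rw [if_pos hf]
      exact ⟨fun _ => hf, fun _ => one_ne_zero⟩
    · rw [if_neg hf]
      exact ⟨fun h => absurd rfl h, fun h => absurd h hf⟩

theorem ind_prime {P : F[X]} (hP : P.Monic ∧ Irreducible P) {b n : F[X]} (hb : ¬ P ∣ b) (hn : ¬ P ∣ n) :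
    (if P ∣ n - b then (1 : ℂ) else 0) * ((nrm P - 1 : ℝ) : ℂ) =
      1 + ∑ χ ∈ ch1 P, conj (χ b) * χ n := by
  have cb : IsCoprime b P := (isCoprime_comm).1 ((hP.2.coprime_iff_not_dvd).2 hb)
  have cn : IsCoprime n P := (isCoprime_comm).1 ((hP.2.coprime_iff_not_dvd).2 hn)
  have h1 := orth_chs hP.1 cb n
  have h2 : (((chs P).card : ℕ) : ℂ) = ((nrm P - 1 : ℝ) : ℂ) := by
    rw [card_chs_prime hP.1 hP.2, nrm, Nat.cast_sub (Nat.one_le_pow _ _ Fintype.card_pos)]
    push_cast
    rfl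
  have h3 : (chs P).filter (fun χ => ¬ NP P χ) = {fun f => if IsCoprime f P then (1 : ℂ) else 0} := by
    ext χ
    rw [Finset.mem_filter, Finset.mem_singleton, mem_chs hP.1]
    constructor
    · rintro ⟨hc, hn⟩
      funext f
      by_cases hf : IsCoprime f P
      · rw [if_pos hf]
        by_contra hne
        exact hn ⟨f, hf, hne⟩
      · rw [if_neg hf]
        by_contra hne
        exact hf ((hc.supp f).1 hne)
    · rintro rfl
      refine ⟨expand_princ_isCh, ?_⟩
      rintro ⟨f, hf, hne⟩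
      exact hne (if_pos hf)
  have h4 : ∑ χ ∈ chs P, conj (χ b) * χ n =
      ∑ χ ∈ ch1 P, conj (χ b) * χ n + ∑ χ ∈ (chs P).filter (fun χ => ¬ NP P χ), conj (χ b) * χ n :=
    (Finset.sum_filter_add_sum_filter_not (chs P) (NP P) _).symm
  rw [h3, Finset.sum_singleton] at h4
  simp only [if_pos cb, if_pos cn, _root_.map_one, mul_one] at h4
  rw [add_comm, ← h4, h1]
  split_ifs
  · rw [one_mul, h2]
  · rw [zero_mul]

theorem ind_expand {D : Finset F[X]} (hD : IsPr D) {b n : F[X]} (hb : ∀ P ∈ D, ¬ P ∣ b)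
    (hn : ∀ P ∈ D, ¬ P ∣ n) :
    (if pp D ∣ n - b then (1 : ℂ) else 0) * ((phi D : ℝ) : ℂ) =
      ∑ E ∈ D.powerset, ∑ χ ∈ prs E, conj (χ b) * χ n := by
  induction D using Finset.induction_on with
  | empty =>
    rw [Finset.powerset_empty, Finset.sum_singleton, prs_empty, Finset.sum_singleton, pp, phi,
      Finset.prod_empty, Finset.prod_empty, if_pos (one_dvd _)]
    simp
  | insert P D hPD ih =>
    have hD' : IsPr D := fun Q hQ => hD Q (Finset.mem_insert_of_mem hQ)
    have hP := hD P (Finset.mem_insert_self P D)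
    have ih' := ih hD' (fun Q hQ => hb Q (Finset.mem_insert_of_mem hQ))
      (fun Q hQ => hn Q (Finset.mem_insert_of_mem hQ))
    have ip := ind_prime hP (hb P (Finset.mem_insert_self P D)) (hn P (Finset.mem_insert_self P D))
    have e1 : ∀ E ∈ D.powerset, ∑ χ ∈ prs (insert P E), conj (χ b) * χ n =
        (∑ χ ∈ prs E, conj (χ b) * χ n) * ∑ ψ ∈ ch1 P, conj (ψ b) * ψ n := by
      intro E hE
      have hE' := Finset.mem_powerset.1 hE
      rw [sum_prs_insert (fun Q hQ => hD' Q (hE' hQ)) hP (fun h => hPD (hE' h)), Finset.sum_mul_sum]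
      refine Finset.sum_congr rfl fun χ _ => Finset.sum_congr rfl fun ψ _ => ?_
      rw [_root_.map_mul]
      ring
    have e2 : (if pp (insert P D) ∣ n - b then (1 : ℂ) else 0) =
        (if pp D ∣ n - b then (1 : ℂ) else 0) * (if P ∣ n - b then (1 : ℂ) else 0) := by
      have e3 : pp (insert P D) ∣ n - b ↔ pp D ∣ n - b ∧ P ∣ n - b := by
        rw [pp_dvd hD, pp_dvd hD']
        constructor
        · intro h
          exact ⟨fun Q hQ => h Q (Finset.mem_insert_of_mem hQ), h P (Finset.mem_insert_self P D)⟩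
        · rintro ⟨h1, h2⟩ Q hQ
          rcases Finset.mem_insert.1 hQ with rfl | hQ
          · exact h2
          · exact h1 Q hQ
      by_cases h1 : pp D ∣ n - b
      · by_cases h2 : P ∣ n - b
        · rw [if_pos (e3.2 ⟨h1, h2⟩), if_pos h1, if_pos h2, mul_one]
        · rw [if_neg (fun h => h2 (e3.1 h).2), if_neg h2, mul_zero]
      · rw [if_neg (fun h => h1 (e3.1 h).1), if_neg h1, zero_mul]
    rw [Finset.sum_powerset_insert hPD, Finset.sum_congr rfl e1, ← Finset.sum_mul, ← ih', e2, phi,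
      Finset.prod_insert hPD, ← phi]
    have e4 : (((nrm P - 1) * phi D : ℝ) : ℂ) = ((nrm P - 1 : ℝ) : ℂ) * ((phi D : ℝ) : ℂ) := by
      push_cast
      ring
    rw [e4]
    linear_combination ((if pp D ∣ n - b then (1 : ℂ) else 0) * ((phi D : ℝ) : ℂ)) * ip

private theorem expand_sub {E1 E2 : Finset F[X]} (h1 : IsPr E1) (h2 : IsPr E2) {χ1 χ2 : F[X] → ℂ}
    (hχ1 : χ1 ∈ prs E1) (hχ2 : χ2 ∈ prs E2)
    (h : ∀ f, IsCoprime f (pp E1 * pp E2) → χ1 f * χ2 f = 1) : E1 ⊆ E2 := by
  intro P hP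
  by_contra hP2
  obtain ⟨u, hu, hu1, hu2⟩ := prs_prim h1 hχ1 hP
  have hU : IsPr (E1 ∪ E2) := by
    intro Q hQ
    rcases Finset.mem_union.1 hQ with hQ | hQ
    · exact h1 Q hQ
    · exact h2 Q hQ
  obtain ⟨v, hv⟩ := crt_pp hU (fun Q => if Q = P then u else 1)
  have c1 := prs_isCh h1 hχ1
  have c2 := prs_isCh h2 hχ2
  have d1 : pp E1 ∣ v - u := by
    rw [pp_dvd h1]
    intro Q hQ
    have h3 := hv Q (Finset.mem_union_left _ hQ)
    by_cases hQP : Q = P
    · rwa [if_pos hQP] at h3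
    · rw [if_neg hQP] at h3
      have h4 : Q ∣ u - 1 := by
        refine ((pp_dvd ?_).1 hu1) Q (Finset.mem_erase.2 ⟨hQP, hQ⟩)
        exact fun R hR => h1 R (Finset.mem_of_mem_erase hR)
      have h5 := dvd_sub h3 h4
      rwa [sub_sub_sub_cancel_right] at h5
  have d2 : pp E2 ∣ v - 1 := by
    rw [pp_dvd h2]
    intro Q hQ
    have h3 := hv Q (Finset.mem_union_right _ hQ)
    have hQP : Q ≠ P := fun e => hP2 (e ▸ hQ)
    rwa [if_neg hQP] at h3
  have v1 : χ1 v = χ1 u := c1.per _ _ d1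
  have v2 : χ2 v = 1 := (c2.per _ _ d2).trans c2.one
  have w1 : IsCoprime v (pp E1) := by
    rw [← c1.supp, v1, c1.supp]
    exact hu
  have w2 : IsCoprime v (pp E2) := by
    rw [← c2.supp, v2]
    exact one_ne_zero
  have h6 := h v (w1.mul_right w2)
  rw [v2, mul_one, v1] at h6
  exact hu2 h6

theorem prs_unique {E1 E2 : Finset F[X]} (h1 : IsPr E1) (h2 : IsPr E2) {χ1 χ2 : F[X] → ℂ}
    (hχ1 : χ1 ∈ prs E1) (hχ2 : χ2 ∈ prs E2) (r1 : Rl χ1) (r2 : Rl χ2)
    (h : ¬ NP (pp E1 * pp E2) (fun f => χ1 f * χ2 f)) : E1 = E2 ∧ χ1 = χ2 := by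
  have h' : ∀ f, IsCoprime f (pp E1 * pp E2) → χ1 f * χ2 f = 1 := by
    intro f hf
    by_contra hne
    exact h ⟨f, hf, hne⟩
  have hE : E1 = E2 := by
    refine Finset.Subset.antisymm (expand_sub h1 h2 hχ1 hχ2 h') (expand_sub h2 h1 hχ2 hχ1 ?_)
    intro f hf
    rw [mul_comm]
    exact h' f (by rwa [mul_comm] at hf)
  refine ⟨hE, ?_⟩
  subst hE
  have c1 := prs_isCh h1 hχ1
  have c2 := prs_isCh h2 hχ2
  funext f
  by_cases hf : IsCoprime f (pp E1)
  · have h3 := h' f (hf.mul_right hf)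
    rcases r1 f with e1 | e1 | e1 <;> rcases r2 f with e2 | e2 | e2 <;> rw [e1, e2] at h3 ⊢ <;> norm_num at h3
  · have e1 : χ1 f = 0 := by
      by_contra hne
      exact hf ((c1.supp f).1 hne)
    have e2 : χ2 f = 0 := by
      by_contra hne
      exact hf ((c2.supp f).1 hne)
    rw [e1, e2]

end Pool.Agent.H81.FF
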