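import Pool.Agent.H81.FF.Basic2

/-! # FF-D10 Factorisation sums in `F[X]`  (MP_a1f59e_nt, project FF, block D)

`F[X]` is a UFD with monic normalisation.
* `sum_mu`: let `f` be monic. The squarefree monic divisors of `f` are exactly the `pp S`, `S ⊆ pf f` (each once), and
  `mu (pp S) = (-1) ^ #S` (`pf (pp S) = S`). So the sum is `∑ S ∈ (pf f).powerset, (-1) ^ #S`
  (`Finset.sum_powerset_neg_one_pow_card`), which is `1` if `pf f = ∅` (iff `f = 1`) and `0` otherwise.
* `deg_eq`: induction on the factorisation (`UniqueFactorizationMonoid.induction_on_prime` or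
  `Polynomial` `normalizedFactors`): `f = ∏ P^(v_P)` over monic primes, `natDegree f = ∑ v_P natDegree P`, and
  `v_P = #{k : 1 ≤ k ≤ n, P ^ k ∣ f}` (`emultiplicity`, `v_P ≤ n`).
-/

set_option autoImplicit false

namespace Pool.Agent.H81.FF

open Polynomial Finset Pool.Agent.H10.FF
open scoped Classical

variable {F : Type} [Field F] [Fintype F]

theorem fact_mem_pf {f : F[X]} (hf : f ≠ 0) {P : F[X]} :
    P ∈ pf f ↔ P.Monic ∧ Irreducible P ∧ P ∣ f := by
  rw [pf, Finset.mem_filter, mem_PR]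
  constructor
  · rintro ⟨⟨h1, h2, -, -⟩, h3⟩
    exact ⟨h1, h2, h3⟩
  · rintro ⟨h1, h2, h3⟩
    exact ⟨⟨h1, h2, h2.natDegree_pos, natDegree_le_of_dvd h3 hf⟩, h3⟩

theorem fact_isPr (f : F[X]) : IsPr (pf f) := by
  intro P hP
  rw [pf, Finset.mem_filter, mem_PR] at hP
  exact ⟨hP.1.1, hP.1.2.1⟩

theorem pf_pp {S : Finset F[X]} (hS : IsPr S) : pf (pp S) = S := by
  ext P
  rw [fact_mem_pf (pp_monic hS).ne_zero]
  constructor
  · rintro ⟨h1, h2, h3⟩
    unfold pp at h3
    obtain ⟨Q, hQ, hPQ⟩ := (h2.prime.dvd_finsetProd_iff (fun P : F[X] => P)).mp h3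
    have h4 : P = Q := eq_of_monic_of_associated h1 (hS Q hQ).1
      ((h2.dvd_irreducible_iff_associated (hS Q hQ).2).1 hPQ)
    rw [h4]
    exact hQ
  · intro hP
    exact ⟨(hS P hP).1, (hS P hP).2, Finset.dvd_prod_of_mem (fun P : F[X] => P) hP⟩

theorem fact_squarefree_pp {S : Finset F[X]} (hS : IsPr S) : Squarefree (pp S) := by
  unfold pp
  refine Finset.squarefree_prod_of_pairwise_isCoprime ?_ ?_
  · intro P hP Q hQ hPQ
    exact (coprime_primes (hS P hP) (hS Q hQ) hPQ).isRelPrime
  · intro P hP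
    exact (hS P hP).2.squarefree

theorem mu_pp {S : Finset F[X]} (hS : IsPr S) : mu (pp S) = (-1) ^ S.card := by
  rw [mu, if_pos (fact_squarefree_pp hS), pf_pp hS]

theorem norm_mu_le (f : F[X]) : ‖mu f‖ ≤ 1 := by
  rw [mu]
  split_ifs
  · rw [norm_pow, norm_neg, norm_one, one_pow]
  · rw [norm_zero]
    exact zero_le_one

theorem fact_squarefree_eq {g : F[X]} (hg : g.Monic) (hs : Squarefree g) : pp (pf g) = g := by
  have h1 : pp (pf g) ∣ g := by
    rw [pp_dvd (fact_isPr g)]
    intro P hP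
    exact ((fact_mem_pf hg.ne_zero).mp hP).2.2
  obtain ⟨h, hh⟩ := h1
  have hm : h.Monic := by
    apply (pp_monic (fact_isPr g)).of_mul_monic_left
    rw [← hh]
    exact hg
  by_cases h2 : IsUnit h
  · rw [hm.isUnit_iff] at h2
    rw [h2, mul_one] at hh
    exact hh.symm
  · exfalso
    obtain ⟨Q, hQm, hQi, hQh⟩ := exists_monic_irreducible_factor h h2
    have h3 : Q ∣ g := by
      rw [hh]
      exact hQh.mul_left _
    have h4 : Q ∣ pp (pf g) :=
      Finset.dvd_prod_of_mem (fun P : F[X] => P) ((fact_mem_pf hg.ne_zero).mpr ⟨hQm, hQi, h3⟩)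
    have h5 : Q * Q ∣ g := by
      conv_rhs => rw [hh]
      exact mul_dvd_mul h4 hQh
    exact hQi.not_isUnit (hs Q h5)

theorem fact_pf_empty {f : F[X]} (hf : f.Monic) : pf f = ∅ ↔ f = 1 := by
  constructor
  · intro h
    by_contra hne
    have h2 : ¬ IsUnit f := by
      rw [hf.isUnit_iff]
      exact hne
    obtain ⟨Q, hQm, hQi, hQh⟩ := exists_monic_irreducible_factor f h2
    have h3 : Q ∈ pf f := (fact_mem_pf hf.ne_zero).mpr ⟨hQm, hQi, hQh⟩
    rw [h] at h3
    exact absurd h3 (Finset.notMem_empty Q)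
  · rintro rfl
    rw [Finset.eq_empty_iff_forall_notMem]
    intro P hP
    have h1 := (fact_mem_pf one_ne_zero).mp hP
    exact h1.2.1.not_isUnit (isUnit_of_dvd_one h1.2.2)

theorem sum_mu {f : F[X]} (hf : f.Monic) :
    ∑ i ∈ range (f.natDegree + 1), ∑ g ∈ (Mn F i).filter (fun g => g ∣ f), mu g = if f = 1 then 1 else 0 := by
  have hdisj : ((range (f.natDegree + 1) : Finset ℕ) : Set ℕ).PairwiseDisjoint
      (fun i => (Mn F i).filter (fun g => g ∣ f)) := by
    intro i _ j _ hij
    rw [Function.onFun, Finset.disjoint_left]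
    intro g hg hg'
    rw [Finset.mem_filter, mem_Mn] at hg hg'
    exact hij (hg.1.2.symm.trans hg'.1.2)
  rw [← Finset.sum_biUnion hdisj]
  set D := (range (f.natDegree + 1)).biUnion (fun i => (Mn F i).filter (fun g => g ∣ f)) with hD
  have hmem : ∀ g, g ∈ D ↔ g.Monic ∧ g ∣ f := by
    intro g
    rw [hD, Finset.mem_biUnion]
    constructor
    · rintro ⟨i, -, hg⟩
      rw [Finset.mem_filter, mem_Mn] at hg
      exact ⟨hg.1.1, hg.2⟩
    · rintro ⟨h1, h2⟩
      refine ⟨g.natDegree, ?_, ?_⟩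
      · rw [Finset.mem_range]
        exact Nat.lt_succ_of_le (natDegree_le_of_dvd h2 hf.ne_zero)
      · rw [Finset.mem_filter, mem_Mn]
        exact ⟨⟨h1, rfl⟩, h2⟩
  have h1 : ∑ g ∈ D, mu g = ∑ g ∈ D.filter Squarefree, mu g := by
    rw [Finset.sum_filter]
    refine Finset.sum_congr rfl fun g _ => ?_
    rw [mu]
    split_ifs <;> rfl
  have hsub : ∀ S ∈ (pf f).powerset, IsPr S := by
    intro S hS P hP
    exact fact_isPr f P (Finset.mem_powerset.mp hS hP)
  have h2 : D.filter Squarefree = (pf f).powerset.image pp := by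
    ext g
    rw [Finset.mem_filter, hmem, Finset.mem_image]
    constructor
    · rintro ⟨⟨h3, h4⟩, h5⟩
      refine ⟨pf g, ?_, fact_squarefree_eq h3 h5⟩
      rw [Finset.mem_powerset]
      intro P hP
      have h6 := (fact_mem_pf h3.ne_zero).mp hP
      exact (fact_mem_pf hf.ne_zero).mpr ⟨h6.1, h6.2.1, h6.2.2.trans h4⟩
    · rintro ⟨S, hS, rfl⟩
      refine ⟨⟨pp_monic (hsub S hS), ?_⟩, fact_squarefree_pp (hsub S hS)⟩
      rw [pp_dvd (hsub S hS)]
      intro P hP
      exact ((fact_mem_pf hf.ne_zero).mp (Finset.mem_powerset.mp hS hP)).2.2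
  rw [h1, h2, Finset.sum_image (fun S hS T hT h => pp_injOn (hsub S hS) (hsub T hT) h),
    Finset.sum_congr rfl (fun S hS => mu_pp (hsub S hS))]
  have h3 := Finset.sum_powerset_neg_one_pow_card (x := pf f)
  have h4 : ((∑ m ∈ (pf f).powerset, (-1 : ℤ) ^ m.card : ℤ) : ℂ) =
      ∑ S ∈ (pf f).powerset, (-1 : ℂ) ^ S.card := by
    push_cast
    rfl
  rw [← h4, h3]
  by_cases h5 : f = 1
  · rw [if_pos ((fact_pf_empty hf).mpr h5), if_pos h5, Int.cast_one]
  · rw [if_neg (fun h => h5 ((fact_pf_empty hf).mp h)), if_neg h5, Int.cast_zero]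

/-- number of `k` with `P ^ k ∣ f` -/
theorem fact_count (N : ℕ) {Q g : F[X]} (hQ : Q.Monic ∧ Irreducible Q) (hg : g.Monic)
    (hN : (Q * g).natDegree ≤ N) {P : F[X]} (hP : P.Monic ∧ Irreducible P) :
    ((Icc 1 N).filter (fun k => P ^ k ∣ Q * g)).card =
      ((Icc 1 N).filter (fun k => P ^ k ∣ g)).card + if P = Q then 1 else 0 := by
  by_cases hPQ : P = Q
  · subst hPQ
    rw [if_pos rfl]
    have hd : (P * g).natDegree = P.natDegree + g.natDegree := hQ.1.natDegree_mul hg
    have hp1 : 1 ≤ P.natDegree := hP.2.natDegree_pos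
    have hN1 : 1 ≤ N := by omega
    have h1 : (Icc 1 N).filter (fun k => P ^ k ∣ P * g) =
        insert 1 (((Icc 1 N).filter (fun k => P ^ k ∣ g)).image (fun k => k + 1)) := by
      ext k
      rw [Finset.mem_filter, Finset.mem_insert, Finset.mem_image, Finset.mem_Icc]
      constructor
      · rintro ⟨⟨h2, h3⟩, h4⟩
        by_cases h5 : k = 1
        · exact Or.inl h5
        · right
          obtain ⟨m, rfl⟩ := Nat.exists_eq_succ_of_ne_zero (by omega : k ≠ 0)
          refine ⟨m, ?_, rfl⟩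
          rw [Finset.mem_filter, Finset.mem_Icc]
          refine ⟨⟨by omega, by omega⟩, ?_⟩
          rw [Nat.succ_eq_add_one, pow_succ'] at h4
          exact (mul_dvd_mul_iff_left hP.1.ne_zero).mp h4
      · rintro (rfl | ⟨m, hm, rfl⟩)
        · refine ⟨⟨le_rfl, hN1⟩, ?_⟩
          rw [pow_one]
          exact Dvd.intro _ rfl
        · rw [Finset.mem_filter, Finset.mem_Icc] at hm
          have h6 : (P ^ m).natDegree ≤ g.natDegree := natDegree_le_of_dvd hm.2 hg.ne_zero
          rw [natDegree_pow] at h6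
          have h7 : m * 1 ≤ m * P.natDegree := Nat.mul_le_mul_left m hp1
          refine ⟨⟨by omega, by omega⟩, ?_⟩
          rw [pow_succ']
          exact mul_dvd_mul_left P hm.2
    rw [h1, Finset.card_insert_of_notMem, Finset.card_image_of_injective _ (add_left_injective 1)]
    intro h8
    rw [Finset.mem_image] at h8
    obtain ⟨m, hm, hm1⟩ := h8
    rw [Finset.mem_filter, Finset.mem_Icc] at hm
    omega
  · rw [if_neg hPQ, add_zero]
    congr 1
    refine Finset.filter_congr fun k _ => ?_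
    constructor
    · intro h
      exact ((coprime_primes hP hQ hPQ).pow_left).dvd_of_dvd_mul_left h
    · intro h
      exact h.mul_left Q

theorem fact_deg (N : ℕ) : ∀ (n : ℕ) (f : F[X]), f.natDegree = n → f.Monic → f.natDegree ≤ N →
    f.natDegree = ∑ P ∈ PR F 0 N, P.natDegree * ((Icc 1 N).filter (fun k => P ^ k ∣ f)).card := by
  intro n
  induction n using Nat.strong_induction_on with
  | _ n ih =>
    intro f hn hf hN
    by_cases h1 : IsUnit f
    · rw [hf.isUnit_iff] at h1
      subst h1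
      symm
      rw [natDegree_one]
      refine Finset.sum_eq_zero fun P hP => ?_
      rw [mem_PR] at hP
      rw [Finset.filter_false_of_mem, Finset.card_empty, mul_zero]
      intro k hk h2
      rw [Finset.mem_Icc] at hk
      exact hP.2.1.not_isUnit (isUnit_of_dvd_one ((dvd_pow_self P (by omega)).trans h2))
    · obtain ⟨Q, hQm, hQi, g, rfl⟩ := exists_monic_irreducible_factor f h1
      have hg : g.Monic := hQm.of_mul_monic_left hf
      have hd : (Q * g).natDegree = Q.natDegree + g.natDegree := hQm.natDegree_mul hg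
      have hq1 : 1 ≤ Q.natDegree := hQi.natDegree_pos
      have h3 := ih g.natDegree (by omega) g rfl hg (by omega)
      have h4 : ∀ P ∈ PR F 0 N, P.natDegree * ((Icc 1 N).filter (fun k => P ^ k ∣ Q * g)).card =
          P.natDegree * ((Icc 1 N).filter (fun k => P ^ k ∣ g)).card +
            if P = Q then Q.natDegree else 0 := by
        intro P hP
        rw [mem_PR] at hP
        rw [fact_count N ⟨hQm, hQi⟩ hg hN ⟨hP.1, hP.2.1⟩, mul_add]
        congr 1
        by_cases h5 : P = Q
        · rw [if_pos h5, if_pos h5, mul_one, h5]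
        · rw [if_neg h5, if_neg h5, mul_zero]
      rw [Finset.sum_congr rfl h4, Finset.sum_add_distrib, ← h3, Finset.sum_ite_eq' (PR F 0 N) Q,
        if_pos, hd, add_comm]
      rw [mem_PR]
      exact ⟨hQm, hQi, hq1, by omega⟩

theorem deg_eq {f : F[X]} (hf : f.Monic) {n : ℕ} (hn : f.natDegree = n) :
    n = ∑ j ∈ Icc 1 n, ∑ P ∈ irrs F j, j * ((Icc 1 n).filter (fun k => P ^ k ∣ f)).card := by
  have h1 := fact_deg n n f hn hf hn.le
  rw [hn] at h1
  rw [PR, Finset.sum_biUnion] at h1
  · have h2 : (Finset.Ioc 0 n) = Icc 1 n := by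
      ext k
      rw [Finset.mem_Ioc, Finset.mem_Icc]
      omega
    rw [h2] at h1
    refine h1.trans (Finset.sum_congr rfl fun j _ => Finset.sum_congr rfl fun P hP => ?_)
    rw [(mem_irrs.mp hP).2.2]
  · intro i _ j _ hij
    rw [Function.onFun, Finset.disjoint_left]
    intro g hg hg'
    rw [mem_irrs] at hg hg'
    exact hij (hg.2.2.symm.trans hg'.2.2)

end Pool.Agent.H81.FF
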