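import Mathlib

/-! # FF-D16 Factorisation of the `L` polynomial, abstract part  (MP_a1f59e_nt, project FF, block D)

* `factor_poly`: `Q = ∑_{n < m} C (L n) * X^(m-1-n)` is monic of degree `m - 1` over `ℂ`, so `Q = ∏ (X - α i)`
  (`Polynomial` splits, roots multiset of card `m - 1`, enumerate by `Fin (m-1)`); then
  `∑ L n u^n = u^(m-1) Q (1/u) = ∏ (1 - α i u)` for `u ≠ 0`, and both sides are `1` at `u = 0`. If all `L n` are real,
  `Q (conj x) = conj (Q x)`, so `conj (α i)` is a root.
* `psum_of_conv`: as power series `L = ∏ (1 - α i X)` (two polynomials equal at all `u`), so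
  `X L' = L * (- ∑ i ∑_{n ≥ 1} α i^n X^n)`: induction on the finite product (product rule; and
  `X * (-a) = (1 - a X) * (- ∑_{n≥1} a^n X^n)`); as `X L' = Ψ * L` (`hΨ`) and `L` is not a zero divisor (`L 0 = 1`) the series
  agree.
* `root_bound`: if `‖α i‖ > q`, put `u = 1 / α i`: `∑ M n u^n` converges absolutely and
  `(∑ L n u^n) * (∑ M n u^n) = 1` (Cauchy product), but the first factor is `∏ (1 - α j u) = 0`.
-/

set_option autoImplicit false

namespace Pool.Agent.H81.FF

open Finset

theorem factor_poly (m : ℕ) (hm : 1 ≤ m) (L : ℕ → ℂ) (h0 : L 0 = 1) :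
    ∃ α : Fin (m - 1) → ℂ, (∀ u : ℂ, ∑ n ∈ range m, L n * u ^ n = ∏ i, (1 - α i * u)) ∧
      ((∀ n, (starRingEnd ℂ) (L n) = L n) → ∀ i, ∃ j, α j = (starRingEnd ℂ) (α i)) := by
  classical
  obtain ⟨k, rfl⟩ : ∃ k, m = k + 1 := ⟨m - 1, by omega⟩
  change ∃ α : Fin k → ℂ, (∀ u : ℂ, ∑ n ∈ range (k + 1), L n * u ^ n = ∏ i, (1 - α i * u)) ∧
      ((∀ n, (starRingEnd ℂ) (L n) = L n) → ∀ i, ∃ j, α j = (starRingEnd ℂ) (α i))
  set Q : Polynomial ℂ := ∑ n ∈ range (k + 1), Polynomial.C (L n) * Polynomial.X ^ (k - n) with hQ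
  have hQ' : Q = Polynomial.X ^ k + ∑ n ∈ range k, Polynomial.C (L (n + 1)) *
      Polynomial.X ^ (k - (n + 1)) := by
    rw [hQ, Finset.sum_range_succ', h0]
    simp only [Polynomial.C_1, one_mul, Nat.sub_zero]
    rw [add_comm]
  have hdeg : (∑ n ∈ range k, Polynomial.C (L (n + 1)) *
      Polynomial.X ^ (k - (n + 1)) : Polynomial ℂ).degree < k := by
    refine lt_of_le_of_lt (Polynomial.degree_sum_le _ _) ?_
    refine (Finset.sup_lt_iff (WithBot.bot_lt_coe k)).2 ?_
    intro n hn
    have hn := Finset.mem_range.1 hn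
    refine lt_of_le_of_lt (Polynomial.degree_C_mul_X_pow_le _ _) ?_
    exact Nat.cast_lt.2 (show k - (n + 1) < k by omega)
  have hmonic : Q.Monic := by
    rw [hQ']; exact Polynomial.monic_X_pow_add hdeg
  have hnat : Q.natDegree = k := by
    rw [hQ']
    exact Polynomial.natDegree_eq_of_degree_eq_some (by
      rw [Polynomial.degree_add_eq_left_of_degree_lt]
      · simp
      · simpa using hdeg)
  have hsp : Q.Splits := IsAlgClosed.splits Q
  have hcard : Q.roots.card = k := by
    rw [← hnat]; exact (Polynomial.splits_iff_card_roots.1 hsp)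
  have hprod : (Q.roots.map (fun a => Polynomial.X - Polynomial.C a)).prod = Q :=
    Polynomial.prod_multiset_X_sub_C_of_monic_of_roots_card_eq hmonic (by rw [hcard, hnat])
  have hlen : Q.roots.toList.length = k := by simpa using hcard
  set α : Fin k → ℂ := fun i => Q.roots.toList.get (i.cast hlen.symm) with hα
  have hprod2 : ∏ i, (Polynomial.X - Polynomial.C (α i)) = Q := by
    have h1 : (List.map (fun a => Polynomial.X - Polynomial.C a) Q.roots.toList).prod = Q := by
      rw [← Multiset.prod_coe, ← Multiset.map_coe, Multiset.coe_toList]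
      exact hprod
    conv_rhs => rw [← h1]
    rw [← List.ofFn_get (Q.roots.toList), List.map_ofFn, List.prod_ofFn]
    refine Fintype.prod_equiv (finCongr hlen.symm) _ _ (fun i => ?_)
    simp [hα]
  have hroot : ∀ z : ℂ, Q.eval z = 0 → ∃ j, α j = z := by
    intro z hz
    rw [← hprod2, Polynomial.eval_prod, Finset.prod_eq_zero_iff] at hz
    obtain ⟨j, -, hj⟩ := hz
    refine ⟨j, ?_⟩
    simp only [Polynomial.eval_sub, Polynomial.eval_X, Polynomial.eval_C] at hj
    exact (sub_eq_zero.1 hj).symm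
  have hrooti : ∀ i, Q.eval (α i) = 0 := by
    intro i
    rw [← hprod2, Polynomial.eval_prod]
    exact Finset.prod_eq_zero (Finset.mem_univ i) (by simp)
  refine ⟨α, fun u => ?_, fun hre i => ?_⟩
  · by_cases hu : u = 0
    · subst hu
      rw [Finset.sum_range_succ']
      simp [h0]
    · have e1 : ∑ n ∈ range (k + 1), L n * u ^ n = u ^ k * Q.eval (u⁻¹) := by
        rw [hQ, Polynomial.eval_finsetSum, Finset.mul_sum]
        refine Finset.sum_congr rfl (fun n hn => ?_)
        have hn := Finset.mem_range.1 hn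
        simp only [Polynomial.eval_mul, Polynomial.eval_C, Polynomial.eval_pow, Polynomial.eval_X]
        have : u ^ k = u ^ n * u ^ (k - n) := by rw [← pow_add]; congr 1; omega
        rw [this]
        have h2 : u ^ (k - n) * u⁻¹ ^ (k - n) = 1 := by
          rw [← mul_pow, mul_inv_cancel₀ hu, one_pow]
        calc L n * u ^ n = L n * u ^ n * (u ^ (k - n) * u⁻¹ ^ (k - n)) := by rw [h2, mul_one]
          _ = _ := by ring
      rw [e1, ← hprod2, Polynomial.eval_prod]
      have : u ^ k = ∏ _i : Fin k, u := by simp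
      rw [this, ← Finset.prod_mul_distrib]
      refine Finset.prod_congr rfl (fun i _ => ?_)
      simp only [Polynomial.eval_sub, Polynomial.eval_X, Polynomial.eval_C]
      rw [mul_sub, mul_inv_cancel₀ hu, mul_comm]
  · apply hroot
    have h1 : Q.eval ((starRingEnd ℂ) (α i)) = (starRingEnd ℂ) (Q.eval (α i)) := by
      rw [hQ, Polynomial.eval_finsetSum, Polynomial.eval_finsetSum, map_sum]
      refine Finset.sum_congr rfl (fun n _ => ?_)
      simp only [Polynomial.eval_mul, Polynomial.eval_C, Polynomial.eval_pow, Polynomial.eval_X,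
        map_mul, map_pow, hre n]
    rw [h1, hrooti i, map_zero]

theorem coeff_of_eval (m : ℕ) (L : ℕ → ℂ) (hL : ∀ n, m ≤ n → L n = 0)
    {κ : Type} [Fintype κ] (α : κ → ℂ) (hα : ∀ u : ℂ, ∑ n ∈ range m, L n * u ^ n = ∏ i, (1 - α i * u)) :
    PowerSeries.mk L = ∏ i, (1 - PowerSeries.C (α i) * PowerSeries.X) := by
  classical
  have h1 : (∑ n ∈ range m, Polynomial.C (L n) * Polynomial.X ^ n : Polynomial ℂ)
      = ∏ i, (1 - Polynomial.C (α i) * Polynomial.X) := by
    apply Polynomial.funext
    intro u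
    rw [Polynomial.eval_finsetSum, Polynomial.eval_prod]
    simpa using hα u
  have h2 : ((∑ n ∈ range m, Polynomial.C (L n) * Polynomial.X ^ n : Polynomial ℂ) : PowerSeries ℂ)
      = PowerSeries.mk L := by
    ext n
    rw [Polynomial.coeff_coe, PowerSeries.coeff_mk, Polynomial.finsetSum_coeff]
    simp only [Polynomial.coeff_C_mul, Polynomial.coeff_X_pow]
    by_cases hn : n < m
    · rw [Finset.sum_eq_single n]
      · simp
      · intro b _ hb; simp [hb.symm]
      · intro h; exact absurd (Finset.mem_range.2 hn) h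
    · rw [hL n (not_lt.1 hn)]
      refine Finset.sum_eq_zero (fun b hb => ?_)
      have : n ≠ b := by rintro rfl; exact hn (Finset.mem_range.1 hb)
      simp [this]
  rw [← h2, h1]
  rw [← Polynomial.coeToPowerSeries.ringHom_apply, map_prod]
  refine Finset.prod_congr rfl (fun i _ => ?_)
  simp

theorem psum_of_conv (m : ℕ) (L Ψ : ℕ → ℂ) (h0 : L 0 = 1) (hL : ∀ n, m ≤ n → L n = 0)
    {κ : Type} [Fintype κ] (α : κ → ℂ) (hα : ∀ u : ℂ, ∑ n ∈ range m, L n * u ^ n = ∏ i, (1 - α i * u))
    (hΨ : ∀ n : ℕ, (n : ℂ) * L n = ∑ p ∈ antidiagonal n, Ψ p.1 * L p.2) (n : ℕ) (hn : 1 ≤ n) :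
    Ψ n = - ∑ i, α i ^ n := by
  classical
  have hser := coeff_of_eval m L hL α hα
  let G : ℂ → PowerSeries ℂ := fun a => PowerSeries.mk (fun n => if n = 0 then 0 else a ^ n)
  have hG : ∀ a : ℂ, (1 - PowerSeries.C a * PowerSeries.X) * G a = PowerSeries.C a * PowerSeries.X := by
    intro a
    ext k
    rw [sub_mul, one_mul, map_sub, mul_assoc, PowerSeries.coeff_C_mul, PowerSeries.coeff_C_mul]
    cases k with
    | zero => simp [G]
    | succ k =>
      rw [PowerSeries.coeff_succ_X_mul]
      simp only [G, PowerSeries.coeff_mk, PowerSeries.coeff_X]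
      cases k with
      | zero => simp
      | succ k => simp; ring
  have hprod : ∀ s : Finset κ, PowerSeries.X * PowerSeries.derivative ℂ
      (∏ i ∈ s, (1 - PowerSeries.C (α i) * PowerSeries.X)) =
      (∏ i ∈ s, (1 - PowerSeries.C (α i) * PowerSeries.X)) * (- ∑ i ∈ s, G (α i)) := by
    intro s
    induction s using Finset.induction_on with
    | empty => simp
    | insert i s hi ih =>
      rw [Finset.prod_insert hi, Finset.sum_insert hi, Derivation.leibniz]
      have hd : PowerSeries.derivative ℂ (1 - PowerSeries.C (α i) * PowerSeries.X) =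
          - PowerSeries.C (α i) := by
        rw [map_sub, Derivation.leibniz]
        simp [PowerSeries.derivative_C, PowerSeries.derivative_X]
      rw [hd, smul_eq_mul, smul_eq_mul, mul_add]
      have e1 : PowerSeries.X * ((1 - PowerSeries.C (α i) * PowerSeries.X) *
          PowerSeries.derivative ℂ (∏ i ∈ s, (1 - PowerSeries.C (α i) * PowerSeries.X))) =
          (1 - PowerSeries.C (α i) * PowerSeries.X) * ((∏ i ∈ s, (1 - PowerSeries.C (α i) *
            PowerSeries.X)) * (- ∑ i ∈ s, G (α i))) := by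
        rw [← ih]; ring
      rw [e1]
      have e2 := hG (α i)
      linear_combination (-(∏ i ∈ s, (1 - PowerSeries.C (α i) * PowerSeries.X))) * (-e2)
  have hX : PowerSeries.X * PowerSeries.derivative ℂ (PowerSeries.mk L) =
      PowerSeries.mk Ψ * PowerSeries.mk L := by
    ext k
    have hr : PowerSeries.coeff k (PowerSeries.mk Ψ * PowerSeries.mk L) = (k : ℂ) * L k := by
      rw [PowerSeries.coeff_mul, hΨ k]
      simp only [PowerSeries.coeff_mk]
    rw [hr]
    cases k with
    | zero => simp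
    | succ k =>
      rw [PowerSeries.coeff_succ_X_mul, PowerSeries.coeff_derivative, PowerSeries.coeff_mk]
      push_cast
      ring
  have hP := hprod Finset.univ
  rw [← hser, hX] at hP
  have hne : PowerSeries.mk L ≠ 0 := by
    intro h
    have := congrArg (PowerSeries.coeff 0) h
    rw [PowerSeries.coeff_mk, h0] at this
    simp at this
  have hfin : PowerSeries.mk Ψ = - ∑ i, G (α i) := by
    have : PowerSeries.mk L * (PowerSeries.mk Ψ - (- ∑ i, G (α i))) = 0 := by
      rw [mul_sub, ← hP]; ring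
    rcases mul_eq_zero.1 this with h | h
    · exact absurd h hne
    · exact sub_eq_zero.1 h
  have hc := congrArg (PowerSeries.coeff n) hfin
  rw [PowerSeries.coeff_mk, map_neg, map_sum] at hc
  rw [hc]
  congr 1
  refine Finset.sum_congr rfl (fun i _ => ?_)
  simp only [G, PowerSeries.coeff_mk]
  rw [if_neg (by omega)]

theorem root_bound (m : ℕ) (L M : ℕ → ℂ) (hL : ∀ n, m ≤ n → L n = 0) (q : ℝ) (hq : 0 < q)
    (hM : ∀ n, ‖M n‖ ≤ q ^ n) {κ : Type} [Fintype κ] (α : κ → ℂ)
    (hα : ∀ u : ℂ, ∑ n ∈ range m, L n * u ^ n = ∏ i, (1 - α i * u))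
    (hc : ∀ n, ∑ p ∈ antidiagonal n, L p.1 * M p.2 = if n = 0 then 1 else 0) (i : κ) : ‖α i‖ ≤ q := by
  classical
  by_contra hcon
  push Not at hcon
  have hai : α i ≠ 0 := by
    intro h; rw [h, norm_zero] at hcon; linarith
  set u : ℂ := (α i)⁻¹ with hu
  have hnu : q * ‖u‖ < 1 := by
    rw [hu, norm_inv, ← div_eq_mul_inv, div_lt_one (norm_pos_iff.2 hai)]
    exact hcon
  have hz : ∑ n ∈ range m, L n * u ^ n = 0 := by
    rw [hα u]
    refine Finset.prod_eq_zero (Finset.mem_univ i) ?_
    rw [hu, mul_inv_cancel₀ hai, sub_self]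
  have hsL : ∀ n ∉ range m, L n * u ^ n = 0 := by
    intro n hn
    rw [hL n (not_lt.1 (fun h => hn (Finset.mem_range.2 h))), zero_mul]
  have hS1 : Summable (fun n => ‖L n * u ^ n‖) := by
    refine summable_of_ne_finset_zero (s := range m) (fun n hn => ?_)
    rw [hsL n hn, norm_zero]
  have hS2 : Summable (fun n => ‖M n * u ^ n‖) := by
    refine Summable.of_nonneg_of_le (fun n => norm_nonneg _) (fun n => ?_)
      (summable_geometric_of_lt_one (by positivity) hnu)
    rw [norm_mul, norm_pow, mul_pow]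
    exact mul_le_mul_of_nonneg_right (hM n) (by positivity)
  have key := tsum_mul_tsum_eq_tsum_sum_antidiagonal_of_summable_norm hS1 hS2
  have hT : ∑' n, L n * u ^ n = 0 := by
    rw [tsum_eq_sum hsL, hz]
  rw [hT, zero_mul] at key
  have hR : ∀ n, ∑ p ∈ antidiagonal n, L p.1 * u ^ p.1 * (M p.2 * u ^ p.2) =
      if n = 0 then 1 else 0 := by
    intro n
    have : ∀ p ∈ antidiagonal n, L p.1 * u ^ p.1 * (M p.2 * u ^ p.2) = u ^ n * (L p.1 * M p.2) := by
      intro p hp
      rw [← Finset.HasAntidiagonal.mem_antidiagonal.1 hp, pow_add]; ring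
    rw [Finset.sum_congr rfl this, ← Finset.mul_sum, hc n]
    by_cases hn : n = 0
    · simp [hn]
    · simp [hn]
  have hR2 : ∑' n, ∑ p ∈ antidiagonal n, L p.1 * u ^ p.1 * (M p.2 * u ^ p.2) = 1 := by
    rw [tsum_congr hR, tsum_ite_eq]
  rw [hR2] at key
  exact zero_ne_one key

end Pool.Agent.H81.FF
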