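import Pool.Agent.H81.FF.Res

/-! # FF-D07 Additive large sieve (exact)  (MP_a1f59e_nt, project FF, block D)

* `bessel`: expand `0 ≤ ∑ i, ‖conj (c i) * Q - ∑ k, (∑ j, conj (c j) conj (v k j)) * v k i‖ ^ 2` or use
  `Orthonormal.sum_inner_products_le`. (If `Q = 0` every `v k` vanishes on `I`.)
* `sum_psi_zero`: if an additive function `l : F[X] → F` (on `Gn F L`) takes a value `y` with `ψ y ≠ 1` at some `g ∈ Gn F L`,
  then `∑ f ∈ Gn F L, ψ (l f) = 0` (translate by `g`).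
* `ls_add`: `bessel` with `I = Gn F L`, `K` = pairs `(d, a)`, `v (d,a) f = ψ (res d (a f))`, `Q = q ^ L`;
  `v (d,a) f * conj (v (d',a') f) = ψ (res d (a f) - res d' (a' f))`, `res_sep` with a `y`, `ψ y ≠ 1`.
* `ls_add_Mn`: if `2m ≤ ν` write `f = X ^ ν + g` (`sum_Mn_shift`): `ψ (res d (a (X^ν + g))) = ψ (res d (a X^ν)) ψ (res d (a g))`
  and the first factor has norm `1`; if `ν < 2m` then `Mn F ν ⊆ Gn F (2m)`, extend `c` by `0`.
-/

set_option autoImplicit false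

namespace Pool.Agent.H81.FF

open Polynomial Finset Pool.Agent.H10.FF
open scoped Classical ComplexConjugate

variable {F : Type} [Field F] [Fintype F]

theorem bessel {ι κ : Type} (I : Finset ι) (K : Finset κ) (v : κ → ι → ℂ) (Q : ℝ) (hQ : 0 ≤ Q)
    (h : ∀ k ∈ K, ∀ l ∈ K, ∑ i ∈ I, v k i * conj (v l i) = if k = l then (Q : ℂ) else 0) (c : ι → ℂ) :
    ∑ k ∈ K, ‖∑ i ∈ I, c i * v k i‖ ^ 2 ≤ Q * ∑ i ∈ I, ‖c i‖ ^ 2 := by
  set S : κ → ℂ := fun k => ∑ i ∈ I, c i * v k i with hS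
  have key : ∑ i ∈ I, ((Q : ℂ) * c i - ∑ k ∈ K, S k * conj (v k i)) *
      conj ((Q : ℂ) * c i - ∑ k ∈ K, S k * conj (v k i)) =
      (Q : ℂ) * ((Q : ℂ) * ∑ i ∈ I, c i * conj (c i) - ∑ k ∈ K, S k * conj (S k)) := by
    have e1 : ∀ i, ((Q : ℂ) * c i - ∑ k ∈ K, S k * conj (v k i)) *
        conj ((Q : ℂ) * c i - ∑ k ∈ K, S k * conj (v k i)) =
        (Q : ℂ) * (Q : ℂ) * (c i * conj (c i)) - ∑ k ∈ K, (Q : ℂ) * conj (S k) * (c i * v k i)
        - ∑ k ∈ K, (Q : ℂ) * S k * conj (c i * v k i)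
        + ∑ k ∈ K, ∑ l ∈ K, S k * conj (S l) * (v l i * conj (v k i)) := by
      intro i
      have e2 : conj ((Q : ℂ) * c i - ∑ k ∈ K, S k * conj (v k i)) =
          (Q : ℂ) * conj (c i) - ∑ k ∈ K, conj (S k) * v k i := by
        rw [map_sub, map_mul, Complex.conj_ofReal, map_sum]
        congr 1
        refine Finset.sum_congr rfl fun k _ => ?_
        rw [map_mul, Complex.conj_conj]
      rw [e2]
      have e3 : (∑ k ∈ K, S k * conj (v k i)) * (∑ l ∈ K, conj (S l) * v l i) =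
          ∑ k ∈ K, ∑ l ∈ K, S k * conj (S l) * (v l i * conj (v k i)) := by
        rw [Finset.sum_mul_sum]
        refine Finset.sum_congr rfl fun k _ => Finset.sum_congr rfl fun l _ => ?_
        ring
      have e4 : ∑ k ∈ K, (Q : ℂ) * conj (S k) * (c i * v k i) =
          (Q : ℂ) * c i * ∑ k ∈ K, conj (S k) * v k i := by
        rw [Finset.mul_sum]
        refine Finset.sum_congr rfl fun k _ => ?_
        ring
      have e5 : ∑ k ∈ K, (Q : ℂ) * S k * conj (c i * v k i) =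
          (Q : ℂ) * conj (c i) * ∑ k ∈ K, S k * conj (v k i) := by
        rw [Finset.mul_sum]
        refine Finset.sum_congr rfl fun k _ => ?_
        rw [map_mul]
        ring
      rw [← e3, e4, e5]
      ring
    rw [Finset.sum_congr rfl fun i _ => e1 i, Finset.sum_add_distrib, Finset.sum_sub_distrib,
      Finset.sum_sub_distrib, ← Finset.mul_sum]
    have e6 : ∑ i ∈ I, ∑ k ∈ K, (Q : ℂ) * conj (S k) * (c i * v k i) =
        (Q : ℂ) * ∑ k ∈ K, S k * conj (S k) := by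
      rw [Finset.sum_comm, Finset.mul_sum]
      refine Finset.sum_congr rfl fun k _ => ?_
      rw [← Finset.mul_sum]
      ring
    have e7 : ∑ i ∈ I, ∑ k ∈ K, (Q : ℂ) * S k * conj (c i * v k i) =
        (Q : ℂ) * ∑ k ∈ K, S k * conj (S k) := by
      rw [Finset.sum_comm, Finset.mul_sum]
      refine Finset.sum_congr rfl fun k _ => ?_
      rw [← Finset.mul_sum, ← map_sum]
      ring
    have e8 : ∑ i ∈ I, ∑ k ∈ K, ∑ l ∈ K, S k * conj (S l) * (v l i * conj (v k i)) =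
        (Q : ℂ) * ∑ k ∈ K, S k * conj (S k) := by
      rw [Finset.sum_comm, Finset.mul_sum]
      refine Finset.sum_congr rfl fun k hk => ?_
      rw [Finset.sum_comm]
      have e9 : ∀ l ∈ K, ∑ i ∈ I, S k * conj (S l) * (v l i * conj (v k i)) =
          S k * conj (S l) * (if l = k then (Q : ℂ) else 0) := by
        intro l hl
        rw [← Finset.mul_sum, h l hl k hk]
      rw [Finset.sum_congr rfl e9, Finset.sum_eq_single k]
      · rw [if_pos rfl]
        ring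
      · intro l _ hl
        rw [if_neg hl, mul_zero]
      · intro hk'
        exact absurd hk hk'
    rw [e6, e7, e8]
    ring
  have e10 : ∀ z : ℂ, z * conj z = ((‖z‖ ^ 2 : ℝ) : ℂ) := by
    intro z
    rw [Complex.mul_conj, Complex.normSq_eq_norm_sq]
  simp only [e10] at key
  have key2 : ∑ i ∈ I, ‖(Q : ℂ) * c i - ∑ k ∈ K, S k * conj (v k i)‖ ^ 2 =
      Q * (Q * ∑ i ∈ I, ‖c i‖ ^ 2 - ∑ k ∈ K, ‖S k‖ ^ 2) := by
    exact_mod_cast key
  have h0 : 0 ≤ Q * (Q * ∑ i ∈ I, ‖c i‖ ^ 2 - ∑ k ∈ K, ‖S k‖ ^ 2) := by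
    rw [← key2]
    exact Finset.sum_nonneg fun i _ => sq_nonneg _
  rcases hQ.lt_or_eq with hQ' | hQ'
  · have := nonneg_of_mul_nonneg_right h0 hQ'
    linarith
  · have h1 : ∀ k ∈ K, S k = 0 := by
      intro k hk
      have h2 := h k hk k hk
      rw [if_pos rfl, ← hQ'] at h2
      simp only [e10] at h2
      have h3 : ∑ i ∈ I, ‖v k i‖ ^ 2 = 0 := by exact_mod_cast h2
      rw [Finset.sum_eq_zero_iff_of_nonneg (fun i _ => sq_nonneg _)] at h3
      refine Finset.sum_eq_zero fun i hi => ?_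
      have h4 := h3 i hi
      rw [sq_eq_zero_iff, norm_eq_zero] at h4
      rw [h4, mul_zero]
    rw [← hQ', zero_mul]
    refine le_of_eq (Finset.sum_eq_zero fun k hk => ?_)
    have h5 : ∑ i ∈ I, c i * v k i = 0 := h1 k hk
    rw [h5, norm_zero]
    norm_num

theorem sum_psi_zero (ψ : AddChar F ℂ) (L : ℕ) (l : F[X] → F) (hl : ∀ f g, l (f + g) = l f + l g)
    (g : F[X]) (hg : g ∈ Gn F L) (hy : ψ (l g) ≠ 1) : ∑ f ∈ Gn F L, ψ (l f) = 0 := by
  have h1 : ∑ f ∈ Gn F L, ψ (l (f + g)) = ∑ f ∈ Gn F L, ψ (l f) := by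
    rw [mem_Gn] at hg
    refine Finset.sum_nbij' (fun f => f + g) (fun f => f - g) ?_ ?_ ?_ ?_ ?_
    · intro f hf
      rw [mem_Gn] at hf ⊢
      exact lt_of_le_of_lt (degree_add_le f g) (max_lt hf hg)
    · intro f hf
      rw [mem_Gn] at hf ⊢
      exact lt_of_le_of_lt (degree_sub_le f g) (max_lt hf hg)
    · intro f _
      exact add_sub_cancel_right f g
    · intro f _
      exact sub_add_cancel f g
    · intro f _
      rfl
  have h2 : ∑ f ∈ Gn F L, ψ (l (f + g)) = ψ (l g) * ∑ f ∈ Gn F L, ψ (l f) := by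
    rw [Finset.mul_sum]
    refine Finset.sum_congr rfl fun f _ => ?_
    rw [hl, AddChar.map_add_eq_mul, mul_comm]
  rw [h2] at h1
  have h3 : (ψ (l g) - 1) * ∑ f ∈ Gn F L, ψ (l f) = 0 := by
    rw [sub_mul, h1, one_mul, sub_self]
  rcases mul_eq_zero.1 h3 with h4 | h4
  · exact absurd (sub_eq_zero.1 h4) hy
  · exact h4

private theorem lsadd_conj (ψ : AddChar F ℂ) (x y : F) : ψ x * conj (ψ y) = ψ (x - y) := by
  rw [← AddChar.map_neg_eq_conj, sub_eq_add_neg, AddChar.map_add_eq_mul]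

theorem ls_add (ψ : AddChar F ℂ) (hψ : ∃ y, ψ y ≠ 1) (m L : ℕ) (hL : 2 * m ≤ L) (c : F[X] → ℂ) :
    ∑ d ∈ Mn F m, ∑ a ∈ (Gn F m).filter (fun a => IsCoprime a d),
      ‖∑ f ∈ Gn F L, c f * ψ (res d (a * f))‖ ^ 2 ≤
      (Fintype.card F : ℝ) ^ L * ∑ f ∈ Gn F L, ‖c f‖ ^ 2 := by
  obtain ⟨y, hy⟩ := hψ
  rw [Finset.sum_sigma']
  refine bessel (Gn F L) _ (fun (k : Σ _ : F[X], F[X]) f => ψ (res k.1 (k.2 * f)))
    ((Fintype.card F : ℝ) ^ L) (by positivity) ?_ c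
  rintro ⟨d, a⟩ hk ⟨d', a'⟩ hl
  rw [Finset.mem_sigma, Finset.mem_filter] at hk hl
  obtain ⟨hd, ha, hc⟩ := hk
  obtain ⟨hd', ha', hc'⟩ := hl
  dsimp only at hd ha hc hd' ha' hc' ⊢
  have hdm := (mem_Mn.1 hd).1
  have hdm' := (mem_Mn.1 hd').1
  have e1 : ∑ f ∈ Gn F L, ψ (res d (a * f)) * conj (ψ (res d' (a' * f))) =
      ∑ f ∈ Gn F L, ψ (res d (a * f) - res d' (a' * f)) :=
    Finset.sum_congr rfl fun f _ => lsadd_conj ψ _ _
  rw [e1]
  by_cases hne : (d, a) = (d', a')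
  · obtain ⟨rfl, rfl⟩ := Prod.mk.inj hne
    rw [if_pos rfl]
    have e2 : ∑ f ∈ Gn F L, ψ (res d (a * f) - res d (a * f)) = ∑ f ∈ Gn F L, (1 : ℂ) :=
      Finset.sum_congr rfl fun f _ => by rw [sub_self, AddChar.map_zero_eq_one]
    rw [e2, Finset.sum_const, card_Gn, nsmul_eq_mul, mul_one]
    push_cast
    rfl
  · rw [if_neg (fun h => hne (by
      obtain ⟨h1, h2⟩ := Sigma.mk.inj h
      rw [h1, eq_of_heq h2]))]
    obtain ⟨g, hg, hgy⟩ := res_sep hd hd' ha ha' hc hc' hne y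
    refine sum_psi_zero ψ L (fun f => res d (a * f) - res d' (a' * f)) ?_ g ?_ ?_
    · intro f1 f2
      rw [mul_add, mul_add, res_add hdm, res_add hdm']
      ring
    · rw [mem_Gn] at hg ⊢
      refine lt_of_lt_of_le hg ?_
      exact_mod_cast hL
    · rw [hgy]
      exact hy

theorem ls_add_Mn (ψ : AddChar F ℂ) (hψ : ∃ y, ψ y ≠ 1) (m ν : ℕ) (c : F[X] → ℂ) :
    ∑ d ∈ Mn F m, ∑ a ∈ (Gn F m).filter (fun a => IsCoprime a d),
      ‖∑ f ∈ Mn F ν, c f * ψ (res d (a * f))‖ ^ 2 ≤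
      (Fintype.card F : ℝ) ^ (max ν (2 * m)) * ∑ f ∈ Mn F ν, ‖c f‖ ^ 2 := by
  rcases le_or_gt (2 * m) ν with hm | hm
  · rw [max_eq_left hm, sum_Mn_shift ν (fun f => ‖c f‖ ^ 2)]
    refine le_trans (le_of_eq ?_) (ls_add ψ hψ m ν hm (fun g => c (X ^ ν + g)))
    refine Finset.sum_congr rfl fun d hd => Finset.sum_congr rfl fun a _ => ?_
    have hdm := (mem_Mn.1 hd).1
    have e1 : ∑ f ∈ Mn F ν, c f * ψ (res d (a * f)) =
        ψ (res d (a * X ^ ν)) * ∑ g ∈ Gn F ν, c (X ^ ν + g) * ψ (res d (a * g)) := by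
      rw [sum_Mn_shift, Finset.mul_sum]
      refine Finset.sum_congr rfl fun g _ => ?_
      rw [mul_add, res_add hdm, AddChar.map_add_eq_mul]
      ring
    rw [e1, norm_mul, AddChar.norm_apply, one_mul]
  · rw [max_eq_right hm.le]
    have hsub : Mn F ν ⊆ Gn F (2 * m) := by
      intro f hf
      rw [mem_Mn] at hf
      rw [mem_Gn, degree_eq_natDegree hf.1.ne_zero, hf.2]
      exact_mod_cast hm
    have e1 : ∀ h : F[X] → ℂ, ∑ f ∈ Gn F (2 * m), (if f ∈ Mn F ν then c f else 0) * h f =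
        ∑ f ∈ Mn F ν, c f * h f := by
      intro h
      rw [← Finset.sum_subset hsub]
      · refine Finset.sum_congr rfl fun f hf => ?_
        rw [if_pos hf]
      · intro f _ hf
        rw [if_neg hf, zero_mul]
    have e2 : ∑ f ∈ Gn F (2 * m), ‖(if f ∈ Mn F ν then c f else 0 : ℂ)‖ ^ 2 =
        ∑ f ∈ Mn F ν, ‖c f‖ ^ 2 := by
      rw [← Finset.sum_subset hsub]
      · refine Finset.sum_congr rfl fun f hf => ?_
        rw [if_pos hf]
      · intro f _ hf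
        rw [if_neg hf, norm_zero]
        norm_num
    have h3 := ls_add ψ hψ m (2 * m) le_rfl (fun f => if f ∈ Mn F ν then c f else 0)
    rw [e2] at h3
    refine le_trans (le_of_eq ?_) h3
    refine Finset.sum_congr rfl fun d hd => Finset.sum_congr rfl fun a _ => ?_
    rw [e1 (fun f => ψ (res d (a * f)))]

end Pool.Agent.H81.FF
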