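import Pool.Agent.H81.FF.Prs
import Pool.Agent.H81.FF.LSAdd

/-! # FF-D08 Gauss sums for the primitive characters  (MP_a1f59e_nt, project FF, block D)

`d = pp E`, `m = dg E = natDegree d`, `A = (Gn F m).filter (IsCoprime · d)`, `χ ∈ prs E`,
`G f = ∑ a ∈ A, conj (χ a) * ψ (res d (a * f))`, `τ = G 1`.
1. `f` coprime to `d`: `G f = χ f * τ` (substitute `a → a f⁻¹` mod `d`: use `sum_mul_Gn` for the function
   `a ↦ conj (χ a) * ψ (res d a)`, which is periodic mod `d` and `0` off `A`, and `‖χ f‖ = 1`).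
2. `f` not coprime to `d`: some `P ∈ E` divides `f`; `u` from `prs_prim`: `pp (E.erase P) ∣ u - 1`, so `d ∣ (u - 1) f`, hence
   `res d (u a f) = res d (a f)`; substituting `a → u a` gives `G f = conj (χ u) * G f`, and `χ u ≠ 1`, so `G f = 0`.
3. `‖τ‖ ^ 2 = q ^ m`: `∑ f ∈ Gn F m, ‖G f‖ ^ 2 = #A * ‖τ‖ ^ 2` by 1, 2; and it is
   `∑ a, b ∈ A, conj (χ a) χ b ∑ f ∈ Gn F m, ψ (res d ((a - b) f)) = q ^ m * #A` by `sum_psi_zero`, `res_nondeg`
   (for `a ≠ b` in `Gn F m`, `d` does not divide `a - b`). `#A > 0` (`1 %ₘ d`, or `card_chs`).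
`gauss_ineq`: `q ^ m * ‖∑ f, c f χ f‖ ^ 2 = ‖∑ f, c f (G f)‖ ^ 2 = ‖∑ a ∈ A, conj (χ a) * S a‖ ^ 2`,
`S a = ∑ f, c f ψ (res d (a f))`. Sum over `χ ∈ prs E`, which is contained in `chs d` (`prs_isCh`, `mem_chs`); `parseval`
(apply it to the conjugate: `‖∑ conj (χ a) S a‖ = ‖∑ χ a * conj (S a)‖`) gives `≤ #(chs d) * ∑ a, ‖S a‖ ^ 2` and
`#(chs d) = #A ≤ q ^ m`.
-/

set_option autoImplicit false

namespace Pool.Agent.H81.FF

open Polynomial Finset Pool.Agent.H10.FF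
open scoped Classical ComplexConjugate

variable {F : Type} [Field F] [Fintype F]

/-- the Gauss sum -/
noncomputable def gaussG (d : F[X]) (χ : F[X] → ℂ) (ψ : AddChar F ℂ) (f : F[X]) : ℂ :=
  ∑ a ∈ (Gn F d.natDegree).filter (fun a => IsCoprime a d), conj (χ a) * ψ (res d (a * f))

theorem gauss_full {d : F[X]} {χ : F[X] → ℂ} (h : IsCh d χ) (ψ : AddChar F ℂ) (f : F[X]) :
    gaussG d χ ψ f = ∑ a ∈ Gn F d.natDegree, conj (χ a) * ψ (res d (a * f)) := by
  unfold gaussG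
  refine sum_filter_of_ne fun a _ ha => ?_
  rw [← h.supp]
  intro h0
  apply ha
  rw [h0, map_zero, zero_mul]

theorem gauss_per {d : F[X]} (hd : d.Monic) {χ : F[X] → ℂ} (h : IsCh d χ) (ψ : AddChar F ℂ) (f : F[X])
    (a b : F[X]) (hab : d ∣ a - b) :
    conj (χ a) * ψ (res d (a * f)) = conj (χ b) * ψ (res d (b * f)) := by
  rw [h.per a b hab, res_per hd (f := a * f) (g := b * f)]
  rw [← sub_mul]
  exact hab.mul_right f

theorem gauss_unit {d : F[X]} (hd : d.Monic) {χ : F[X] → ℂ} (h : IsCh d χ) (ψ : AddChar F ℂ) {f : F[X]}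
    (hf : IsCoprime f d) : gaussG d χ ψ f = χ f * gaussG d χ ψ 1 := by
  rw [gauss_full h, gauss_full h]
  have h1 := sum_mul_Gn hd hf (fun a => conj (χ a) * ψ (res d (a * 1))) (gauss_per hd h ψ 1)
  rw [← h1, mul_sum]
  refine sum_congr rfl fun a _ => ?_
  have h2 : χ f * conj (χ f) = 1 := by
    rw [Complex.mul_conj, Complex.normSq_eq_norm_sq, h.norm_eq hd hf]
    simp
  rw [h.mul, map_mul, mul_one, mul_comm a f]
  calc conj (χ a) * ψ (res d (f * a)) = (χ f * conj (χ f)) * (conj (χ a) * ψ (res d (f * a))) := by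
        rw [h2, one_mul]
    _ = χ f * (conj (χ f) * conj (χ a) * ψ (res d (f * a))) := by ring

theorem gauss_nonunit {E : Finset F[X]} (hE : IsPr E) {χ : F[X] → ℂ} (hχ : χ ∈ prs E) (ψ : AddChar F ℂ)
    {f : F[X]} (hf : ¬ IsCoprime f (pp E)) : gaussG (pp E) χ ψ f = 0 := by
  have h := prs_isCh hE hχ
  have hd := pp_monic hE
  obtain ⟨P, hP, hPf⟩ : ∃ P ∈ E, P ∣ f := by
    by_contra hcon
    exact hf ((coprime_pp hE).mpr fun P hP hPf => hcon ⟨P, hP, hPf⟩)
  obtain ⟨u, hu, hu1, hu2⟩ := prs_prim hE hχ hP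
  rw [gauss_full h]
  set d := pp E with hdd
  have hdf : d ∣ (u - 1) * f := by
    have : d = pp (E.erase P) * P := by
      rw [hdd]
      unfold pp
      exact (Finset.prod_erase_mul E (fun P => P) hP).symm
    rw [this]
    exact mul_dvd_mul hu1 hPf
  have h1 := sum_mul_Gn hd hu (fun a => conj (χ a) * ψ (res d (a * f))) (gauss_per hd h ψ f)
  set S := ∑ a ∈ Gn F d.natDegree, conj (χ a) * ψ (res d (a * f)) with hS
  have h2 : ∑ a ∈ Gn F d.natDegree, conj (χ (u * a)) * ψ (res d (u * a * f)) = conj (χ u) * S := by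
    rw [hS, mul_sum]
    refine sum_congr rfl fun a _ => ?_
    rw [h.mul, map_mul, res_per hd (f := u * a * f) (g := a * f), mul_assoc]
    have : u * a * f - a * f = a * ((u - 1) * f) := by ring
    rw [this]
    exact hdf.mul_left a
  rw [h2] at h1
  have h3 : (conj (χ u) - 1) * S = 0 := by rw [sub_mul, one_mul, h1, sub_self]
  rcases mul_eq_zero.mp h3 with h4 | h4
  · exfalso
    apply hu2
    have h5 : conj (χ u) = 1 := sub_eq_zero.mp h4
    have h6 := congrArg (starRingEnd ℂ) h5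
    rwa [Complex.conj_conj, map_one] at h6
  · exact h4

theorem gauss_all {E : Finset F[X]} (hE : IsPr E) {χ : F[X] → ℂ} (hχ : χ ∈ prs E) (ψ : AddChar F ℂ)
    (f : F[X]) : gaussG (pp E) χ ψ f = χ f * gaussG (pp E) χ ψ 1 := by
  have h := prs_isCh hE hχ
  by_cases hf : IsCoprime f (pp E)
  · exact gauss_unit (pp_monic hE) h ψ hf
  · rw [gauss_nonunit hE hχ ψ hf]
    have : χ f = 0 := by
      by_contra h0
      exact hf ((h.supp f).mp h0)
    rw [this, zero_mul]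

theorem gauss_psi_norm (ψ : AddChar F ℂ) (y : F) : ‖ψ y‖ = 1 := by
  exact AddChar.norm_apply ψ y

theorem gauss_psi_conj (ψ : AddChar F ℂ) (y : F) : conj (ψ y) = ψ (-y) := by
  have h1 : ψ (-y) * ψ y = 1 := by
    rw [← AddChar.map_add_eq_mul, neg_add_cancel, AddChar.map_zero_eq_one]
  have h2 : conj (ψ y) * ψ y = 1 := by
    rw [mul_comm, Complex.mul_conj, Complex.normSq_eq_norm_sq, gauss_psi_norm]
    simp
  have h3 : ψ y ≠ 0 := by
    intro h
    rw [h, mul_zero] at h1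
    exact zero_ne_one h1
  exact mul_right_cancel₀ h3 (h2.trans h1.symm)

theorem gauss_card_pos {d : F[X]} (hd : d.Monic) {χ : F[X] → ℂ} (h : IsCh d χ) :
    0 < ((Gn F d.natDegree).filter (fun a => IsCoprime a d)).card := by
  rw [← card_chs hd]
  exact card_pos.mpr ⟨χ, (mem_chs hd).mpr h⟩

theorem gauss_orth {d : F[X]} (hd : d.Monic) (ψ : AddChar F ℂ) (hψ : ∃ y, ψ y ≠ 1) {a b : F[X]}
    (ha : a ∈ Gn F d.natDegree) (hb : b ∈ Gn F d.natDegree) :
    ∑ f ∈ Gn F d.natDegree, ψ (res d (a * f)) * conj (ψ (res d (b * f))) =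
      if b = a then (Fintype.card F : ℂ) ^ d.natDegree else 0 := by
  have h1 : ∀ f, ψ (res d (a * f)) * conj (ψ (res d (b * f))) = ψ (res d ((a - b) * f)) := by
    intro f
    rw [gauss_psi_conj, ← AddChar.map_add_eq_mul, ← sub_eq_add_neg, ← res_sub hd, ← sub_mul]
  rw [sum_congr rfl fun f _ => h1 f]
  by_cases hab : b = a
  · rw [if_pos hab, hab, sub_self]
    have h2 : ∀ f : F[X], ψ (res d (0 * f)) = 1 := by
      intro f
      rw [zero_mul]
      unfold res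
      rw [zero_modByMonic, coeff_zero, AddChar.map_zero_eq_one]
    rw [sum_congr rfl fun f _ => h2 f, sum_const, nsmul_eq_mul, mul_one, card_Gn]
    push_cast
    rfl
  · rw [if_neg hab]
    obtain ⟨y, hy⟩ := hψ
    have h2 : ¬ d ∣ a - b := by
      intro hdvd
      apply hab
      symm
      apply sub_eq_zero.mp
      apply Polynomial.eq_zero_of_dvd_of_degree_lt hdvd
      rw [Polynomial.degree_eq_natDegree hd.ne_zero]
      exact lt_of_le_of_lt (Polynomial.degree_sub_le a b) (max_lt (mem_Gn.mp ha) (mem_Gn.mp hb))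
    obtain ⟨g, hg, hgy⟩ := res_nondeg hd h2 y
    refine sum_psi_zero ψ d.natDegree (fun f => res d ((a - b) * f)) ?_ g hg ?_
    · intro f g
      rw [mul_add, res_add hd]
    · rw [hgy]
      exact hy

theorem gauss_tau {E : Finset F[X]} (hE : IsPr E) {χ : F[X] → ℂ} (hχ : χ ∈ prs E) (ψ : AddChar F ℂ)
    (hψ : ∃ y, ψ y ≠ 1) : ‖gaussG (pp E) χ ψ 1‖ ^ 2 = (Fintype.card F : ℝ) ^ (dg E) := by
  have h := prs_isCh hE hχ
  have hd := pp_monic hE
  rw [← natDegree_pp hE]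
  set d := pp E with hdd
  set A := (Gn F d.natDegree).filter (fun a => IsCoprime a d) with hA
  have hsq : ∀ z : ℂ, ((‖z‖ ^ 2 : ℝ) : ℂ) = z * conj z := by
    intro z
    rw [← Complex.normSq_eq_norm_sq, Complex.mul_conj]
  have hpos : (0 : ℝ) < (A.card : ℝ) := by exact_mod_cast gauss_card_pos hd h
  -- first evaluation
  have h1 : ∑ f ∈ Gn F d.natDegree, ‖gaussG d χ ψ f‖ ^ 2 = (A.card : ℝ) * ‖gaussG d χ ψ 1‖ ^ 2 := by
    have h2 : ∑ f ∈ Gn F d.natDegree, ‖gaussG d χ ψ f‖ ^ 2 = ∑ f ∈ A, ‖gaussG d χ ψ f‖ ^ 2 := by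
      symm
      refine sum_filter_of_ne fun f _ hf => ?_
      by_contra hcop
      apply hf
      rw [gauss_nonunit hE hχ ψ hcop, norm_zero]
      norm_num
    rw [h2]
    have h3 : ∀ f ∈ A, ‖gaussG d χ ψ f‖ ^ 2 = ‖gaussG d χ ψ 1‖ ^ 2 := by
      intro f hf
      have hf2 := (mem_filter.mp hf).2
      rw [gauss_unit hd h ψ hf2, norm_mul, h.norm_eq hd hf2, one_mul]
    rw [sum_congr rfl h3, sum_const, nsmul_eq_mul]
  -- second evaluation
  have h4 : ((∑ f ∈ Gn F d.natDegree, ‖gaussG d χ ψ f‖ ^ 2 : ℝ) : ℂ) =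
      (((A.card : ℝ) * (Fintype.card F : ℝ) ^ d.natDegree : ℝ) : ℂ) := by
    rw [Complex.ofReal_sum]
    have h5 : ∀ f ∈ Gn F d.natDegree, ((‖gaussG d χ ψ f‖ ^ 2 : ℝ) : ℂ) =
        ∑ a ∈ A, ∑ b ∈ A, (conj (χ a) * χ b) * (ψ (res d (a * f)) * conj (ψ (res d (b * f)))) := by
      intro f _
      rw [hsq]
      unfold gaussG
      rw [← hA, map_sum, sum_mul_sum]
      refine sum_congr rfl fun a _ => sum_congr rfl fun b _ => ?_
      rw [map_mul, Complex.conj_conj]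
      ring
    rw [sum_congr rfl h5, sum_comm]
    have h6 : ∀ a ∈ A, ∑ f ∈ Gn F d.natDegree, ∑ b ∈ A,
        (conj (χ a) * χ b) * (ψ (res d (a * f)) * conj (ψ (res d (b * f)))) =
        (Fintype.card F : ℂ) ^ d.natDegree := by
      intro a ha
      have ha' := mem_filter.mp ha
      rw [sum_comm]
      have h7 : ∀ b ∈ A, ∑ f ∈ Gn F d.natDegree,
          (conj (χ a) * χ b) * (ψ (res d (a * f)) * conj (ψ (res d (b * f)))) =
          if b = a then (conj (χ a) * χ b) * (Fintype.card F : ℂ) ^ d.natDegree else 0 := by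
        intro b hb
        rw [← mul_sum, gauss_orth hd ψ hψ ha'.1 (mem_filter.mp hb).1, mul_ite, mul_zero]
      rw [sum_congr rfl h7, sum_ite_eq' A a, if_pos ha]
      have h8 : conj (χ a) * χ a = 1 := by
        rw [mul_comm, Complex.mul_conj, Complex.normSq_eq_norm_sq, h.norm_eq hd ha'.2]
        simp
      rw [h8, one_mul]
    rw [sum_congr rfl h6, sum_const, nsmul_eq_mul]
    push_cast
    ring
  have h9 : ∑ f ∈ Gn F d.natDegree, ‖gaussG d χ ψ f‖ ^ 2 = (A.card : ℝ) * (Fintype.card F : ℝ) ^ d.natDegree := by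
    exact_mod_cast h4
  rw [h1] at h9
  exact mul_left_cancel₀ hpos.ne' h9

theorem gauss_norm {E : Finset F[X]} (hE : IsPr E) {χ : F[X] → ℂ} (hχ : χ ∈ prs E) (ψ : AddChar F ℂ)
    (hψ : ∃ y, ψ y ≠ 1) : ∃ τ : ℂ, ‖τ‖ ^ 2 = (Fintype.card F : ℝ) ^ (dg E) ∧ ∀ f : F[X],
      ∑ a ∈ (Gn F (dg E)).filter (fun a => IsCoprime a (pp E)), conj (χ a) * ψ (res (pp E) (a * f)) =
        χ f * τ := by
  refine ⟨gaussG (pp E) χ ψ 1, gauss_tau hE hχ ψ hψ, fun f => ?_⟩
  rw [← gauss_all hE hχ ψ f]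
  unfold gaussG
  rw [natDegree_pp hE]

theorem gauss_ineq {E : Finset F[X]} (hE : IsPr E) (ψ : AddChar F ℂ) (hψ : ∃ y, ψ y ≠ 1) (ν : ℕ)
    (c : F[X] → ℂ) :
    ∑ χ ∈ prs E, ‖∑ f ∈ Mn F ν, c f * χ f‖ ^ 2 ≤
      ∑ a ∈ (Gn F (dg E)).filter (fun a => IsCoprime a (pp E)),
        ‖∑ f ∈ Mn F ν, c f * ψ (res (pp E) (a * f))‖ ^ 2 := by
  have hd := pp_monic hE
  rw [← natDegree_pp hE]
  set d := pp E with hdd
  set A := (Gn F d.natDegree).filter (fun a => IsCoprime a d) with hA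
  set S : F[X] → ℂ := fun a => ∑ f ∈ Mn F ν, c f * ψ (res d (a * f)) with hS
  have hq : (0 : ℝ) < (Fintype.card F : ℝ) ^ d.natDegree := by
    have : (0 : ℝ) < (Fintype.card F : ℝ) := by exact_mod_cast Fintype.card_pos
    positivity
  have h1 : ∀ χ ∈ prs E, (Fintype.card F : ℝ) ^ d.natDegree * ‖∑ f ∈ Mn F ν, c f * χ f‖ ^ 2 =
      ‖∑ a ∈ A, conj (S a) * χ a‖ ^ 2 := by
    intro χ hχ
    have h2 := gauss_tau hE hχ ψ hψ
    rw [← natDegree_pp hE, ← hdd] at h2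
    rw [← h2, ← mul_pow, ← norm_mul]
    have h3 : gaussG d χ ψ 1 * ∑ f ∈ Mn F ν, c f * χ f = conj (∑ a ∈ A, conj (S a) * χ a) := by
      rw [map_sum, mul_sum]
      have h4 : ∀ f ∈ Mn F ν, gaussG d χ ψ 1 * (c f * χ f) =
          ∑ a ∈ A, c f * (conj (χ a) * ψ (res d (a * f))) := by
        intro f _
        have h5 := gauss_all hE hχ ψ f
        rw [← hdd] at h5
        calc gaussG d χ ψ 1 * (c f * χ f) = c f * (χ f * gaussG d χ ψ 1) := by ring
          _ = c f * gaussG d χ ψ f := by rw [h5]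
          _ = _ := by
            unfold gaussG
            rw [mul_sum]
      rw [sum_congr rfl h4, sum_comm]
      refine sum_congr rfl fun a _ => ?_
      rw [map_mul, Complex.conj_conj, hS]
      simp only
      rw [sum_mul]
      refine sum_congr rfl fun f _ => ?_
      ring
    rw [h3, RCLike.norm_conj]
  have h6 : (Fintype.card F : ℝ) ^ d.natDegree * ∑ χ ∈ prs E, ‖∑ f ∈ Mn F ν, c f * χ f‖ ^ 2 ≤
      (Fintype.card F : ℝ) ^ d.natDegree * ∑ a ∈ A, ‖S a‖ ^ 2 := by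
    rw [mul_sum, sum_congr rfl h1]
    have h7 : ∑ χ ∈ prs E, ‖∑ a ∈ A, conj (S a) * χ a‖ ^ 2 ≤
        ∑ χ ∈ chs d, ‖∑ a ∈ A, conj (S a) * χ a‖ ^ 2 := by
      refine sum_le_sum_of_subset_of_nonneg ?_ fun χ _ _ => by positivity
      intro χ hχ
      exact (mem_chs hd).mpr (prs_isCh hE hχ)
    refine h7.trans ?_
    rw [parseval hd (fun a => conj (S a))]
    have h8 : ∀ a ∈ A, ‖conj (S a)‖ ^ 2 = ‖S a‖ ^ 2 := fun a _ => by rw [RCLike.norm_conj]
    rw [← hA, sum_congr rfl h8]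
    refine mul_le_mul_of_nonneg_right ?_ (sum_nonneg fun a _ => by positivity)
    rw [card_chs hd]
    have h9 : ((Gn F d.natDegree).filter (fun a => IsCoprime a d)).card ≤ Fintype.card F ^ d.natDegree := by
      rw [← card_Gn]
      exact card_filter_le _ _
    exact_mod_cast h9
  exact le_of_mul_le_mul_left h6 hq

end Pool.Agent.H81.FF
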