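import Pool.Agent.H81.FF.Repel
import Pool.Agent.H81.FF.Expand

/-! # FF-D22a Good degrees exist  (MP_a1f59e_nt, project FF, block D)

`Bad F A B M`: some primitive real character `χ ∈ prs E`, `E` nonempty, `dg E ≤ B log M`, has a real root
`q ε (1 - δ)`, `ε = ±1`, `0 ≤ δ ≤ A log M / M`.
* `exists_good`: suppose `Bad` for all `M ≥ M0`; choose for every `M` data `(E, χ, α, i, ε, δ)`. For `M ≥ M1` the data of `M`
  and `M + 1` have `max δ ≤ A log M / M < 1/(48 B log (M+1)) ≤ 1/(24 (deg + deg))` (`log` beats every power: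
  `Real.isLittleO_log_id_atTop`, or `log x ≤ 4 x^(1/4)`; `log M / M` is decreasing for `M ≥ 3`), so by `repel` (contrapositive)
  and `prs_unique` (with `d₁ = pp E₁`, `d₂ = pp E₂`) the sets `E`, the functions `χ` and the signs coincide. So
  `E, χ, ε` are constant for `M ≥ M1`. Let `α` be the roots for the data at `M1`. For `M ≥ M1` the number
  `v = q ε (1 - δ_M) ≠ 0` is a root of some `β` with `IsRoots (pp E) χ β`, so by `IsRoots.prod` at `u = 1/v` (both for `β` and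
  `α`) it is one of the finitely many `α`. As `δ_M → 0` the distance of `q ε` to the finite set of the `α` is `0`, so `q ε` is
  one of the `α`: contradiction with `not_root` (`prs_isCh`, `prs_NP`, `pp_monic`).
-/

set_option autoImplicit false

namespace Pool.Agent.H81.FF

open Polynomial Finset Pool.Agent.H10.FF Filter
open scoped Classical

variable (F : Type) [Field F] [Fintype F]

def Bad (A B : ℝ) (M : ℕ) : Prop :=
  ∃ E : Finset F[X], IsPr E ∧ E.Nonempty ∧ (dg E : ℝ) ≤ B * Real.log M ∧ ∃ χ ∈ prs E, Rl χ ∧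
    ∃ α : Fin ((pp E).natDegree - 1) → ℂ, IsRoots (pp E) χ α ∧ ∃ i, ∃ ε δ : ℝ, (ε = 1 ∨ ε = -1) ∧ 0 ≤ δ ∧
      δ ≤ A * Real.log M / M ∧ α i = (Fintype.card F * (ε * (1 - δ)) : ℝ)

/-- the data of a bad degree -/
private def BD (A B : ℝ) (M : ℕ) (E : Finset F[X]) (χ : F[X] → ℂ) (ε : ℝ) : Prop :=
  IsPr E ∧ E.Nonempty ∧ (dg E : ℝ) ≤ B * Real.log M ∧ χ ∈ prs E ∧ Rl χ ∧ (ε = 1 ∨ ε = -1) ∧
    ∃ α : Fin ((pp E).natDegree - 1) → ℂ, IsRoots (pp E) χ α ∧ ∃ i, ∃ δ : ℝ, 0 ≤ δ ∧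
      δ ≤ A * Real.log M / M ∧ α i = (Fintype.card F * (ε * (1 - δ)) : ℝ)

private theorem bad_bd {A B : ℝ} {M : ℕ} (h : Bad F A B M) :
    ∃ p : Finset F[X] × (F[X] → ℂ) × ℝ, BD F A B M p.1 p.2.1 p.2.2 := by
  obtain ⟨E, h1, h2, h3, χ, h4, h5, α, h6, i, ε, δ, h7, h8, h9, h10⟩ := h
  exact ⟨(E, χ, ε), h1, h2, h3, h4, h5, h7, α, h6, i, δ, h8, h9, h10⟩

variable {F}

private theorem same_roots {d : F[X]} {χ : F[X] → ℂ} {α β : Fin (d.natDegree - 1) → ℂ}
    (hα : IsRoots d χ α) (hβ : IsRoots d χ β) (j : Fin (d.natDegree - 1)) (h0 : β j ≠ 0) :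
    ∃ i, α i = β j := by
  have h1 := hα.prod (1 / β j)
  have h2 := hβ.prod (1 / β j)
  have h3 : ∏ i, (1 - β i * (1 / β j)) = 0 :=
    Finset.prod_eq_zero (Finset.mem_univ j) (by field_simp; ring)
  rw [h2, h3] at h1
  obtain ⟨i, -, hi⟩ := Finset.prod_eq_zero_iff.mp h1.symm
  refine ⟨i, ?_⟩
  field_simp at hi
  linear_combination -hi

private theorem bd_unique (A B : ℝ) (hA : 1 ≤ A) (hB : 1 ≤ B) : ∃ M1 : ℕ, ∀ M, M1 ≤ M →
    ∀ (E E' : Finset F[X]) (χ χ' : F[X] → ℂ) (ε ε' : ℝ), BD F A B M E χ ε → BD F A B (M + 1) E' χ' ε' →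
      E = E' ∧ χ = χ' ∧ ε = ε' := by
  have hlo := (Real.isLittleO_pow_log_id_atTop (n := 2)).def (c := 1 / (97 * A * B)) (by positivity)
  have hev : ∀ᶠ M : ℕ in atTop, ‖Real.log ((M : ℝ) + 1) ^ 2‖ ≤ 1 / (97 * A * B) * ‖id ((M : ℝ) + 1)‖ :=
    (tendsto_natCast_atTop_atTop (R := ℝ) |>.atTop_add tendsto_const_nhds).eventually hlo
  obtain ⟨M1, hM1⟩ := eventually_atTop.mp hev
  refine ⟨max M1 1, ?_⟩
  intro M hM E E' χ χ' ε ε' h h'
  have hM1' : M1 ≤ M := le_trans (le_max_left _ _) hM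
  have hM0 : 1 ≤ M := le_trans (le_max_right _ _) hM
  have hMr : (1 : ℝ) ≤ M := by exact_mod_cast hM0
  have hx : (0 : ℝ) < (M : ℝ) + 1 := by linarith
  have hL : 0 < Real.log ((M : ℝ) + 1) := Real.log_pos (by linarith)
  have hLM : Real.log (M : ℝ) ≤ Real.log ((M : ℝ) + 1) := Real.log_le_log (by linarith) (by linarith)
  have hLM0 : 0 ≤ Real.log (M : ℝ) := Real.log_nonneg hMr
  have hkey : 97 * A * B * Real.log ((M : ℝ) + 1) ^ 2 ≤ (M : ℝ) + 1 := by
    have h1 := hM1 M hM1'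
    rw [Real.norm_of_nonneg (by positivity), id, Real.norm_of_nonneg hx.le] at h1
    have hAB : 0 < 97 * A * B := by positivity
    rw [div_mul_eq_mul_div, one_mul, le_div_iff₀ hAB] at h1
    linarith
  obtain ⟨hp, hn, hdg, hχ, hR, hε, α, hα, i, δ, hδ0, hδ, hi⟩ := h
  obtain ⟨hp', hn', hdg', hχ', hR', hε', α', hα', i', δ', hδ0', hδ', hi'⟩ := h'
  push_cast at hdg' hδ'
  by_contra hcon
  have hne : NP (pp E * pp E') (fun f => χ f * χ' f) ∨ ε * ε' = -1 := by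
    by_cases hee : ε = ε'
    · left
      by_contra hNP
      have := prs_unique hp hp' hχ hχ' hR hR' hNP
      exact hcon ⟨this.1, this.2, hee⟩
    · right
      rcases hε with h1 | h1 <;> rcases hε' with h2 | h2 <;> simp [h1, h2] at hee ⊢
  have hc := prs_isCh hp hχ
  have hc' := prs_isCh hp' hχ'
  have hnp := prs_NP hp hn hχ
  have hnp' := prs_NP hp' hn' hχ'
  have hδb : δ ≤ 2 * A * Real.log ((M : ℝ) + 1) / ((M : ℝ) + 1) := by
    refine hδ.trans ?_
    rw [div_le_div_iff₀ (by linarith) hx]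
    have h1 : A * Real.log M ≤ A * Real.log ((M : ℝ) + 1) := mul_le_mul_of_nonneg_left hLM (by linarith)
    have h2 : (M : ℝ) + 1 ≤ 2 * M := by linarith
    calc A * Real.log M * ((M : ℝ) + 1) ≤ A * Real.log ((M : ℝ) + 1) * (2 * M) := by
          apply mul_le_mul h1 h2 hx.le
          positivity
      _ = 2 * A * Real.log ((M : ℝ) + 1) * M := by ring
  have hδb' : δ' ≤ 2 * A * Real.log ((M : ℝ) + 1) / ((M : ℝ) + 1) := by
    refine hδ'.trans ?_
    apply div_le_div_of_nonneg_right _ hx.le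
    nlinarith
  have hrep := repel (pp_monic hp) (pp_monic hp') hc hc' hR hR' hα hα' hε hε' hne i i' hδ0 hδ0' hδb hδb' hi hi'
  have hd1 : (1 : ℝ) ≤ ((pp E).natDegree : ℝ) := by
    exact_mod_cast natDegree_pos_of_NP (pp_monic hp) hc hnp
  rw [natDegree_pp hp, natDegree_pp hp'] at hrep
  rw [natDegree_pp hp] at hd1
  have hsum : (dg E : ℝ) + dg E' ≤ 2 * B * Real.log ((M : ℝ) + 1) := by
    have h1 : B * Real.log M ≤ B * Real.log ((M : ℝ) + 1) := mul_le_mul_of_nonneg_left hLM (by linarith)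
    linarith
  have hdg0 : (0 : ℝ) ≤ dg E' := Nat.cast_nonneg _
  have h3 : 1 / (24 * (2 * B * Real.log ((M : ℝ) + 1))) ≤ 1 / (24 * ((dg E : ℝ) + dg E')) := by
    apply one_div_le_one_div_of_le
    · linarith
    · linarith
  have h4 := h3.trans hrep
  have hBL : 0 < 24 * (2 * B * Real.log ((M : ℝ) + 1)) := by positivity
  rw [div_le_div_iff₀ hBL hx] at h4
  have h5 : (M : ℝ) + 1 ≤ 96 * A * B * Real.log ((M : ℝ) + 1) ^ 2 := by
    calc (M : ℝ) + 1 = 1 * ((M : ℝ) + 1) := (one_mul _).symm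
      _ ≤ 2 * A * Real.log ((M : ℝ) + 1) * (24 * (2 * B * Real.log ((M : ℝ) + 1))) := h4
      _ = 96 * A * B * Real.log ((M : ℝ) + 1) ^ 2 := by ring
  have h6 : 0 < A * B * Real.log ((M : ℝ) + 1) ^ 2 := by positivity
  nlinarith

private theorem bd_final (A B : ℝ) (hA : 1 ≤ A) (M1 : ℕ) (E : Finset F[X]) (χ : F[X] → ℂ) (ε : ℝ)
    (h : ∀ M, M1 ≤ M → BD F A B M E χ ε) : False := by
  obtain ⟨hp, hn, -, hχ, hR, hε, α, hα, i0, -⟩ := h M1 le_rfl
  have hc := prs_isCh hp hχ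
  have hnp := prs_NP hp hn hχ
  have hq : (2 : ℝ) ≤ (Fintype.card F : ℝ) := by
    have : 1 < Fintype.card F := Fintype.one_lt_card
    exact_mod_cast this
  have hne : ∀ i, 0 < ‖α i - (ε : ℂ) * (Fintype.card F : ℂ)‖ := fun i => by
    rw [norm_pos_iff, sub_ne_zero]
    exact not_root (pp_monic hp) hc hnp hR hα hε i
  obtain ⟨j, -, hj⟩ := Finset.exists_min_image (Finset.univ : Finset (Fin ((pp E).natDegree - 1)))
    (fun i => ‖α i - (ε : ℂ) * (Fintype.card F : ℂ)‖) ⟨i0, Finset.mem_univ _⟩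
  set ρ := ‖α j - (ε : ℂ) * (Fintype.card F : ℂ)‖ with hρ
  have hρ0 : 0 < ρ := hne j
  set τ : ℝ := min (1 / 2) (ρ / (2 * Fintype.card F)) with hτ
  have hτ0 : 0 < τ := lt_min (by norm_num) (by positivity)
  have hlo := (Real.isLittleO_log_id_atTop).def (c := τ / A) (by positivity)
  have hev : ∀ᶠ M : ℕ in atTop, ‖Real.log (M : ℝ)‖ ≤ τ / A * ‖id (M : ℝ)‖ :=
    (tendsto_natCast_atTop_atTop (R := ℝ)).eventually hlo
  obtain ⟨M2, hM2⟩ := eventually_atTop.mp hev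
  set M := max (max M1 M2) 1 with hMdef
  have hM1 : M1 ≤ M := (le_max_left _ _).trans (le_max_left _ _)
  have hM2' : M2 ≤ M := (le_max_right _ _).trans (le_max_left _ _)
  have hM0 : 1 ≤ M := le_max_right _ _
  have hMr : (1 : ℝ) ≤ M := by exact_mod_cast hM0
  obtain ⟨-, -, -, -, -, -, β, hβ, i, δ, hδ0, hδ, hi⟩ := h M hM1
  have h1 := hM2 M hM2'
  rw [Real.norm_of_nonneg (Real.log_nonneg hMr), id, Real.norm_of_nonneg (by linarith)] at h1
  have hδτ : δ ≤ τ := by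
    refine hδ.trans ?_
    rw [div_le_iff₀ (by linarith)]
    calc A * Real.log M ≤ A * (τ / A * M) := mul_le_mul_of_nonneg_left h1 (by linarith)
      _ = τ * M := by field_simp
  have hδ2 : δ ≤ 1 / 2 := hδτ.trans (min_le_left _ _)
  have hδ3 : δ ≤ ρ / (2 * Fintype.card F) := hδτ.trans (min_le_right _ _)
  have hβ0 : β i ≠ 0 := by
    rw [hi]
    norm_cast
    have h2 : (1 : ℝ) - δ ≠ 0 := by linarith
    have h3 : ε ≠ 0 := by rcases hε with h | h <;> rw [h] <;> norm_num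
    have h4 : (Fintype.card F : ℝ) ≠ 0 := by linarith
    exact mul_ne_zero h4 (mul_ne_zero h3 h2)
  obtain ⟨k, hk⟩ := same_roots hα hβ i hβ0
  have h5 := hj k (Finset.mem_univ _)
  rw [hk, hi] at h5
  have h6 : (((Fintype.card F : ℝ) * (ε * (1 - δ)) : ℝ) : ℂ) - (ε : ℂ) * (Fintype.card F : ℂ) =
      ((-((Fintype.card F : ℝ) * ε * δ) : ℝ) : ℂ) := by
    push_cast; ring
  have h6' : ‖(((Fintype.card F : ℝ) * (ε * (1 - δ)) : ℝ) : ℂ) - (ε : ℂ) * (Fintype.card F : ℂ)‖ =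
      (Fintype.card F : ℝ) * δ := by
    rw [h6, Complex.norm_real, norm_neg, Real.norm_eq_abs, abs_mul, abs_mul, abs_of_nonneg hδ0,
      abs_of_nonneg (by linarith : (0 : ℝ) ≤ (Fintype.card F : ℝ))]
    rcases hε with h | h <;> rw [h] <;> simp
  have h7 : ρ ≤ (Fintype.card F : ℝ) * δ := by
    rw [← h6']; exact h5
  have h8 : (Fintype.card F : ℝ) * δ ≤ ρ / 2 := by
    calc (Fintype.card F : ℝ) * δ ≤ (Fintype.card F : ℝ) * (ρ / (2 * Fintype.card F)) :=
          mul_le_mul_of_nonneg_left hδ3 (by linarith)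
      _ = ρ / 2 := by field_simp
  linarith

variable (F)

theorem exists_good (A B : ℝ) (hA : 1 ≤ A) (hB : 1 ≤ B) (M0 : ℕ) : ∃ M, M0 ≤ M ∧ ¬ Bad F A B M := by
  by_contra hcon
  have hb : ∀ M, ∃ p : Finset F[X] × (F[X] → ℂ) × ℝ, M0 ≤ M → BD F A B M p.1 p.2.1 p.2.2 := by
    intro M
    by_cases hM : M0 ≤ M
    · have hB' : Bad F A B M := by
        by_contra h
        exact hcon ⟨M, hM, h⟩
      obtain ⟨p, hp⟩ := bad_bd F hB'
      exact ⟨p, fun _ => hp⟩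
    · exact ⟨(∅, fun _ => 0, 0), fun h => absurd h hM⟩
  choose p hp using hb
  obtain ⟨M1, hM1⟩ := bd_unique (F := F) A B hA hB
  have hconst : ∀ k, p (max M0 M1 + k) = p (max M0 M1) := by
    intro k
    induction k with
    | zero => rfl
    | succ k ih =>
      have h1 := hM1 (max M0 M1 + k) (by omega) _ _ _ _ _ _ (hp (max M0 M1 + k) (by omega))
        (hp (max M0 M1 + k + 1) (by omega))
      rw [← ih]
      exact (Prod.ext h1.1 (Prod.ext h1.2.1 h1.2.2)).symm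
  refine bd_final (F := F) A B hA (max M0 M1) (p (max M0 M1)).1 (p (max M0 M1)).2.1 (p (max M0 M1)).2.2 ?_
  intro M hM
  obtain ⟨k, rfl⟩ := Nat.exists_eq_add_of_le hM
  have := hp (max M0 M1 + k) (by omega)
  rw [hconst k] at this
  exact this

end Pool.Agent.H81.FF
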