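import Pool.Agent.H81.FF.GoodA

/-! # FF-D22b Bound for `Ps` in good degrees, small conductors  (MP_a1f59e_nt, project FF, block D)

* `good`: `M` large not bad for `A + 1, B`: every root of every `χ ∈ prs E`, `1 ≤ dg E ≤ B log M`, satisfies
  `‖α i‖ ≤ q (1 - 1/(200 B log M))` (`zf_nonreal`) or is real with `‖α i‖ ≤ q (1 - (A+1) log M / M)`; so
  `‖Ps χ M‖ ≤ (B log M) q^M max (exp (- M/(200 B log M))) (M^(-A-1)) ≤ q^M / M^A` for `M` large.
  (`real_of_sq`: if a root is not covered by `zf_nonreal` then `χ` is real and the root is real, `= q ε (1 - δ)`, `δ ≥ 0`.)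
-/

set_option autoImplicit false

namespace Pool.Agent.H81.FF

open Polynomial Finset Pool.Agent.H10.FF Filter
open scoped Classical

variable (F : Type) [Field F] [Fintype F]

private theorem goodb_root {A B : ℝ} {M : ℕ} (hM : 1 < M) (hbad : ¬ Bad F A B M)
    (hsm : 200 * A * B * Real.log M ^ 2 ≤ M) (hA : 1 ≤ A)
    {E : Finset F[X]} (hE : IsPr E) (hn : E.Nonempty) (hdg : (dg E : ℝ) ≤ B * Real.log M) {χ : F[X] → ℂ}
    (hχ : χ ∈ prs E) {α : Fin ((pp E).natDegree - 1) → ℂ} (hα : IsRoots (pp E) χ α)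
    (i : Fin ((pp E).natDegree - 1)) :
    ‖α i‖ ≤ Fintype.card F * (1 - A * Real.log M / M) := by
  have hMr : (1 : ℝ) < M := by exact_mod_cast hM
  have hM0 : (0 : ℝ) < M := by linarith
  have hL : 0 < Real.log (M : ℝ) := Real.log_pos hMr
  have hq : (0 : ℝ) < (Fintype.card F : ℝ) := by
    have : 0 < Fintype.card F := Fintype.card_pos
    exact_mod_cast this
  have hc := prs_isCh hE hχ
  have hnp := prs_NP hE hn hχ
  by_cases hi : NP (pp E) (fun f => χ f ^ 2) ∨ (α i).im ≠ 0
  · have h1 := zf_nonreal (pp_monic hE) hc hnp hα i hi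
    have hd1 : (1 : ℝ) ≤ ((pp E).natDegree : ℝ) := by
      exact_mod_cast natDegree_pos_of_NP (pp_monic hE) hc hnp
    rw [natDegree_pp hE] at h1 hd1
    refine h1.trans (mul_le_mul_of_nonneg_left ?_ hq.le)
    have h2 : A * Real.log M / M ≤ 1 / (200 * (dg E : ℝ)) := by
      rw [div_le_div_iff₀ hM0 (by positivity)]
      calc A * Real.log M * (200 * (dg E : ℝ)) ≤ A * Real.log M * (200 * (B * Real.log M)) := by
            apply mul_le_mul_of_nonneg_left _ (by positivity)
            linarith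
        _ = 200 * A * B * Real.log M ^ 2 := by ring
        _ ≤ 1 * M := by linarith
    linarith
  · rw [not_or, not_not] at hi
    have hR := real_of_sq hc hi.1
    set x := (α i).re with hx
    have hαx : α i = (x : ℂ) := by
      apply Complex.ext
      · simp [hx]
      · simpa using hi.2
    have hxq : |x| ≤ Fintype.card F := by
      have := hα.bound i
      rwa [hαx, Complex.norm_real, Real.norm_eq_abs] at this
    rw [hαx, Complex.norm_real, Real.norm_eq_abs]
    by_contra hcon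
    push Not at hcon
    apply hbad
    refine ⟨E, hE, hn, hdg, χ, hχ, hR, α, hα, i, ?_⟩
    refine ⟨if 0 ≤ x then 1 else -1, 1 - |x| / Fintype.card F, ?_, ?_, ?_, ?_⟩
    · split_ifs <;> simp
    · have : |x| / Fintype.card F ≤ 1 := by rw [div_le_one hq]; exact hxq
      linarith
    · have : (1 - A * Real.log M / M) ≤ |x| / Fintype.card F := by
        rw [le_div_iff₀ hq]; linarith
      linarith
    · rw [hαx]
      congr 1
      split_ifs with h0
      · rw [abs_of_nonneg h0]; field_simp; ring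
      · rw [abs_of_neg (not_le.mp h0)]; field_simp; ring

theorem good (A B : ℝ) (hA : 1 ≤ A) (hB : 1 ≤ B) (M0 : ℕ) : ∃ M, M0 ≤ M ∧
    ∀ E : Finset F[X], IsPr E → E.Nonempty → (dg E : ℝ) ≤ B * Real.log M → ∀ χ ∈ prs E,
      ‖Ps χ M‖ ≤ (Fintype.card F : ℝ) ^ M / (M : ℝ) ^ A := by
  have hlo := (Real.isLittleO_pow_log_id_atTop (n := 2)).def (c := 1 / (200 * (A + 1) * B)) (by positivity)
  have hlo1 := (Real.isLittleO_log_id_atTop).def (c := 1 / B) (by positivity)
  have hev : ∀ᶠ M : ℕ in atTop, ‖Real.log (M : ℝ) ^ 2‖ ≤ 1 / (200 * (A + 1) * B) * ‖id (M : ℝ)‖ ∧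
      ‖Real.log (M : ℝ)‖ ≤ 1 / B * ‖id (M : ℝ)‖ :=
    ((tendsto_natCast_atTop_atTop (R := ℝ)).eventually hlo).and
      ((tendsto_natCast_atTop_atTop (R := ℝ)).eventually hlo1)
  obtain ⟨M1, hM1⟩ := eventually_atTop.mp hev
  obtain ⟨M, hM, hbad⟩ := exists_good F (A + 1) B (by linarith) hB (max (max M0 M1) 2)
  have hM2 : 1 < M := by omega
  have hMM1 : M1 ≤ M := by omega
  refine ⟨M, by omega, ?_⟩
  intro E hE hn hdg χ hχ
  have hMr : (1 : ℝ) < M := by exact_mod_cast hM2
  have hM0 : (0 : ℝ) < M := by linarith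
  have hL : 0 < Real.log (M : ℝ) := Real.log_pos hMr
  have hq : (0 : ℝ) < (Fintype.card F : ℝ) := by
    have : 0 < Fintype.card F := Fintype.card_pos
    exact_mod_cast this
  obtain ⟨h1, h2⟩ := hM1 M hMM1
  rw [Real.norm_of_nonneg (by positivity), id, Real.norm_of_nonneg hM0.le] at h1
  rw [Real.norm_of_nonneg hL.le, id, Real.norm_of_nonneg hM0.le] at h2
  have hsm : 200 * (A + 1) * B * Real.log M ^ 2 ≤ M := by
    rw [div_mul_eq_mul_div, one_mul, le_div_iff₀ (by positivity)] at h1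
    linarith
  have hBL : B * Real.log M ≤ M := by
    rw [div_mul_eq_mul_div, one_mul, le_div_iff₀ (by positivity)] at h2
    linarith
  have hc := prs_isCh hE hχ
  have hnp := prs_NP hE hn hχ
  obtain ⟨α, hα⟩ := exists_roots (pp_monic hE) hc hnp
  have hroot := goodb_root F hM2 hbad hsm (by linarith) hE hn hdg hχ hα
  set T : ℝ := (A + 1) * Real.log M / M with hT
  have hTe : 1 - T ≤ Real.exp (-T) := by
    have := Real.add_one_le_exp (-T)
    linarith
  have hexp : Real.exp (-T) ^ M = 1 / (M : ℝ) ^ (A + 1) := by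
    rw [← Real.exp_nat_mul, Real.rpow_def_of_pos hM0, one_div, ← Real.exp_neg]
    congr 1
    rw [hT]
    field_simp
  rw [hα.psum M hM2.le, norm_neg]
  have hterm : ∀ i ∈ (Finset.univ : Finset (Fin ((pp E).natDegree - 1))), ‖α i ^ M‖ ≤
      (Fintype.card F : ℝ) ^ M * (1 / (M : ℝ) ^ (A + 1)) := by
    intro i _
    rw [norm_pow, ← hexp, ← mul_pow]
    apply pow_le_pow_left₀ (norm_nonneg _)
    exact (hroot i).trans (mul_le_mul_of_nonneg_left hTe hq.le)
  have hMA : (0 : ℝ) < (M : ℝ) ^ A := by positivity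
  calc ‖∑ i, α i ^ M‖ ≤ ∑ i : Fin ((pp E).natDegree - 1), ‖α i ^ M‖ := norm_sum_le _ _
    _ ≤ ∑ _i : Fin ((pp E).natDegree - 1), (Fintype.card F : ℝ) ^ M * (1 / (M : ℝ) ^ (A + 1)) :=
        Finset.sum_le_sum hterm
    _ = (((pp E).natDegree - 1 : ℕ) : ℝ) * ((Fintype.card F : ℝ) ^ M * (1 / (M : ℝ) ^ (A + 1))) := by
        rw [Finset.sum_const, Finset.card_univ, Fintype.card_fin, nsmul_eq_mul]
    _ ≤ (M : ℝ) * ((Fintype.card F : ℝ) ^ M * (1 / (M : ℝ) ^ (A + 1))) := by
        apply mul_le_mul_of_nonneg_right _ (by positivity)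
        calc (((pp E).natDegree - 1 : ℕ) : ℝ) ≤ ((pp E).natDegree : ℝ) := by
              exact_mod_cast Nat.sub_le _ _
          _ = (dg E : ℝ) := by rw [natDegree_pp hE]
          _ ≤ M := hdg.trans hBL
    _ = (Fintype.card F : ℝ) ^ M / (M : ℝ) ^ A := by
        rw [Real.rpow_add hM0, Real.rpow_one]
        field_simp

end Pool.Agent.H81.FF
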