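import Pool.Agent.H81.FF.Gauss

/-! # FF-D09 Multiplicative large sieve  (MP_a1f59e_nt, project FF, block D)

A nontrivial `ψ : AddChar F ℂ` exists (`AddChar.FiniteField.primitiveChar...`, or
`AddChar.exists_ne_one_of_...`, or compose with `ZMod` characters and the trace). `E ↦ pp E` is injective on `Sq F m`
(`pp_injOn`) with values in `Mn F m` (`pp_monic`, `natDegree_pp`). Combine `gauss_ineq` and `ls_add_Mn`.
-/

set_option autoImplicit false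

namespace Pool.Agent.H81.FF

open Polynomial Finset Pool.Agent.H10.FF
open scoped Classical ComplexConjugate

variable {F : Type} [Field F] [Fintype F]

theorem exists_psi : ∃ ψ : AddChar F ℂ, ∃ y, ψ y ≠ 1 := by
  obtain ⟨ψ, hψ⟩ := (AddChar.exists_apply_ne_zero (a := (1 : F))).2 one_ne_zero
  exact ⟨ψ, 1, hψ⟩

theorem mem_Sq {m : ℕ} {E : Finset F[X]} : E ∈ Sq F m ↔ IsPr E ∧ dg E = m := by
  unfold Sq
  rw [Finset.mem_filter, Finset.mem_powerset]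
  constructor
  · rintro ⟨h1, h2⟩
    refine ⟨fun P hP => ?_, h2⟩
    have h3 := mem_PR.1 (h1 hP)
    exact ⟨h3.1, h3.2.1⟩
  · rintro ⟨h1, h2⟩
    refine ⟨fun P hP => ?_, h2⟩
    refine mem_PR.2 ⟨(h1 P hP).1, (h1 P hP).2, (h1 P hP).2.natDegree_pos, ?_⟩
    rw [← h2]
    exact Finset.single_le_sum (f := fun P : F[X] => P.natDegree) (fun _ _ => Nat.zero_le _) hP

theorem ls_prs (m ν : ℕ) (c : F[X] → ℂ) :
    ∑ E ∈ Sq F m, ∑ χ ∈ prs E, ‖∑ f ∈ Mn F ν, c f * χ f‖ ^ 2 ≤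
      (Fintype.card F : ℝ) ^ (max ν (2 * m)) * ∑ f ∈ Mn F ν, ‖c f‖ ^ 2 := by
  obtain ⟨ψ, hψ⟩ := exists_psi (F := F)
  refine le_trans ?_ (ls_add_Mn ψ hψ m ν c)
  have h1 : ∑ E ∈ Sq F m, ∑ χ ∈ prs E, ‖∑ f ∈ Mn F ν, c f * χ f‖ ^ 2 ≤
      ∑ E ∈ Sq F m, ∑ a ∈ (Gn F m).filter (fun a => IsCoprime a (pp E)),
        ‖∑ f ∈ Mn F ν, c f * ψ (res (pp E) (a * f))‖ ^ 2 := by
    refine Finset.sum_le_sum fun E hE => ?_
    obtain ⟨hE1, hE2⟩ := mem_Sq.1 hE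
    have h2 := gauss_ineq hE1 ψ hψ ν c
    rw [hE2] at h2
    exact h2
  refine h1.trans ?_
  have h3 : ∑ E ∈ Sq F m, ∑ a ∈ (Gn F m).filter (fun a => IsCoprime a (pp E)),
        ‖∑ f ∈ Mn F ν, c f * ψ (res (pp E) (a * f))‖ ^ 2 =
      ∑ d ∈ (Sq F m).image (fun E : Finset F[X] => pp E),
        ∑ a ∈ (Gn F m).filter (fun a => IsCoprime a d),
        ‖∑ f ∈ Mn F ν, c f * ψ (res d (a * f))‖ ^ 2 := by
    rw [Finset.sum_image]
    intro D hD E hE h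
    exact pp_injOn (mem_Sq.1 hD).1 (mem_Sq.1 hE).1 h
  rw [h3]
  refine Finset.sum_le_sum_of_subset_of_nonneg ?_ ?_
  · intro d hd
    obtain ⟨E, hE, rfl⟩ := Finset.mem_image.1 hd
    obtain ⟨hE1, hE2⟩ := mem_Sq.1 hE
    exact mem_Mn.2 ⟨pp_monic hE1, (natDegree_pp hE1).trans hE2⟩
  · intro d _ _
    exact Finset.sum_nonneg fun a _ => by positivity

end Pool.Agent.H81.FF
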