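import Pool.Agent.H81.FF.Roots

/-! # FF-D18 Nonvanishing for real characters  (MP_a1f59e_nt, project FF, block D)

`χ` real nonprincipal, `ε = ±1`. Suppose `∑_{n < m} Ls n (ε/q)^n = 0`, `m = natDegree d`.
Put `R n = ∑_{j ≤ n} q^(n-j) ε^j Ls χ j` (coefficients of `L(εu) / (1 - q u)`). For `n ≥ m`: `R n = q^n ∑_{j<m} Ls j (ε/q)^j = 0`.
On the other hand `n * R n = ∑_{s=1}^n (q^s + ε^s Ps χ s) R (n - s)` (from `conv_psi` for `χ`; in power series
`X R' = R (q X / (1 - q X) + Ψ_χ(ε X))`), all `q^s + ε^s Ps χ s` are real `≥ 0`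
(`= ∑_{j ∣ s} j ∑ P ∈ irrs j, (1 + ε^s χ(P)^(s/j))`, `Ps_one` / `sum_irrs`)
and `R 0 = 1`, so `R n ≥ 0` for all `n` and `n R n ≥ q^n + ε^n Ps χ n`. Take `n = 2 l`, `l > m`, `irrs F l` nonempty
(`irrs_ge`, `l` large): the term `j = l` is at least `l`, so `R n > 0`. Contradiction.
`not_root`: if `α i = ε q` then the product `∏ (1 - α i u)` vanishes at `u = ε / q`.
-/

set_option autoImplicit false

namespace Pool.Agent.H81.FF

open Polynomial Finset Pool.Agent.H10.FF
open scoped Classical ComplexConjugate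

variable {F : Type} [Field F] [Fintype F]

omit [Fintype F] in
theorem nonvan_conj {χ : F[X] → ℂ} (hR : Rl χ) (f : F[X]) : conj (χ f) = χ f := by
  rcases hR f with h | h | h <;> rw [h] <;> simp

theorem nonvan_Ls_re {χ : F[X] → ℂ} (hR : Rl χ) (n : ℕ) : (((Ls χ n).re : ℝ) : ℂ) = Ls χ n := by
  rw [← Complex.conj_eq_iff_re]
  unfold Ls
  rw [map_sum]
  exact sum_congr rfl fun f _ => nonvan_conj hR f

theorem nonvan_Ps_re {χ : F[X] → ℂ} (hR : Rl χ) (n : ℕ) : (((Ps χ n).re : ℝ) : ℂ) = Ps χ n := by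
  rw [← Complex.conj_eq_iff_re]
  unfold Ps
  rw [map_sum]
  refine sum_congr rfl fun j _ => ?_
  rw [map_mul, map_sum, Complex.conj_natCast]
  congr 1
  refine sum_congr rfl fun P _ => ?_
  rw [map_pow, nonvan_conj hR]

theorem nonvan_eps {ε : ℝ} (hε : ε = 1 ∨ ε = -1) (n : ℕ) : |ε ^ n| = 1 := by
  rw [abs_pow]
  rcases hε with h | h <;> rw [h] <;> simp

/-- `1 + ε ^ n χ` is nonnegative -/
theorem pos_one {d : F[X]} (hd : d.Monic) {χ : F[X] → ℂ} (h : IsCh d χ) (hR : Rl χ) {ε : ℝ}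
    (hε : ε = 1 ∨ ε = -1) {n : ℕ} (hn : 1 ≤ n) :
    0 ≤ (Fintype.card F : ℝ) ^ n + ε ^ n * (Ps χ n).re ∧ (Ps χ n).im = 0 := by
  constructor
  · have h1 : |ε ^ n * (Ps χ n).re| ≤ (Fintype.card F : ℝ) ^ n := by
      rw [abs_mul, nonvan_eps hε, one_mul]
      exact (Complex.abs_re_le_norm _).trans (Ps_norm_le (fun f => h.norm_le hd f) n)
    have h2 := (abs_le.mp h1).1
    linarith
  · have h1 := nonvan_Ps_re hR n
    rw [← h1, Complex.ofReal_im]

theorem exists_irrs (l0 : ℕ) : ∃ l, l0 < l ∧ (irrs F l).Nonempty := by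
  refine ⟨l0 + 3, by omega, ?_⟩
  have h := irrs_ge (F := F) (l0 + 3)
  rw [← card_pos]
  by_contra hcon
  have h0 : (irrs F (l0 + 3)).card = 0 := by omega
  rw [h0, mul_zero, zero_add] at h
  have hq : 2 ≤ Fintype.card F := Fintype.one_lt_card
  have h1 : Fintype.card F ^ (l0 + 3) = Fintype.card F ^ (l0 + 3 - (l0 + 3) / 2) * Fintype.card F ^ ((l0 + 3) / 2) := by
    rw [← pow_add]
    congr 1
    omega
  have h2 : 2 ^ 2 ≤ Fintype.card F ^ (l0 + 3 - (l0 + 3) / 2) :=
    (Nat.pow_le_pow_left hq 2).trans (Nat.pow_le_pow_right (by omega) (by omega))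
  have h3 : 0 < Fintype.card F ^ ((l0 + 3) / 2) := Nat.pow_pos (by omega)
  rw [h1] at h
  have h4 := Nat.le_of_mul_le_mul_right h h3
  omega

/-- product rule for the Euler operator -/
theorem nonvan_D (f g : ℕ → ℝ) (n : ℕ) :
    (n : ℝ) * ∑ p ∈ antidiagonal n, f p.1 * g p.2 =
      ∑ p ∈ antidiagonal n, ((p.1 : ℝ) * f p.1) * g p.2 + ∑ p ∈ antidiagonal n, f p.1 * ((p.2 : ℝ) * g p.2) := by
  rw [mul_sum, ← sum_add_distrib]
  refine sum_congr rfl fun p hp => ?_
  have h : ((p.1 + p.2 : ℕ) : ℝ) = (n : ℝ) := by rw [mem_antidiagonal.mp hp]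
  rw [← h]
  push_cast
  ring

/-- the recursion for `G * A` -/
theorem nonvan_rec (q : ℝ) (A P : ℕ → ℝ) (hP0 : P 0 = 0)
    (hA : ∀ n : ℕ, (n : ℝ) * A n = ∑ p ∈ antidiagonal n, P p.1 * A p.2) (n : ℕ) :
    (n : ℝ) * ∑ p ∈ antidiagonal n, q ^ p.1 * A p.2 =
      ∑ p ∈ antidiagonal n, (if p.1 = 0 then 0 else q ^ p.1 + P p.1) *
        ∑ r ∈ antidiagonal p.2, q ^ r.1 * A r.2 := by
  set G : PowerSeries ℝ := PowerSeries.mk (fun n => q ^ n) with hG
  set AA : PowerSeries ℝ := PowerSeries.mk A with hAA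
  set PP : PowerSeries ℝ := PowerSeries.mk P with hPP
  set G1 : PowerSeries ℝ := PowerSeries.mk (fun n => if n = 0 then 0 else q ^ n) with hG1
  have e1 : PowerSeries.mk (fun n : ℕ => (n : ℝ) * A n) = PP * AA := by
    ext k
    rw [PowerSeries.coeff_mul]
    simp only [hPP, hAA, PowerSeries.coeff_mk]
    exact hA k
  have e2 : PowerSeries.mk (fun n : ℕ => (n : ℝ) * q ^ n) = G1 * G := by
    ext k
    rw [PowerSeries.coeff_mul]
    simp only [hG1, hG, PowerSeries.coeff_mk]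
    rw [Finset.Nat.sum_antidiagonal_eq_sum_range_succ (fun x y => (if x = 0 then 0 else q ^ x) * q ^ y),
      sum_range_succ']
    simp only [Nat.add_eq_zero_iff, one_ne_zero, and_false, if_false, if_true, zero_mul, add_zero]
    have : ∀ i ∈ range k, q ^ (i + 1) * q ^ (k - (i + 1)) = q ^ k := by
      intro i hi
      rw [mem_range] at hi
      rw [← pow_add]
      congr 1
      omega
    rw [sum_congr rfl this, sum_const, card_range, nsmul_eq_mul]
  have e3 : PowerSeries.mk (fun n : ℕ => (n : ℝ) * ∑ p ∈ antidiagonal n, q ^ p.1 * A p.2) =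
      (G1 + PP) * (G * AA) := by
    have e4 : PowerSeries.mk (fun n : ℕ => (n : ℝ) * ∑ p ∈ antidiagonal n, q ^ p.1 * A p.2) =
        PowerSeries.mk (fun n : ℕ => (n : ℝ) * q ^ n) * AA + G * PowerSeries.mk (fun n : ℕ => (n : ℝ) * A n) := by
      ext k
      rw [map_add, PowerSeries.coeff_mul, PowerSeries.coeff_mul]
      simp only [hG, hAA, PowerSeries.coeff_mk]
      exact nonvan_D (fun n => q ^ n) A k
    rw [e4, e1, e2]
    ring
  have e5 := congrArg (PowerSeries.coeff n) e3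
  rw [PowerSeries.coeff_mk, PowerSeries.coeff_mul] at e5
  rw [e5]
  refine sum_congr rfl fun p _ => ?_
  rw [map_add, PowerSeries.coeff_mul]
  simp only [hG1, hPP, hG, hAA, PowerSeries.coeff_mk]
  by_cases h0 : p.1 = 0
  · rw [if_pos h0, if_pos h0, h0, hP0, add_zero]
  · rw [if_neg h0, if_neg h0]

/-- nonnegativity and the lower bound -/
theorem nonvan_pos (w R : ℕ → ℝ) (hw : ∀ n, 0 ≤ w n) (hR0 : R 0 = 1)
    (hR : ∀ n : ℕ, (n : ℝ) * R n = ∑ p ∈ antidiagonal n, (if p.1 = 0 then 0 else w p.1) * R p.2) :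
    (∀ n, 0 ≤ R n) ∧ ∀ n, 1 ≤ n → w n ≤ (n : ℝ) * R n := by
  have h1 : ∀ n, 0 ≤ R n := by
    intro n
    induction n using Nat.strong_induction_on with
    | _ n ih =>
      rcases Nat.eq_zero_or_pos n with h0 | h0
      · rw [h0, hR0]
        exact zero_le_one
      · have h2 : 0 ≤ (n : ℝ) * R n := by
          rw [hR n]
          refine sum_nonneg fun p hp => ?_
          by_cases hp0 : p.1 = 0
          · rw [if_pos hp0, zero_mul]
          · rw [if_neg hp0]
            refine mul_nonneg (hw _) (ih p.2 ?_)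
            have := mem_antidiagonal.mp hp
            omega
        have h3 : (0 : ℝ) < (n : ℝ) := by exact_mod_cast h0
        exact nonneg_of_mul_nonneg_right h2 h3
  refine ⟨h1, fun n hn => ?_⟩
  rw [hR n]
  have hmem : ((n, 0) : ℕ × ℕ) ∈ antidiagonal n := by
    exact HasAntidiagonal.mem_antidiagonal.mpr (Nat.add_zero n)
  have h2 := single_le_sum (f := fun p : ℕ × ℕ => (if p.1 = 0 then 0 else w p.1) * R p.2)
    (s := antidiagonal n) (fun p _ => by
      by_cases hp0 : p.1 = 0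
      · simp only [if_pos hp0, zero_mul]
        exact le_refl _
      · simp only [if_neg hp0]
        exact mul_nonneg (hw _) (h1 _)) hmem
  refine le_trans (le_of_eq ?_) h2
  simp only
  rw [if_neg (by omega), hR0, mul_one]

theorem nonvan_big {χ : F[X] → ℂ} (hR : Rl χ) {l : ℕ} (hl0 : 1 ≤ l) (hl : (irrs F l).Nonempty) :
    0 < (Fintype.card F : ℝ) ^ (2 * l) + (Ps χ (2 * l)).re := by
  have h1 : ((Fintype.card F : ℝ) ^ (2 * l)) = ∑ j ∈ (2 * l).divisors, (j : ℝ) * ∑ P ∈ irrs F j, (1 : ℝ) := by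
    have := sum_irrs (F := F) (n := 2 * l) (by omega)
    have h2 : ((∑ j ∈ (2 * l).divisors, j * (irrs F j).card : ℕ) : ℝ) = ((Fintype.card F ^ (2 * l) : ℕ) : ℝ) := by
      rw [this]
    push_cast at h2
    rw [← h2]
    refine sum_congr rfl fun j _ => ?_
    rw [sum_const, nsmul_eq_mul, mul_one]
  have hre : ∀ P : F[X], (((χ P).re : ℝ) : ℂ) = χ P := fun P => Complex.conj_eq_iff_re.mp (nonvan_conj hR P)
  have h3 : (Ps χ (2 * l)).re = ∑ j ∈ (2 * l).divisors, (j : ℝ) * ∑ P ∈ irrs F j, ((χ P).re) ^ (2 * l / j) := by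
    have h4 : Ps χ (2 * l) =
        ((∑ j ∈ (2 * l).divisors, (j : ℝ) * ∑ P ∈ irrs F j, ((χ P).re) ^ (2 * l / j) : ℝ) : ℂ) := by
      unfold Ps
      push_cast
      refine sum_congr rfl fun j _ => ?_
      congr 1
      refine sum_congr rfl fun P _ => ?_
      rw [hre]
    rw [h4, Complex.ofReal_re]
  rw [h1, h3, ← sum_add_distrib]
  have h5 : ∀ j ∈ (2 * l).divisors, 0 ≤ (j : ℝ) * ∑ P ∈ irrs F j, (1 : ℝ) +
      (j : ℝ) * ∑ P ∈ irrs F j, ((χ P).re) ^ (2 * l / j) := by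
    intro j _
    rw [← mul_add, ← sum_add_distrib]
    refine mul_nonneg (Nat.cast_nonneg _) (sum_nonneg fun P _ => ?_)
    have h6 : |(χ P).re ^ (2 * l / j)| ≤ 1 := by
      rw [abs_pow]
      refine pow_le_one₀ (abs_nonneg _) ?_
      rcases hR P with h | h | h <;> rw [h] <;> simp
    have := (abs_le.mp h6).1
    linarith
  have hmem : l ∈ (2 * l).divisors := by
    rw [Nat.mem_divisors]
    exact ⟨Dvd.intro_left 2 rfl, by omega⟩
  refine lt_of_lt_of_le ?_ (single_le_sum h5 hmem)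
  have h7 : 2 * l / l = 2 := Nat.mul_div_cancel _ (by omega)
  rw [h7, ← mul_add, ← sum_add_distrib]
  refine mul_pos (by exact_mod_cast hl0) (sum_pos (fun P _ => ?_) hl)
  have := sq_nonneg (χ P).re
  linarith

theorem nonvan {d : F[X]} (hd : d.Monic) {χ : F[X] → ℂ} (h : IsCh d χ) (hn : NP d χ) (hR : Rl χ) {ε : ℝ}
    (hε : ε = 1 ∨ ε = -1) :
    ∑ n ∈ range d.natDegree, Ls χ n * ((ε : ℂ) / (Fintype.card F : ℂ)) ^ n ≠ 0 := by
  intro hzero
  have hq : (0 : ℝ) < (Fintype.card F : ℝ) := by exact_mod_cast Fintype.card_pos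
  set q : ℝ := (Fintype.card F : ℝ) with hqq
  set A : ℕ → ℝ := fun n => ε ^ n * (Ls χ n).re with hA
  set P : ℕ → ℝ := fun n => ε ^ n * (Ps χ n).re with hP
  have hP0 : P 0 = 0 := by
    rw [hP]
    simp only
    rw [Ps_zero, Complex.zero_re, mul_zero]
  have hreal : ∀ n : ℕ, (n : ℝ) * (Ls χ n).re = ∑ p ∈ antidiagonal n, (Ps χ p.1).re * (Ls χ p.2).re := by
    intro n
    have h1 := conv_psi h.one h.mul n
    have h2 : (((n : ℝ) * (Ls χ n).re : ℝ) : ℂ) =
        ((∑ p ∈ antidiagonal n, (Ps χ p.1).re * (Ls χ p.2).re : ℝ) : ℂ) := by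
      push_cast
      rw [nonvan_Ls_re hR, h1]
      refine sum_congr rfl fun p _ => ?_
      rw [nonvan_Ps_re hR, nonvan_Ls_re hR]
    exact_mod_cast h2
  have hAn : ∀ n : ℕ, (n : ℝ) * A n = ∑ p ∈ antidiagonal n, P p.1 * A p.2 := by
    intro n
    have h1 : (n : ℝ) * A n = ε ^ n * ((n : ℝ) * (Ls χ n).re) := by
      rw [hA]
      ring
    rw [h1, hreal n, mul_sum]
    refine sum_congr rfl fun p hp => ?_
    rw [← mem_antidiagonal.mp hp, pow_add]
    ring
  set R : ℕ → ℝ := fun n => ∑ p ∈ antidiagonal n, q ^ p.1 * A p.2 with hRR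
  set w : ℕ → ℝ := fun n => if n = 0 then 0 else q ^ n + P n with hw
  have hwn : ∀ n, 0 ≤ w n := by
    intro n
    rw [hw]
    simp only
    by_cases h0 : n = 0
    · rw [if_pos h0]
    · rw [if_neg h0]
      exact (pos_one hd h hR hε (by omega)).1
  have hR0 : R 0 = 1 := by
    have h1 : R 0 = q ^ 0 * (ε ^ 0 * (Ls χ 0).re) := by
      rw [hRR]
      simp only [Finset.Nat.antidiagonal_zero, sum_singleton]
      rfl
    rw [h1, Ls_zero h.one, Complex.one_re, pow_zero, pow_zero, one_mul, one_mul]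
  have hrec : ∀ n : ℕ, (n : ℝ) * R n = ∑ p ∈ antidiagonal n, (if p.1 = 0 then 0 else w p.1) * R p.2 := by
    intro n
    have h1 := nonvan_rec q A P hP0 hAn n
    rw [hRR]
    simp only
    rw [h1]
    refine sum_congr rfl fun p _ => ?_
    by_cases h0 : p.1 = 0
    · rw [if_pos h0, if_pos h0]
    · rw [if_neg h0, if_neg h0, hw]
      simp only
      rw [if_neg h0]
  obtain ⟨_, hlow⟩ := nonvan_pos w R hwn hR0 hrec
  -- the vanishing
  have hz : ∑ n ∈ range d.natDegree, (Ls χ n).re * (ε / q) ^ n = 0 := by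
    have h1 : ((∑ n ∈ range d.natDegree, (Ls χ n).re * (ε / q) ^ n : ℝ) : ℂ) = ((0 : ℝ) : ℂ) := by
      push_cast
      rw [← hzero]
      refine sum_congr rfl fun n _ => ?_
      rw [nonvan_Ls_re hR, hqq]
      push_cast
      rfl
    exact_mod_cast h1
  have hvan : ∀ n, d.natDegree ≤ n → R n = 0 := by
    intro n hdn
    have h1 : R n = q ^ n * ∑ t ∈ range (n + 1), (Ls χ t).re * (ε / q) ^ t := by
      rw [hRR]
      simp only
      rw [← Finset.Nat.sum_antidiagonal_swap]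
      simp only [Prod.fst_swap, Prod.snd_swap]
      rw [Finset.Nat.sum_antidiagonal_eq_sum_range_succ (fun x y => q ^ y * A x), mul_sum]
      refine sum_congr rfl fun t ht => ?_
      rw [mem_range] at ht
      have h2 : q ^ n = q ^ (n - t) * q ^ t := by
        rw [← pow_add]
        congr 1
        omega
      rw [hA, h2, div_pow]
      simp only
      have h3 : q ^ t ≠ 0 := pow_ne_zero _ hq.ne'
      field_simp
    rw [h1]
    have h4 : ∑ t ∈ range (n + 1), (Ls χ t).re * (ε / q) ^ t = ∑ n ∈ range d.natDegree, (Ls χ n).re * (ε / q) ^ n := by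
      symm
      refine sum_subset ?_ ?_
      · intro t ht
        rw [mem_range] at ht ⊢
        omega
      · intro t _ ht
        rw [mem_range, not_lt] at ht
        rw [Ls_eq_zero hd h hn ht, Complex.zero_re, zero_mul]
    rw [h4, hz, mul_zero]
  obtain ⟨l, hl, hirr⟩ := exists_irrs (F := F) d.natDegree
  have h1 := hlow (2 * l) (by omega)
  rw [hvan (2 * l) (by omega), mul_zero] at h1
  have h2 := nonvan_big hR (by omega) hirr
  have h3 : w (2 * l) = q ^ (2 * l) + (Ps χ (2 * l)).re := by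
    rw [hw]
    simp only
    rw [if_neg (by omega), hP]
    simp only
    have h4 : ε ^ (2 * l) = 1 := by
      rw [pow_mul]
      rcases hε with h | h <;> rw [h] <;> simp
    rw [h4, one_mul]
  rw [h3] at h1
  linarith

theorem not_root {d : F[X]} (hd : d.Monic) {χ : F[X] → ℂ} (h : IsCh d χ) (hn : NP d χ) (hR : Rl χ)
    {α : Fin (d.natDegree - 1) → ℂ} (hα : IsRoots d χ α) {ε : ℝ} (hε : ε = 1 ∨ ε = -1)
    (i : Fin (d.natDegree - 1)) : α i ≠ (ε : ℂ) * (Fintype.card F : ℂ) := by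
  intro hi
  apply nonvan hd h hn hR hε
  rw [hα.prod]
  refine prod_eq_zero (mem_univ i) ?_
  rw [hi]
  have hq : (Fintype.card F : ℂ) ≠ 0 := by
    exact_mod_cast Fintype.card_ne_zero
  have h1 : (ε : ℂ) * (ε : ℂ) = 1 := by
    rcases hε with h | h <;> rw [h] <;> simp
  have h2 : (ε : ℂ) * (Fintype.card F : ℂ) * ((ε : ℂ) / (Fintype.card F : ℂ)) = (ε : ℂ) * (ε : ℂ) := by
    field_simp
  rw [h2, h1, sub_self]

end Pool.Agent.H81.FF
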