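import Mathlib

/-! # FF-D19a Positivity lemmas for power sums  (MP_a1f59e_nt, project FF, block D)

* `pos_abel`: multiply the hypothesis by `r^n` and sum over `n ≥ 1` (geometric series `∑_{n≥1} x^n r^n = 1/(1 - x r) - 1`,
  `∑ E (r/2)^n ≤ E`).
* `half`: `‖w‖ < 1 → 1/2 ≤ Re (1/(1-w))`  (equivalent to `‖w‖² ≤ 1`).
-/

set_option autoImplicit false

namespace Pool.Agent.H81.FF

open Finset
open scoped ComplexConjugate

theorem pos_abel {κ : Type} (K : Finset κ) (c : κ → ℝ) (x : κ → ℂ) (hx : ∀ k ∈ K, ‖x k‖ ≤ 1) (E : ℝ)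
    (hE : 0 ≤ E) (h : ∀ n : ℕ, 1 ≤ n → 0 ≤ ∑ k ∈ K, c k * (x k ^ n).re + E * (1 / 2) ^ n) {r : ℝ}
    (hr0 : 0 < r) (hr1 : r < 1) : 0 ≤ ∑ k ∈ K, c k * ((1 / (1 - x k * r)).re - 1) + E := by
  have h1 : ∀ k ∈ K, HasSum (fun n : ℕ => c k * ((x k * r) ^ n).re) (c k * ((1 - x k * r)⁻¹).re) := by
    intro k hk
    have hn : ‖x k * (r : ℂ)‖ < 1 := by
      rw [norm_mul, Complex.norm_real, Real.norm_eq_abs, abs_of_pos hr0]
      calc ‖x k‖ * r ≤ 1 * r := mul_le_mul_of_nonneg_right (hx k hk) hr0.le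
        _ < 1 := by linarith
    exact (Complex.hasSum_re (hasSum_geometric_of_norm_lt_one hn)).mul_left (c k)
  have h2 : HasSum (fun n : ℕ => ∑ k ∈ K, c k * ((x k * r) ^ n).re)
      (∑ k ∈ K, c k * ((1 - x k * r)⁻¹).re) := hasSum_sum h1
  have h3 : HasSum (fun n : ℕ => E * (r / 2) ^ n) (E * (1 - r / 2)⁻¹) :=
    (hasSum_geometric_of_lt_one (by linarith) (by linarith)).mul_left E
  have h4 := h2.add h3
  have h5 := (hasSum_nat_add_iff' 1).2 h4
  have h6 : (0 : ℝ) ≤ ∑ k ∈ K, c k * ((1 - x k * r)⁻¹).re + E * (1 - r / 2)⁻¹ -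
      ∑ i ∈ range 1, (∑ k ∈ K, c k * ((x k * r) ^ i).re + E * (r / 2) ^ i) := by
    refine h5.nonneg ?_
    intro n
    have h7 := h (n + 1) (by omega)
    have h8 : ∑ k ∈ K, c k * ((x k * (r : ℂ)) ^ (n + 1)).re + E * (r / 2) ^ (n + 1) =
        r ^ (n + 1) * (∑ k ∈ K, c k * (x k ^ (n + 1)).re + E * (1 / 2) ^ (n + 1)) := by
      rw [mul_add, Finset.mul_sum]
      congr 1
      · refine Finset.sum_congr rfl fun k _ => ?_
        have : ((x k * (r : ℂ)) ^ (n + 1)).re = r ^ (n + 1) * (x k ^ (n + 1)).re := by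
          rw [mul_pow, ← Complex.ofReal_pow, mul_comm, Complex.re_ofReal_mul]
        rw [this]; ring
      · rw [div_pow, div_pow]; ring
    show 0 ≤ ∑ k ∈ K, c k * ((x k * (r : ℂ)) ^ (n + 1)).re + E * (r / 2) ^ (n + 1)
    rw [h8]
    exact mul_nonneg (pow_nonneg hr0.le _) h7
  have h9 : (1 - r / 2)⁻¹ ≤ 2 := by
    rw [inv_le_comm₀ (by linarith) (by norm_num)]
    linarith
  have h10 : E * (1 - r / 2)⁻¹ ≤ E * 2 := mul_le_mul_of_nonneg_left h9 hE
  simp only [range_one, sum_singleton, pow_zero, Complex.one_re, mul_one] at h6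
  have h11 : ∑ k ∈ K, c k * ((1 / (1 - x k * r)).re - 1) =
      ∑ k ∈ K, c k * ((1 - x k * r)⁻¹).re - ∑ k ∈ K, c k := by
    rw [← Finset.sum_sub_distrib]
    refine Finset.sum_congr rfl fun k _ => ?_
    rw [one_div]; ring
  rw [h11]
  linarith

theorem half {w : ℂ} (hw : ‖w‖ < 1) : 1 / 2 ≤ (1 / (1 - w)).re := by
  have h1 : Complex.normSq w < 1 := by
    rw [Complex.normSq_eq_norm_sq]
    have := norm_nonneg w
    nlinarith
  have h2 : 0 < Complex.normSq (1 - w) := by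
    rw [Complex.normSq_pos]
    intro h
    have : w = 1 := by linear_combination -h
    rw [this] at hw
    simp at hw
  rw [one_div (1 - w), Complex.inv_re, div_le_div_iff₀ (by norm_num) h2]
  rw [Complex.normSq_apply] at h1 ⊢
  simp only [Complex.sub_re, Complex.one_re, Complex.sub_im, Complex.one_im]
  nlinarith

end Pool.Agent.H81.FF
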