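import Pool.Agent.H81.FF.Pos

/-! # FF-D19b Zero free region, complex case, analytic part  (MP_a1f59e_nt, project FF, block D)

Use `pos_abel`, `half` (file Pos).
* `zf_cx`: fix `i`, `α i ≠ 0` (otherwise clear), `z = conj (α i) / ‖α i‖`, `ρ = ‖α i‖ = 1 - δ`. `pos_abel` with coefficients
  `3` at `1`, `-4` at `α_k z`, `-1` at `β_k z²`: using `half` for all but the term `α i z = ρ`:
  `0 ≤ 3 (1/η - 1) + 4 - 4/(1 - ρ r) + 2 (m-1) + m/2`, `r = 1 - η`, `1 - ρ r ≤ δ + η`, so `4/(δ+η) ≤ 3/η + 3m`.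
  `η = 1/(6m)`: `δ + η ≥ 4/(21 m)`, `δ ≥ 1/(42 m)`.
-/

set_option autoImplicit false

namespace Pool.Agent.H81.FF

open Finset
open scoped ComplexConjugate

theorem zf_cx (m : ℕ) (hm : 1 ≤ m) {ι κ : Type} [Fintype ι] [Fintype κ] (hι : Fintype.card ι ≤ m)
    (hκ : Fintype.card κ ≤ m) (α : ι → ℂ) (β : κ → ℂ) (hα : ∀ i, ‖α i‖ ≤ 1) (hβ : ∀ i, ‖β i‖ ≤ 1)
    (h : ∀ z : ℂ, ‖z‖ = 1 → ∀ n : ℕ, 1 ≤ n →
      0 ≤ 3 - 4 * (∑ i, (α i * z) ^ n).re - (∑ j, (β j * z ^ 2) ^ n).re) (i : ι) :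
    ‖α i‖ ≤ 1 - 1 / (42 * m) := by
  classical
  have hm' : (1 : ℝ) ≤ m := by exact_mod_cast hm
  have hmpos : (0 : ℝ) < m := by linarith
  have h42 : (1 : ℝ) / (42 * m) ≤ 1 := by
    rw [div_le_one (by positivity)]; linarith
  by_cases h0 : α i = 0
  · rw [h0, norm_zero]; linarith
  have hρpos : 0 < ‖α i‖ := norm_pos_iff.mpr h0
  have hρC : ((‖α i‖ : ℝ) : ℂ) ≠ 0 := by exact_mod_cast hρpos.ne'
  obtain ⟨z, hz1, hzα⟩ : ∃ z : ℂ, ‖z‖ = 1 ∧ α i * z = ((‖α i‖ : ℝ) : ℂ) := by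
    refine ⟨conj (α i) / ((‖α i‖ : ℝ) : ℂ), ?_, ?_⟩
    · rw [norm_div, RCLike.norm_conj, Complex.norm_real, Real.norm_eq_abs, abs_of_pos hρpos,
        div_self hρpos.ne']
    · rw [← mul_div_assoc, Complex.mul_conj, Complex.normSq_eq_norm_sq, div_eq_iff hρC]
      push_cast; ring
  -- the data
  let c : Option (ι ⊕ κ) → ℝ := fun o => match o with
    | none => 3
    | some (Sum.inl _) => -4
    | some (Sum.inr _) => -1
  let x : Option (ι ⊕ κ) → ℂ := fun o => match o with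
    | none => 1
    | some (Sum.inl k) => α k * z
    | some (Sum.inr j) => β j * z ^ 2
  have hx : ∀ k ∈ (univ : Finset (Option (ι ⊕ κ))), ‖x k‖ ≤ 1 := by
    intro k _
    rcases k with _ | (k | k)
    · simp [x]
    · simp only [x]; rw [norm_mul, hz1, mul_one]; exact hα k
    · simp only [x]; rw [norm_mul, norm_pow, hz1, one_pow, mul_one]; exact hβ k
  have hsum : ∀ f : Option (ι ⊕ κ) → ℝ, ∑ k, f k
      = f none + (∑ k, f (some (Sum.inl k)) + ∑ j, f (some (Sum.inr j))) := by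
    intro f
    rw [Fintype.sum_option, Fintype.sum_sum_type]
  have hh : ∀ n : ℕ, 1 ≤ n → 0 ≤ ∑ k, c k * (x k ^ n).re + 0 * (1 / 2 : ℝ) ^ n := by
    intro n hn
    have h1 := h z hz1 n hn
    rw [hsum]
    simp only [c, x, one_pow, Complex.one_re, mul_one, zero_mul, add_zero]
    rw [← Finset.mul_sum, ← Finset.mul_sum]
    rw [Complex.re_sum, Complex.re_sum] at h1
    linarith
  set η : ℝ := 1 / (6 * m) with hη
  have hη0 : 0 < η := by positivity
  have hη1 : η ≤ 1 / 6 := by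
    rw [hη]; apply one_div_le_one_div_of_le (by norm_num); linarith
  have hr0 : 0 < 1 - η := by linarith
  have hr1 : 1 - η < 1 := by linarith
  have key := pos_abel univ c x hx 0 le_rfl hh hr0 hr1
  rw [hsum, add_zero] at key
  simp only [c, x] at key
  have hrn : ‖((1 - η : ℝ) : ℂ)‖ = 1 - η := by
    rw [Complex.norm_real, Real.norm_eq_abs, abs_of_pos hr0]
  -- bound the terms
  have hA : ∀ k, -4 * ((1 / (1 - α k * z * ((1 - η : ℝ) : ℂ))).re - 1) ≤ 2 := by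
    intro k
    have : ‖α k * z * ((1 - η : ℝ) : ℂ)‖ < 1 := by
      rw [norm_mul, norm_mul, hz1, mul_one, hrn]
      calc ‖α k‖ * (1 - η) ≤ 1 * (1 - η) := mul_le_mul_of_nonneg_right (hα k) hr0.le
        _ < 1 := by linarith
    have := half this
    linarith
  have hB : ∀ j, -1 * ((1 / (1 - β j * z ^ 2 * ((1 - η : ℝ) : ℂ))).re - 1) ≤ 1 / 2 := by
    intro j
    have : ‖β j * z ^ 2 * ((1 - η : ℝ) : ℂ)‖ < 1 := by
      rw [norm_mul, norm_mul, norm_pow, hz1, one_pow, mul_one, hrn]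
      calc ‖β j‖ * (1 - η) ≤ 1 * (1 - η) := mul_le_mul_of_nonneg_right (hβ j) hr0.le
        _ < 1 := by linarith
    have := half this
    linarith
  have hBs : ∑ j, -1 * ((1 / (1 - β j * z ^ 2 * ((1 - η : ℝ) : ℂ))).re - 1) ≤ (m : ℝ) / 2 := by
    calc ∑ j, -1 * ((1 / (1 - β j * z ^ 2 * ((1 - η : ℝ) : ℂ))).re - 1)
        ≤ ∑ _j : κ, (1 / 2 : ℝ) := Finset.sum_le_sum (fun j _ => hB j)
      _ = (Fintype.card κ : ℝ) * (1 / 2) := by
          rw [Finset.sum_const, Finset.card_univ, nsmul_eq_mul]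
      _ ≤ (m : ℝ) / 2 := by
          have : (Fintype.card κ : ℝ) ≤ m := by exact_mod_cast hκ
          linarith
  have hi : (1 / (1 - α i * z * ((1 - η : ℝ) : ℂ))).re = 1 / (1 - ‖α i‖ * (1 - η)) := by
    rw [hzα]
    have : (1 / (1 - ((‖α i‖ : ℝ) : ℂ) * ((1 - η : ℝ) : ℂ)))
        = ((1 / (1 - ‖α i‖ * (1 - η)) : ℝ) : ℂ) := by
      push_cast; ring
    rw [this, Complex.ofReal_re]
  have hAs : ∑ k, -4 * ((1 / (1 - α k * z * ((1 - η : ℝ) : ℂ))).re - 1)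
      ≤ -4 * (1 / (1 - ‖α i‖ * (1 - η)) - 1) + 2 * ((m : ℝ) - 1) := by
    rw [← Finset.add_sum_erase univ _ (Finset.mem_univ i), hi]
    have : ∑ k ∈ univ.erase i, -4 * ((1 / (1 - α k * z * ((1 - η : ℝ) : ℂ))).re - 1)
        ≤ 2 * ((m : ℝ) - 1) := by
      calc ∑ k ∈ univ.erase i, -4 * ((1 / (1 - α k * z * ((1 - η : ℝ) : ℂ))).re - 1)
          ≤ ∑ _k ∈ univ.erase i, (2 : ℝ) := Finset.sum_le_sum (fun k _ => hA k)
        _ = ((univ.erase i).card : ℝ) * 2 := by rw [Finset.sum_const, nsmul_eq_mul]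
        _ ≤ 2 * ((m : ℝ) - 1) := by
            have h1 : (univ.erase i).card + 1 = Fintype.card ι := by
              rw [Finset.card_erase_add_one (Finset.mem_univ i), Finset.card_univ]
            have h2 : ((univ.erase i).card : ℝ) + 1 ≤ m := by
              have : (univ.erase i).card + 1 ≤ m := by omega
              exact_mod_cast this
            linarith
    linarith
  have hone : (1 / (1 - (1 : ℂ) * ((1 - η : ℝ) : ℂ))).re = 1 / η := by
    have : (1 / (1 - (1 : ℂ) * ((1 - η : ℝ) : ℂ))) = ((1 / η : ℝ) : ℂ) := by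
      push_cast; ring
    rw [this, Complex.ofReal_re]
  rw [hone] at key
  have hη6 : 1 / η = 6 * m := by rw [hη, one_div_one_div]
  rw [hη6] at key
  have hd0 : 0 < 1 - ‖α i‖ * (1 - η) := by
    have : ‖α i‖ * (1 - η) ≤ 1 * (1 - η) := mul_le_mul_of_nonneg_right (hα i) hr0.le
    linarith
  have hfin : 4 * (1 / (1 - ‖α i‖ * (1 - η))) ≤ 21 * m := by linarith
  have h4 : 4 ≤ 21 * m * (1 - ‖α i‖ * (1 - η)) := by
    have := mul_le_mul_of_nonneg_right hfin hd0.le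
    have h5 : 4 * (1 / (1 - ‖α i‖ * (1 - η))) * (1 - ‖α i‖ * (1 - η)) = 4 := by
      field_simp
    linarith
  have h6 : ‖α i‖ * η ≤ η := by
    have := mul_le_mul_of_nonneg_right (hα i) hη0.le
    linarith
  have h7 : m * η = 1 / 6 := by rw [hη]; field_simp
  -- 4 ≤ 21 m (1 - ρ + ρ η) ≤ 21 m (1-ρ) + 21/6
  have h8 : 4 ≤ 21 * m * (1 - ‖α i‖) + 21 / 6 := by
    have h9 : 21 * m * (1 - ‖α i‖ * (1 - η)) = 21 * m * (1 - ‖α i‖) + 21 * m * (‖α i‖ * η) := by ring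
    have h10 : 21 * m * (‖α i‖ * η) ≤ 21 * m * η :=
      mul_le_mul_of_nonneg_left h6 (by positivity)
    have h11 : 21 * m * η = 21 / 6 := by rw [mul_assoc, h7]; norm_num
    linarith
  have h12 : 1 / (42 * (m : ℝ)) ≤ 1 - ‖α i‖ := by
    rw [div_le_iff₀ (by positivity)]
    linarith
  linarith

end Pool.Agent.H81.FF
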