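import Pool.Agent.H81.FF.Pos

/-! # FF-D19c Zero free region, real characters, nonreal zeros, analytic part  (MP_a1f59e_nt, project FF, block D)

Use `pos_abel`, `half` (file Pos).
* `zf_re`: `a = α i`, `Im a ≠ 0`, `ρ = ‖a‖ = 1 - δ`, `s = |Im a| / ‖a‖ ≤ 1`. Suppose `δ < 1/(200 m)`.
  Case `s ≤ 1/(8m)`: `hpos` with `ε = sign Re a` (`ε = 1` if `0 ≤ Re a`), `pos_abel`, the two terms `a`, `conj a = α j`, `j ≠ i`:
  `2 Re (1/(1 - ε a r)) ≤ 1/η + m/2` (other `≤ m - 2` terms by `half`). With `κ = 1 - ρ r`, `η ≤ κ ≤ δ + η`,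
  `‖1 - ε a r‖² = κ² + 2 ρ r (1 - |Re a|/ρ) ≤ κ² + 2 s²` and `Re (1 - ε a r) ≥ κ`, so `Re (1/(1 - ε a r)) ≥ κ/(κ² + 2 s²)`.
  `η = 1/(2m)`: `2 s² ≤ η²/8`, `κ ≤ 1.01 η`, the function `κ/(κ² + η²/8)` is decreasing for `κ ≥ η`, so it is
  `≥ 0.88/η`; `1.76/η ≤ 1/η + m/2 = 1.25/η`. Contradiction.
  Case `s > 1/(8m)`: `h341` with `z = conj a / ‖a‖`: `4/(δ+η) ≤ 3/η + 3m + Re (1/(1 - z² r))`,
  `‖1 - z² r‖² = η² + 4 r s² ≥ 2 s²` (`r ≥ 1/2`), so `Re (1/(1 - z² r)) ≤ 1/s ≤ 8m` (and `E = m` gives `+ m`, all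
  included in `4/(δ+η) ≤ 3/η + 12 m`). `η = 1/(26 m)`: `δ + η ≥ 4/(90 m)`, `δ ≥ 0.0059/m > 1/(200m)`. Contradiction.
-/

set_option autoImplicit false

namespace Pool.Agent.H81.FF

open Finset
open scoped ComplexConjugate

theorem re_one_div' (w : ℂ) : (1 / w).re = w.re / Complex.normSq w := by
  rw [one_div, Complex.inv_re]

theorem zf_re_small (m : ℕ) (hm : 1 ≤ m) {ι : Type} [Fintype ι] (hι : Fintype.card ι ≤ m)
    (α : ι → ℂ) (hα : ∀ i, ‖α i‖ ≤ 1) {i j : ι} (hij : j ≠ i) (hj : α j = conj (α i)) {ε : ℝ}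
    (hε : ε = 1 ∨ ε = -1) (hεa : ε * (α i).re = |(α i).re|)
    (hpos : ∀ n : ℕ, 1 ≤ n → 0 ≤ 1 - ε ^ n * (∑ i, α i ^ n).re)
    (hδ : 1 - 1 / (200 * (m : ℝ)) < ‖α i‖) (hs : |(α i).im| ≤ ‖α i‖ / (8 * m)) : False := by
  classical
  have hM : (1 : ℝ) ≤ m := by exact_mod_cast hm
  have hM0 : (0 : ℝ) < m := by linarith
  have hε2 : ε ^ 2 = 1 := by rcases hε with h | h <;> rw [h] <;> norm_num
  have hεn : |ε| = 1 := by rcases hε with h | h <;> rw [h] <;> norm_num
  set η : ℝ := 1 / (2 * m) with hη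
  have hηM : η * m = 1 / 2 := by rw [hη]; field_simp
  have hη0 : 0 < η := by positivity
  have hη1 : η ≤ 1 / 2 := by
    rw [hη, div_le_div_iff₀ (by positivity) (by norm_num)]; linarith
  set r : ℝ := 1 - η with hr
  have hr0 : 0 < r := by rw [hr]; linarith
  have hr1 : r < 1 := by rw [hr]; linarith
  have hx : ∀ k, ‖(ε : ℂ) * α k‖ ≤ 1 := by
    intro k
    rw [norm_mul, Complex.norm_real, Real.norm_eq_abs, hεn, one_mul]
    exact hα k
  have h1 := pos_abel (κ := Option ι) univ (fun k => k.elim 1 fun _ => -1)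
    (fun k => k.elim 1 fun k => (ε : ℂ) * α k) (by
      rintro (_ | k) _
      · simp
      · exact hx k) 0 le_rfl (by
      intro n hn
      rw [Fintype.sum_option]
      have := hpos n hn
      simp only [Option.elim, one_pow, Complex.one_re, mul_one, zero_mul, add_zero, neg_mul,
        one_mul, sum_neg_distrib]
      have h2 : ∀ k, (((ε : ℂ) * α k) ^ n).re = ε ^ n * (α k ^ n).re := by
        intro k
        rw [mul_pow, ← Complex.ofReal_pow, Complex.re_ofReal_mul]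
      rw [sum_congr rfl fun k _ => h2 k, ← mul_sum, ← Complex.re_sum]
      linarith) hr0 hr1
  rw [Fintype.sum_option] at h1
  simp only [Option.elim, one_mul, neg_mul, sum_neg_distrib, add_zero] at h1
  have h2 : (1 / (1 - (r : ℂ))).re = 1 / η := by
    rw [show (1 - (r : ℂ)) = ((η : ℝ) : ℂ) by rw [hr]; push_cast; ring, ← Complex.ofReal_one,
      ← Complex.ofReal_div, Complex.ofReal_re]
  rw [h2] at h1
  have hlt : ∀ k, ‖(ε : ℂ) * α k * r‖ < 1 := by
    intro k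
    rw [norm_mul, Complex.norm_real, Real.norm_eq_abs, abs_of_pos hr0]
    calc ‖(ε : ℂ) * α k‖ * r ≤ 1 * r := by gcongr; exact hx k
      _ < 1 := by linarith
  set g : ι → ℝ := fun k => (1 / (1 - (ε : ℂ) * α k * r)).re - 1 with hg
  have hgk : ∀ k, -(1 / 2) ≤ g k := by
    intro k
    have := half (hlt k)
    rw [hg]; simp only; linarith
  have hgij : g j = g i := by
    rw [hg]
    simp only
    rw [hj]
    have : (1 / (1 - (ε : ℂ) * conj (α i) * r)) = conj (1 / (1 - (ε : ℂ) * α i * r)) := by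
      simp
    rw [this, Complex.conj_re]
  have hsum : ∑ k, g k = g i + (g j + ∑ k ∈ (univ.erase i).erase j, g k) := by
    rw [add_sum_erase _ _ (mem_erase.2 ⟨hij, mem_univ j⟩), add_sum_erase _ _ (mem_univ i)]
  have hcard : (((univ.erase i).erase j).card : ℝ) + 2 ≤ m := by
    have h3 : ((univ.erase i).erase j).card + 2 = Fintype.card ι := by
      rw [card_erase_of_mem (mem_erase.2 ⟨hij, mem_univ j⟩), card_erase_of_mem (mem_univ i),
        card_univ]
      have h4 : 2 ≤ Fintype.card ι := by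
        have := Finset.card_le_card (subset_univ ({i, j} : Finset ι))
        rw [card_pair (Ne.symm hij), card_univ] at this
        exact this
      omega
    have h4 : ((univ.erase i).erase j).card + 2 ≤ m := h3.trans_le hι
    exact_mod_cast h4
  have hrest : -(1 / 2) * (((univ.erase i).erase j).card : ℝ) ≤
      ∑ k ∈ (univ.erase i).erase j, g k := by
    have := card_nsmul_le_sum ((univ.erase i).erase j) g (-(1 / 2)) fun k _ => hgk k
    rw [nsmul_eq_mul] at this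
    linarith
  have hmain : 2 * (g i + 1) ≤ 1 / η + m / 2 := by
    have h3 : (0 : ℝ) ≤ 1 / η - 1 - ∑ k, g k := by
      have := h1
      rw [← sub_eq_add_neg] at this
      exact this
    rw [hsum, hgij] at h3
    linarith
  have h1η : 1 / η = 2 * m := by rw [hη]; field_simp
  rw [h1η] at hmain
  -- lower bound for the main term
  set a := α i with ha
  set ρ := ‖a‖ with hρ
  have hρ0 : 0 < ρ := by
    have : 1 / (200 * (m : ℝ)) ≤ 1 / 200 := by
      rw [div_le_div_iff₀ (by positivity) (by norm_num)]; linarith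
    linarith
  have hρ1 : ρ ≤ 1 := hα i
  have hsq : a.re ^ 2 + a.im ^ 2 = ρ ^ 2 := by
    rw [hρ, ← Complex.normSq_eq_norm_sq, Complex.normSq_apply]; ring
  have hre : |a.re| ≤ ρ := Complex.abs_re_le_norm a
  have hgi : g i + 1 = (1 - |a.re| * r) / Complex.normSq (1 - (ε : ℂ) * a * r) := by
    rw [hg]
    simp only
    rw [sub_add_cancel, re_one_div']
    congr 1
    simp only [Complex.sub_re, Complex.one_re, Complex.mul_re, Complex.ofReal_re,
      Complex.ofReal_im, zero_mul, sub_zero, mul_zero]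
    rw [hεa]
  have hns : Complex.normSq (1 - (ε : ℂ) * a * r) = 1 - 2 * |a.re| * r + ρ ^ 2 * r ^ 2 := by
    rw [Complex.normSq_apply]
    simp only [Complex.sub_re, Complex.one_re, Complex.mul_re, Complex.ofReal_re,
      Complex.ofReal_im, zero_mul, sub_zero, mul_zero, Complex.sub_im, Complex.one_im,
      Complex.mul_im, add_zero, zero_sub, zero_add]
    rw [← hεa]
    have : (1 - ε * a.re * r) * (1 - ε * a.re * r) + -(ε * a.im * r) * -(ε * a.im * r) =
      1 - 2 * (ε * a.re) * r + ε ^ 2 * (a.re ^ 2 + a.im ^ 2) * r ^ 2 := by ring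
    rw [this, hε2, hsq, one_mul]
  have him : a.im ^ 2 ≤ (ρ / (8 * m)) ^ 2 := by
    rw [← sq_abs]
    exact pow_le_pow_left₀ (abs_nonneg _) hs 2
  -- ρ - |re a| ≤ (im a)^2 / ρ
  have hdiff : ρ - |a.re| ≤ ρ * (1 / (8 * m)) ^ 2 := by
    have h3 : (ρ - |a.re|) * ρ ≤ a.im ^ 2 := by
      have : |a.re| ^ 2 + a.im ^ 2 = ρ ^ 2 := by rw [sq_abs]; exact hsq
      nlinarith [abs_nonneg a.re]
    have h4 : (ρ - |a.re|) * ρ ≤ ρ * (1 / (8 * m)) ^ 2 * ρ := by
      refine h3.trans (him.trans (le_of_eq ?_))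
      ring
    exact le_of_mul_le_mul_right h4 hρ0
  set κ := 1 - ρ * r with hκ
  have hκ0 : η ≤ κ := by
    have : ρ * r ≤ 1 * r := by gcongr
    rw [hκ]; linarith
  have hκ1 : κ ≤ 101 / 100 * η := by
    have h3 : 1 - ρ ≤ 1 / (200 * m) := by linarith
    have h4 : 1 / (200 * (m : ℝ)) = 1 / 100 * η := by rw [hη]; field_simp; norm_num
    rw [hκ, hr]
    nlinarith
  have hns2 : Complex.normSq (1 - (ε : ℂ) * a * r) ≤ κ ^ 2 + η ^ 2 / 8 := by
    have h3 : Complex.normSq (1 - (ε : ℂ) * a * r) = κ ^ 2 + 2 * r * (ρ - |a.re|) := by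
      rw [hns, hκ]; ring
    have h4 : (1 / (8 * (m : ℝ))) ^ 2 = η ^ 2 / 16 := by rw [hη]; field_simp; norm_num
    rw [h4] at hdiff
    have h5 : 2 * r * (ρ - |a.re|) ≤ 2 * 1 * (1 * (η ^ 2 / 16)) := by
      have h6 : (0 : ℝ) ≤ ρ - |a.re| := by linarith
      have h7 : ρ - |a.re| ≤ 1 * (η ^ 2 / 16) := hdiff.trans (by gcongr)
      gcongr
    rw [h3]; linarith
  have hnspos : 0 < Complex.normSq (1 - (ε : ℂ) * a * r) := by
    rw [Complex.normSq_pos]
    intro h0
    have := hlt i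
    rw [← ha, show (ε : ℂ) * a * r = 1 by linear_combination -h0] at this
    simp at this
  have h3 : κ ≤ (5 / 4 * m) * (κ ^ 2 + η ^ 2 / 8) := by
    have h4 : g i + 1 ≤ 5 / 4 * m := by linarith
    rw [hgi, div_le_iff₀ hnspos] at h4
    calc κ ≤ 1 - |a.re| * r := by
          rw [hκ]; gcongr
      _ ≤ _ := h4
      _ ≤ _ := by gcongr
  have h4 : κ ^ 2 ≤ (101 / 100 * η) ^ 2 := pow_le_pow_left₀ (hη0.le.trans hκ0) hκ1 2
  have h5 : (5 / 4 * m) * (κ ^ 2 + η ^ 2 / 8) ≤ (5 / 4 * m) * ((101 / 100 * η) ^ 2 + η ^ 2 / 8) := by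
    gcongr
  have h6 : (5 / 4 * (m : ℝ)) * ((101 / 100 * η) ^ 2 + η ^ 2 / 8) =
      (5 / 4) * ((101 / 100) ^ 2 + 1 / 8) * (η * m) * η := by ring
  rw [h6, hηM] at h5
  nlinarith

theorem zf_re_large (m : ℕ) (hm : 1 ≤ m) {ι : Type} [Fintype ι] (hι : Fintype.card ι ≤ m)
    (α : ι → ℂ) (hα : ∀ i, ‖α i‖ ≤ 1) {i : ι} {z : ℂ} (hz : ‖z‖ = 1)
    (hz' : α i * z = (‖α i‖ : ℂ))
    (h341 : ∀ n : ℕ, 1 ≤ n →
      0 ≤ 3 - 4 * (∑ i, (α i * z) ^ n).re + ((z ^ 2) ^ n).re + m * (1 / 2) ^ n)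
    (hδ : 1 - 1 / (200 * (m : ℝ)) < ‖α i‖) (hs : 1 / (8 * m) < |z.im|) : False := by
  classical
  have hM : (1 : ℝ) ≤ m := by exact_mod_cast hm
  have hM0 : (0 : ℝ) < m := by linarith
  set η : ℝ := 1 / (26 * m) with hη
  have hηM : η * m = 1 / 26 := by rw [hη]; field_simp
  have hη0 : 0 < η := by positivity
  have hη1 : η ≤ 1 / 26 := by
    rw [hη, div_le_div_iff₀ (by positivity) (by norm_num)]; linarith
  set r : ℝ := 1 - η with hr
  have hr0 : 0 < r := by rw [hr]; linarith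
  have hr1 : r < 1 := by rw [hr]; linarith
  have hx : ∀ k, ‖α k * z‖ ≤ 1 := by
    intro k
    rw [norm_mul, hz, mul_one]
    exact hα k
  have h1 := pos_abel (κ := Option (Option ι)) univ
    (fun k => k.elim 3 fun k => k.elim 1 fun _ => -4)
    (fun k => k.elim 1 fun k => k.elim (z ^ 2) fun k => α k * z) (by
      rintro (_ | _ | k) _
      · simp
      · simp [hz]
      · exact hx k) m hM0.le (by
      intro n hn
      rw [Fintype.sum_option, Fintype.sum_option]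
      have := h341 n hn
      simp only [Option.elim, one_pow, Complex.one_re, mul_one, one_mul]
      rw [← mul_sum, ← Complex.re_sum]
      linarith) hr0 hr1
  rw [Fintype.sum_option, Fintype.sum_option] at h1
  simp only [Option.elim, one_mul] at h1
  have h2 : (1 / (1 - (r : ℂ))).re = 1 / η := by
    rw [show (1 - (r : ℂ)) = ((η : ℝ) : ℂ) by rw [hr]; push_cast; ring, ← Complex.ofReal_one,
      ← Complex.ofReal_div, Complex.ofReal_re]
  rw [h2] at h1
  have hlt : ∀ k, ‖α k * z * r‖ < 1 := by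
    intro k
    rw [norm_mul, Complex.norm_real, Real.norm_eq_abs, abs_of_pos hr0]
    calc ‖α k * z‖ * r ≤ 1 * r := by gcongr; exact hx k
      _ < 1 := by linarith
  set g : ι → ℝ := fun k => (1 / (1 - α k * z * r)).re - 1 with hg
  have hgk : ∀ k, -(1 / 2) ≤ g k := by
    intro k
    have := half (hlt k)
    rw [hg]; simp only; linarith
  rw [← mul_sum] at h1
  have hsum : ∑ k, g k = g i + ∑ k ∈ univ.erase i, g k := by
    rw [add_sum_erase _ _ (mem_univ i)]
  have hcard : ((univ.erase i).card : ℝ) + 1 ≤ m := by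
    have h3 : (univ.erase i).card + 1 = Fintype.card ι := by
      rw [card_erase_of_mem (mem_univ i), card_univ]
      have h4 : 1 ≤ Fintype.card ι := Fintype.card_pos_iff.2 ⟨i⟩
      omega
    have h4 : (univ.erase i).card + 1 ≤ m := h3.trans_le hι
    exact_mod_cast h4
  have hrest : -(1 / 2) * ((univ.erase i).card : ℝ) ≤ ∑ k ∈ univ.erase i, g k := by
    have := card_nsmul_le_sum (univ.erase i) g (-(1 / 2)) fun k _ => hgk k
    rw [nsmul_eq_mul] at this
    linarith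
  set ρ := ‖α i‖ with hρ
  have hρ1 : ρ ≤ 1 := hα i
  set κ := 1 - ρ * r with hκ
  have hκ0 : η ≤ κ := by
    have : ρ * r ≤ 1 * r := by gcongr
    rw [hκ]; linarith
  have hκpos : 0 < κ := hη0.trans_le hκ0
  have hgi : g i = 1 / κ - 1 := by
    rw [hg]
    simp only
    rw [hz', show (1 - (ρ : ℂ) * r) = ((κ : ℝ) : ℂ) by rw [hκ]; push_cast; ring,
      ← Complex.ofReal_one, ← Complex.ofReal_div, Complex.ofReal_re]
  have hz2 : (1 / (1 - z ^ 2 * (r : ℂ))).re ≤ 8 * (m : ℝ) := by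
    have hzsq : z.re ^ 2 + z.im ^ 2 = 1 := by
      have := Complex.normSq_eq_norm_sq z
      rw [hz, Complex.normSq_apply] at this
      nlinarith
    have h3 : Complex.normSq (1 - z ^ 2 * r) = η ^ 2 + 4 * r * z.im ^ 2 := by
      rw [Complex.normSq_apply]
      have h4 : (1 - z ^ 2 * (r : ℂ)).re = 1 - (1 - 2 * z.im ^ 2) * r := by
        simp only [Complex.sub_re, Complex.one_re, Complex.mul_re, Complex.ofReal_re,
          Complex.ofReal_im, mul_zero, sub_zero, pow_two]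
        have : z.re * z.re = 1 - z.im * z.im := by nlinarith
        rw [this]; ring
      have h5 : (1 - z ^ 2 * (r : ℂ)).im = -(2 * z.re * z.im * r) := by
        simp only [Complex.sub_im, Complex.one_im, Complex.mul_im, Complex.ofReal_re,
          Complex.ofReal_im, mul_zero, zero_add, pow_two]
        ring
      rw [h4, h5]
      have h6 : -(2 * z.re * z.im * r) * -(2 * z.re * z.im * r) =
        4 * z.re ^ 2 * z.im ^ 2 * r ^ 2 := by ring
      rw [h6, show z.re ^ 2 = 1 - z.im ^ 2 by linarith, show η = 1 - r by rw [hr]; ring]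
      ring
    have hd : 1 / (8 * m) < |z.im| := hs
    have hz0 : 0 < |z.im| := lt_trans (by positivity) hd
    have h7 : |z.im| ^ 2 ≤ Complex.normSq (1 - z ^ 2 * r) := by
      rw [h3, sq_abs]
      nlinarith [sq_nonneg z.im, sq_nonneg η]
    rw [Complex.normSq_eq_norm_sq] at h7
    have h8 : |z.im| ≤ ‖1 - z ^ 2 * (r : ℂ)‖ := by
      exact (pow_le_pow_iff_left₀ hz0.le (norm_nonneg _) two_ne_zero).1 h7
    calc (1 / (1 - z ^ 2 * (r : ℂ))).re ≤ ‖1 / (1 - z ^ 2 * (r : ℂ))‖ := Complex.re_le_norm _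
      _ = 1 / ‖1 - z ^ 2 * (r : ℂ)‖ := by rw [norm_div, norm_one]
      _ ≤ 1 / |z.im| := by gcongr
      _ ≤ 8 * m := by
        rw [div_le_iff₀ hz0]
        rw [div_lt_iff₀ (by positivity)] at hd
        linarith
  have hmain : 4 * (1 / κ) ≤ 89 * m := by
    have h3 : 1 / η = 26 * m := by rw [hη]; field_simp
    rw [h3] at h1
    change 0 ≤ 3 * (26 * (m : ℝ) - 1) + ((1 / (1 - z ^ 2 * (r : ℂ))).re - 1 + -4 * ∑ k, g k) + m
      at h1
    rw [hsum, hgi] at h1
    linarith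
  have h3 : 4 ≤ 89 * m * κ := by
    have := mul_le_mul_of_nonneg_right hmain hκpos.le
    have h4 : 4 * (1 / κ) * κ = 4 := by field_simp
    linarith
  have h4 : κ ≤ 1 / (200 * m) + η := by
    rw [hκ, hr]
    nlinarith
  have h5 : m * κ ≤ 1 / 200 + 1 / 26 := by
    have h6 := mul_le_mul_of_nonneg_left h4 hM0.le
    have h7 : (m : ℝ) * (1 / (200 * m) + η) = 1 / 200 + η * m := by field_simp
    rw [h7, hηM] at h6
    exact h6
  nlinarith

theorem zf_re (m : ℕ) (hm : 1 ≤ m) {ι : Type} [Fintype ι] (hι : Fintype.card ι ≤ m) (α : ι → ℂ)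
    (hα : ∀ i, ‖α i‖ ≤ 1) (hconj : ∀ i, ∃ j, α j = conj (α i))
    (h341 : ∀ z : ℂ, ‖z‖ = 1 → ∀ n : ℕ, 1 ≤ n →
      0 ≤ 3 - 4 * (∑ i, (α i * z) ^ n).re + ((z ^ 2) ^ n).re + m * (1 / 2) ^ n)
    (hpos : ∀ ε : ℝ, ε = 1 ∨ ε = -1 → ∀ n : ℕ, 1 ≤ n → 0 ≤ 1 - ε ^ n * (∑ i, α i ^ n).re) (i : ι)
    (hi : (α i).im ≠ 0) : ‖α i‖ ≤ 1 - 1 / (200 * m) := by
  by_contra hcon
  have hδ := not_le.1 hcon
  have hM : (1 : ℝ) ≤ m := by exact_mod_cast hm
  have hρ0 : 0 < ‖α i‖ := by
    have : 1 / (200 * (m : ℝ)) ≤ 1 / 200 := by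
      rw [div_le_div_iff₀ (by positivity) (by norm_num)]; linarith
    linarith
  by_cases hs : |(α i).im| ≤ ‖α i‖ / (8 * m)
  · obtain ⟨j, hj⟩ := hconj i
    have hij : j ≠ i := by
      rintro rfl
      exact hi (Complex.conj_eq_iff_im.1 hj.symm)
    rcases le_total 0 (α i).re with h0 | h0
    · exact zf_re_small m hm hι α hα hij hj (ε := 1) (Or.inl rfl) (by rw [one_mul, abs_of_nonneg h0])
        (hpos 1 (Or.inl rfl)) hδ hs
    · exact zf_re_small m hm hι α hα hij hj (ε := -1) (Or.inr rfl)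
        (by rw [neg_one_mul, abs_of_nonpos h0]) (hpos (-1) (Or.inr rfl)) hδ hs
  · have hs := not_le.1 hs
    have hne : (‖α i‖ : ℂ) ≠ 0 := by exact_mod_cast hρ0.ne'
    have hz : ‖conj (α i) / (‖α i‖ : ℂ)‖ = 1 := by
      rw [norm_div, Complex.norm_conj, Complex.norm_real, norm_norm, div_self hρ0.ne']
    refine zf_re_large m hm hι α hα (i := i) (z := conj (α i) / (‖α i‖ : ℂ)) hz ?_
      (h341 _ hz) hδ ?_
    · rw [← mul_div_assoc, Complex.mul_conj, Complex.normSq_eq_norm_sq]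
      push_cast
      field_simp
    · have h1 : (conj (α i) / (‖α i‖ : ℂ)).im = -((α i).im / ‖α i‖) := by
        rw [Complex.div_ofReal_im, Complex.conj_im, neg_div]
      rw [h1, abs_neg, abs_div, abs_norm, lt_div_iff₀ hρ0]
      calc 1 / (8 * (m : ℝ)) * ‖α i‖ = ‖α i‖ / (8 * m) := by ring
        _ < _ := hs

end Pool.Agent.H81.FF
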