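import Pool.Agent.H81.FF.Pos

/-! # FF-D19d Landau repulsion, analytic part  (MP_a1f59e_nt, project FF, block D)

Use `pos_abel`, `half` (file Pos). All terms but the special ones by `half`: each contributes at most `1/2`.
`1 - (1 - δ₁) r ≤ δ₁ + η`, `r = 1 - η`.
* `landau_ne`: two special terms `ε₁ α i = 1 - δ₁`, `ε₂ β j = 1 - δ₂`: `2/(δ+η) ≤ 1/η + m`, `δ = max`, `η = 1/(2m)`.
* `landau_eq`: same with the extra `(-1)^n` (its contribution `Re (1/(1+r)) - 1 ≤ 0`) and `E = m`: `2/(δ+η) ≤ 1/η + 2m`,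
  `η = 1/(4m)`: `δ ≥ 1/(12 m)`.
-/

set_option autoImplicit false

namespace Pool.Agent.H81.FF

open Finset
open scoped ComplexConjugate

/-- One term: at least `1/2`. -/
private theorem posc_half {x : ℂ} (hx : ‖x‖ ≤ 1) {r : ℝ} (hr0 : 0 < r) (hr1 : r < 1) :
    1 / 2 ≤ (1 / (1 - x * r)).re := by
  apply half
  rw [norm_mul, Complex.norm_real, Real.norm_eq_abs, abs_of_pos hr0]
  calc ‖x‖ * r ≤ 1 * r := mul_le_mul_of_nonneg_right hx hr0.le
    _ < 1 := by linarith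

/-- The special term. -/
private theorem posc_special {δ δ' η : ℝ} (hd : δ' ≤ δ) (h0 : 0 ≤ δ') (hη0 : 0 < η) (hη1 : η < 1) :
    1 / (δ + η) ≤ (1 / (1 - (((1 - δ' : ℝ)) : ℂ) * ((1 - η : ℝ) : ℂ))).re := by
  have h1 : (1 / (1 - (((1 - δ' : ℝ)) : ℂ) * ((1 - η : ℝ) : ℂ))) =
      (((1 / (1 - (1 - δ') * (1 - η)) : ℝ)) : ℂ) := by
    push_cast
    rfl
  rw [h1, Complex.ofReal_re]
  have h2 : 0 < 1 - (1 - δ') * (1 - η) := by nlinarith
  apply one_div_le_one_div_of_le h2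
  nlinarith

/-- A sum of terms `≥ 1/2` with one special term. -/
private theorem posc_sum {ι : Type} [Fintype ι] (f : ι → ℝ) (hf : ∀ i, 1 / 2 ≤ f i) (i : ι) {A : ℝ}
    (hA : A ≤ f i) : A - 1 / 2 ≤ ∑ k, (f k - 1 / 2) := by
  have h1 : f i - 1 / 2 ≤ ∑ k, (f k - 1 / 2) :=
    Finset.single_le_sum (f := fun k => f k - 1 / 2) (fun k _ => by linarith [hf k]) (Finset.mem_univ i)
  linarith

private theorem posc_sum0 {ι : Type} [Fintype ι] (f : ι → ℝ) (hf : ∀ i, 1 / 2 ≤ f i) :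
    0 ≤ ∑ k, (f k - 1 / 2) :=
  Finset.sum_nonneg (fun k _ => by linarith [hf k])

/-- `ε^n Re (x^n) = Re ((ε x)^n)`. -/
private theorem posc_pow (ε : ℝ) (x : ℂ) (n : ℕ) : (((ε : ℂ) * x) ^ n).re = ε ^ n * (x ^ n).re := by
  rw [mul_pow, ← Complex.ofReal_pow, Complex.re_ofReal_mul]

private theorem posc_norm {ε : ℝ} (h : ε = 1 ∨ ε = -1) {x : ℂ} (hx : ‖x‖ ≤ 1) : ‖(ε : ℂ) * x‖ ≤ 1 := by
  rcases h with h | h <;> · rw [h]; simpa using hx

theorem landau_ne (m : ℕ) {ι κ ρ : Type} [Fintype ι] [Fintype κ] [Fintype ρ]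
    (hm : Fintype.card ι + Fintype.card κ + Fintype.card ρ ≤ m) (α : ι → ℂ) (β : κ → ℂ) (γ : ρ → ℂ)
    (hα : ∀ i, ‖α i‖ ≤ 1) (hβ : ∀ i, ‖β i‖ ≤ 1) (hγ : ∀ i, ‖γ i‖ ≤ 1) {ε₁ ε₂ : ℝ}
    (h1 : ε₁ = 1 ∨ ε₁ = -1) (h2 : ε₂ = 1 ∨ ε₂ = -1)
    (h : ∀ n : ℕ, 1 ≤ n → 0 ≤ 1 - ε₁ ^ n * (∑ i, α i ^ n).re - ε₂ ^ n * (∑ i, β i ^ n).re -
      (ε₁ * ε₂) ^ n * (∑ i, γ i ^ n).re) (i : ι) (j : κ) (δ : ℝ) (hδ : 0 ≤ δ)
    {δ₁ δ₂ : ℝ} (hd1 : δ₁ ≤ δ) (hd2 : δ₂ ≤ δ) (h01 : 0 ≤ δ₁) (h02 : 0 ≤ δ₂)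
    (hi : α i = (ε₁ * (1 - δ₁) : ℝ)) (hj : β j = (ε₂ * (1 - δ₂) : ℝ)) : 1 / (12 * m) ≤ δ := by
  classical
  have h12 : ε₁ * ε₂ = 1 ∨ ε₁ * ε₂ = -1 := by
    rcases h1 with h1 | h1 <;> rcases h2 with h2 | h2 <;> simp [h1, h2]
  have hci : 1 ≤ Fintype.card ι := Fintype.card_pos_iff.2 ⟨i⟩
  have hck : 1 ≤ Fintype.card κ := Fintype.card_pos_iff.2 ⟨j⟩
  have hm2 : 2 ≤ m := by omega
  have hm2' : (2 : ℝ) ≤ m := by exact_mod_cast hm2
  have hmpos : (0 : ℝ) < m := by linarith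
  set η : ℝ := 1 / (2 * m) with hη
  have hη0 : 0 < η := by rw [hη]; positivity
  have hη1 : η < 1 := by
    rw [hη, div_lt_one (by positivity)]
    linarith
  let K : Finset (Option (ι ⊕ κ ⊕ ρ)) := Finset.univ
  let c : Option (ι ⊕ κ ⊕ ρ) → ℝ := fun o => match o with
    | none => 1
    | some _ => -1
  let x : Option (ι ⊕ κ ⊕ ρ) → ℂ := fun o => match o with
    | none => 1
    | some (Sum.inl a) => (ε₁ : ℂ) * α a
    | some (Sum.inr (Sum.inl b)) => (ε₂ : ℂ) * β b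
    | some (Sum.inr (Sum.inr g)) => ((ε₁ * ε₂ : ℝ) : ℂ) * γ g
  have hx : ∀ k ∈ K, ‖x k‖ ≤ 1 := by
    intro k _
    rcases k with _ | a | b | g
    · simp [x]
    · exact posc_norm h1 (hα a)
    · exact posc_norm h2 (hβ b)
    · exact posc_norm h12 (hγ g)
  have hmain := pos_abel K c x hx 0 le_rfl (by
    intro n hn
    have := h n hn
    simp only [K, c, x, Fintype.sum_option, Fintype.sum_sum_type, posc_pow, one_pow, Complex.one_re,
      one_mul, ← Finset.mul_sum, zero_mul, add_zero, Complex.re_sum] at this ⊢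
    simp only [neg_mul, one_mul, Finset.sum_neg_distrib, ← Finset.mul_sum]
    linarith) (r := 1 - η) (by linarith) (by linarith)
  simp only [K, c, x, Fintype.sum_option, Fintype.sum_sum_type, add_zero] at hmain
  -- the three groups
  have gα := posc_sum (fun a => (1 / (1 - ((ε₁ : ℂ) * α a) * ((1 - η : ℝ) : ℂ))).re)
    (fun a => posc_half (posc_norm h1 (hα a)) (by linarith) (by linarith)) i (A := 1 / (δ + η)) (by
      have : (ε₁ : ℂ) * α i = (((1 - δ₁ : ℝ)) : ℂ) := by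
        rw [hi, ← Complex.ofReal_mul]
        congr 1
        rcases h1 with h1 | h1 <;> rw [h1] <;> ring
      simp only [this]
      exact posc_special hd1 h01 hη0 hη1)
  have gβ := posc_sum (fun a => (1 / (1 - ((ε₂ : ℂ) * β a) * ((1 - η : ℝ) : ℂ))).re)
    (fun a => posc_half (posc_norm h2 (hβ a)) (by linarith) (by linarith)) j (A := 1 / (δ + η)) (by
      have : (ε₂ : ℂ) * β j = (((1 - δ₂ : ℝ)) : ℂ) := by
        rw [hj, ← Complex.ofReal_mul]
        congr 1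
        rcases h2 with h2 | h2 <;> rw [h2] <;> ring
      simp only [this]
      exact posc_special hd2 h02 hη0 hη1)
  have gγ := posc_sum0 (fun a => (1 / (1 - (((ε₁ * ε₂ : ℝ) : ℂ) * γ a) * ((1 - η : ℝ) : ℂ))).re)
    (fun a => posc_half (posc_norm h12 (hγ a)) (by linarith) (by linarith))
  have hone : (1 / (1 - (1 : ℂ) * ((1 - η : ℝ) : ℂ))).re = 1 / η := by
    have : (1 / (1 - (1 : ℂ) * ((1 - η : ℝ) : ℂ))) = ((1 / η : ℝ) : ℂ) := by
      push_cast
      ring_nf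
    rw [this, Complex.ofReal_re]
  rw [hone] at hmain
  simp only [Finset.sum_sub_distrib, Finset.sum_const, Finset.card_univ, nsmul_eq_mul, neg_mul, one_mul,
    Finset.sum_neg_distrib, mul_one] at hmain gα gβ gγ
  have hmR : (Fintype.card ι : ℝ) + Fintype.card κ + Fintype.card ρ ≤ m := by exact_mod_cast hm
  have hη2 : 1 / η = 2 * m := by rw [hη, one_div_one_div]
  have hfin : 2 * (1 / (δ + η)) ≤ 5 * m / 2 := by
    rw [hη2] at hmain
    linarith
  have hpos : 0 < δ + η := by linarith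
  have h5 : 4 / (5 * m) ≤ δ + η := by
    rw [div_le_iff₀ (by positivity)]
    have h6 : 2 * (1 / (δ + η)) * (δ + η) ≤ 5 * m / 2 * (δ + η) :=
      mul_le_mul_of_nonneg_right hfin hpos.le
    have h7 : 2 * (1 / (δ + η)) * (δ + η) = 2 := by field_simp
    nlinarith
  have h8 : (1 : ℝ) / (12 * m) ≤ 4 / (5 * m) - 1 / (2 * m) := by
    rw [div_sub_div _ _ (by positivity) (by positivity), div_le_div_iff₀ (by positivity) (by positivity)]
    nlinarith
  linarith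

theorem landau_eq (m : ℕ) {ι κ : Type} [Fintype ι] [Fintype κ]
    (hm : Fintype.card ι + Fintype.card κ ≤ m) (α : ι → ℂ) (β : κ → ℂ)
    (hα : ∀ i, ‖α i‖ ≤ 1) (hβ : ∀ i, ‖β i‖ ≤ 1) {ε₁ ε₂ : ℝ}
    (h1 : ε₁ = 1 ∨ ε₁ = -1) (h2 : ε₂ = 1 ∨ ε₂ = -1)
    (h : ∀ n : ℕ, 1 ≤ n → 0 ≤ 1 - ε₁ ^ n * (∑ i, α i ^ n).re - ε₂ ^ n * (∑ i, β i ^ n).re +
      (-1) ^ n + m * (1 / 2) ^ n) (i : ι) (j : κ) (δ : ℝ) (hδ : 0 ≤ δ)
    {δ₁ δ₂ : ℝ} (hd1 : δ₁ ≤ δ) (hd2 : δ₂ ≤ δ) (h01 : 0 ≤ δ₁) (h02 : 0 ≤ δ₂)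
    (hi : α i = (ε₁ * (1 - δ₁) : ℝ)) (hj : β j = (ε₂ * (1 - δ₂) : ℝ)) : 1 / (12 * m) ≤ δ := by
  classical
  have hci : 1 ≤ Fintype.card ι := Fintype.card_pos_iff.2 ⟨i⟩
  have hck : 1 ≤ Fintype.card κ := Fintype.card_pos_iff.2 ⟨j⟩
  have hm2 : 2 ≤ m := by omega
  have hm2' : (2 : ℝ) ≤ m := by exact_mod_cast hm2
  have hmpos : (0 : ℝ) < m := by linarith
  set η : ℝ := 1 / (4 * m) with hη
  have hη0 : 0 < η := by rw [hη]; positivity
  have hη1 : η < 1 := by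
    rw [hη, div_lt_one (by positivity)]
    linarith
  let K : Finset (Option (Option (ι ⊕ κ))) := Finset.univ
  let c : Option (Option (ι ⊕ κ)) → ℝ := fun o => match o with
    | none => 1
    | some none => 1
    | some (some _) => -1
  let x : Option (Option (ι ⊕ κ)) → ℂ := fun o => match o with
    | none => 1
    | some none => -1
    | some (some (Sum.inl a)) => (ε₁ : ℂ) * α a
    | some (some (Sum.inr b)) => (ε₂ : ℂ) * β b
  have hx : ∀ k ∈ K, ‖x k‖ ≤ 1 := by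
    intro k _
    rcases k with _ | _ | a | b
    · simp [x]
    · simp [x]
    · exact posc_norm h1 (hα a)
    · exact posc_norm h2 (hβ b)
  have hmain := pos_abel K c x hx m hmpos.le (by
    intro n hn
    have := h n hn
    have hneg : (((-1 : ℂ)) ^ n).re = (-1 : ℝ) ^ n := by
      have := posc_pow (-1) 1 n
      simpa using this
    simp only [K, c, x, Fintype.sum_option, Fintype.sum_sum_type, posc_pow, one_pow, Complex.one_re,
      one_mul, ← Finset.mul_sum, hneg, Complex.re_sum] at this ⊢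
    simp only [neg_mul, one_mul, Finset.sum_neg_distrib, ← Finset.mul_sum]
    linarith) (r := 1 - η) (by linarith) (by linarith)
  simp only [K, c, x, Fintype.sum_option, Fintype.sum_sum_type] at hmain
  -- the groups
  have gα := posc_sum (fun a => (1 / (1 - ((ε₁ : ℂ) * α a) * ((1 - η : ℝ) : ℂ))).re)
    (fun a => posc_half (posc_norm h1 (hα a)) (by linarith) (by linarith)) i (A := 1 / (δ + η)) (by
      have : (ε₁ : ℂ) * α i = (((1 - δ₁ : ℝ)) : ℂ) := by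
        rw [hi, ← Complex.ofReal_mul]
        congr 1
        rcases h1 with h1 | h1 <;> rw [h1] <;> ring
      simp only [this]
      exact posc_special hd1 h01 hη0 hη1)
  have gβ := posc_sum (fun a => (1 / (1 - ((ε₂ : ℂ) * β a) * ((1 - η : ℝ) : ℂ))).re)
    (fun a => posc_half (posc_norm h2 (hβ a)) (by linarith) (by linarith)) j (A := 1 / (δ + η)) (by
      have : (ε₂ : ℂ) * β j = (((1 - δ₂ : ℝ)) : ℂ) := by
        rw [hj, ← Complex.ofReal_mul]
        congr 1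
        rcases h2 with h2 | h2 <;> rw [h2] <;> ring
      simp only [this]
      exact posc_special hd2 h02 hη0 hη1)
  have hone : (1 / (1 - (1 : ℂ) * ((1 - η : ℝ) : ℂ))).re = 1 / η := by
    have : (1 / (1 - (1 : ℂ) * ((1 - η : ℝ) : ℂ))) = ((1 / η : ℝ) : ℂ) := by
      push_cast
      ring_nf
    rw [this, Complex.ofReal_re]
  have hmone : (1 / (1 - (-1 : ℂ) * ((1 - η : ℝ) : ℂ))).re ≤ 1 := by
    have : (1 / (1 - (-1 : ℂ) * ((1 - η : ℝ) : ℂ))) = ((1 / (1 + (1 - η)) : ℝ) : ℂ) := by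
      push_cast
      ring_nf
    rw [this, Complex.ofReal_re, div_le_one (by linarith)]
    linarith
  rw [hone] at hmain
  simp only [Finset.sum_sub_distrib, Finset.sum_const, Finset.card_univ, nsmul_eq_mul, neg_mul, one_mul,
    Finset.sum_neg_distrib, mul_one] at hmain gα gβ hmone
  have hmR : (Fintype.card ι : ℝ) + Fintype.card κ ≤ m := by exact_mod_cast hm
  have hη2 : 1 / η = 4 * m := by rw [hη, one_div_one_div]
  have hfin : 2 * (1 / (δ + η)) ≤ 11 * m / 2 := by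
    rw [hη2] at hmain
    linarith
  have hpos : 0 < δ + η := by linarith
  have h5 : 4 / (11 * m) ≤ δ + η := by
    rw [div_le_iff₀ (by positivity)]
    have h6 : 2 * (1 / (δ + η)) * (δ + η) ≤ 11 * m / 2 * (δ + η) :=
      mul_le_mul_of_nonneg_right hfin hpos.le
    have h7 : 2 * (1 / (δ + η)) * (δ + η) = 2 := by field_simp
    nlinarith
  have h8 : (1 : ℝ) / (12 * m) ≤ 4 / (11 * m) - 1 / (4 * m) := by
    rw [div_sub_div _ _ (by positivity) (by positivity), div_le_div_iff₀ (by positivity) (by positivity)]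
    nlinarith
  linarith

end Pool.Agent.H81.FF
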