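import Pool.Agent.H81.FF.Char2

/-! # FF-D04 Primitive characters as products  (MP_a1f59e_nt, project FF, block D)

`prs E` = functions `f ↦ ∏ P ∈ E, χ_P f` with `χ_P` nonprincipal mod `P`.
* `prs_isCh`: induction on `E` with `IsCh.mul_ch` and `Finset.pi_insert` (or directly).
* `prs_prim`: take `g` with `¬ P ∣ g`, `χ_P g ≠ 1` (`NP P χ_P`), and `u` with `u ≡ g mod P`, `u ≡ 1` mod the other primes
  of `E` (`crt_pp`). Then `χ u = χ_P g`.
* the product map is injective on tuples: for a tuple `t` and `P ∈ E`, `¬ P ∣ f`, choose `u ≡ f mod P`, `u ≡ 1` mod the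
  others; the value of the product at `u` is `t P f`; if `P ∣ f` then `t P f = 0`.
* `sum_prs_insert`: injectivity and `Finset.pi_insert` (or `Finset.sum_bij`).
* `card_prs_le`: `#(ch1 P) ≤ #(chs P) = q ^ deg P - 1`.
-/

set_option autoImplicit false

namespace Pool.Agent.H81.FF

open Polynomial Finset Pool.Agent.H10.FF
open scoped Classical ComplexConjugate

variable {F : Type} [Field F] [Fintype F]

omit [Fintype F] in
theorem prs_mem {E : Finset F[X]} {χ : F[X] → ℂ} :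
    χ ∈ prs E ↔ ∃ T : F[X] → F[X] → ℂ, (∀ P ∈ E, T P ∈ ch1 P) ∧ χ = fun f => ∏ P ∈ E, T P f := by
  unfold prs
  rw [Finset.mem_image]
  constructor
  · rintro ⟨t, ht, rfl⟩
    rw [Finset.mem_pi] at ht
    refine ⟨fun P => if h : P ∈ E then t P h else fun _ => 1, ?_, ?_⟩
    · intro P hP
      simp only [dif_pos hP]
      exact ht P hP
    · funext f
      rw [← Finset.prod_attach E]
      refine Finset.prod_congr rfl fun P _ => ?_
      simp only [dif_pos P.2]
  · rintro ⟨T, hT, rfl⟩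
    refine ⟨fun P _ => T P, ?_, ?_⟩
    · rw [Finset.mem_pi]
      exact hT
    · funext f
      exact Finset.prod_attach E (fun P => T P f)

theorem prs_mem_ch1 {P : F[X]} (hP : P.Monic) {ψ : F[X] → ℂ} :
    ψ ∈ ch1 P ↔ IsCh P ψ ∧ NP P ψ := by
  rw [ch1, Finset.mem_filter, mem_chs hP]

theorem prs_prod_isCh {E : Finset F[X]} (hE : IsPr E) {T : F[X] → F[X] → ℂ}
    (hT : ∀ P ∈ E, IsCh P (T P)) : IsCh (pp E) (fun f => ∏ P ∈ E, T P f) where
  one := Finset.prod_eq_one fun P hP => (hT P hP).one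
  mul f g := by
    rw [← Finset.prod_mul_distrib]
    exact Finset.prod_congr rfl fun P hP => (hT P hP).mul f g
  per f g h := Finset.prod_congr rfl fun P hP => (hT P hP).per f g ((pp_dvd hE).1 h P hP)
  supp f := by
    rw [Finset.prod_ne_zero_iff, pp, IsCoprime.prod_right_iff]
    constructor
    · intro h P hP
      exact ((hT P hP).supp f).1 (h P hP)
    · intro h P hP
      exact ((hT P hP).supp f).2 (h P hP)

theorem prs_val {E : Finset F[X]} (hE : IsPr E) {P : F[X]} (hP : P ∈ E) (f : F[X]) :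
    ∃ u, P ∣ u - f ∧ (∀ Q ∈ E, Q ≠ P → Q ∣ u - 1) ∧
      ∀ T : F[X] → F[X] → ℂ, (∀ Q ∈ E, IsCh Q (T Q)) → ∏ Q ∈ E, T Q u = T P f := by
  obtain ⟨u, hu⟩ := crt_pp hE (fun Q => if Q = P then f else 1)
  have h1 : P ∣ u - f := by
    have := hu P hP
    rwa [if_pos rfl] at this
  have h2 : ∀ Q ∈ E, Q ≠ P → Q ∣ u - 1 := by
    intro Q hQ hne
    have := hu Q hQ
    rwa [if_neg hne] at this
  refine ⟨u, h1, h2, fun T hT => ?_⟩
  rw [Finset.prod_eq_single P]
  · exact (hT P hP).per u f h1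
  · intro Q hQ hne
    rw [(hT Q hQ).per u 1 (h2 Q hQ hne), (hT Q hQ).one]
  · intro h
    exact absurd hP h

theorem prs_inj {E : Finset F[X]} (hE : IsPr E) {T T' : F[X] → F[X] → ℂ}
    (hT : ∀ Q ∈ E, IsCh Q (T Q)) (hT' : ∀ Q ∈ E, IsCh Q (T' Q))
    (h : (fun f => ∏ Q ∈ E, T Q f) = fun f => ∏ Q ∈ E, T' Q f) : ∀ P ∈ E, T P = T' P := by
  intro P hP
  funext f
  obtain ⟨u, _, _, hu⟩ := prs_val hE hP f
  rw [← hu T hT, ← hu T' hT']
  exact congrFun h u

theorem prs_empty : prs (∅ : Finset F[X]) = {fun _ => 1} := by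
  ext χ
  rw [prs_mem, Finset.mem_singleton]
  constructor
  · rintro ⟨T, _, rfl⟩
    funext f
    exact Finset.prod_empty
  · rintro rfl
    refine ⟨fun _ _ => 1, fun P hP => absurd hP (Finset.notMem_empty P), ?_⟩
    funext f
    exact Finset.prod_empty.symm

theorem prs_isCh {E : Finset F[X]} (hE : IsPr E) {χ : F[X] → ℂ} (h : χ ∈ prs E) : IsCh (pp E) χ := by
  obtain ⟨T, hT, rfl⟩ := prs_mem.1 h
  exact prs_prod_isCh hE fun P hP => ((prs_mem_ch1 (hE P hP).1).1 (hT P hP)).1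

theorem prs_prim {E : Finset F[X]} (hE : IsPr E) {χ : F[X] → ℂ} (h : χ ∈ prs E) {P : F[X]} (hP : P ∈ E) :
    ∃ u, IsCoprime u (pp E) ∧ pp (E.erase P) ∣ u - 1 ∧ χ u ≠ 1 := by
  obtain ⟨T, hT, rfl⟩ := prs_mem.1 h
  have hT1 : ∀ Q ∈ E, IsCh Q (T Q) := fun Q hQ => ((prs_mem_ch1 (hE Q hQ).1).1 (hT Q hQ)).1
  obtain ⟨g, hg, hg1⟩ := ((prs_mem_ch1 (hE P hP).1).1 (hT P hP)).2
  obtain ⟨u, hu1, hu2, hu3⟩ := prs_val hE hP g
  refine ⟨u, (coprime_pp hE).2 ?_, ?_, ?_⟩
  · intro Q hQ hQu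
    by_cases hne : Q = P
    · subst hne
      have h1 : Q ∣ g := by
        have := dvd_sub hQu hu1
        rwa [sub_sub_cancel] at this
      have h2 : Q ∣ 1 := by
        obtain ⟨a, b, hab⟩ := hg
        rw [← hab]
        exact dvd_add (dvd_mul_of_dvd_right h1 a) (dvd_mul_left Q b)
      exact (hE Q hQ).2.not_isUnit (isUnit_of_dvd_one h2)
    · have h2 : Q ∣ 1 := by
        have := dvd_sub hQu (hu2 Q hQ hne)
        rwa [sub_sub_cancel] at this
      exact (hE Q hQ).2.not_isUnit (isUnit_of_dvd_one h2)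
  · have hE' : IsPr (E.erase P) := fun Q hQ => hE Q (Finset.mem_of_mem_erase hQ)
    rw [pp_dvd hE']
    intro Q hQ
    exact hu2 Q (Finset.mem_of_mem_erase hQ) (Finset.ne_of_mem_erase hQ)
  · change ∏ Q ∈ E, T Q u ≠ 1
    rw [hu3 T hT1]
    exact hg1

theorem prs_NP {E : Finset F[X]} (hE : IsPr E) (hne : E.Nonempty) {χ : F[X] → ℂ} (h : χ ∈ prs E) :
    NP (pp E) χ := by
  obtain ⟨P, hP⟩ := hne
  obtain ⟨u, hu, _, hu1⟩ := prs_prim hE h hP
  exact ⟨u, hu, hu1⟩

theorem sum_prs_insert {E : Finset F[X]} (hE : IsPr E) {P : F[X]} (hP : P.Monic ∧ Irreducible P)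
    (hPE : P ∉ E) {α : Type} [AddCommMonoid α] (G : (F[X] → ℂ) → α) :
    ∑ χ ∈ prs (insert P E), G χ = ∑ χ ∈ prs E, ∑ ψ ∈ ch1 P, G (fun f => χ f * ψ f) := by
  have hE' : IsPr (insert P E) := by
    intro Q hQ
    rcases Finset.mem_insert.1 hQ with rfl | h
    · exact hP
    · exact hE Q h
  -- products of updated tuples
  have hup : ∀ (T : F[X] → F[X] → ℂ) (ψ : F[X] → ℂ),
      (fun f => ∏ Q ∈ insert P E, Function.update T P ψ Q f) =
        fun f => (∏ Q ∈ E, T Q f) * ψ f := by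
    intro T ψ
    funext f
    rw [Finset.prod_insert hPE, Function.update_self, mul_comm]
    congr 1
    refine Finset.prod_congr rfl fun Q hQ => ?_
    rw [Function.update_of_ne]
    rintro rfl
    exact hPE hQ
  have himg : prs (insert P E) =
      (prs E ×ˢ ch1 P).image (fun q : (F[X] → ℂ) × (F[X] → ℂ) => fun f => q.1 f * q.2 f) := by
    ext χ
    rw [prs_mem, Finset.mem_image]
    constructor
    · rintro ⟨T, hT, rfl⟩
      refine ⟨(fun f => ∏ Q ∈ E, T Q f, T P), ?_, ?_⟩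
      · rw [Finset.mem_product]
        exact ⟨prs_mem.2 ⟨T, fun Q hQ => hT Q (Finset.mem_insert_of_mem hQ), rfl⟩,
          hT P (Finset.mem_insert_self P E)⟩
      · funext f
        change (∏ Q ∈ E, T Q f) * T P f = _
        rw [Finset.prod_insert hPE, mul_comm]
    · rintro ⟨⟨χ', ψ⟩, hq, rfl⟩
      rw [Finset.mem_product] at hq
      obtain ⟨T, hT, hχ⟩ := prs_mem.1 hq.1
      refine ⟨Function.update T P ψ, ?_, ?_⟩
      · intro Q hQ
        by_cases hQP : Q = P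
        · subst hQP
          rw [Function.update_self]
          exact hq.2
        · rw [Function.update_of_ne hQP]
          exact hT Q ((Finset.mem_insert.1 hQ).resolve_left hQP)
      · rw [hup]
        funext f
        change χ' f * ψ f = _
        rw [show χ' = _ from hχ]
  rw [himg, Finset.sum_image, Finset.sum_product]
  rintro ⟨χ₁, ψ₁⟩ h₁ ⟨χ₂, ψ₂⟩ h₂ he
  rw [Finset.mem_coe, Finset.mem_product] at h₁ h₂
  obtain ⟨T₁, hT₁, hχ₁⟩ := prs_mem.1 h₁.1
  obtain ⟨T₂, hT₂, hχ₂⟩ := prs_mem.1 h₂.1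
  have hch : ∀ (T : F[X] → F[X] → ℂ) (ψ : F[X] → ℂ), (∀ Q ∈ E, T Q ∈ ch1 Q) → ψ ∈ ch1 P →
      ∀ Q ∈ insert P E, IsCh Q (Function.update T P ψ Q) := by
    intro T ψ hT hψ Q hQ
    by_cases hQP : Q = P
    · subst hQP
      rw [Function.update_self]
      exact ((prs_mem_ch1 hP.1).1 hψ).1
    · rw [Function.update_of_ne hQP]
      have hQE := (Finset.mem_insert.1 hQ).resolve_left hQP
      exact ((prs_mem_ch1 (hE Q hQE).1).1 (hT Q hQE)).1
  have hall := prs_inj hE' (hch T₁ ψ₁ hT₁ h₁.2) (hch T₂ ψ₂ hT₂ h₂.2) (by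
    rw [hup, hup]
    have hχ₁' : χ₁ = _ := hχ₁
    have hχ₂' : χ₂ = _ := hχ₂
    rw [hχ₁', hχ₂'] at he
    exact he)
  have hψ : ψ₁ = ψ₂ := by
    have := hall P (Finset.mem_insert_self P E)
    rwa [Function.update_self, Function.update_self] at this
  have hTT : ∀ Q ∈ E, T₁ Q = T₂ Q := by
    intro Q hQ
    have := hall Q (Finset.mem_insert_of_mem hQ)
    have hQP : Q ≠ P := by
      rintro rfl
      exact hPE hQ
    rwa [Function.update_of_ne hQP, Function.update_of_ne hQP] at this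
  have hχ : χ₁ = χ₂ := by
    rw [show χ₁ = _ from hχ₁, show χ₂ = _ from hχ₂]
    funext f
    exact Finset.prod_congr rfl fun Q hQ => by rw [hTT Q hQ]
  rw [hχ, hψ]

theorem card_prs_le {E : Finset F[X]} (hE : IsPr E) : ((prs E).card : ℝ) ≤ phi E := by
  have h1 : (prs E).card ≤ ∏ P ∈ E, (ch1 P).card := by
    unfold prs
    refine Finset.card_image_le.trans ?_
    rw [Finset.card_pi]
  have h2 : ∀ P ∈ E, ((ch1 P).card : ℝ) ≤ nrm P - 1 := by
    intro P hP
    have h3 : (ch1 P).card ≤ Fintype.card F ^ P.natDegree - 1 := by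
      rw [← card_chs_prime (hE P hP).1 (hE P hP).2]
      exact Finset.card_filter_le _ _
    have h4 : 1 ≤ Fintype.card F ^ P.natDegree := Nat.one_le_pow _ _ Fintype.card_pos
    have h5 : (((Fintype.card F ^ P.natDegree - 1 : ℕ)) : ℝ) = nrm P - 1 := by
      rw [Nat.cast_sub h4, nrm]
      push_cast
      ring
    rw [← h5]
    exact_mod_cast h3
  calc ((prs E).card : ℝ) ≤ ((∏ P ∈ E, (ch1 P).card : ℕ) : ℝ) := by exact_mod_cast h1
    _ = ∏ P ∈ E, ((ch1 P).card : ℝ) := by push_cast; rfl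
    _ ≤ ∏ P ∈ E, (nrm P - 1) := Finset.prod_le_prod (fun P _ => Nat.cast_nonneg _) h2
    _ = phi E := rfl

end Pool.Agent.H81.FF
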