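import Pool.Agent.H81.FF.ZF
import Pool.Agent.H81.FF.PosC

/-! # FF-D21 Repulsion of real zeros  (MP_a1f59e_nt, project FF, block D)

`1 + x + y + x y ≥ 0` for `x, y ∈ {0, 1, -1}`, `x = ε₁^n χ₁(P)^k`, `y = ε₂^n χ₂(P)^k`, `n = k j`, `j = deg P`, weights `j`:
`0 ≤ q^n + ε₁^n Ps χ₁ n + ε₂^n Ps χ₂ n + (ε₁ε₂)^n Ps (χ₁χ₂) n` (`sum_irrs`). Divide by `q^n`, roots `α/q`. If
`NP (d₁ d₂) (χ₁χ₂)`: `landau_ne` with `m = 2 (deg d₁ + deg d₂)` (`IsCh.mul_ch`, `exists_roots`, the number of roots is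
`(deg d₁ - 1) + (deg d₂ - 1) + (deg d₁ + deg d₂ - 1) ≤ m`). Otherwise `ε₁ ε₂ = -1` and `Ps (χ₁χ₂) n = q^n - e`,
`0 ≤ e ≤ deg d₁ + deg d₂` (`Ps_principal`), `q ≥ 2`: `landau_eq` with the same `m`.
-/

set_option autoImplicit false

namespace Pool.Agent.H81.FF

open Polynomial Finset Pool.Agent.H10.FF
open scoped Classical

variable {F : Type} [Field F] [Fintype F]

private theorem repel_re {χ : F[X] → ℂ} (hR : Rl χ) (f : F[X]) (k : ℕ) :
    (χ f ^ k).im = 0 ∧ ((χ f ^ k).re = 0 ∨ (χ f ^ k).re = 1 ∨ (χ f ^ k).re = -1) := by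
  rcases hR f with h | h | h
  · rcases Nat.eq_zero_or_pos k with hk | hk
    · subst hk
      rw [pow_zero]
      exact ⟨Complex.one_im, Or.inr (Or.inl Complex.one_re)⟩
    · rw [h, zero_pow hk.ne']
      exact ⟨Complex.zero_im, Or.inl Complex.zero_re⟩
  · rw [h, one_pow]
    exact ⟨Complex.one_im, Or.inr (Or.inl Complex.one_re)⟩
  · rw [h]
    rcases Nat.even_or_odd k with hk | hk
    · rw [hk.neg_one_pow]
      exact ⟨Complex.one_im, Or.inr (Or.inl Complex.one_re)⟩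
    · rw [hk.neg_one_pow]
      refine ⟨?_, Or.inr (Or.inr ?_)⟩
      · rw [Complex.neg_im, Complex.one_im, neg_zero]
      · rw [Complex.neg_re, Complex.one_re]

private theorem repel_pm {x : ℝ} (h : x = 1 ∨ x = -1) (n : ℕ) : x ^ n = 1 ∨ x ^ n = -1 := by
  rcases h with h | h
  · rw [h, one_pow]; exact Or.inl rfl
  · rw [h]; exact neg_one_pow_eq_or ℝ n

private theorem repel_Ps_re (χ : F[X] → ℂ) (n : ℕ) :
    (Ps χ n).re = ∑ j ∈ n.divisors, (j : ℝ) * ∑ P ∈ irrs F j, (χ P ^ (n / j)).re := by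
  unfold Ps
  rw [Complex.re_sum]
  refine Finset.sum_congr rfl fun j _ => ?_
  rw [← Complex.ofReal_natCast, Complex.re_ofReal_mul, Complex.re_sum]

private theorem repel_nonneg {χ₁ χ₂ : F[X] → ℂ} (hR₁ : Rl χ₁) (hR₂ : Rl χ₂) {ε₁ ε₂ : ℝ}
    (he₁ : ε₁ = 1 ∨ ε₁ = -1) (he₂ : ε₂ = 1 ∨ ε₂ = -1) {n : ℕ} (hn : 1 ≤ n) :
    0 ≤ (Fintype.card F : ℝ) ^ n + ε₁ ^ n * (Ps χ₁ n).re + ε₂ ^ n * (Ps χ₂ n).re +
      (ε₁ * ε₂) ^ n * (Ps (fun f => χ₁ f * χ₂ f) n).re := by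
  have h1 : (Fintype.card F : ℝ) ^ n = ∑ j ∈ n.divisors, (j : ℝ) * ∑ _P ∈ irrs F j, (1 : ℝ) := by
    have := sum_irrs (F := F) hn
    have h2 : ((∑ j ∈ n.divisors, j * (irrs F j).card : ℕ) : ℝ) = ((Fintype.card F ^ n : ℕ) : ℝ) := by
      rw [this]
    push_cast at h2
    rw [← h2]
    refine Finset.sum_congr rfl fun j _ => ?_
    rw [Finset.sum_const, nsmul_eq_mul, mul_one]
  rw [repel_Ps_re, repel_Ps_re, repel_Ps_re, h1, Finset.mul_sum, Finset.mul_sum, Finset.mul_sum,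
    ← Finset.sum_add_distrib, ← Finset.sum_add_distrib, ← Finset.sum_add_distrib]
  refine Finset.sum_nonneg fun j _ => ?_
  have h3 : (j : ℝ) * ∑ _P ∈ irrs F j, (1 : ℝ) +
      ε₁ ^ n * ((j : ℝ) * ∑ P ∈ irrs F j, (χ₁ P ^ (n / j)).re) +
      ε₂ ^ n * ((j : ℝ) * ∑ P ∈ irrs F j, (χ₂ P ^ (n / j)).re) +
      (ε₁ * ε₂) ^ n * ((j : ℝ) * ∑ P ∈ irrs F j, ((χ₁ P * χ₂ P) ^ (n / j)).re) =
      (j : ℝ) * ∑ P ∈ irrs F j, (1 + ε₁ ^ n * (χ₁ P ^ (n / j)).re) *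
        (1 + ε₂ ^ n * (χ₂ P ^ (n / j)).re) := by
    have h4 : ∀ P ∈ irrs F j, (1 + ε₁ ^ n * (χ₁ P ^ (n / j)).re) *
        (1 + ε₂ ^ n * (χ₂ P ^ (n / j)).re) = 1 + ε₁ ^ n * (χ₁ P ^ (n / j)).re +
        ε₂ ^ n * (χ₂ P ^ (n / j)).re + (ε₁ * ε₂) ^ n * ((χ₁ P * χ₂ P) ^ (n / j)).re := by
      intro P _
      rw [mul_pow (χ₁ P), Complex.mul_re, (repel_re hR₁ P (n / j)).1, zero_mul, sub_zero, mul_pow]
      ring
    rw [Finset.sum_congr rfl h4, Finset.sum_add_distrib, Finset.sum_add_distrib,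
      Finset.sum_add_distrib, ← Finset.mul_sum, ← Finset.mul_sum, ← Finset.mul_sum]
    ring
  rw [h3]
  refine mul_nonneg (Nat.cast_nonneg _) (Finset.sum_nonneg fun P _ => ?_)
  have h5 : ∀ (x : ℝ) (y : ℝ), (x = 1 ∨ x = -1) → (y = 0 ∨ y = 1 ∨ y = -1) → 0 ≤ 1 + x * y := by
    intro x y hx hy
    rcases hx with hx | hx <;> rcases hy with hy | hy | hy <;> rw [hx, hy] <;> norm_num
  exact mul_nonneg (h5 _ _ (repel_pm he₁ n) (repel_re hR₁ P (n / j)).2)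
    (h5 _ _ (repel_pm he₂ n) (repel_re hR₂ P (n / j)).2)

private theorem repel_q : (2 : ℝ) ≤ (Fintype.card F : ℝ) := by
  exact_mod_cast Fintype.one_lt_card

private theorem repel_div {ι : Type} [Fintype ι] (α : ι → ℂ) (n : ℕ) :
    (∑ i, (α i / (Fintype.card F : ℂ)) ^ n).re = (∑ i, α i ^ n).re / (Fintype.card F : ℝ) ^ n := by
  have h1 : ∑ i, (α i / (Fintype.card F : ℂ)) ^ n =
      (∑ i, α i ^ n) / (((Fintype.card F : ℝ) ^ n : ℝ) : ℂ) := by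
    rw [Finset.sum_div]
    refine Finset.sum_congr rfl fun i _ => ?_
    rw [div_pow]
    push_cast
    rfl
  rw [h1, Complex.div_ofReal_re]

private theorem repel_norm {x : ℂ} (h : ‖x‖ ≤ Fintype.card F) : ‖x / (Fintype.card F : ℂ)‖ ≤ 1 := by
  have hq := repel_q (F := F)
  rw [norm_div, Complex.norm_natCast, div_le_one (by linarith)]
  exact h

private theorem repel_val {x : ℂ} {ε δ : ℝ} (h : x = (Fintype.card F * (ε * (1 - δ)) : ℝ)) :
    x / (Fintype.card F : ℂ) = (ε * (1 - δ) : ℝ) := by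
  have hq := repel_q (F := F)
  have h0 : (Fintype.card F : ℂ) ≠ 0 := by
    have : (Fintype.card F : ℝ) ≠ 0 := by linarith
    exact_mod_cast this
  rw [h]
  push_cast
  field_simp

theorem repel {d₁ d₂ : F[X]} (hd₁ : d₁.Monic) (hd₂ : d₂.Monic) {χ₁ χ₂ : F[X] → ℂ} (h₁ : IsCh d₁ χ₁)
    (h₂ : IsCh d₂ χ₂) (hR₁ : Rl χ₁) (hR₂ : Rl χ₂)
    {α : Fin (d₁.natDegree - 1) → ℂ} (hα : IsRoots d₁ χ₁ α)
    {β : Fin (d₂.natDegree - 1) → ℂ} (hβ : IsRoots d₂ χ₂ β) {ε₁ ε₂ : ℝ}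
    (he₁ : ε₁ = 1 ∨ ε₁ = -1) (he₂ : ε₂ = 1 ∨ ε₂ = -1)
    (hne : NP (d₁ * d₂) (fun f => χ₁ f * χ₂ f) ∨ ε₁ * ε₂ = -1)
    (i : Fin (d₁.natDegree - 1)) (j : Fin (d₂.natDegree - 1)) {δ₁ δ₂ δ : ℝ} (h01 : 0 ≤ δ₁) (h02 : 0 ≤ δ₂)
    (hd1 : δ₁ ≤ δ) (hd2 : δ₂ ≤ δ)
    (hi : α i = (Fintype.card F * (ε₁ * (1 - δ₁)) : ℝ)) (hj : β j = (Fintype.card F * (ε₂ * (1 - δ₂)) : ℝ)) :
    1 / (24 * ((d₁.natDegree : ℝ) + d₂.natDegree)) ≤ δ := by
  have hq := repel_q (F := F)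
  have hδ : 0 ≤ δ := h01.trans hd1
  have hdeg : (d₁ * d₂).natDegree = d₁.natDegree + d₂.natDegree := hd₁.natDegree_mul hd₂
  have h12 : IsCh (d₁ * d₂) (fun f => χ₁ f * χ₂ f) := h₁.mul_ch h₂
  have hqn : ∀ n : ℕ, (0 : ℝ) < (Fintype.card F : ℝ) ^ n := fun n => pow_pos (by linarith) n
  have hPs1 : ∀ n : ℕ, 1 ≤ n → (Ps χ₁ n).re = -(∑ i, α i ^ n).re := fun n hn => by
    rw [hα.psum n hn, Complex.neg_re]
  have hPs2 : ∀ n : ℕ, 1 ≤ n → (Ps χ₂ n).re = -(∑ i, β i ^ n).re := fun n hn => by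
    rw [hβ.psum n hn, Complex.neg_re]
  have hm : 1 / (24 * ((d₁.natDegree : ℝ) + d₂.natDegree)) =
      1 / (12 * ((2 * (d₁.natDegree + d₂.natDegree) : ℕ) : ℝ)) := by
    push_cast
    congr 1
    ring
  rw [hm]
  by_cases hNP : NP (d₁ * d₂) (fun f => χ₁ f * χ₂ f)
  · obtain ⟨γ, hγ⟩ := exists_roots (hd₁.mul hd₂) h12 hNP
    refine landau_ne (2 * (d₁.natDegree + d₂.natDegree))
      (ι := Fin (d₁.natDegree - 1)) (κ := Fin (d₂.natDegree - 1))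
      (ρ := Fin ((d₁ * d₂).natDegree - 1)) ?_
      (fun i => α i / (Fintype.card F : ℂ)) (fun i => β i / (Fintype.card F : ℂ))
      (fun i => γ i / (Fintype.card F : ℂ)) (fun i => repel_norm (hα.bound i))
      (fun i => repel_norm (hβ.bound i)) (fun i => repel_norm (hγ.bound i)) he₁ he₂ ?_ i j δ hδ
      hd1 hd2 h01 h02 (repel_val hi) (repel_val hj)
    · rw [Fintype.card_fin, Fintype.card_fin, Fintype.card_fin, hdeg]
      omega
    · intro n hn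
      have h3 := repel_nonneg (F := F) hR₁ hR₂ he₁ he₂ hn
      rw [hPs1 n hn, hPs2 n hn, hγ.psum n hn, Complex.neg_re] at h3
      rw [repel_div, repel_div, repel_div]
      have h4 : 1 - ε₁ ^ n * ((∑ i, α i ^ n).re / (Fintype.card F : ℝ) ^ n) -
          ε₂ ^ n * ((∑ i, β i ^ n).re / (Fintype.card F : ℝ) ^ n) -
          (ε₁ * ε₂) ^ n * ((∑ i, γ i ^ n).re / (Fintype.card F : ℝ) ^ n) =
          ((Fintype.card F : ℝ) ^ n + ε₁ ^ n * -(∑ i, α i ^ n).re + ε₂ ^ n * -(∑ i, β i ^ n).re +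
            (ε₁ * ε₂) ^ n * -(∑ i, γ i ^ n).re) / (Fintype.card F : ℝ) ^ n := by
        have := (hqn n).ne'
        field_simp
        ring
      rw [h4]
      exact div_nonneg h3 (hqn n).le
  · have hee : ε₁ * ε₂ = -1 := by
      rcases hne with h | h
      · exact absurd h hNP
      · exact h
    refine landau_eq (2 * (d₁.natDegree + d₂.natDegree))
      (ι := Fin (d₁.natDegree - 1)) (κ := Fin (d₂.natDegree - 1)) ?_
      (fun i => α i / (Fintype.card F : ℂ)) (fun i => β i / (Fintype.card F : ℂ))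
      (fun i => repel_norm (hα.bound i))
      (fun i => repel_norm (hβ.bound i)) he₁ he₂ ?_ i j δ hδ
      hd1 hd2 h01 h02 (repel_val hi) (repel_val hj)
    · rw [Fintype.card_fin, Fintype.card_fin]
      omega
    · intro n hn
      have h3 := repel_nonneg (F := F) hR₁ hR₂ he₁ he₂ hn
      obtain ⟨e, he0, he1, hPs⟩ := Ps_principal (hd₁.mul hd₂) h12 hNP hn
      rw [hPs1 n hn, hPs2 n hn, hPs, Complex.ofReal_re, hee] at h3
      rw [repel_div, repel_div]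
      have h4 : 1 - ε₁ ^ n * ((∑ i, α i ^ n).re / (Fintype.card F : ℝ) ^ n) -
          ε₂ ^ n * ((∑ i, β i ^ n).re / (Fintype.card F : ℝ) ^ n) + (-1) ^ n =
          ((Fintype.card F : ℝ) ^ n + ε₁ ^ n * -(∑ i, α i ^ n).re + ε₂ ^ n * -(∑ i, β i ^ n).re +
            (-1) ^ n * ((Fintype.card F : ℝ) ^ n - e)) / (Fintype.card F : ℝ) ^ n +
            (-1) ^ n * (e / (Fintype.card F : ℝ) ^ n) := by
        have := (hqn n).ne'
        field_simp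
        ring
      rw [h4]
      have h5 : 0 ≤ ((Fintype.card F : ℝ) ^ n + ε₁ ^ n * -(∑ i, α i ^ n).re +
          ε₂ ^ n * -(∑ i, β i ^ n).re + (-1) ^ n * ((Fintype.card F : ℝ) ^ n - e)) /
            (Fintype.card F : ℝ) ^ n := div_nonneg h3 (hqn n).le
      have h6 : e / (Fintype.card F : ℝ) ^ n ≤
          ((2 * (d₁.natDegree + d₂.natDegree) : ℕ) : ℝ) * (1 / 2) ^ n := by
        have h7 : e ≤ ((2 * (d₁.natDegree + d₂.natDegree) : ℕ) : ℝ) := by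
          rw [hdeg] at he1
          push_cast at he1 ⊢
          have : (0 : ℝ) ≤ (d₁.natDegree : ℝ) + d₂.natDegree := by positivity
          linarith
        have h8 : 1 / (Fintype.card F : ℝ) ^ n ≤ (1 / 2) ^ n := by
          rw [one_div_pow]
          exact one_div_le_one_div_of_le (by positivity) (pow_le_pow_left₀ (by norm_num) hq n)
        calc e / (Fintype.card F : ℝ) ^ n = e * (1 / (Fintype.card F : ℝ) ^ n) := by ring
          _ ≤ ((2 * (d₁.natDegree + d₂.natDegree) : ℕ) : ℝ) * (1 / 2) ^ n :=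
            mul_le_mul h7 h8 (by positivity) (Nat.cast_nonneg _)
      have h9 : 0 ≤ e / (Fintype.card F : ℝ) ^ n := div_nonneg he0 (hqn n).le
      rcases neg_one_pow_eq_or ℝ n with h10 | h10
      · rw [h10] at h5 ⊢
        linarith
      · rw [h10] at h5 ⊢
        linarith

end Pool.Agent.H81.FF
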