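import Pool.Agent.H81.FF.Basic2

/-! # FF-D06 The residue functional  (MP_a1f59e_nt, project FF, block D)

`res d f` = coefficient of `X ^ (natDegree d - 1)` in `f %ₘ d`, `d` monic.
* `res_add`, `res_C_mul`, `res_per`: `Polynomial.add_modByMonic`, `smul_modByMonic`, `modByMonic_eq_...`.
* `res_mul`: `(e * f) %ₘ (d * e) = e * (f %ₘ d)` (degree `< natDegree d + natDegree e`, uniqueness of division), and the
  coefficient of `X ^ (natDegree d + natDegree e - 1)` of `e * g`, `degree g < natDegree d`, `e` monic, is the coefficient of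
  `X ^ (natDegree d - 1)` of `g`. If `natDegree d = 0` then `d = 1` and both sides are `0`.
* `res_nondeg`: let `b' = b %ₘ d ≠ 0`, `k = natDegree b' < natDegree d`; take `g = X ^ (natDegree d - 1 - k)`: `b' * g` has
  degree `natDegree d - 1` and leading coefficient that of `b'`; then multiply `g` by a constant `C`.
-/

set_option autoImplicit false

namespace Pool.Agent.H81.FF

open Polynomial Finset Pool.Agent.H10.FF
open scoped Classical

variable {F : Type} [Field F] [Fintype F]

private theorem res_deg {d : F[X]} (hd : d.Monic) (f : F[X]) :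
    (f %ₘ d).degree < (d.natDegree : ℕ) := by
  have h := degree_modByMonic_lt f hd
  rwa [degree_eq_natDegree hd.ne_zero] at h

theorem res_add {d : F[X]} (hd : d.Monic) (f g : F[X]) : res d (f + g) = res d f + res d g := by
  unfold res
  rw [add_modByMonic, coeff_add]

theorem res_sub {d : F[X]} (hd : d.Monic) (f g : F[X]) : res d (f - g) = res d f - res d g := by
  unfold res
  rw [sub_modByMonic, coeff_sub]

theorem res_C_mul {d : F[X]} (hd : d.Monic) (a : F) (f : F[X]) : res d (C a * f) = a * res d f := by
  unfold res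
  rw [← smul_eq_C_mul, smul_modByMonic, coeff_smul, smul_eq_mul]

theorem res_per {d : F[X]} (hd : d.Monic) {f g : F[X]} (h : d ∣ f - g) : res d f = res d g := by
  unfold res
  rw [modByMonic_eq_of_dvd_sub hd h]

theorem res_mul {d e : F[X]} (hd : d.Monic) (he : e.Monic) (f : F[X]) : res (d * e) (e * f) = res d f := by
  have h1 : (e * f) %ₘ (d * e) = e * (f %ₘ d) := by
    refine (div_modByMonic_unique (f /ₘ d) (e * (f %ₘ d)) (hd.mul he) ⟨?_, ?_⟩).2
    · have := modByMonic_add_div f d
      calc e * (f %ₘ d) + d * e * (f /ₘ d) = e * (f %ₘ d + d * (f /ₘ d)) := by ring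
        _ = e * f := by rw [this]
    · rw [degree_mul, degree_mul, add_comm (degree d)]
      have h2 := degree_modByMonic_lt f hd
      have h3 : degree e ≠ ⊥ := by
        rw [Ne, degree_eq_bot]
        exact he.ne_zero
      exact (WithBot.add_lt_add_iff_left h3).2 h2
  unfold res
  rw [h1, hd.natDegree_mul he]
  rcases Nat.eq_zero_or_pos d.natDegree with h0 | h0
  · have hd1 : d = 1 := (hd.natDegree_eq_zero).1 h0
    subst hd1
    simp
  · have h2 : d.natDegree + e.natDegree - 1 = e.natDegree + (d.natDegree - 1) := by omega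
    rw [h2, coeff_mul_add_eq_of_natDegree_le le_rfl]
    · rw [coeff_natDegree, he.leadingCoeff, one_mul]
    · have h3 := res_deg hd f
      have h4 : (f %ₘ d).natDegree < d.natDegree ∨ (f %ₘ d) = 0 := by
        by_cases hz : f %ₘ d = 0
        · exact Or.inr hz
        · left
          rw [degree_eq_natDegree hz] at h3
          exact_mod_cast h3
      rcases h4 with h4 | h4
      · omega
      · rw [h4]; simp

/-- nondegeneracy: every value is taken -/
theorem res_nondeg {d : F[X]} (hd : d.Monic) {b : F[X]} (hb : ¬ d ∣ b) (y : F) :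
    ∃ g ∈ Gn F d.natDegree, res d (b * g) = y := by
  have hb0 : b %ₘ d ≠ 0 := fun h => hb ((modByMonic_eq_zero_iff_dvd hd).1 h)
  set b' := b %ₘ d with hb'
  have hdeg : b'.natDegree < d.natDegree := by
    have h3 := res_deg hd b
    rw [← hb', degree_eq_natDegree hb0] at h3
    exact_mod_cast h3
  have hlc : b'.leadingCoeff ≠ 0 := leadingCoeff_ne_zero.2 hb0
  refine ⟨C (y / b'.leadingCoeff) * X ^ (d.natDegree - 1 - b'.natDegree), ?_, ?_⟩
  · rw [mem_Gn]
    refine lt_of_le_of_lt (degree_C_mul_X_pow_le _ _) ?_
    have : d.natDegree - 1 - b'.natDegree < d.natDegree := by omega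
    exact_mod_cast this
  · set g := C (y / b'.leadingCoeff) * X ^ (d.natDegree - 1 - b'.natDegree) with hg
    have h1 : res d (b * g) = res d (b' * g) := by
      refine res_per hd ?_
      have h2 : b * g - b' * g = d * ((b /ₘ d) * g) := by
        have h3 := modByMonic_add_div b d
        calc b * g - b' * g = (b - b') * g := by ring
          _ = (d * (b /ₘ d)) * g := by
            have : b - b' = d * (b /ₘ d) := by
              rw [hb']
              linear_combination -h3
            rw [this]
          _ = d * ((b /ₘ d) * g) := by ring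
      rw [h2]
      exact dvd_mul_right _ _
    rw [h1]
    have hgd : g.natDegree ≤ d.natDegree - 1 - b'.natDegree := natDegree_C_mul_X_pow_le _ _
    have h4 : (b' * g) %ₘ d = b' * g := by
      rw [modByMonic_eq_self_iff hd]
      rw [degree_eq_natDegree hd.ne_zero]
      refine lt_of_le_of_lt degree_le_natDegree ?_
      have h5 : (b' * g).natDegree < d.natDegree := by
        refine lt_of_le_of_lt natDegree_mul_le ?_
        omega
      exact_mod_cast h5
    unfold res
    rw [h4]
    have h6 : d.natDegree - 1 = b'.natDegree + (d.natDegree - 1 - b'.natDegree) := by omega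
    rw [h6, coeff_mul_add_eq_of_natDegree_le le_rfl hgd]
    rw [coeff_natDegree, hg, coeff_C_mul, coeff_X_pow_self, mul_one]
    field_simp

/-- different reduced fractions `a / d`, `a' / d'` of the same degree give different functionals on `Gn (2m)` -/
theorem res_sep {m : ℕ} {d d' a a' : F[X]} (hd : d ∈ Mn F m) (hd' : d' ∈ Mn F m) (ha : a ∈ Gn F m)
    (ha' : a' ∈ Gn F m) (hc : IsCoprime a d) (hc' : IsCoprime a' d') (hne : (d, a) ≠ (d', a')) (y : F) :
    ∃ g ∈ Gn F (2 * m), res d (a * g) - res d' (a' * g) = y := by
  obtain ⟨hdm, hdn⟩ := mem_Mn.1 hd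
  obtain ⟨hdm', hdn'⟩ := mem_Mn.1 hd'
  rw [mem_Gn] at ha ha'
  have hmul : (d * d').Monic := hdm.mul hdm'
  have hnat : (d * d').natDegree = 2 * m := by
    rw [hdm.natDegree_mul hdm', hdn, hdn']; ring
  have hb : ¬ d * d' ∣ a * d' - a' * d := by
    intro h
    have h0 : a * d' - a' * d = 0 := by
      by_contra hz
      have h1 := degree_le_of_dvd h hz
      have h2 : (a * d' - a' * d).degree < ((2 * m : ℕ) : WithBot ℕ) := by
        have e1 : ∀ {p q : F[X]}, p.degree < (m : WithBot ℕ) → q.Monic → q.natDegree = m →
            (p * q).degree < ((2 * m : ℕ) : WithBot ℕ) := by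
          intro p q hp hq hqn
          rw [degree_mul, degree_eq_natDegree hq.ne_zero, hqn]
          by_cases hp0 : p = 0
          · subst hp0
            rw [degree_zero, WithBot.bot_add]
            exact WithBot.bot_lt_coe _
          · rw [degree_eq_natDegree hp0] at hp ⊢
            have hp' : p.natDegree < m := by exact_mod_cast hp
            have : p.natDegree + m < 2 * m := by omega
            exact_mod_cast this
        refine lt_of_le_of_lt (degree_sub_le _ _) (max_lt (e1 ha hdm' hdn') (e1 ha' hdm hdn))
      rw [degree_eq_natDegree hmul.ne_zero, hnat] at h1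
      exact absurd (lt_of_le_of_lt h1 h2) (lt_irrefl _)
    have h1 : a * d' = a' * d := sub_eq_zero.1 h0
    have h2 : d ∣ a * d' := h1 ▸ dvd_mul_left d a'
    have h3 : d ∣ d' := hc.symm.dvd_of_dvd_mul_left h2
    have h4 : d = d' := by
      have h5 := eq_of_monic_of_dvd_of_natDegree_le hdm hdm' h3 (by rw [hdn, hdn'])
      exact h5.symm
    subst h4
    have h6 : a = a' := mul_right_cancel₀ hdm.ne_zero h1
    exact hne (by rw [h6])
  obtain ⟨g, hg, hgy⟩ := res_nondeg hmul hb y
  rw [hnat] at hg
  refine ⟨g, hg, ?_⟩
  have e1 : res d (a * g) = res (d * d') (d' * (a * g)) := (res_mul hdm hdm' _).symm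
  have e2 : res d' (a' * g) = res (d' * d) (d * (a' * g)) := (res_mul hdm' hdm _).symm
  rw [e1, e2, mul_comm d' d, ← res_sub hmul]
  rw [← hgy]
  congr 1
  ring

end Pool.Agent.H81.FF
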