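import Pool.Agent.H81.FF.Char2
import Pool.Agent.H81.FF.Conv2
import Pool.Agent.H81.FF.Factor

/-! # FF-D17 Roots of the `L`-function  (MP_a1f59e_nt, project FF, block D)

`exists_roots`: `natDegree d ≥ 1` (for `d = 1` a character is constant `1`, not `NP`); `factor_poly`, `psum_of_conv`,
`root_bound` with `L = Ls χ`, `M = Mo χ`, `Ψ = Ps χ` (`Ls_eq_zero`, `conv_LM`, `conv_psi`, `Mo_norm_le`, `IsCh.norm_le`).
`Rl χ` makes every `Ls χ n` real.
-/

set_option autoImplicit false

namespace Pool.Agent.H81.FF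

open Polynomial Finset Pool.Agent.H10.FF
open scoped Classical

variable {F : Type} [Field F] [Fintype F]

theorem natDegree_pos_of_NP {d : F[X]} (hd : d.Monic) {χ : F[X] → ℂ} (h : IsCh d χ) (hn : NP d χ) :
    1 ≤ d.natDegree := by
  by_contra hcon
  have h0 : d.natDegree = 0 := by omega
  have h1 : d = 1 := hd.natDegree_eq_zero.mp h0
  obtain ⟨f, -, hf⟩ := hn
  apply hf
  rw [h.per f 1 (by rw [h1]; exact one_dvd _), h.one]

theorem exists_roots {d : F[X]} (hd : d.Monic) {χ : F[X] → ℂ} (h : IsCh d χ) (hn : NP d χ) :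
    ∃ α, IsRoots d χ α := by
  have hm := natDegree_pos_of_NP hd h hn
  have h0 : Ls χ 0 = 1 := Ls_zero h.one
  have hL : ∀ n, d.natDegree ≤ n → Ls χ n = 0 := fun n hn' => Ls_eq_zero hd h hn hn'
  have hnorm : ∀ f, ‖χ f‖ ≤ 1 := fun f => IsCh.norm_le hd h f
  obtain ⟨α, hα, hconj⟩ := factor_poly d.natDegree hm (Ls χ) h0
  refine ⟨α, ?_, ?_, hα, ?_⟩
  · intro i
    exact root_bound d.natDegree (Ls χ) (Mo χ) hL (Fintype.card F : ℝ)
      (by exact_mod_cast Fintype.card_pos) (fun n => Mo_norm_le hnorm n) α hα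
      (fun n => conv_LM h.one h.mul n) i
  · intro n hn1
    exact psum_of_conv d.natDegree (Ls χ) (Ps χ) h0 hL α hα (fun n => conv_psi h.one h.mul n) n hn1
  · intro hR
    apply hconj
    intro n
    unfold Ls
    rw [map_sum]
    refine Finset.sum_congr rfl fun f _ => ?_
    rcases hR f with h1 | h1 | h1 <;> rw [h1] <;> simp

end Pool.Agent.H81.FF
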