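import Pool.Agent.H81.FF.Nonvan
import Pool.Agent.H81.FF.PosA
import Pool.Agent.H81.FF.PosB

/-! # FF-D20 Zero free region for the characters  (MP_a1f59e_nt, project FF, block D)

Normalise `α / q`. For `x ∈ ℂ` with `‖x‖ = 1` or `x = 0`: `3 + 4 Re x + Re x² ≥ 0`. With `x = χ(P)^k z^n`, `n = k j`,
`j = deg P`, weights `j`, sum over `j ∣ n`, `P ∈ irrs j`: `0 ≤ 3 q^n + 4 Re (z^n Ps χ n) + Re (z^(2n) Ps χ² n)`
(`Ps_one`/`sum_irrs`).
* `zf_nonreal`, case `NP d (χ²)`: `Ps χ² n = - ∑ β^n` (`exists_roots` for `χ²`, `IsCh.sq`); `zf_cx` with `m = natDegree d`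
  and `1/42 ≥ 1/200`.
* case `¬ NP d (χ²)`: `χ` real (`real_of_sq`), `χ² (P) = 1` unless `P ∣ d`, so
  `q^n - natDegree d ≤ Ps χ² n ≤ q^n`, precisely `Ps χ² n = q^n - ∑_{j ∣ n} ∑ P ∈ irrs j, P ∣ d, j` and the last sum is
  `≤ ∑ P ∣ d, natDegree P ≤ natDegree d` (distinct monic primes dividing `d`, their product divides `d`).
  `zf_re`, `pos_one`, `IsRoots.conj`.
* `Ps_principal`: `Ps χ n = ∑_{j ∣ n} j #{P ∈ irrs j : ¬ P ∣ d}` and `sum_irrs`.
-/

set_option autoImplicit false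

namespace Pool.Agent.H81.FF

open Polynomial Finset Pool.Agent.H10.FF
open scoped Classical

variable {F : Type} [Field F] [Fintype F]

theorem zf_coprime_iff {d P : F[X]} (hP : Irreducible P) : IsCoprime P d ↔ ¬ P ∣ d :=
  hP.coprime_iff_not_dvd

/-- principal characters -/
theorem Ps_principal {d : F[X]} (hd : d.Monic) {χ : F[X] → ℂ} (h : IsCh d χ) (hn : ¬ NP d χ) {n : ℕ}
    (h1 : 1 ≤ n) : ∃ e : ℝ, 0 ≤ e ∧ e ≤ d.natDegree ∧ Ps χ n = (((Fintype.card F : ℝ) ^ n - e : ℝ) : ℂ) := by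
  have hχ1 : ∀ f, IsCoprime f d → χ f = 1 := by
    intro f hf
    by_contra hne
    exact hn ⟨f, hf, hne⟩
  have hχ0 : ∀ f, ¬ IsCoprime f d → χ f = 0 := by
    intro f hf
    by_contra hne
    exact hf ((h.supp f).1 hne)
  have hmi : ∀ j, ∀ P ∈ irrs F j, P.Monic ∧ Irreducible P ∧ P.natDegree = j := fun j P hP => mem_irrs.1 hP
  set D : Finset F[X] := n.divisors.biUnion (fun j => (irrs F j).filter (fun P => P ∣ d)) with hD
  have hDm : ∀ P ∈ D, P.Monic ∧ Irreducible P ∧ P ∣ d := by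
    intro P hP
    rw [hD, mem_biUnion] at hP
    obtain ⟨j, -, hP⟩ := hP
    rw [mem_filter] at hP
    exact ⟨(hmi j P hP.1).1, (hmi j P hP.1).2.1, hP.2⟩
  have hDp : IsPr D := fun P hP => ⟨(hDm P hP).1, (hDm P hP).2.1⟩
  have hdisj : ((n.divisors : Finset ℕ) : Set ℕ).PairwiseDisjoint
      (fun j => (irrs F j).filter (fun P => P ∣ d)) := by
    intro i _ j _ hij
    rw [Function.onFun, Finset.disjoint_left]
    intro P h1 h2
    rw [mem_filter] at h1 h2
    exact hij (((hmi i P h1.1).2.2).symm.trans (hmi j P h2.1).2.2)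
  have hdg : dg D = ∑ j ∈ n.divisors, j * ((irrs F j).filter (fun P => P ∣ d)).card := by
    rw [dg, hD, Finset.sum_biUnion hdisj]
    refine Finset.sum_congr rfl fun j _ => ?_
    rw [Finset.sum_congr rfl (fun P hP => (hmi j P (mem_filter.1 hP).1).2.2), Finset.sum_const, smul_eq_mul,
      mul_comm]
  have hle : dg D ≤ d.natDegree := by
    rw [← natDegree_pp hDp]
    exact Polynomial.natDegree_le_of_dvd ((pp_dvd hDp).2 fun P hP => (hDm P hP).2.2) hd.ne_zero
  refine ⟨(dg D : ℝ), Nat.cast_nonneg _, by exact_mod_cast hle, ?_⟩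
  have hsum := sum_irrs (F := F) h1
  have key : Ps χ n + (dg D : ℂ) = (Fintype.card F : ℂ) ^ n := by
    have h2 : ((Fintype.card F ^ n : ℕ) : ℂ) = (Fintype.card F : ℂ) ^ n := by push_cast; ring
    rw [← h2, ← hsum, hdg, Ps]
    push_cast
    rw [← Finset.sum_add_distrib]
    refine Finset.sum_congr rfl fun j hj => ?_
    rw [← mul_add]
    congr 1
    have hk : n / j ≠ 0 := by
      have := Nat.divisor_le hj
      have hj0 := Nat.pos_of_mem_divisors hj
      exact (Nat.div_pos this hj0).ne'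
    have h3 : ∑ P ∈ irrs F j, χ P ^ (n / j) = ∑ P ∈ (irrs F j).filter (fun P => ¬ P ∣ d), (1 : ℂ) := by
      rw [Finset.sum_filter]
      refine Finset.sum_congr rfl fun P hP => ?_
      by_cases hPd : P ∣ d
      · rw [if_neg (not_not.2 hPd), hχ0 P (fun hc => (zf_coprime_iff (hmi j P hP).2.1).1 hc hPd), zero_pow hk]
      · rw [if_pos hPd, hχ1 P ((zf_coprime_iff (hmi j P hP).2.1).2 hPd), one_pow]
    rw [h3, Finset.sum_const, nsmul_eq_mul, mul_one, ← Nat.cast_add, add_comm]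
    congr 1
    exact Finset.card_filter_add_card_filter_not _
  push_cast
  rw [← key]
  ring

theorem zf_341 {x : ℂ} (hx : ‖x‖ = 1 ∨ x = 0) : 0 ≤ 3 + 4 * x.re + (x ^ 2).re := by
  rcases hx with hx | hx
  · have h1 : x.re ^ 2 + x.im ^ 2 = 1 := by
      have := Complex.sq_norm x
      rw [hx, Complex.normSq_apply] at this
      nlinarith
    have h2 : (x ^ 2).re = x.re ^ 2 - x.im ^ 2 := by
      rw [sq, Complex.mul_re]; ring
    rw [h2]
    nlinarith [sq_nonneg (1 + x.re)]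
  · subst hx; norm_num

theorem pos_341 {d : F[X]} (hd : d.Monic) {χ : F[X] → ℂ} (h : IsCh d χ) {z : ℂ} (hz : ‖z‖ = 1) {n : ℕ}
    (hn : 1 ≤ n) : 0 ≤ 3 * (Fintype.card F : ℝ) ^ n + 4 * (z ^ n * Ps χ n).re +
      (z ^ (2 * n) * Ps (fun f => χ f ^ 2) n).re := by
  have hsum := sum_irrs (F := F) hn
  have h2 : (Fintype.card F : ℝ) ^ n = ∑ j ∈ n.divisors, (j : ℝ) * ∑ P ∈ irrs F j, (1 : ℝ) := by
    have : ((Fintype.card F ^ n : ℕ) : ℝ) = (Fintype.card F : ℝ) ^ n := by push_cast; ring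
    rw [← this, ← hsum]
    push_cast
    refine Finset.sum_congr rfl fun j _ => ?_
    rw [Finset.sum_const, nsmul_eq_mul, mul_one]
  have h3 : (z ^ n * Ps χ n).re = ∑ j ∈ n.divisors, (j : ℝ) * ∑ P ∈ irrs F j, (z ^ n * χ P ^ (n / j)).re := by
    rw [Ps, Finset.mul_sum, Complex.re_sum]
    refine Finset.sum_congr rfl fun j _ => ?_
    rw [mul_left_comm, Finset.mul_sum, ← Complex.ofReal_natCast, Complex.re_ofReal_mul, Complex.re_sum]
  have h4 : (z ^ (2 * n) * Ps (fun f => χ f ^ 2) n).re =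
      ∑ j ∈ n.divisors, (j : ℝ) * ∑ P ∈ irrs F j, ((z ^ n * χ P ^ (n / j)) ^ 2).re := by
    rw [Ps, Finset.mul_sum, Complex.re_sum]
    refine Finset.sum_congr rfl fun j _ => ?_
    rw [mul_left_comm, Finset.mul_sum, ← Complex.ofReal_natCast, Complex.re_ofReal_mul, Complex.re_sum]
    congr 1
    refine Finset.sum_congr rfl fun P _ => ?_
    congr 1
    ring
  rw [h2, h3, h4, Finset.mul_sum, Finset.mul_sum, ← Finset.sum_add_distrib, ← Finset.sum_add_distrib]
  refine Finset.sum_nonneg fun j _ => ?_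
  have h5 : 3 * ((j : ℝ) * ∑ P ∈ irrs F j, (1 : ℝ)) + 4 * ((j : ℝ) * ∑ P ∈ irrs F j, (z ^ n * χ P ^ (n / j)).re) +
      (j : ℝ) * ∑ P ∈ irrs F j, ((z ^ n * χ P ^ (n / j)) ^ 2).re =
      (j : ℝ) * ∑ P ∈ irrs F j, (3 + 4 * (z ^ n * χ P ^ (n / j)).re + ((z ^ n * χ P ^ (n / j)) ^ 2).re) := by
    rw [Finset.sum_add_distrib, Finset.sum_add_distrib, ← Finset.mul_sum, Finset.sum_const, Finset.sum_const]
    simp only [nsmul_eq_mul]
    ring
  rw [h5]
  refine mul_nonneg (Nat.cast_nonneg _) (Finset.sum_nonneg fun P _ => zf_341 ?_)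
  by_cases hc : IsCoprime P d
  · left
    rw [norm_mul, norm_pow, norm_pow, hz, h.norm_eq hd hc, one_pow, one_pow, one_mul]
  · have h0 : χ P = 0 := by
      by_contra hne
      exact hc ((h.supp P).1 hne)
    rw [h0]
    rcases Nat.eq_zero_or_pos (n / j) with h6 | h6
    · left
      rw [h6, pow_zero, mul_one, norm_pow, hz, one_pow]
    · right
      rw [zero_pow h6.ne', mul_zero]

theorem zf_nonreal {d : F[X]} (hd : d.Monic) {χ : F[X] → ℂ} (h : IsCh d χ) (hn : NP d χ)
    {α : Fin (d.natDegree - 1) → ℂ} (hα : IsRoots d χ α) (i : Fin (d.natDegree - 1))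
    (hi : NP d (fun f => χ f ^ 2) ∨ (α i).im ≠ 0) :
    ‖α i‖ ≤ Fintype.card F * (1 - 1 / (200 * (d.natDegree : ℝ))) := by
  have hq2 : (2 : ℝ) ≤ (Fintype.card F : ℝ) := by exact_mod_cast Fintype.one_lt_card (α := F)
  have hq0 : (0 : ℝ) < (Fintype.card F : ℝ) := by linarith
  set q : ℝ := (Fintype.card F : ℝ) with hq
  have hqC : ((Fintype.card F : ℕ) : ℂ) = (q : ℂ) := by rw [hq]; push_cast; rfl
  have hq0C : (q : ℂ) ≠ 0 := by exact_mod_cast hq0.ne'
  have hm1 : 1 ≤ d.natDegree := natDegree_pos_of_NP hd h hn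
  have hm0 : (0 : ℝ) < (d.natDegree : ℝ) := by exact_mod_cast hm1
  have hcard : Fintype.card (Fin (d.natDegree - 1)) ≤ d.natDegree := by
    rw [Fintype.card_fin]; omega
  have hnorm : ∀ w : ℂ, ‖w‖ ≤ q → ‖w / q‖ ≤ 1 := by
    intro w hw
    rw [norm_div, Complex.norm_real, Real.norm_of_nonneg hq0.le]
    exact (div_le_one hq0).2 hw
  have hback : ∀ w : ℂ, ∀ t : ℝ, ‖w / q‖ ≤ t → ‖w‖ ≤ q * t := by
    intro w t hw
    rw [norm_div, Complex.norm_real, Real.norm_of_nonneg hq0.le, div_le_iff₀ hq0] at hw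
    linarith
  -- the basic inequality normalised
  have hsumre : ∀ (γ : Fin (d.natDegree - 1) → ℂ) (w : ℂ) (n : ℕ),
      w ^ n * (- ∑ i, γ i ^ n) = - ((q ^ n : ℝ) : ℂ) * ∑ i, (γ i / q * w) ^ n := by
    intro γ w n
    rw [mul_neg, neg_mul, Finset.mul_sum, Finset.mul_sum]
    congr 1
    refine Finset.sum_congr rfl fun i _ => ?_
    push_cast
    rw [mul_pow, div_pow]
    field_simp
  by_cases hsq : NP d (fun f => χ f ^ 2)
  · obtain ⟨β, hβ⟩ := exists_roots hd h.sq hsq
    have := zf_cx d.natDegree hm1 hcard hcard (fun i => α i / q) (fun j => β j / q)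
      (fun i => hnorm _ (hα.bound i)) (fun j => hnorm _ (hβ.bound j)) (by
        intro z hz n hn1
        have h1 := pos_341 hd h hz hn1
        rw [hα.psum n hn1, hβ.psum n hn1, hsumre α z n, pow_mul, hsumre β (z ^ 2) n, neg_mul, neg_mul,
          Complex.neg_re, Complex.neg_re, Complex.re_ofReal_mul, Complex.re_ofReal_mul] at h1
        have hqn : 0 < q ^ n := pow_pos hq0 n
        have h2 : 0 ≤ q ^ n * (3 - 4 * (∑ i, (α i / q * z) ^ n).re - (∑ j, (β j / q * z ^ 2) ^ n).re) := by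
          linarith
        exact nonneg_of_mul_nonneg_right h2 hqn) i
    refine (hback _ _ this).trans ?_
    refine mul_le_mul_of_nonneg_left ?_ hq0.le
    have : 1 / (200 * (d.natDegree : ℝ)) ≤ 1 / (42 * (d.natDegree : ℝ)) := by
      apply one_div_le_one_div_of_le <;> nlinarith
    linarith
  · have hi2 : (α i).im ≠ 0 := by
      rcases hi with h1 | h1
      · exact absurd h1 hsq
      · exact h1
    have hR : Rl χ := real_of_sq h hsq
    have := zf_re d.natDegree hm1 hcard (fun i => α i / q) (fun i => hnorm _ (hα.bound i))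
      (by
        intro k
        obtain ⟨j, hj⟩ := hα.conj hR k
        refine ⟨j, ?_⟩
        rw [map_div₀, Complex.conj_ofReal, hj])
      (by
        intro z hz n hn1
        have h1 := pos_341 hd h hz hn1
        obtain ⟨e, he0, he1, he2⟩ := Ps_principal hd h.sq hsq hn1
        rw [hα.psum n hn1, he2, hsumre α z n, neg_mul, Complex.neg_re, Complex.re_ofReal_mul,
          mul_comm (z ^ (2 * n)), Complex.re_ofReal_mul] at h1
        have hqn : 0 < q ^ n := pow_pos hq0 n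
        have h3 : |(z ^ (2 * n)).re| ≤ 1 := by
          refine (Complex.abs_re_le_norm _).trans ?_
          rw [norm_pow, hz, one_pow]
        have h4 := (abs_le.1 h3).1
        have h5 : (z ^ (2 * n)) = (z ^ 2) ^ n := pow_mul z 2 n
        rw [h5] at h1 h4
        have h6 : 2 ^ n ≤ q ^ n := pow_le_pow_left₀ (by norm_num) hq2 n
        have h7 : e ≤ q ^ n * (d.natDegree * (1 / 2) ^ n) := by
          have h8 : (d.natDegree : ℝ) * 1 ≤ d.natDegree * (q ^ n * (1 / 2) ^ n) := by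
            refine mul_le_mul_of_nonneg_left ?_ hm0.le
            rw [one_div, inv_pow, ← div_eq_mul_inv, one_le_div (by positivity)]
            exact h6
          linarith
        have h2 : 0 ≤ q ^ n * (3 - 4 * (∑ i, (α i / q * z) ^ n).re + ((z ^ 2) ^ n).re +
            d.natDegree * (1 / 2) ^ n) := by
          nlinarith
        exact nonneg_of_mul_nonneg_right h2 hqn)
      (by
        intro ε hε n hn1
        have h1 := (pos_one hd h hR hε hn1).1
        have h9 := hsumre α 1 n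
        simp only [one_pow, one_mul, mul_one] at h9
        rw [hα.psum n hn1, h9, neg_mul, Complex.neg_re, Complex.re_ofReal_mul] at h1
        have hqn : 0 < q ^ n := pow_pos hq0 n
        have h2 : 0 ≤ q ^ n * (1 - ε ^ n * (∑ i, (α i / q) ^ n).re) := by
          have : q ^ n + ε ^ n * -(q ^ n * (∑ i, (α i / q) ^ n).re) =
            q ^ n * (1 - ε ^ n * (∑ i, (α i / q) ^ n).re) := by ring
          rw [← this]; exact h1
        exact nonneg_of_mul_nonneg_right h2 hqn) i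
      (by
        rw [Complex.div_ofReal_im]
        exact div_ne_zero hi2 hq0.ne')
    exact hback _ _ this

end Pool.Agent.H81.FF
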